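import Mathlib

set_option autoImplicit false
set_option linter.unusedSectionVars false

open Finset

namespace Pool.Agent.helper98.Dp

variable {d : ℕ}

/-- unit vector -/
def ev (i : Fin d) : Fin d → ℤ := fun j => if j = i then 1 else 0

/-- the slice through the base point `b` with free coordinates `J` and size `m` -/
def Sl (b : Fin d → ℤ) (J : Finset (Fin d)) (m : ℤ) : Set (Fin d → ℤ) :=
  {x | (∀ i, i ∉ J → x i = b i) ∧ (∀ i ∈ J, b i ≤ x i) ∧ ∑ i ∈ J, (x i - b i) = m}

/-- existence of a conflict-free assignment of directions on a slice; `ξ` is the set of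
portals and `L` the length of the rays. -/
def Good (L : ℕ) (ξ : (Fin d → ℤ) → Prop) (b : Fin d → ℤ) (J : Finset (Fin d)) (m : ℤ) : Prop :=
  ∃ κ : (Fin d → ℤ) → Fin d,
    (∀ x ∈ Sl b J m, κ x ∈ J ∧ b (κ x) + L + 1 ≤ x (κ x)) ∧
    ∀ x ∈ Sl b J m, ∀ x' ∈ Sl b J m, ∀ j : ℕ, 1 ≤ j → j ≤ L → κ x ≠ κ x' →
      x + (j : ℤ) • ev (κ x') = x' + (j : ℤ) • ev (κ x) → ξ x ∧ ξ x'

lemma good_mono {L : ℕ} {ξ ξ' : (Fin d → ℤ) → Prop} {b : Fin d → ℤ} {J : Finset (Fin d)} {m : ℤ}
    (h : ∀ x ∈ Sl b J m, ξ x → ξ' x) (hg : Good L ξ b J m) : Good L ξ' b J m := by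
  obtain ⟨κ, h1, h2⟩ := hg
  refine ⟨κ, h1, ?_⟩
  intro x hx x' hx' j hj1 hj2 hne heq
  have := h2 x hx x' hx' j hj1 hj2 hne heq
  exact ⟨h x hx this.1, h x' hx' this.2⟩

lemma good_singleton {L : ℕ} {ξ : (Fin d → ℤ) → Prop} {b : Fin d → ℤ} {i : Fin d} {m : ℤ}
    (hm : (L : ℤ) + 1 ≤ m) : Good L ξ b {i} m := by
  refine ⟨fun _ => i, ?_, ?_⟩
  · intro x hx
    refine ⟨Finset.mem_singleton_self i, ?_⟩
    have h1 := hx.2.2
    rw [Finset.sum_singleton] at h1
    linarith
  · intro x _ x' _ j _ _ hne _
    exact absurd rfl hne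

/-- total defect of `x` relative to `u` -/
def defect (J : Finset (Fin d)) (u x : Fin d → ℤ) : ℤ := ∑ i ∈ J, max (u i - x i) 0

/-- base point of the sub-slice containing `x` -/
def base (b : Fin d → ℤ) (J : Finset (Fin d)) (u x : Fin d → ℤ) : Fin d → ℤ :=
  fun i => if i ∈ J then min (x i) (u i) else b i

/-- free coordinates of the sub-slice containing `x` -/
def free (J : Finset (Fin d)) (u x : Fin d → ℤ) : Finset (Fin d) := J.filter fun i => u i ≤ x i

lemma defect_nonneg (J : Finset (Fin d)) (u x : Fin d → ℤ) : 0 ≤ defect J u x :=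
  Finset.sum_nonneg fun i _ => le_max_right _ _

lemma sum_free {b : Fin d → ℤ} {J : Finset (Fin d)} {m : ℤ} {u x : Fin d → ℤ}
    (hu : u ∈ Sl b J m) (hx : x ∈ Sl b J m) :
    ∑ i ∈ free J u x, (x i - u i) = defect J u x := by
  have h1 : ∑ i ∈ J, (x i - u i) = 0 := by
    have h2 := hu.2.2
    have h3 := hx.2.2
    have : ∑ i ∈ J, (x i - u i) = ∑ i ∈ J, (x i - b i) - ∑ i ∈ J, (u i - b i) := by
      rw [← Finset.sum_sub_distrib]; apply Finset.sum_congr rfl; intro i _; ring
    rw [this, h2, h3]; ring
  have h2 : ∑ i ∈ J, (x i - u i) = ∑ i ∈ free J u x, (x i - u i) - defect J u x := by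
    unfold defect free
    rw [Finset.sum_filter, ← Finset.sum_sub_distrib]
    apply Finset.sum_congr rfl
    intro i _
    split_ifs with h
    · rw [max_eq_right (by linarith)]; ring
    · rw [max_eq_left (by linarith)]; ring
  linarith

lemma mem_subslice {b : Fin d → ℤ} {J : Finset (Fin d)} {m : ℤ} {u x : Fin d → ℤ}
    (hu : u ∈ Sl b J m) (hx : x ∈ Sl b J m) :
    x ∈ Sl (base b J u x) (free J u x) (defect J u x) := by
  refine ⟨?_, ?_, ?_⟩
  · intro i hi
    unfold base
    by_cases hiJ : i ∈ J
    · rw [if_pos hiJ]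
      have : ¬ u i ≤ x i := fun h => hi (Finset.mem_filter.2 ⟨hiJ, h⟩)
      rw [min_eq_left (by linarith)]
    · rw [if_neg hiJ]; exact hx.1 i hiJ
  · intro i hi
    have h1 := Finset.mem_filter.1 hi
    unfold base
    rw [if_pos h1.1]; exact min_le_left _ _
  · rw [← sum_free hu hx]
    apply Finset.sum_congr rfl
    intro i hi
    have h1 := Finset.mem_filter.1 hi
    unfold base
    rw [if_pos h1.1, min_eq_right h1.2]

/-- The junction lemma. -/
theorem junction {L : ℕ} {ξ : (Fin d → ℤ) → Prop} {b : Fin d → ℤ} {J : Finset (Fin d)} {m : ℤ}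
    (hJ : J.Nonempty) {K : ℤ} (hK : (d : ℤ) * (L + 1) + L ≤ K) {u : Fin d → ℤ}
    (hu : u ∈ Sl b J m) (huK : ∀ i ∈ J, b i + K ≤ u i)
    (hnear : ∀ x ∈ Sl b J m, defect J u x < K → ξ x)
    (hfar : ∀ x ∈ Sl b J m, K ≤ defect J u x →
      Good L ξ (base b J u x) (free J u x) (defect J u x)) :
    Good L ξ b J m := by
  classical
  -- choice of directions in good sub-slices
  have hchoice : ∀ p : (Fin d → ℤ) × Finset (Fin d) × ℤ, ∃ κ : (Fin d → ℤ) → Fin d,
      Good L ξ p.1 p.2.1 p.2.2 →
      (∀ x ∈ Sl p.1 p.2.1 p.2.2, κ x ∈ p.2.1 ∧ p.1 (κ x) + L + 1 ≤ x (κ x)) ∧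
      ∀ x ∈ Sl p.1 p.2.1 p.2.2, ∀ x' ∈ Sl p.1 p.2.1 p.2.2, ∀ j : ℕ, 1 ≤ j → j ≤ L →
        κ x ≠ κ x' → x + (j : ℤ) • ev (κ x') = x' + (j : ℤ) • ev (κ x) → ξ x ∧ ξ x' := by
    intro p
    by_cases hg : Good L ξ p.1 p.2.1 p.2.2
    · obtain ⟨κ, h1⟩ := hg
      exact ⟨κ, fun _ => h1⟩
    · obtain ⟨i0, _⟩ := hJ
      exact ⟨fun _ => i0, fun h => absurd h hg⟩
  choose κs hκs using hchoice
  -- choice in the intermediate zone
  have hmid : ∀ x : Fin d → ℤ, ∃ i : Fin d, x ∈ Sl b J m → K - L ≤ defect J u x →
      i ∈ free J u x ∧ u i + L + 1 ≤ x i := by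
    intro x
    by_cases hx : x ∈ Sl b J m ∧ K - L ≤ defect J u x
    · by_contra hcon
      push Not at hcon
      have h1 := sum_free hu hx.1
      have h2 : ∑ i ∈ free J u x, (x i - u i) ≤ ∑ i ∈ free J u x, (L : ℤ) := by
        apply Finset.sum_le_sum
        intro i hi
        have := (hcon i).2.2 hi
        linarith
      rw [Finset.sum_const, nsmul_eq_mul] at h2
      have h3 : ((free J u x).card : ℤ) ≤ d := by
        have := Finset.card_le_univ (free J u x)
        rw [Fintype.card_fin] at this
        exact_mod_cast this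
      have h4 : ((free J u x).card : ℤ) * L ≤ d * L :=
        mul_le_mul_of_nonneg_right h3 (Nat.cast_nonneg _)
      have h5 : (d : ℤ) * (L + 1) ≤ defect J u x := by linarith [hx.2]
      have hd : (0 : ℤ) < d := by
        obtain ⟨i0, _⟩ := hJ
        have := i0.isLt
        omega
      nlinarith
    · obtain ⟨i0, _⟩ := hJ
      exact ⟨i0, fun h1 h2 => absurd ⟨h1, h2⟩ hx⟩
  choose κm hκm using hmid
  obtain ⟨i0, hi0⟩ := hJ
  set κ : (Fin d → ℤ) → Fin d := fun x =>
    if K ≤ defect J u x then κs (base b J u x, free J u x, defect J u x) x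
    else if K - L ≤ defect J u x then κm x else i0 with hκ
  -- key property outside the core
  have hout : ∀ x ∈ Sl b J m, K - L ≤ defect J u x → κ x ∈ free J u x ∧
      u (κ x) + L + 1 ≤ x (κ x) := by
    intro x hx hdx
    rw [hκ]
    simp only
    by_cases h1 : K ≤ defect J u x
    · rw [if_pos h1]
      have h2 := (hκs (base b J u x, free J u x, defect J u x) (hfar x hx h1)).1 x
        (mem_subslice hu hx)
      refine ⟨h2.1, ?_⟩
      have h3 := h2.2
      have h4 := Finset.mem_filter.1 h2.1
      simp only [base] at h3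
      rw [if_pos h4.1, min_eq_right h4.2] at h3
      exact h3
    · rw [if_neg h1, if_pos hdx]
      exact hκm x hx hdx
  refine ⟨κ, ?_, ?_⟩
  · intro x hx
    by_cases h1 : K - L ≤ defect J u x
    · have h2 := hout x hx h1
      have h3 := Finset.mem_filter.1 h2.1
      refine ⟨h3.1, ?_⟩
      have h4 := hu.2.1 _ h3.1
      linarith [h2.2]
    · have h2 : κ x = i0 := by
        rw [hκ]; simp only
        rw [if_neg (by push Not at h1 ⊢; have : (0 : ℤ) ≤ L := Nat.cast_nonneg _; linarith),
          if_neg h1]
      rw [h2]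
      refine ⟨hi0, ?_⟩
      push Not at h1
      have h3 : max (u i0 - x i0) 0 ≤ defect J u x :=
        Finset.single_le_sum (f := fun i => max (u i - x i) 0) (fun i _ => le_max_right _ _) hi0
      have h4 := le_max_left (u i0 - x i0) 0
      have h5 := huK i0 hi0
      omega
  · intro x hx x' hx' j hj1 hj2 hne heq
    -- coordinates
    have hcoord : ∀ l, x l + (if l = κ x' then (j : ℤ) else 0)
        = x' l + (if l = κ x then (j : ℤ) else 0) := by
      intro l
      have := congrFun heq l
      simp only [Pi.add_apply, Pi.smul_apply, ev, smul_eq_mul, mul_ite, mul_one, mul_zero] at this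
      exact this
    have hjL : (j : ℤ) ≤ L := by exact_mod_cast hj2
    have hj0 : (0 : ℤ) ≤ j := Nat.cast_nonneg _
    have h1 : x (κ x) = x' (κ x) + j := by
      have := hcoord (κ x)
      rw [if_neg hne, if_pos rfl] at this
      linarith
    have h2 : x' (κ x') = x (κ x') + j := by
      have := hcoord (κ x')
      rw [if_pos rfl, if_neg (fun h => hne h.symm)] at this
      linarith
    have h3 : ∀ l, l ≠ κ x → l ≠ κ x' → x l = x' l := by
      intro l hl hl'
      have := hcoord l
      rw [if_neg hl, if_neg hl'] at this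
      linarith
    have hdefle : ∀ y y' : Fin d → ℤ, ∀ i : Fin d, (∀ l, l ≠ i → y l ≤ y' l) → y i ≤ y' i + j →
        defect J u y' ≤ defect J u y + j := by
      intro y y' i hl hi
      unfold defect
      by_cases hiJ : i ∈ J
      · rw [← Finset.add_sum_erase J _ hiJ, ← Finset.add_sum_erase J _ hiJ]
        have h5 : ∑ l ∈ J.erase i, max (u l - y' l) 0 ≤ ∑ l ∈ J.erase i, max (u l - y l) 0 := by
          apply Finset.sum_le_sum
          intro l hlJ
          have := hl l (Finset.ne_of_mem_erase hlJ)
          omega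
        omega
      · have h5 : ∑ l ∈ J, max (u l - y' l) 0 ≤ ∑ l ∈ J, max (u l - y l) 0 := by
          apply Finset.sum_le_sum
          intro l hlJ
          have := hl l (fun h => hiJ (h ▸ hlJ))
          omega
        omega
    have hd1 : defect J u x' ≤ defect J u x + j := by
      apply hdefle x x' (κ x)
      · intro l hl
        by_cases hl' : l = κ x'
        · rw [hl', h2]; linarith
        · exact (h3 l hl hl').le
      · linarith
    have hd2 : defect J u x ≤ defect J u x' + j := by
      apply hdefle x' x (κ x')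
      · intro l hl
        by_cases hl' : l = κ x
        · rw [hl', h1]; linarith
        · exact (h3 l hl' hl).ge
      · linarith
    by_cases hc1 : K - L ≤ defect J u x
    · by_cases hc2 : K - L ≤ defect J u x'
      · have h5 := hout x hx hc1
        have h6 := hout x' hx' hc2
        -- both in the same sub-slice
        have h7 : u (κ x) ≤ x' (κ x) := by linarith [h5.2]
        have h8 : u (κ x') ≤ x (κ x') := by linarith [h6.2]
        have hfree : free J u x = free J u x' := by
          ext l
          unfold free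
          simp only [Finset.mem_filter]
          by_cases hl : l = κ x
          · subst hl
            constructor
            · rintro ⟨h9, _⟩; exact ⟨h9, h7⟩
            · rintro ⟨h9, _⟩; exact ⟨h9, by linarith⟩
          · by_cases hl' : l = κ x'
            · subst hl'
              constructor
              · rintro ⟨h9, _⟩; exact ⟨h9, by linarith⟩
              · rintro ⟨h9, _⟩; exact ⟨h9, h8⟩
            · rw [h3 l hl hl']
        have hbase : base b J u x = base b J u x' := by
          ext l
          unfold base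
          by_cases hlJ : l ∈ J
          · rw [if_pos hlJ, if_pos hlJ]
            by_cases hl : l = κ x
            · subst hl; rw [min_eq_right (by linarith), min_eq_right h7]
            · by_cases hl' : l = κ x'
              · subst hl'; rw [min_eq_right h8, min_eq_right (by linarith)]
              · rw [h3 l hl hl']
          · rw [if_neg hlJ, if_neg hlJ]
        have hdef : defect J u x = defect J u x' := by
          unfold defect
          apply Finset.sum_congr rfl
          intro l _
          by_cases hl : l = κ x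
          · subst hl; rw [max_eq_right (by linarith), max_eq_right (by linarith)]
          · by_cases hl' : l = κ x'
            · subst hl'; rw [max_eq_right (by linarith), max_eq_right (by linarith)]
            · rw [h3 l hl hl']
        by_cases hc3 : K ≤ defect J u x
        · have hc4 : K ≤ defect J u x' := by rw [← hdef]; exact hc3
          have hg := (hκs (base b J u x, free J u x, defect J u x) (hfar x hx hc3)).2 x
            (mem_subslice hu hx) x' (by
              have := mem_subslice hu hx'
              rw [← hfree, ← hbase, ← hdef] at this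
              exact this) j hj1 hj2
          have hκx : κ x = κs (base b J u x, free J u x, defect J u x) x := by
            rw [hκ]; simp only; rw [if_pos hc3]
          have hκx' : κ x' = κs (base b J u x, free J u x, defect J u x) x' := by
            rw [hκ]; simp only; rw [if_pos hc4, ← hfree, ← hbase, ← hdef]
          rw [← hκx, ← hκx'] at hg
          exact hg hne heq
        · push Not at hc3
          exact ⟨hnear x hx hc3, hnear x' hx' (by rw [← hdef]; exact hc3)⟩
      · push Not at hc2
        exact ⟨hnear x hx (by linarith), hnear x' hx' (by linarith)⟩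
    · push Not at hc1
      exact ⟨hnear x hx (by linarith), hnear x' hx' (by linarith)⟩

end Pool.Agent.helper98.Dp
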