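import Mathlib
import Pool.Agent.helper98.DpDir

set_option autoImplicit false
set_option linter.unusedSectionVars false

open Finset MeasureTheory ProbabilityTheory

namespace Pool.Agent.helper98.Dp

variable {d : ℕ}

/-! ### slices -/

lemma Sl_finite (b : Fin d → ℤ) (J : Finset (Fin d)) (m : ℤ) : (Sl b J m).Finite := by
  apply (Set.finite_Icc (fun i => b i) (fun i => b i + |m|)).subset
  intro x hx
  have key : ∀ i, b i ≤ x i ∧ x i ≤ b i + |m| := by
    intro i
    by_cases hi : i ∈ J
    · refine ⟨hx.2.1 i hi, ?_⟩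
      have h1 : x i - b i ≤ ∑ l ∈ J, (x l - b l) :=
        Finset.single_le_sum (f := fun l => x l - b l)
          (fun l hl => by have := hx.2.1 l hl; linarith) hi
      rw [hx.2.2] at h1
      have := le_abs_self m
      linarith
    · rw [hx.1 i hi]
      have := abs_nonneg m
      constructor <;> linarith
  exact ⟨fun i => (key i).1, fun i => (key i).2⟩

lemma subslice_mem {b : Fin d → ℤ} {J : Finset (Fin d)} {m : ℤ} {u x y : Fin d → ℤ}
    (hu : u ∈ Sl b J m) (hx : x ∈ Sl b J m)
    (hy : y ∈ Sl (base b J u x) (free J u x) (defect J u x)) :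
    y ∈ Sl b J m ∧ defect J u y = defect J u x := by
  have hfJ : free J u x ⊆ J := Finset.filter_subset _ _
  have h1 : ∀ i, i ∉ J → y i = b i := by
    intro i hi
    have := hy.1 i (fun h => hi (hfJ h))
    rw [this]; unfold base; rw [if_neg hi]
  have h2 : ∀ i ∈ J, i ∉ free J u x → y i = x i ∧ x i < u i := by
    intro i hi hif
    have h3 : ¬ u i ≤ x i := fun h => hif (Finset.mem_filter.2 ⟨hi, h⟩)
    have := hy.1 i hif
    unfold base at this
    rw [if_pos hi, min_eq_left (by linarith)] at this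
    exact ⟨this, by linarith⟩
  have h3 : ∀ i ∈ free J u x, u i ≤ y i ∧ base b J u x i = u i := by
    intro i hi
    have h4 := Finset.mem_filter.1 hi
    have h5 := hy.2.1 i hi
    have h6 : base b J u x i = u i := by
      unfold base; rw [if_pos h4.1, min_eq_right h4.2]
    rw [h6] at h5
    exact ⟨h5, h6⟩
  have hdef : defect J u y = defect J u x := by
    unfold defect
    apply Finset.sum_congr rfl
    intro i hi
    by_cases hif : i ∈ free J u x
    · have h4 := (Finset.mem_filter.1 hif).2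
      rw [max_eq_right (by have := (h3 i hif).1; linarith), max_eq_right (by linarith)]
    · rw [(h2 i hi hif).1]
  refine ⟨⟨h1, ?_, ?_⟩, hdef⟩
  · intro i hi
    by_cases hif : i ∈ free J u x
    · have := (h3 i hif).1
      have := hu.2.1 i hi
      linarith
    · rw [(h2 i hi hif).1]; exact hx.2.1 i hi
  · have h4 : ∑ i ∈ J, (y i - u i) = 0 := by
      have h5 : ∑ i ∈ J, (y i - u i) = ∑ i ∈ free J u x, (y i - u i) - defect J u x := by
        unfold defect free
        rw [Finset.sum_filter, ← Finset.sum_sub_distrib]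
        apply Finset.sum_congr rfl
        intro i hi
        split_ifs with h
        · rw [max_eq_right (by linarith)]; ring
        · have h6 := h2 i hi (fun h' => h (Finset.mem_filter.1 h').2)
          rw [max_eq_left (by linarith), h6.1]; ring
      have h6 : ∑ i ∈ free J u x, (y i - u i) = defect J u x := by
        rw [← hy.2.2]
        apply Finset.sum_congr rfl
        intro i hi
        rw [(h3 i hi).2]
      rw [h5, h6]; ring
    have h5 := hu.2.2
    have h6 : ∑ i ∈ J, (y i - b i) = ∑ i ∈ J, (y i - u i) + ∑ i ∈ J, (u i - b i) := by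
      rw [← Finset.sum_add_distrib]
      apply Finset.sum_congr rfl
      intro i _; ring
    rw [h6, h4, h5]; ring

/-- distance control from the defect -/
lemma defect_dist {b : Fin d → ℤ} {J : Finset (Fin d)} {m : ℤ} {u x : Fin d → ℤ}
    (hu : u ∈ Sl b J m) (hx : x ∈ Sl b J m) (i : Fin d) :
    u i - defect J u x ≤ x i ∧ x i ≤ u i + defect J u x := by
  have h0 := defect_nonneg J u x
  by_cases hi : i ∈ J
  · constructor
    · have h3 : max (u i - x i) 0 ≤ defect J u x :=
        Finset.single_le_sum (f := fun i => max (u i - x i) 0) (fun i _ => le_max_right _ _) hi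
      have := le_max_left (u i - x i) 0
      linarith
    · by_cases hif : i ∈ free J u x
      · have h1 := sum_free hu hx
        have h2 : x i - u i ≤ ∑ l ∈ free J u x, (x l - u l) :=
          Finset.single_le_sum (f := fun l => x l - u l)
            (fun l hl => by have := (Finset.mem_filter.1 hl).2; linarith) hif
        linarith
      · have h3 : ¬ u i ≤ x i := fun h => hif (Finset.mem_filter.2 ⟨hi, h⟩)
        push Not at h3
        linarith
  · rw [hx.1 i hi, hu.1 i hi]; constructor <;> linarith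

lemma free_nonempty {b : Fin d → ℤ} {J : Finset (Fin d)} {m : ℤ} {u x : Fin d → ℤ}
    (hu : u ∈ Sl b J m) (hx : x ∈ Sl b J m) (h : 0 < defect J u x) : (free J u x).Nonempty := by
  by_contra hne
  rw [Finset.not_nonempty_iff_eq_empty] at hne
  have := sum_free hu hx
  rw [hne, Finset.sum_empty] at this
  linarith

lemma free_card_lt {J : Finset (Fin d)} {u x : Fin d → ℤ}
    (h : 0 < defect J u x) : (free J u x).card < J.card := by
  apply Finset.card_lt_card
  refine ⟨Finset.filter_subset _ _, ?_⟩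
  intro hsub
  have : defect J u x = 0 := by
    unfold defect
    apply Finset.sum_eq_zero
    intro i hi
    have := (Finset.mem_filter.1 (hsub hi)).2
    exact max_eq_right (by linarith)
  linarith

/-! ### dependence on finitely many sites -/

/-- the event `E` depends only on the sites in `S` -/
def Dep (E : ((Fin d → ℤ) → Prop) → Prop) (S : Finset (Fin d → ℤ)) : Prop :=
  ∀ ξ ξ' : (Fin d → ℤ) → Prop, (∀ x ∈ S, (ξ x ↔ ξ' x)) → E ξ → E ξ'

lemma Dep.iff {E : ((Fin d → ℤ) → Prop) → Prop} {S : Finset (Fin d → ℤ)} (h : Dep E S)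
    {ξ ξ' : (Fin d → ℤ) → Prop} (hx : ∀ x ∈ S, (ξ x ↔ ξ' x)) : E ξ ↔ E ξ' :=
  ⟨h ξ ξ' hx, h ξ' ξ (fun x hxS => (hx x hxS).symm)⟩

lemma Dep.mono {E : ((Fin d → ℤ) → Prop) → Prop} {S T : Finset (Fin d → ℤ)} (h : Dep E S)
    (hST : S ⊆ T) : Dep E T := fun ξ ξ' hx => h ξ ξ' (fun x hxS => hx x (hST hxS))

lemma Dep.not {E : ((Fin d → ℤ) → Prop) → Prop} {S : Finset (Fin d → ℤ)} (h : Dep E S) :
    Dep (fun ξ => ¬ E ξ) S := fun _ _ hx hn hE => hn ((h.iff hx).2 hE)

lemma Dep.and {E F : ((Fin d → ℤ) → Prop) → Prop} {S T : Finset (Fin d → ℤ)} (h : Dep E S)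
    (h' : Dep F T) : Dep (fun ξ => E ξ ∧ F ξ) (S ∪ T) := fun _ _ hx hn =>
  ⟨(h.iff (fun x hxS => hx x (Finset.mem_union_left _ hxS))).1 hn.1,
    (h'.iff (fun x hxS => hx x (Finset.mem_union_right _ hxS))).1 hn.2⟩

lemma good_dep (L : ℕ) (b : Fin d → ℤ) (J : Finset (Fin d)) (m : ℤ) :
    Dep (fun ξ => Good L ξ b J m) (Sl_finite b J m).toFinset := by
  intro ξ ξ' hx hg
  exact good_mono (fun x hxS h => (hx x ((Sl_finite b J m).mem_toFinset.2 hxS)).1 h) hg

section prob

variable {Ω : Type*} [MeasurableSpace Ω] {μ : Measure Ω} [IsProbabilityMeasure μ]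
  {Z : (Fin d → ℤ) → Ω → Bool}

/-- the portal field of the outcome `ω` -/
def fld (Z : (Fin d → ℤ) → Ω → Bool) (ω : Ω) : (Fin d → ℤ) → Prop := fun x => Z x ω = true

open Classical in
lemma event_eq {E : ((Fin d → ℤ) → Prop) → Prop} {S : Finset (Fin d → ℤ)} (h : Dep E S) :
    {ω | E (fld Z ω)} = (fun ω (i : S) => Z i ω) ⁻¹'
      {z | E (fun x => if hx : x ∈ S then z ⟨x, hx⟩ = true else False)} := by
  ext ω
  constructor
  · intro hω
    refine (h.iff ?_).1 hω
    intro x hx
    rw [dif_pos hx]; rfl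
  · intro hω
    refine (h.iff ?_).2 hω
    intro x hx
    rw [dif_pos hx]; rfl

lemma measurableSet_event (hm : ∀ x, Measurable (Z x))
    {E : ((Fin d → ℤ) → Prop) → Prop} {S : Finset (Fin d → ℤ)} (h : Dep E S) :
    MeasurableSet {ω | E (fld Z ω)} := by
  rw [event_eq (Z := Z) h]
  have h1 : Measurable (fun ω (i : S) => Z i ω) := measurable_pi_lambda _ fun i => hm i
  exact h1 (Set.toFinite {z : S → Bool | E (fun x => if hx : x ∈ S then z ⟨x, hx⟩ = true
    else False)}).measurableSet

lemma indep_events (hm : ∀ x, Measurable (Z x)) (hZ : iIndepFun Z μ)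
    {E F : ((Fin d → ℤ) → Prop) → Prop} {S T : Finset (Fin d → ℤ)} (hE : Dep E S) (hF : Dep F T)
    (hST : Disjoint S T) :
    μ.real {ω | E (fld Z ω) ∧ F (fld Z ω)}
      = μ.real {ω | E (fld Z ω)} * μ.real {ω | F (fld Z ω)} := by
  have h1 := hZ.indepFun_finset S T hST hm
  have h2 : {ω | E (fld Z ω) ∧ F (fld Z ω)} = {ω | E (fld Z ω)} ∩ {ω | F (fld Z ω)} := rfl
  rw [h2, event_eq (Z := Z) hE, event_eq (Z := Z) hF]
  have h3 := h1.measure_inter_preimage_eq_mul
    {z | E (fun x => if hx : x ∈ S then z ⟨x, hx⟩ = true else False)}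
    {z | F (fun x => if hx : x ∈ T then z ⟨x, hx⟩ = true else False)}
    (Set.toFinite _).measurableSet (Set.toFinite _).measurableSet
  unfold Measure.real
  rw [h3, ENNReal.toReal_mul]

/-- many disjoint attempts -/
lemma attempts (hm : ∀ x, Measurable (Z x)) (hZ : iIndepFun Z μ)
    (E : ℕ → ((Fin d → ℤ) → Prop) → Prop) (B : ℕ → Finset (Fin d → ℤ)) (q : ℕ)
    (hE : ∀ a < q, Dep (E a) (B a)) (hB : ∀ a < q, ∀ a' < q, a ≠ a' → Disjoint (B a) (B a'))
    {c : ℝ} (hc : ∀ a < q, c ≤ μ.real {ω | E a (fld Z ω)}) (hc1 : c ≤ 1) :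
    μ.real {ω | ∀ a < q, ¬ E a (fld Z ω)} ≤ (1 - c) ^ q := by
  classical
  have key : ∀ r ≤ q, Dep (fun ξ => ∀ a < r, ¬ E a ξ) ((Finset.range r).biUnion B) ∧
      μ.real {ω | ∀ a < r, ¬ E a (fld Z ω)} ≤ (1 - c) ^ r := by
    intro r
    induction r with
    | zero =>
      intro _
      refine ⟨fun _ _ _ _ a ha => absurd ha (Nat.not_lt_zero a), ?_⟩
      rw [pow_zero]
      exact measureReal_le_one
    | succ r ih =>
      intro hr
      obtain ⟨h1, h2⟩ := ih (by omega)
      constructor
      · intro ξ ξ' hx hn a ha hEa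
        have h3 := hn a ha
        apply h3
        refine ((hE a (by omega)).iff ?_).2 hEa
        intro x hxB
        exact hx x (Finset.mem_biUnion.2 ⟨a, Finset.mem_range.2 ha, hxB⟩)
      · have h4 : {ω | ∀ a < r + 1, ¬ E a (fld Z ω)}
            = {ω | (∀ a < r, ¬ E a (fld Z ω)) ∧ ¬ E r (fld Z ω)} := by
          ext ω
          constructor
          · intro hω
            exact ⟨fun a ha => hω a (by omega), hω r (by omega)⟩
          · rintro ⟨hω1, hω2⟩ a ha
            rcases Nat.lt_succ_iff_lt_or_eq.1 ha with h | h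
            · exact hω1 a h
            · rw [h]; exact hω2
        have h5 : Disjoint ((Finset.range r).biUnion B) (B r) := by
          rw [Finset.disjoint_biUnion_left]
          intro a ha
          have := Finset.mem_range.1 ha
          exact hB a (by omega) r (by omega) (by omega)
        have h6 := indep_events hm hZ h1 (hE r (by omega)).not h5
        rw [h4, h6, pow_succ]
        have h7 : μ.real {ω | ¬ E r (fld Z ω)} = 1 - μ.real {ω | E r (fld Z ω)} := by
          have := probReal_compl_eq_one_sub (μ := μ)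
            (measurableSet_event (Z := Z) hm (hE r (by omega)))
          exact this
        have h8 : μ.real {ω | ¬ E r (fld Z ω)} ≤ 1 - c := by
          rw [h7]; linarith [hc r (by omega)]
        exact mul_le_mul h2 h8 measureReal_nonneg (pow_nonneg (by linarith) _)
  exact (key q le_rfl).2

/-- portals on a finite set -/
lemma all_portals (hm : ∀ x, Measurable (Z x)) (hZ : iIndepFun Z μ) {c : ℝ}
    (hc : ∀ x, c ≤ μ.real {ω | Z x ω = true}) (hc0 : 0 ≤ c) (S : Finset (Fin d → ℤ)) :
    c ^ S.card ≤ μ.real {ω | ∀ x ∈ S, fld Z ω x} := by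
  classical
  induction S using Finset.induction_on with
  | empty =>
    have : {ω | ∀ x ∈ (∅ : Finset (Fin d → ℤ)), fld Z ω x} = Set.univ := by
      ext ω; simp
    rw [this]; simp
  | insert a S ha ih =>
    have h1 : {ω | ∀ x ∈ insert a S, fld Z ω x}
        = {ω | (fun ξ : (Fin d → ℤ) → Prop => ξ a) (fld Z ω) ∧
            (fun ξ : (Fin d → ℤ) → Prop => ∀ x ∈ S, ξ x) (fld Z ω)} := by
      ext ω; simp [Finset.mem_insert]
    have hd1 : Dep (fun ξ : (Fin d → ℤ) → Prop => ξ a) ({a} : Finset (Fin d → ℤ)) :=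
      fun ξ ξ' hx h => (hx a (Finset.mem_singleton_self a)).1 h
    have hd2 : Dep (fun ξ : (Fin d → ℤ) → Prop => ∀ x ∈ S, ξ x) S :=
      fun ξ ξ' hx h x hxS => (hx x hxS).1 (h x hxS)
    rw [h1, indep_events hm hZ hd1 hd2 (Finset.disjoint_singleton_left.2 ha),
      Finset.card_insert_of_notMem ha, pow_succ, mul_comm]
    exact mul_le_mul (hc a) ih (pow_nonneg hc0 _) measureReal_nonneg

end prob

end Pool.Agent.helper98.Dp
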