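import Mathlib
import Pool.Agent.helper98.DpProb

set_option autoImplicit false
set_option linter.unusedSectionVars false

open Finset MeasureTheory ProbabilityTheory Filter Topology

namespace Pool.Agent.helper98.Dp

variable {d : ℕ}

/-- base points of sub-slices with given free set and given defects -/
def bs (b : Fin d → ℤ) (J : Finset (Fin d)) (u : Fin d → ℤ) (F : Finset (Fin d))
    (δ : Fin d → ℕ) : Fin d → ℤ :=
  fun i => if i ∈ F then u i else if i ∈ J then u i - δ i else b i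

lemma base_eq_bs {b : Fin d → ℤ} {J : Finset (Fin d)} {u x : Fin d → ℤ} :
    base b J u x = bs b J u (free J u x) (fun i => (u i - x i).toNat) := by
  funext i
  unfold base bs
  by_cases hJ : i ∈ J
  · by_cases hf : i ∈ free J u x
    · have := (Finset.mem_filter.1 hf).2
      rw [if_pos hJ, if_pos hf, min_eq_right this]
    · have h3 : ¬ u i ≤ x i := fun h => hf (Finset.mem_filter.2 ⟨hJ, h⟩)
      push Not at h3
      rw [if_pos hJ, if_neg hf, if_pos hJ, min_eq_left h3.le]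
      rw [Int.toNat_of_nonneg (by linarith)]
      ring
  · have hf : i ∉ free J u x := fun h => hJ (Finset.mem_filter.1 h).1
    rw [if_neg hJ, if_neg hf, if_neg hJ]

lemma defect_le {b : Fin d → ℤ} {J : Finset (Fin d)} {m : ℤ} {u x : Fin d → ℤ}
    (hu : u ∈ Sl b J m) (hx : x ∈ Sl b J m) : defect J u x ≤ m := by
  rw [← hu.2.2]
  unfold defect
  apply Finset.sum_le_sum
  intro i hi
  have h1 := hu.2.1 i hi
  have h2 := hx.2.1 i hi
  apply max_le <;> linarith

section prob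

variable {Ω : Type*} [MeasurableSpace Ω] {μ : Measure Ω} [IsProbabilityMeasure μ]
  {Z : (Fin d → ℤ) → Ω → Bool}

lemma bad_at {L : ℕ} {b : Fin d → ℤ} {J : Finset (Fin d)} {m : ℤ} {u : Fin d → ℤ}
    (hu : u ∈ Sl b J m) {p : ℝ} (ℓ : ℕ) (hℓ : 1 ≤ ℓ) (hp : 0 ≤ p)
    (hIH : ∀ F : Finset (Fin d), F.Nonempty → F.card < J.card → ∀ b' : Fin d → ℤ,
      μ.real {ω | ¬ Good L (fld Z ω) b' F ℓ} ≤ p) :
    μ.real {ω | ∃ x ∈ Sl b J m, defect J u x = ℓ ∧
      ¬ Good L (fld Z ω) (base b J u x) (free J u x) (defect J u x)}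
      ≤ 2 ^ d * (ℓ + 1) ^ d * p := by
  classical
  set I : Finset (Finset (Fin d) × (Fin d → ℕ)) :=
    Finset.univ ×ˢ Fintype.piFinset (fun _ => Finset.range (ℓ + 1)) with hI
  set G : Finset (Fin d) × (Fin d → ℕ) → Set Ω := fun i =>
    {ω | i.1.Nonempty ∧ i.1.card < J.card ∧ ¬ Good L (fld Z ω) (bs b J u i.1 i.2) i.1 ℓ} with hG
  have h1 : {ω | ∃ x ∈ Sl b J m, defect J u x = ℓ ∧
      ¬ Good L (fld Z ω) (base b J u x) (free J u x) (defect J u x)} ⊆ ⋃ i ∈ I, G i := by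
    rintro ω ⟨x, hx, hdx, hbad⟩
    have hpos : 0 < defect J u x := by rw [hdx]; exact_mod_cast hℓ
    refine Set.mem_iUnion₂.2 ⟨(free J u x, fun i => (u i - x i).toNat), ?_, ?_⟩
    · rw [hI, Finset.mem_product]
      refine ⟨Finset.mem_univ _, ?_⟩
      rw [Fintype.mem_piFinset]
      intro i
      rw [Finset.mem_range]
      have := (defect_dist hu hx i).1
      rw [hdx] at this
      simp only
      omega
    · refine ⟨free_nonempty hu hx hpos, free_card_lt hpos, ?_⟩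
      rw [← base_eq_bs]
      rw [hdx] at hbad
      exact hbad
  have h2 : ∀ i ∈ I, μ.real (G i) ≤ p := by
    intro i _
    by_cases hi : i.1.Nonempty ∧ i.1.card < J.card
    · refine le_trans (measureReal_mono ?_) (hIH i.1 hi.1 hi.2 (bs b J u i.1 i.2))
      intro ω hω
      exact hω.2.2
    · have : G i = ∅ := by
        ext ω
        simp only [Set.mem_empty_iff_false, iff_false]
        intro hω
        exact hi ⟨hω.1, hω.2.1⟩
      rw [this, measureReal_empty]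
      exact hp
  calc μ.real _ ≤ μ.real (⋃ i ∈ I, G i) := measureReal_mono h1 (measure_ne_top _ _)
    _ ≤ ∑ i ∈ I, μ.real (G i) := measureReal_biUnion_finset_le _ _
    _ ≤ ∑ i ∈ I, p := Finset.sum_le_sum h2
    _ = 2 ^ d * (ℓ + 1) ^ d * p := by
        rw [Finset.sum_const, nsmul_eq_mul, hI, Finset.card_product]
        congr 1
        simp [Fintype.card_piFinset]

lemma sum_inv_sq_le (lo hi : ℕ) (hlo : 1 ≤ lo) :
    ∑ ℓ ∈ Finset.Ico lo hi, (1 : ℝ) / (ℓ : ℝ) ^ 2 ≤ 2 / lo := by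
  have h1 : ∀ ℓ ∈ Finset.Ico lo hi, (1 : ℝ) / (ℓ : ℝ) ^ 2 ≤ 2 / (ℓ : ℝ) - 2 / ((ℓ + 1 : ℕ) : ℝ) := by
    intro ℓ hℓ
    have h2 : 1 ≤ ℓ := le_trans hlo (Finset.mem_Ico.1 hℓ).1
    have h3 : (1 : ℝ) ≤ ℓ := by exact_mod_cast h2
    push_cast
    rw [div_sub_div _ _ (by positivity) (by positivity), div_le_div_iff₀ (by positivity) (by positivity)]
    nlinarith [mul_nonneg (by linarith : (0:ℝ) ≤ ℓ) (by linarith : (0:ℝ) ≤ ℓ - 1)]
  refine le_trans (Finset.sum_le_sum h1) ?_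
  by_cases h : lo ≤ hi
  · rw [Finset.sum_Ico_eq_sum_range]
    have h4 := Finset.sum_range_sub' (fun i => 2 / (((lo + i : ℕ)) : ℝ)) (hi - lo)
    simp only [← add_assoc] at h4
    rw [h4]
    have : (0 : ℝ) ≤ 2 / ((lo + (hi - lo) : ℕ) : ℝ) := by positivity
    simp only [add_zero]
    linarith
  · rw [Finset.Ico_eq_empty (by omega)]
    simp only [Finset.sum_empty]
    positivity

lemma bad_range {L : ℕ} {b : Fin d → ℤ} {J : Finset (Fin d)} {m : ℤ} {u : Fin d → ℤ}
    (hu : u ∈ Sl b J m) {C : ℝ} (hC : 0 ≤ C) (B : ℕ)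
    (hIH : ∀ F : Finset (Fin d), F.Nonempty → F.card < J.card → ∀ b' : Fin d → ℤ,
      ∀ ℓ : ℕ, 1 ≤ ℓ → μ.real {ω | ¬ Good L (fld Z ω) b' F ℓ} ≤ C / ℓ ^ (d + 2 + B))
    (lo hi : ℕ) (hlo : 1 ≤ lo) :
    μ.real {ω | ∃ x ∈ Sl b J m, lo ≤ defect J u x ∧ defect J u x < hi ∧
      ¬ Good L (fld Z ω) (base b J u x) (free J u x) (defect J u x)}
      ≤ 2 * 4 ^ d * C / lo ^ (B + 1) := by
  classical
  have h1 : {ω | ∃ x ∈ Sl b J m, lo ≤ defect J u x ∧ defect J u x < hi ∧
      ¬ Good L (fld Z ω) (base b J u x) (free J u x) (defect J u x)} ⊆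
      ⋃ ℓ ∈ Finset.Ico lo hi, {ω | ∃ x ∈ Sl b J m, defect J u x = ((ℓ : ℕ) : ℤ) ∧
      ¬ Good L (fld Z ω) (base b J u x) (free J u x) (defect J u x)} := by
    rintro ω ⟨x, hx, h2, h3, h4⟩
    refine Set.mem_iUnion₂.2 ⟨(defect J u x).toNat, ?_, ⟨x, hx, ?_, h4⟩⟩
    · rw [Finset.mem_Ico]; omega
    · rw [Int.toNat_of_nonneg (by omega)]
  have h2 : ∀ ℓ ∈ Finset.Ico lo hi, μ.real {ω | ∃ x ∈ Sl b J m, defect J u x = ((ℓ : ℕ) : ℤ) ∧
      ¬ Good L (fld Z ω) (base b J u x) (free J u x) (defect J u x)}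
      ≤ (4 ^ d * C / lo ^ B) * (1 / (ℓ : ℝ) ^ 2) := by
    intro ℓ hℓ
    have h3 : lo ≤ ℓ := (Finset.mem_Ico.1 hℓ).1
    have h4 : 1 ≤ ℓ := le_trans hlo h3
    have h5 : (1 : ℝ) ≤ ℓ := by exact_mod_cast h4
    have h6 : (0 : ℝ) ≤ C / ℓ ^ (d + 2 + B) := by positivity
    refine le_trans (bad_at (μ := μ) (Z := Z) hu ℓ h4 h6
      (fun F hF1 hF2 b' => hIH F hF1 hF2 b' ℓ h4)) ?_
    have h7 : ((ℓ : ℝ) + 1) ^ d ≤ 2 ^ d * ℓ ^ d := by
      rw [← mul_pow]
      exact pow_le_pow_left₀ (by linarith) (by linarith) d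
    have h8 : (lo : ℝ) ^ B ≤ (ℓ : ℝ) ^ B := pow_le_pow_left₀ (by positivity) (by exact_mod_cast h3) B
    have h9 : (0 : ℝ) < lo := by exact_mod_cast hlo
    calc (2 : ℝ) ^ d * (ℓ + 1) ^ d * (C / ℓ ^ (d + 2 + B))
        ≤ 2 ^ d * (2 ^ d * ℓ ^ d) * (C / ℓ ^ (d + 2 + B)) := by gcongr
      _ = (4 ^ d * C / ℓ ^ B) * (1 / (ℓ : ℝ) ^ 2) := by
          have : (4 : ℝ) ^ d = 2 ^ d * 2 ^ d := by rw [← mul_pow]; norm_num
          rw [this, pow_add, pow_add]
          field_simp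
      _ ≤ (4 ^ d * C / lo ^ B) * (1 / (ℓ : ℝ) ^ 2) := by gcongr
  calc μ.real _ ≤ μ.real _ := measureReal_mono h1 (measure_ne_top _ _)
    _ ≤ ∑ ℓ ∈ Finset.Ico lo hi, _ := measureReal_biUnion_finset_le _ _
    _ ≤ ∑ ℓ ∈ Finset.Ico lo hi, (4 ^ d * C / lo ^ B) * (1 / (ℓ : ℝ) ^ 2) := Finset.sum_le_sum h2
    _ = (4 ^ d * C / lo ^ B) * ∑ ℓ ∈ Finset.Ico lo hi, (1 / (ℓ : ℝ) ^ 2) := by
        rw [Finset.mul_sum]
    _ ≤ (4 ^ d * C / lo ^ B) * (2 / lo) := by
        apply mul_le_mul_of_nonneg_left (sum_inv_sq_le lo hi hlo)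
        positivity
    _ = 2 * 4 ^ d * C / lo ^ (B + 1) := by
        rw [pow_succ]
        have h9 : (0 : ℝ) < lo := by exact_mod_cast hlo
        field_simp

lemma geom_poly {r : ℝ} (h0 : 0 ≤ r) (h1 : r < 1) (B : ℕ) :
    ∃ C : ℝ, 0 ≤ C ∧ ∀ q : ℕ, r ^ q ≤ C / ((q : ℝ) + 1) ^ B := by
  have h2 : Tendsto (fun n : ℕ => (n : ℝ) ^ B * r ^ n) atTop (𝓝 0) :=
    tendsto_pow_const_mul_const_pow_of_abs_lt_one B (by rw [abs_of_nonneg h0]; exact h1)
  obtain ⟨C, hC⟩ := h2.bddAbove_range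
  have hC' : ∀ n : ℕ, (n : ℝ) ^ B * r ^ n ≤ C := fun n => hC ⟨n, rfl⟩
  have hC0 : 0 ≤ C := le_trans (by positivity) (hC' 0)
  refine ⟨2 ^ B * C + 1, by positivity, ?_⟩
  intro q
  rw [le_div_iff₀ (by positivity)]
  by_cases hq : q = 0
  · subst hq; simp; positivity
  · have hq1 : (1 : ℝ) ≤ q := by exact_mod_cast Nat.one_le_iff_ne_zero.2 hq
    have h3 : ((q : ℝ) + 1) ^ B ≤ 2 ^ B * q ^ B := by
      rw [← mul_pow]
      exact pow_le_pow_left₀ (by linarith) (by linarith) B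
    calc r ^ q * ((q : ℝ) + 1) ^ B ≤ r ^ q * (2 ^ B * q ^ B) := by gcongr
      _ = 2 ^ B * ((q : ℝ) ^ B * r ^ q) := by ring
      _ ≤ 2 ^ B * C := by gcongr; exact hC' q
      _ ≤ 2 ^ B * C + 1 := by linarith

/-! ### candidate junction points -/

/-- candidate junction points -/
def cand (b : Fin d → ℤ) (J : Finset (Fin d)) (i1 i2 : Fin d) (K s m : ℤ) (a : ℤ) : Fin d → ℤ :=
  fun i => if i = i1 then b i + (K + 2 * s * a)
    else if i = i2 then b i + (m - ((J.card : ℤ) - 1) * K - 2 * s * a)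
    else if i ∈ J then b i + K else b i

lemma cand_mem {b : Fin d → ℤ} {J : Finset (Fin d)} {i1 i2 : Fin d} (h1 : i1 ∈ J) (h2 : i2 ∈ J)
    (hne : i1 ≠ i2) {K s m a : ℤ} (hK : 0 ≤ K) (hsa : 0 ≤ s * a)
    (hm : 2 * (s * a) + J.card * K ≤ m) :
    cand b J i1 i2 K s m a ∈ Sl b J m ∧ ∀ i ∈ J, b i + K ≤ cand b J i1 i2 K s m a i := by
  have hge : ∀ i ∈ J, b i + K ≤ cand b J i1 i2 K s m a i := by
    intro i hi
    unfold cand
    split_ifs with h3 h4
    · nlinarith
    · nlinarith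
    · exact le_refl _
  refine ⟨⟨?_, ?_, ?_⟩, hge⟩
  · intro i hi
    unfold cand
    rw [if_neg (fun h : i = i1 => hi (h ▸ h1)), if_neg (fun h : i = i2 => hi (h ▸ h2)), if_neg hi]
  · intro i hi
    have := hge i hi
    linarith
  · have h3 : i2 ∈ J.erase i1 := Finset.mem_erase.2 ⟨hne.symm, h2⟩
    rw [← Finset.add_sum_erase J _ h1, ← Finset.add_sum_erase (J.erase i1) _ h3]
    have h4 : ∀ i ∈ (J.erase i1).erase i2, cand b J i1 i2 K s m a i - b i = K := by
      intro i hi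
      have h5 := Finset.mem_erase.1 hi
      have h6 := Finset.mem_erase.1 h5.2
      unfold cand
      rw [if_neg h6.1, if_neg h5.1, if_pos h6.2]
      ring
    rw [Finset.sum_congr rfl h4, Finset.sum_const, nsmul_eq_mul, Finset.card_erase_of_mem h3,
      Finset.card_erase_of_mem h1]
    have h5 : 1 < J.card := Finset.one_lt_card.2 ⟨i1, h1, i2, h2, hne⟩
    have h6 : ((J.card - 1 - 1 : ℕ) : ℤ) = (J.card : ℤ) - 2 := by omega
    rw [h6]
    have h7 : cand b J i1 i2 K s m a i1 - b i1 = K + 2 * s * a := by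
      unfold cand; rw [if_pos rfl]; ring
    have h8 : cand b J i1 i2 K s m a i2 - b i2 = m - ((J.card : ℤ) - 1) * K - 2 * s * a := by
      unfold cand; rw [if_neg hne.symm, if_pos rfl]; ring
    rw [h7, h8]; ring

/-- the near event for a candidate point -/
def nearE (L : ℕ) (b : Fin d → ℤ) (J : Finset (Fin d)) (m K s : ℤ) (u : Fin d → ℤ)
    (ξ : (Fin d → ℤ) → Prop) : Prop :=
  (∀ x ∈ Sl b J m, defect J u x < K → ξ x) ∧
    (∀ x ∈ Sl b J m, K ≤ defect J u x → defect J u x < s →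
      Good L ξ (base b J u x) (free J u x) (defect J u x))

open Classical in
/-- region between two defects -/
noncomputable def reg (b : Fin d → ℤ) (J : Finset (Fin d)) (m : ℤ) (u : Fin d → ℤ) (lo hi : ℤ) :
    Finset (Fin d → ℤ) :=
  (Sl_finite b J m).toFinset.filter fun x => lo ≤ defect J u x ∧ defect J u x < hi

lemma mem_reg {b : Fin d → ℤ} {J : Finset (Fin d)} {m : ℤ} {u : Fin d → ℤ} {lo hi : ℤ}
    {x : Fin d → ℤ} : x ∈ reg b J m u lo hi ↔
      x ∈ Sl b J m ∧ lo ≤ defect J u x ∧ defect J u x < hi := by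
  unfold reg
  rw [Finset.mem_filter, Set.Finite.mem_toFinset]

lemma dep_near1 (b : Fin d → ℤ) (J : Finset (Fin d)) (m K : ℤ) (u : Fin d → ℤ) :
    Dep (fun ξ => ∀ x ∈ Sl b J m, defect J u x < K → ξ x) (reg b J m u 0 K) := by
  intro ξ ξ' hx h x hxS hd
  exact (hx x (mem_reg.2 ⟨hxS, defect_nonneg _ _ _, hd⟩)).1 (h x hxS hd)

lemma dep_near2 (L : ℕ) (b : Fin d → ℤ) (J : Finset (Fin d)) (m K s : ℤ) (u : Fin d → ℤ)
    (hu : u ∈ Sl b J m) :
    Dep (fun ξ => ∀ x ∈ Sl b J m, K ≤ defect J u x → defect J u x < s →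
      Good L ξ (base b J u x) (free J u x) (defect J u x)) (reg b J m u K s) := by
  intro ξ ξ' hx h x hxS hd1 hd2
  refine good_mono ?_ (h x hxS hd1 hd2)
  intro y hy hξ
  have h1 := subslice_mem hu hxS hy
  exact (hx y (mem_reg.2 ⟨h1.1, by rw [h1.2]; exact hd1, by rw [h1.2]; exact hd2⟩)).1 hξ

lemma dep_near (L : ℕ) (b : Fin d → ℤ) (J : Finset (Fin d)) (m K s : ℤ) (u : Fin d → ℤ)
    (hu : u ∈ Sl b J m) (hK : 0 ≤ K) (hKs : K ≤ s) :
    Dep (nearE L b J m K s u) (reg b J m u 0 s) := by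
  classical
  refine Dep.mono ((dep_near1 b J m K u).and (dep_near2 L b J m K s u hu)) ?_
  intro x hx
  rcases Finset.mem_union.1 hx with h | h
  · have := mem_reg.1 h
    exact mem_reg.2 ⟨this.1, this.2.1, by linarith [this.2.2]⟩
  · have := mem_reg.1 h
    exact mem_reg.2 ⟨this.1, by linarith [this.2.1], this.2.2⟩

lemma card_reg_le (b : Fin d → ℤ) (J : Finset (Fin d)) (m : ℤ) (u : Fin d → ℤ)
    (hu : u ∈ Sl b J m) (K : ℕ) : (reg b J m u 0 K).card ≤ (2 * K + 1) ^ d := by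
  classical
  have h1 : reg b J m u 0 K ⊆ Finset.Icc (fun i => u i - K) (fun i => u i + K) := by
    intro x hx
    have h2 := mem_reg.1 hx
    rw [Finset.mem_Icc]
    constructor
    · intro i
      have := (defect_dist hu h2.1 i).1
      simp only
      linarith [h2.2.2]
    · intro i
      have := (defect_dist hu h2.1 i).2
      simp only
      linarith [h2.2.2]
  refine le_trans (Finset.card_le_card h1) ?_
  rw [Pi.card_Icc]
  simp only [Int.card_Icc]
  rw [Finset.prod_congr rfl (g := fun _ => 2 * K + 1) (fun i _ => by omega)]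
  simp

lemma near_prob (hm : ∀ x, Measurable (Z x)) (hZ : iIndepFun Z μ) {c : ℝ}
    (hc : ∀ x, c ≤ μ.real {ω | Z x ω = true}) (hc0 : 0 < c) (hc1 : c ≤ 1)
    {L : ℕ} {b : Fin d → ℤ} {J : Finset (Fin d)} {m : ℤ} {u : Fin d → ℤ}
    (hu : u ∈ Sl b J m) {C : ℝ} (hC : 0 ≤ C)
    (hIH : ∀ F : Finset (Fin d), F.Nonempty → F.card < J.card → ∀ b' : Fin d → ℤ,
      ∀ ℓ : ℕ, 1 ≤ ℓ → μ.real {ω | ¬ Good L (fld Z ω) b' F ℓ} ≤ C / ℓ ^ (d + 2))
    (K s : ℕ) (hK1 : 1 ≤ K) (hK : 4 * 4 ^ d * C ≤ K) :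
    c ^ ((2 * K + 1) ^ d) / 2 ≤ μ.real {ω | nearE L b J m K s u (fld Z ω)} := by
  have hd1 := dep_near1 b J m K u
  have hd2 := dep_near2 L b J m K s u hu
  have hdisj : Disjoint (reg b J m u 0 K) (reg b J m u K s) := by
    rw [Finset.disjoint_left]
    intro x hx hx'
    have h1 := (mem_reg.1 hx).2.2
    have h2 := (mem_reg.1 hx').2.1
    linarith
  have h1 := indep_events (μ := μ) hm hZ hd1 hd2 hdisj
  have h2 : {ω | nearE L b J m K s u (fld Z ω)} =
      {ω | (fun ξ => ∀ x ∈ Sl b J m, defect J u x < K → ξ x) (fld Z ω) ∧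
        (fun ξ => ∀ x ∈ Sl b J m, K ≤ defect J u x → defect J u x < s →
      Good L ξ (base b J u x) (free J u x) (defect J u x)) (fld Z ω)} := rfl
  rw [h2, h1]
  have h3 : c ^ ((2 * K + 1) ^ d) ≤
      μ.real {ω | (fun ξ => ∀ x ∈ Sl b J m, defect J u x < K → ξ x) (fld Z ω)} := by
    have h4 := all_portals hm hZ hc hc0.le (reg b J m u 0 K)
    have h5 : c ^ ((2 * K + 1) ^ d) ≤ c ^ (reg b J m u 0 K).card :=
      pow_le_pow_of_le_one hc0.le hc1 (card_reg_le b J m u hu K)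
    refine le_trans h5 (le_trans h4 (measureReal_mono ?_ (measure_ne_top _ _)))
    intro ω hω x hx hd
    exact hω x (mem_reg.2 ⟨hx, defect_nonneg _ _ _, hd⟩)
  have h4 : (1 : ℝ) / 2 ≤ μ.real {ω | (fun ξ => ∀ x ∈ Sl b J m, K ≤ defect J u x →
      defect J u x < s → Good L ξ (base b J u x) (free J u x) (defect J u x)) (fld Z ω)} := by
    have h5 := probReal_compl_eq_one_sub (μ := μ) (measurableSet_event (Z := Z) hm hd2)
    have h6 := bad_range (μ := μ) (Z := Z) hu hC 0 (by simpa using hIH) K s hK1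
    have h7 : μ.real {ω | (fun ξ => ∀ x ∈ Sl b J m, K ≤ defect J u x →
      defect J u x < s → Good L ξ (base b J u x) (free J u x) (defect J u x)) (fld Z ω)}ᶜ ≤
        μ.real {ω | ∃ x ∈ Sl b J m, K ≤ defect J u x ∧ defect J u x < s ∧
      ¬ Good L (fld Z ω) (base b J u x) (free J u x) (defect J u x)} := by
      apply measureReal_mono _ (measure_ne_top _ _)
      intro ω hω
      simp only [Set.mem_compl_iff, Set.mem_ofPred_eq] at hω
      push Not at hω
      exact hω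
    have h8 : 2 * 4 ^ d * C / (K : ℝ) ^ (0 + 1) ≤ 1 / 2 := by
      have hK0 : (0 : ℝ) < K := by exact_mod_cast hK1
      rw [zero_add, pow_one, div_le_div_iff₀ hK0 (by norm_num)]
      linarith
    linarith
  calc c ^ ((2 * K + 1) ^ d) / 2 = c ^ ((2 * K + 1) ^ d) * (1 / 2) := by ring
    _ ≤ _ := mul_le_mul h3 h4 (by norm_num) measureReal_nonneg

/-- **Polynomial decay of the probability of bad slices.** -/
theorem decay (hm : ∀ x, Measurable (Z x)) (hZ : iIndepFun Z μ) {c : ℝ}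
    (hc : ∀ x, c ≤ μ.real {ω | Z x ω = true}) (hc0 : 0 < c) (hc1 : c ≤ 1) (L : ℕ) :
    ∀ k A : ℕ, ∃ C : ℝ, 0 ≤ C ∧ ∀ J : Finset (Fin d), J.Nonempty → J.card ≤ k →
      ∀ b : Fin d → ℤ, ∀ m : ℕ, 1 ≤ m →
        μ.real {ω | ¬ Good L (fld Z ω) b J m} ≤ C / m ^ A := by
  intro k
  induction k with
  | zero =>
    intro A
    refine ⟨0, le_refl _, ?_⟩
    intro J hJ hcard
    have := hJ.card_pos
    omega
  | succ k ih =>
    intro A
    obtain ⟨C0, hC0, hIH0⟩ := ih (d + 2)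
    obtain ⟨C1, hC1, hIH1⟩ := ih (d + 2 + 2 * A)
    -- the constant K
    obtain ⟨K0, hK0⟩ := exists_nat_ge (4 * 4 ^ d * C0)
    set K : ℕ := K0 + d * (L + 1) + L + 1 with hKdef
    have hK1 : 1 ≤ K := by omega
    have hK2 : 4 * 4 ^ d * C0 ≤ K := by
      refine le_trans hK0 ?_
      exact_mod_cast (by omega : K0 ≤ K)
    have hK3 : (d : ℤ) * (L + 1) + L ≤ K := by
      rw [hKdef]; push_cast; have : (0:ℤ) ≤ K0 := Nat.cast_nonneg _; linarith
    set c0 : ℝ := c ^ ((2 * K + 1) ^ d) / 2 with hc0def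
    have hcp : 0 < c ^ ((2 * K + 1) ^ d) := pow_pos hc0 _
    have hcp1 : c ^ ((2 * K + 1) ^ d) ≤ 1 := pow_le_one₀ hc0.le hc1
    have hc0pos : 0 < c0 := by rw [hc0def]; linarith
    have hc0le : c0 ≤ 1 := by rw [hc0def]; linarith
    obtain ⟨C2, hC2, hgeo⟩ := geom_poly (r := 1 - c0) (by linarith) (by linarith) (2 * A)
    -- threshold
    set m0 : ℕ := (L + 1) + K * K + 2 * d * K with hm0
    set Cf : ℝ := (m0 : ℝ) ^ A + 16 ^ A * C2 + 4 ^ A * (2 * 4 ^ d * C1) with hCf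
    have hCf0 : 0 ≤ Cf := by positivity
    refine ⟨Cf, hCf0, ?_⟩
    intro J hJ hcard b m hm1
    have hmpos : (0 : ℝ) < m := by exact_mod_cast hm1
    by_cases hmm : m < m0
    · -- small m
      rw [le_div_iff₀ (by positivity)]
      have h1 : μ.real {ω | ¬ Good L (fld Z ω) b J m} ≤ 1 := measureReal_le_one
      have h2 : (m : ℝ) ^ A ≤ (m0 : ℝ) ^ A :=
        pow_le_pow_left₀ hmpos.le (by exact_mod_cast hmm.le) A
      calc μ.real {ω | ¬ Good L (fld Z ω) b J m} * (m : ℝ) ^ A ≤ 1 * (m0 : ℝ) ^ A := by gcongr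
        _ ≤ Cf := by
          rw [hCf, one_mul]
          have : (0 : ℝ) ≤ 16 ^ A * C2 := by positivity
          have : (0 : ℝ) ≤ 4 ^ A * (2 * 4 ^ d * C1) := by positivity
          linarith
    push Not at hmm
    by_cases hJ1 : J.card = 1
    · -- singletons
      obtain ⟨i, hi⟩ := Finset.card_eq_one.1 hJ1
      have h1 : {ω | ¬ Good L (fld Z ω) b J m} = ∅ := by
        ext ω
        simp only [Set.mem_ofPred_eq, Set.mem_empty_iff_false, iff_false, not_not]
        rw [hi]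
        apply good_singleton
        have : L + 1 ≤ m := by omega
        exact_mod_cast this
      rw [h1, measureReal_empty]
      positivity
    -- main case
    have hJ2 : 1 < J.card := by
      have := hJ.card_pos
      omega
    obtain ⟨i1, hi1, i2, hi2, hne⟩ := Finset.one_lt_card.1 hJ2
    set s : ℕ := Nat.sqrt m with hs
    have hs1 : s * s ≤ m := Nat.sqrt_le m
    have hs2 : m < (s + 1) * (s + 1) := Nat.lt_succ_sqrt m
    have hKs : K ≤ s := by
      rw [hs, Nat.le_sqrt]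
      omega
    set q : ℕ := s / 4 with hq
    have hcand : ∀ a < q, cand b J i1 i2 K s m a ∈ Sl b J m ∧
        ∀ i ∈ J, b i + K ≤ cand b J i1 i2 K s m a i := by
      intro a ha
      apply cand_mem hi1 hi2 hne (Nat.cast_nonneg _) (by positivity)
      have h1 : 4 * a ≤ s := by omega
      have h2 : 4 * (s * a) ≤ m := by nlinarith
      have h3 : J.card ≤ d := by
        have := Finset.card_le_univ J
        rwa [Fintype.card_fin] at this
      have h4 : J.card * K ≤ d * K := Nat.mul_le_mul_right _ h3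
      have h5 : 2 * (d * K) ≤ m := by
        have : 2 * d * K ≤ m := by omega
        linarith
      have : 2 * (s * a) + J.card * K ≤ m := by linarith
      exact_mod_cast this
    have hIH0' : ∀ F : Finset (Fin d), F.Nonempty → F.card < J.card → ∀ b' : Fin d → ℤ,
      ∀ ℓ : ℕ, 1 ≤ ℓ → μ.real {ω | ¬ Good L (fld Z ω) b' F ℓ} ≤ C0 / ℓ ^ (d + 2) :=
      fun F hF1 hF2 b' ℓ hℓ => hIH0 F hF1 (by omega) b' ℓ hℓ
    have hIH1' : ∀ F : Finset (Fin d), F.Nonempty → F.card < J.card → ∀ b' : Fin d → ℤ,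
      ∀ ℓ : ℕ, 1 ≤ ℓ → μ.real {ω | ¬ Good L (fld Z ω) b' F ℓ} ≤ C1 / ℓ ^ (d + 2 + 2 * A) :=
      fun F hF1 hF2 b' ℓ hℓ => hIH1 F hF1 (by omega) b' ℓ hℓ
    -- attempts
    have hatt := attempts (μ := μ) hm hZ
      (fun a => nearE L b J m K s (cand b J i1 i2 K s m a))
      (fun a => reg b J m (cand b J i1 i2 K s m a) 0 s) q
      (fun a ha => dep_near L b J m K s _ (hcand a ha).1 (Nat.cast_nonneg _) (by exact_mod_cast hKs))
      (by
        have hord : ∀ a < q, ∀ a' < q, a < a' → Disjoint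
            (reg b J m (cand b J i1 i2 K s m a) 0 s) (reg b J m (cand b J i1 i2 K s m a') 0 s) := by
          intro a ha a' ha' hlt
          rw [Finset.disjoint_left]
          intro x hx hx'
          have h1 := mem_reg.1 hx
          have h2 := mem_reg.1 hx'
          have h3 := (defect_dist (hcand a ha).1 h1.1 i1).2
          have h4 := (defect_dist (hcand a' ha').1 h2.1 i1).1
          have h5 : cand b J i1 i2 K s m a i1 = b i1 + (K + 2 * s * a) := by
            unfold cand; rw [if_pos rfl]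
          have h6 : cand b J i1 i2 K s m a' i1 = b i1 + (K + 2 * s * a') := by
            unfold cand; rw [if_pos rfl]
          rw [h5] at h3
          rw [h6] at h4
          have h7 : (a : ℤ) + 1 ≤ a' := by exact_mod_cast hlt
          have h8 : (0 : ℤ) ≤ s := Nat.cast_nonneg _
          have h9 : (s : ℤ) * (a + 1) ≤ s * a' := mul_le_mul_of_nonneg_left h7 h8
          have h10 := h1.2.2
          have h11 := h2.2.2
          linarith
        intro a ha a' ha' haa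
        rcases Nat.lt_or_gt_of_ne haa with h | h
        · exact hord a ha a' ha' h
        · exact (hord a' ha' a ha h).symm)
      (c := c0)
      (fun a ha => near_prob hm hZ hc hc0 hc1 (hcand a ha).1 hC0 hIH0' K s hK1 hK2)
      hc0le
    -- inclusion
    have hincl : {ω | ¬ Good L (fld Z ω) b J m} ⊆
        {ω | ∀ a < q, ¬ nearE L b J m K s (cand b J i1 i2 K s m a) (fld Z ω)} ∪
        ⋃ a ∈ Finset.range q, {ω | ∃ x ∈ Sl b J m, s ≤ defect J (cand b J i1 i2 K s m a) x ∧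
          defect J (cand b J i1 i2 K s m a) x < (m + 1 : ℕ) ∧
          ¬ Good L (fld Z ω) (base b J (cand b J i1 i2 K s m a) x)
            (free J (cand b J i1 i2 K s m a) x) (defect J (cand b J i1 i2 K s m a) x)} := by
      intro ω hω
      by_contra hcon
      simp only [Set.mem_union, Set.mem_ofPred_eq, Set.mem_iUnion, not_or, not_exists] at hcon
      obtain ⟨h1, h2⟩ := hcon
      push Not at h1
      obtain ⟨a, ha, hnear⟩ := h1
      apply hω
      refine junction hJ hK3 (hcand a ha).1 (hcand a ha).2 hnear.1 ?_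
      intro x hx hxK
      by_cases hxs : defect J (cand b J i1 i2 K s m a) x < s
      · exact hnear.2 x hx hxK hxs
      · push Not at hxs
        by_contra hbad
        refine h2 a (Finset.mem_range.2 ha) x ⟨hx, hxs, ?_, hbad⟩
        have := defect_le (hcand a ha).1 hx
        push_cast
        linarith
    have hfar : ∀ a ∈ Finset.range q, μ.real {ω | ∃ x ∈ Sl b J m,
          s ≤ defect J (cand b J i1 i2 K s m a) x ∧
          defect J (cand b J i1 i2 K s m a) x < (m + 1 : ℕ) ∧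
          ¬ Good L (fld Z ω) (base b J (cand b J i1 i2 K s m a) x)
            (free J (cand b J i1 i2 K s m a) x) (defect J (cand b J i1 i2 K s m a) x)} ≤
        2 * 4 ^ d * C1 / s ^ (2 * A + 1) := by
      intro a ha
      exact bad_range (μ := μ) (Z := Z) (hcand a (Finset.mem_range.1 ha)).1 hC1 (2 * A) hIH1' s
        (m + 1) (by omega)
    have hspos : (1 : ℝ) ≤ s := by exact_mod_cast (by omega : 1 ≤ s)
    have hmR : (m : ℝ) < ((s : ℝ) + 1) * (s + 1) := by exact_mod_cast hs2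
    calc μ.real {ω | ¬ Good L (fld Z ω) b J m}
        ≤ μ.real _ := measureReal_mono hincl (measure_ne_top _ _)
      _ ≤ μ.real _ + μ.real _ := measureReal_union_le _ _
      _ ≤ (1 - c0) ^ q + ∑ a ∈ Finset.range q, 2 * 4 ^ d * C1 / (s : ℝ) ^ (2 * A + 1) := by
          refine add_le_add hatt ?_
          exact le_trans (measureReal_biUnion_finset_le _ _) (Finset.sum_le_sum hfar)
      _ = (1 - c0) ^ q + q * (2 * 4 ^ d * C1 / (s : ℝ) ^ (2 * A + 1)) := by
          rw [Finset.sum_const, Finset.card_range, nsmul_eq_mul]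
      _ ≤ 16 ^ A * C2 / m ^ A + 4 ^ A * (2 * 4 ^ d * C1) / m ^ A := by
          refine add_le_add ?_ ?_
          · refine le_trans (hgeo q) ?_
            rw [div_le_div_iff₀ (by positivity) (by positivity)]
            have h1 : (m : ℝ) ≤ 16 * ((q : ℝ) + 1) ^ 2 := by
              have h2 : (s : ℝ) + 1 ≤ 4 * (q + 1) := by
                exact_mod_cast (by omega : s + 1 ≤ 4 * (q + 1))
              nlinarith
            have h3 : (m : ℝ) ^ A ≤ 16 ^ A * ((q : ℝ) + 1) ^ (2 * A) := by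
              rw [pow_mul, ← mul_pow]
              exact pow_le_pow_left₀ hmpos.le h1 A
            calc C2 * (m : ℝ) ^ A ≤ C2 * (16 ^ A * ((q : ℝ) + 1) ^ (2 * A)) := by gcongr
              _ = 16 ^ A * C2 * ((q : ℝ) + 1) ^ (2 * A) := by ring
          · have h1 : (q : ℝ) ≤ s := by exact_mod_cast (by omega : q ≤ s)
            have h2 : (m : ℝ) ≤ 4 * (s : ℝ) ^ 2 := by nlinarith
            have h3 : (m : ℝ) ^ A ≤ 4 ^ A * (s : ℝ) ^ (2 * A) := by
              rw [pow_mul, ← mul_pow]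
              exact pow_le_pow_left₀ hmpos.le h2 A
            calc (q : ℝ) * (2 * 4 ^ d * C1 / (s : ℝ) ^ (2 * A + 1))
                ≤ s * (2 * 4 ^ d * C1 / (s : ℝ) ^ (2 * A + 1)) := by gcongr
              _ = (2 * 4 ^ d * C1) / (s : ℝ) ^ (2 * A) := by
                  rw [pow_succ]; field_simp
              _ ≤ 4 ^ A * (2 * 4 ^ d * C1) / m ^ A := by
                  rw [div_le_div_iff₀ (by positivity) (by positivity)]
                  calc (2 * 4 ^ d * C1) * (m : ℝ) ^ A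
                      ≤ (2 * 4 ^ d * C1) * (4 ^ A * (s : ℝ) ^ (2 * A)) := by gcongr
                    _ = 4 ^ A * (2 * 4 ^ d * C1) * (s : ℝ) ^ (2 * A) := by ring
      _ ≤ Cf / m ^ A := by
          rw [← add_div, hCf]
          apply div_le_div_of_nonneg_right _ (by positivity)
          have : (0 : ℝ) ≤ (m0 : ℝ) ^ A := by positivity
          linarith

end prob

end Pool.Agent.helper98.Dp
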