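import Mathlib

set_option autoImplicit false
set_option linter.unusedSectionVars false

open Finset

namespace Pool.Agent.helper98.Dp

variable {d : ℕ}

/-- The directed edge `a → b` is open: `a, b` are nearest neighbours and `U b < U a + ε`. -/
def Op (ε : ℝ) (U : (Fin d → ℤ) → ℝ) (a b : Fin d → ℤ) : Prop :=
  ∑ i, |a i - b i| = 1 ∧ U b < U a + ε

/-- there is a directed open path from `a` to `b` -/
def Conn (ε : ℝ) (U : (Fin d → ℤ) → ℝ) (a b : Fin d → ℤ) : Prop :=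
  Relation.ReflTransGen (Op ε U) a b

/-- the strongly connected cluster of `a` -/
def clu (ε : ℝ) (U : (Fin d → ℤ) → ℝ) (a : Fin d → ℤ) : Set (Fin d → ℤ) :=
  {b | Conn ε U a b ∧ Conn ε U b a}

/-- the number of infinite strongly connected clusters -/
noncomputable def N (ε : ℝ) (U : (Fin d → ℤ) → ℝ) : ℕ∞ :=
  {C : Set (Fin d → ℤ) | C.Infinite ∧ ∃ a, C = clu ε U a}.encard

/-- the `ℓ¹` norm -/
def nrm (v : Fin d → ℤ) : ℤ := ∑ i, |v i|

lemma nrm_nonneg (v : Fin d → ℤ) : 0 ≤ nrm v := Finset.sum_nonneg fun _ _ => abs_nonneg _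

lemma nrm_step {a b : Fin d → ℤ} (h : ∑ i, |a i - b i| = 1) : nrm b ≤ nrm a + 1 ∧ nrm a ≤ nrm b + 1 := by
  unfold nrm
  constructor
  · have : ∑ i, |b i| ≤ ∑ i, (|a i| + |a i - b i|) := by
      apply Finset.sum_le_sum
      intro i _
      have h1 := abs_sub_abs_le_abs_sub (b i) (a i)
      rw [abs_sub_comm] at h1
      linarith
    rw [Finset.sum_add_distrib, h] at this
    exact this
  · have : ∑ i, |a i| ≤ ∑ i, (|b i| + |a i - b i|) := by
      apply Finset.sum_le_sum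
      intro i _
      have h1 := abs_sub_abs_le_abs_sub (a i) (b i)
      linarith
    rw [Finset.sum_add_distrib, h] at this
    exact this

lemma nrm_ball_finite (R : ℤ) : {v : Fin d → ℤ | nrm v ≤ R}.Finite := by
  apply (Set.finite_Icc (fun _ => -R) (fun _ => R)).subset
  intro v hv
  have h : ∀ i, |v i| ≤ R := by
    intro i
    have h1 : |v i| ≤ nrm v :=
      Finset.single_le_sum (f := fun i => |v i|) (fun i _ => abs_nonneg _) (Finset.mem_univ i)
    have h2 : nrm v ≤ R := hv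
    linarith
  exact ⟨fun i => (abs_le.1 (h i)).1, fun i => (abs_le.1 (h i)).2⟩

lemma mem_clu_self (ε : ℝ) (U : (Fin d → ℤ) → ℝ) (a : Fin d → ℤ) : a ∈ clu ε U a :=
  ⟨Relation.ReflTransGen.refl, Relation.ReflTransGen.refl⟩

lemma clu_eq {ε : ℝ} {U : (Fin d → ℤ) → ℝ} {a b : Fin d → ℤ} (h : b ∈ clu ε U a) :
    clu ε U a = clu ε U b := by
  ext c
  constructor
  · rintro ⟨h1, h2⟩; exact ⟨h.2.trans h1, h2.trans h.1⟩
  · rintro ⟨h1, h2⟩; exact ⟨h.1.trans h1, h2.trans h.2⟩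

/-- open edges outside the ball -/
def OpO (ε : ℝ) (U : (Fin d → ℤ) → ℝ) (R : ℤ) (a b : Fin d → ℤ) : Prop :=
  Op ε U a b ∧ R + 1 ≤ nrm a ∧ R + 1 ≤ nrm b

lemma OpO.congr {ε : ℝ} {U U' : (Fin d → ℤ) → ℝ} {R : ℤ} (h : ∀ v, R + 1 ≤ nrm v → U' v = U v)
    {a b : Fin d → ℤ} (ho : OpO ε U R a b) : Op ε U' a b := by
  refine ⟨ho.1.1, ?_⟩
  rw [h a ho.2.1, h b ho.2.2]
  exact ho.1.2

lemma conn_of_outer {ε : ℝ} {U U' : (Fin d → ℤ) → ℝ} {R : ℤ}
    (h : ∀ v, R + 1 ≤ nrm v → U' v = U v) {a b : Fin d → ℤ}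
    (ho : Relation.ReflTransGen (OpO ε U R) a b) : Conn ε U' a b := by
  induction ho with
  | refl => exact Relation.ReflTransGen.refl
  | tail _ h2 ih => exact ih.tail (h2.congr h)

lemma exit_path {ε : ℝ} {U : (Fin d → ℤ) → ℝ} {R : ℤ} {a b : Fin d → ℤ} (h : Conn ε U a b)
    (ha : R + 1 ≤ nrm a) (hb : nrm b ≤ R) :
    ∃ v, nrm v = R + 1 ∧ Relation.ReflTransGen (OpO ε U R) a v := by
  unfold Conn at h
  induction h using Relation.ReflTransGen.head_induction_on with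
  | refl => linarith
  | @head a' c' h1 _ ih =>
    by_cases h2 : nrm a' = R + 1
    · exact ⟨a', h2, Relation.ReflTransGen.refl⟩
    · have h3 : R + 1 < nrm a' := lt_of_le_of_ne ha (Ne.symm h2)
      have h4 : R + 1 ≤ nrm c' := by have := (nrm_step h1.1).2; linarith
      obtain ⟨v, hv1, hv2⟩ := ih h4
      exact ⟨v, hv1, hv2.head ⟨h1, ha, h4⟩⟩

lemma enter_path {ε : ℝ} {U : (Fin d → ℤ) → ℝ} {R : ℤ} {a b : Fin d → ℤ} (h : Conn ε U b a)
    (ha : R + 1 ≤ nrm a) (hb : nrm b ≤ R) :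
    ∃ v, nrm v = R + 1 ∧ Relation.ReflTransGen (OpO ε U R) v a := by
  unfold Conn at h
  induction h with
  | refl => linarith
  | @tail c' a' _ h1 ih =>
    by_cases h2 : nrm a' = R + 1
    · exact ⟨a', h2, Relation.ReflTransGen.refl⟩
    · have h3 : R + 1 < nrm a' := lt_of_le_of_ne ha (Ne.symm h2)
      have h4 : R + 1 ≤ nrm c' := by have := (nrm_step h1.1).1; linarith
      obtain ⟨v, hv1, hv2⟩ := ih h4
      exact ⟨v, hv1, hv2.tail ⟨h1, h4, ha⟩⟩

lemma outer_or {ε : ℝ} {U : (Fin d → ℤ) → ℝ} {R : ℤ} {a b : Fin d → ℤ} (h : Conn ε U a b)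
    (ha : R + 1 ≤ nrm a) :
    (R + 1 ≤ nrm b ∧ Relation.ReflTransGen (OpO ε U R) a b) ∨
      ∃ v, nrm v = R + 1 ∧ Conn ε U a v ∧ Conn ε U v b := by
  unfold Conn at h
  induction h with
  | refl => exact Or.inl ⟨ha, Relation.ReflTransGen.refl⟩
  | @tail b' c' h0 h1 ih =>
    rcases ih with ⟨h2, h3⟩ | ⟨v, hv1, hv2, hv3⟩
    · by_cases h4 : nrm b' = R + 1
      · exact Or.inr ⟨b', h4, h0, Relation.ReflTransGen.single h1⟩
      · have h5 : R + 1 < nrm b' := lt_of_le_of_ne h2 (Ne.symm h4)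
        have h6 : R + 1 ≤ nrm c' := by have := (nrm_step h1.1).2; linarith
        exact Or.inl ⟨h6, h3.tail ⟨h1, h2, h6⟩⟩
    · exact Or.inr ⟨v, hv1, hv2, hv3.tail h1⟩

/-- The merging lemma: if all vertices of the sphere are hub-connected after the modification and
all the infinite clusters met the ball before, there is exactly one infinite cluster after. -/
theorem merge {ε : ℝ} {U U' : (Fin d → ℤ) → ℝ} {R : ℤ}
    (hUU' : ∀ v, R + 1 ≤ nrm v → U' v = U v)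
    (hub : ∀ v, nrm v = R + 1 → v ∈ clu ε U' 0)
    (hinf : ∃ a, (clu ε U a).Infinite)
    (hmeet : ∀ a, (clu ε U a).Infinite → ∃ b ∈ clu ε U a, nrm b ≤ R) :
    N ε U' = 1 := by
  have hUU : ∀ v, R + 1 ≤ nrm v → U v = U' v := fun v hv => (hUU' v hv).symm
  -- (i)
  have h1 : ∀ a, (clu ε U a).Infinite → R + 1 ≤ nrm a → a ∈ clu ε U' 0 := by
    intro a hinfa ha
    obtain ⟨b, hb, hbR⟩ := hmeet a hinfa
    obtain ⟨v, hv1, hv2⟩ := exit_path hb.1 ha hbR
    obtain ⟨v', hv1', hv2'⟩ := enter_path hb.2 ha hbR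
    exact ⟨(hub v' hv1').1.trans (conn_of_outer hUU' hv2'),
      (conn_of_outer hUU' hv2).trans (hub v hv1).2⟩
  -- (ii)
  have h2 : (clu ε U' 0).Infinite := by
    obtain ⟨a, ha⟩ := hinf
    have h3 : (clu ε U a \ {v | nrm v ≤ R}).Infinite := ha.sdiff (nrm_ball_finite R)
    refine h3.mono ?_
    intro b hb
    have hb2 : ¬ nrm b ≤ R := hb.2
    push Not at hb2
    refine h1 b ?_ (by linarith)
    rw [← clu_eq hb.1]; exact ha
  -- (iii)
  have h3 : ∀ a, (clu ε U' a).Infinite → clu ε U' a = clu ε U' 0 := by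
    intro a ha
    obtain ⟨a', ha', hR'⟩ := (ha.sdiff (nrm_ball_finite R)).nonempty
    have hR : R + 1 ≤ nrm a' := by
      have : ¬ nrm a' ≤ R := hR'
      push Not at this; linarith
    rw [clu_eq ha'] at ha ⊢
    by_cases hv : ∃ v ∈ clu ε U' a', nrm v = R + 1
    · obtain ⟨v, hv1, hv2⟩ := hv
      rw [clu_eq hv1, clu_eq (hub v hv2)]
    · push Not at hv
      have h4 : clu ε U' a' ⊆ clu ε U a' := by
        intro b hb
        rcases outer_or hb.1 hR with ⟨h5, h6⟩ | ⟨v, hv1, hv2, hv3⟩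
        · refine ⟨conn_of_outer hUU h6, ?_⟩
          rcases outer_or hb.2 h5 with ⟨_, h8⟩ | ⟨v, hv1, hv2, hv3⟩
          · exact conn_of_outer hUU h8
          · exact absurd hv1 (hv v ⟨hb.1.trans hv2, hv3⟩)
        · exact absurd hv1 (hv v ⟨hv2, hv3.trans hb.2⟩)
      have h5 : a' ∈ clu ε U' 0 := h1 a' (ha.mono h4) hR
      exact (clu_eq h5).symm
  unfold N
  have h4 : {C : Set (Fin d → ℤ) | C.Infinite ∧ ∃ a, C = clu ε U' a} = {clu ε U' 0} := by
    ext C
    constructor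
    · rintro ⟨hC, a, rfl⟩
      exact h3 a hC
    · intro hC
      have hC' : C = clu ε U' 0 := hC
      rw [hC']
      exact ⟨h2, 0, rfl⟩
  rw [h4, Set.encard_singleton]

end Pool.Agent.helper98.Dp
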