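import Mathlib
import Pool.Agent.helper98.DpMerge

set_option autoImplicit false
set_option linter.unusedSectionVars false

open Finset MeasureTheory

namespace Pool.Agent.helper98.Dp

variable {d : ℕ}

/-! ### measurability -/

lemma measurableSet_Op (ε : ℝ) (a b : Fin d → ℤ) :
    MeasurableSet {U : (Fin d → ℤ) → ℝ | Op ε U a b} := by
  unfold Op
  by_cases h : ∑ i, |a i - b i| = 1
  · simp only [h, true_and]
    exact measurableSet_lt (measurable_pi_apply b) ((measurable_pi_apply a).add measurable_const)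
  · simp only [h, false_and]
    exact MeasurableSet.empty

/-- reachable in `n` steps -/
def reach (ε : ℝ) (U : (Fin d → ℤ) → ℝ) : ℕ → (Fin d → ℤ) → (Fin d → ℤ) → Prop
  | 0, a, b => a = b
  | n + 1, a, b => ∃ c, reach ε U n a c ∧ Op ε U c b

lemma conn_iff (ε : ℝ) (U : (Fin d → ℤ) → ℝ) (a b : Fin d → ℤ) :
    Conn ε U a b ↔ ∃ n, reach ε U n a b := by
  constructor
  · intro h
    unfold Conn at h
    induction h with
    | refl => exact ⟨0, rfl⟩
    | tail _ h1 ih =>
      obtain ⟨n, hn⟩ := ih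
      exact ⟨n + 1, _, hn, h1⟩
  · rintro ⟨n, hn⟩
    induction n generalizing b with
    | zero =>
      have : a = b := hn
      rw [this]; exact Relation.ReflTransGen.refl
    | succ n ih =>
      obtain ⟨c, hc, hcb⟩ := hn
      exact (ih c hc).tail hcb

lemma measurableSet_reach (ε : ℝ) (n : ℕ) (a b : Fin d → ℤ) :
    MeasurableSet {U : (Fin d → ℤ) → ℝ | reach ε U n a b} := by
  induction n generalizing b with
  | zero =>
    unfold reach
    exact MeasurableSet.const _
  | succ n ih =>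
    have : {U : (Fin d → ℤ) → ℝ | reach ε U (n + 1) a b}
        = ⋃ c, ({U | reach ε U n a c} ∩ {U | Op ε U c b}) := by
      ext U
      simp only [reach, Set.mem_iUnion, Set.mem_inter_iff, Set.mem_ofPred_eq]
    rw [this]
    exact MeasurableSet.iUnion fun c => (ih c).inter (measurableSet_Op ε c b)

lemma measurableSet_Conn (ε : ℝ) (a b : Fin d → ℤ) :
    MeasurableSet {U : (Fin d → ℤ) → ℝ | Conn ε U a b} := by
  have : {U : (Fin d → ℤ) → ℝ | Conn ε U a b} = ⋃ n, {U | reach ε U n a b} := by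
    ext U
    simp only [conn_iff, Set.mem_iUnion, Set.mem_ofPred_eq]
  rw [this]
  exact MeasurableSet.iUnion fun n => measurableSet_reach ε n a b

lemma measurableSet_mem_clu (ε : ℝ) (a b : Fin d → ℤ) :
    MeasurableSet {U : (Fin d → ℤ) → ℝ | b ∈ clu ε U a} :=
  (measurableSet_Conn ε a b).inter (measurableSet_Conn ε b a)

lemma infinite_iff (C : Set (Fin d → ℤ)) : C.Infinite ↔ ∀ n : ℕ, ∃ b ∈ C, (n : ℤ) < nrm b := by
  constructor
  · intro h n
    obtain ⟨b, hb, hn⟩ := (h.sdiff (nrm_ball_finite (d := d) n)).nonempty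
    exact ⟨b, hb, by
      have : ¬ nrm b ≤ n := hn
      push Not at this; exact this⟩
  · intro h hfin
    obtain ⟨M, hM⟩ := (hfin.image nrm).bddAbove
    obtain ⟨b, hb, hlt⟩ := h M.toNat
    have h1 : nrm b ≤ M := hM ⟨b, hb, rfl⟩
    have h2 : M ≤ M.toNat := Int.self_le_toNat M
    linarith

lemma measurableSet_infinite (ε : ℝ) (a : Fin d → ℤ) :
    MeasurableSet {U : (Fin d → ℤ) → ℝ | (clu ε U a).Infinite} := by
  have : {U : (Fin d → ℤ) → ℝ | (clu ε U a).Infinite}
      = ⋂ n : ℕ, ⋃ b : Fin d → ℤ, ⋃ (_ : (n : ℤ) < nrm b), {U | b ∈ clu ε U a} := by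
    ext U
    simp only [infinite_iff, Set.mem_iInter, Set.mem_iUnion, Set.mem_ofPred_eq, exists_prop]
    constructor
    · intro h n
      obtain ⟨b, hb1, hb2⟩ := h n
      exact ⟨b, hb2, hb1⟩
    · intro h n
      obtain ⟨b, hb1, hb2⟩ := h n
      exact ⟨b, hb2, hb1⟩
  rw [this]
  exact MeasurableSet.iInter fun n => MeasurableSet.iUnion fun b => MeasurableSet.iUnion fun _ =>
    measurableSet_mem_clu ε a b

lemma le_N_iff (ε : ℝ) (U : (Fin d → ℤ) → ℝ) (k : ℕ) :
    (k : ℕ∞) ≤ N ε U ↔ ∃ s : Finset (Fin d → ℤ), s.card = k ∧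
      (∀ a ∈ s, (clu ε U a).Infinite) ∧ ∀ a ∈ s, ∀ b ∈ s, a ≠ b → b ∉ clu ε U a := by
  classical
  constructor
  · intro h
    obtain ⟨t, ht1, ht2⟩ := Set.exists_subset_encard_eq h
    have hfin : t.Finite := Set.finite_of_encard_eq_coe ht2
    have hchoice : ∀ C : Set (Fin d → ℤ), ∃ a : Fin d → ℤ, C ∈ t → C = clu ε U a := by
      intro C
      by_cases hC : C ∈ t
      · obtain ⟨a, ha⟩ := (ht1 hC).2
        exact ⟨a, fun _ => ha⟩
      · exact ⟨0, fun h => absurd h hC⟩
    choose f hf using hchoice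
    have hinj : Set.InjOn f (hfin.toFinset : Set (Set (Fin d → ℤ))) := by
      intro C hC C' hC' hff
      rw [Set.Finite.coe_toFinset] at hC hC'
      rw [hf C hC, hf C' hC', hff]
    refine ⟨hfin.toFinset.image f, ?_, ?_, ?_⟩
    · rw [Finset.card_image_of_injOn hinj]
      have := Set.encard_coe_eq_coe_finsetCard hfin.toFinset
      rw [Set.Finite.coe_toFinset, ht2] at this
      exact_mod_cast this.symm
    · intro a ha
      obtain ⟨C, hC, rfl⟩ := Finset.mem_image.1 ha
      have hC' : C ∈ t := hfin.mem_toFinset.1 hC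
      rw [← hf C hC']
      exact (ht1 hC').1
    · intro a ha b hb hab hmem
      obtain ⟨C, hC, rfl⟩ := Finset.mem_image.1 ha
      obtain ⟨C', hC', rfl⟩ := Finset.mem_image.1 hb
      have h1 : C ∈ t := hfin.mem_toFinset.1 hC
      have h2 : C' ∈ t := hfin.mem_toFinset.1 hC'
      have h3 := clu_eq hmem
      rw [← hf C h1, ← hf C' h2] at h3
      exact hab (by rw [h3])
  · rintro ⟨s, hs1, hs2, hs3⟩
    have hinj : Set.InjOn (clu ε U) (s : Set (Fin d → ℤ)) := by
      intro a ha b hb hab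
      by_contra hne
      apply hs3 a ha b hb hne
      rw [hab]; exact mem_clu_self _ _ _
    have h1 : (k : ℕ∞) = (clu ε U '' (s : Set (Fin d → ℤ))).encard := by
      rw [hinj.encard_image, Set.encard_coe_eq_coe_finsetCard, hs1]
    rw [h1]
    apply Set.encard_le_encard
    rintro C ⟨a, ha, rfl⟩
    exact ⟨hs2 a ha, a, rfl⟩

lemma measurableSet_le_N (ε : ℝ) (k : ℕ) :
    MeasurableSet {U : (Fin d → ℤ) → ℝ | (k : ℕ∞) ≤ N ε U} := by
  have : {U : (Fin d → ℤ) → ℝ | (k : ℕ∞) ≤ N ε U}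
      = ⋃ s : Finset (Fin d → ℤ), ⋃ (_ : s.card = k),
        ((⋂ a ∈ s, {U | (clu ε U a).Infinite}) ∩
          ⋂ a ∈ s, ⋂ b ∈ s, ⋂ (_ : a ≠ b), {U | b ∈ clu ε U a}ᶜ) := by
    ext U
    simp only [le_N_iff, Set.mem_iInter, Set.mem_iUnion, Set.mem_ofPred_eq, exists_prop,
      Set.mem_inter_iff, Set.mem_compl_iff]
  rw [this]
  refine MeasurableSet.iUnion fun s => MeasurableSet.iUnion fun _ => MeasurableSet.inter ?_ ?_
  · exact Finset.measurableSet_biInter _ fun a _ => measurableSet_infinite ε a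
  · exact Finset.measurableSet_biInter _ fun a _ => Finset.measurableSet_biInter _ fun b _ =>
      MeasurableSet.iInter fun _ => (measurableSet_mem_clu ε a b).compl

lemma measurableSet_N_eq (ε : ℝ) (k : ℕ) :
    MeasurableSet {U : (Fin d → ℤ) → ℝ | N ε U = k} := by
  have : {U : (Fin d → ℤ) → ℝ | N ε U = k}
      = {U | (k : ℕ∞) ≤ N ε U} \ {U | ((k + 1 : ℕ) : ℕ∞) ≤ N ε U} := by
    ext U
    simp only [Set.mem_sdiff, Set.mem_ofPred_eq]
    constructor
    · intro h
      rw [h]
      refine ⟨le_refl _, ?_⟩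
      intro h'
      have : k + 1 ≤ k := by exact_mod_cast h'
      omega
    · rintro ⟨h1, h2⟩
      refine le_antisymm ?_ h1
      by_contra hcon
      push Not at hcon
      apply h2
      have := Order.add_one_le_of_lt hcon
      exact_mod_cast this
  rw [this]
  exact (measurableSet_le_N ε k).diff (measurableSet_le_N ε (k + 1))

/-! ### translations -/

/-- translate -/
def sh {X : Type*} (t : Fin d → ℤ) (U : (Fin d → ℤ) → X) : (Fin d → ℤ) → X := fun v => U (v + t)

lemma op_sh (ε : ℝ) (t : Fin d → ℤ) (U : (Fin d → ℤ) → ℝ) (a b : Fin d → ℤ) :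
    Op ε (sh t U) a b ↔ Op ε U (a + t) (b + t) := by
  unfold Op sh
  have : ∑ i, |(a + t) i - (b + t) i| = ∑ i, |a i - b i| := by
    apply Finset.sum_congr rfl
    intro i _
    congr 1
    simp only [Pi.add_apply]; ring
  rw [this]

lemma conn_sh (ε : ℝ) (t : Fin d → ℤ) (U : (Fin d → ℤ) → ℝ) (a b : Fin d → ℤ) :
    Conn ε (sh t U) a b ↔ Conn ε U (a + t) (b + t) := by
  constructor
  · intro h
    unfold Conn at h
    induction h with
    | refl => exact Relation.ReflTransGen.refl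
    | tail _ h1 ih => exact ih.tail ((op_sh ε t U _ _).1 h1)
  · intro h
    have key : ∀ c, Conn ε U (a + t) c → Conn ε (sh t U) a (c - t) := by
      intro c hc
      unfold Conn at hc
      induction hc with
      | refl => rw [add_sub_cancel_right]; exact Relation.ReflTransGen.refl
      | tail _ h1 ih =>
        refine ih.tail ((op_sh ε t U _ _).2 ?_)
        rw [sub_add_cancel, sub_add_cancel]
        exact h1
    have := key _ h
    rwa [add_sub_cancel_right] at this

lemma clu_sh (ε : ℝ) (t : Fin d → ℤ) (U : (Fin d → ℤ) → ℝ) (a : Fin d → ℤ) :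
    clu ε (sh t U) a = (fun v => v + t) ⁻¹' clu ε U (a + t) := by
  ext b
  unfold clu
  simp only [Set.mem_preimage, Set.mem_ofPred_eq, conn_sh]

lemma N_sh (ε : ℝ) (t : Fin d → ℤ) (U : (Fin d → ℤ) → ℝ) : N ε (sh t U) = N ε U := by
  unfold N
  have hbij : Function.Bijective (fun v : Fin d → ℤ => v + t) := (Equiv.addRight t).bijective
  have hinj : Function.Injective (fun C : Set (Fin d → ℤ) => (fun v : Fin d → ℤ => v + t) ⁻¹' C) :=
    Set.preimage_injective.2 hbij.surjective
  rw [← hinj.encard_image {C | C.Infinite ∧ ∃ a, C = clu ε U a}]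
  congr 1
  ext C
  constructor
  · rintro ⟨h1, a, rfl⟩
    refine ⟨clu ε U (a + t), ⟨?_, a + t, rfl⟩, (clu_sh ε t U a).symm⟩
    rw [clu_sh] at h1
    intro hfin
    exact h1 (hfin.preimage hbij.injective.injOn)
  · rintro ⟨C', ⟨h1, a, rfl⟩, rfl⟩
    refine ⟨?_, a - t, ?_⟩
    · intro hfin
      apply h1
      have := hfin.image (fun v : Fin d → ℤ => v + t)
      rwa [Set.image_preimage_eq _ hbij.surjective] at this
    · rw [clu_sh, sub_add_cancel]

/-! ### the degenerate case -/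

lemma N_nonpos {ε : ℝ} (hε : ε ≤ 0) (U : (Fin d → ℤ) → ℝ) : N ε U = 0 := by
  unfold N
  rw [Set.encard_eq_zero]
  ext C
  simp only [Set.mem_ofPred_eq, Set.mem_empty_iff_false, iff_false, not_and]
  rintro hC ⟨a, rfl⟩
  have hle : ∀ b c, Conn ε U b c → b = c ∨ U c < U b := by
    intro b c h
    unfold Conn at h
    induction h with
    | refl => exact Or.inl rfl
    | tail _ h1 ih =>
      right
      have h2 := h1.2
      rcases ih with h3 | h3
      · rw [h3]; linarith
      · linarith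
  apply hC
  apply (Set.finite_singleton a).subset
  rintro b ⟨h1, h2⟩
  rcases hle a b h1 with h3 | h3
  · exact h3.symm
  · rcases hle b a h2 with h4 | h4
    · exact h4
    · linarith

/-- finitely many infinite clusters all meet a large ball -/
lemma meet_ball {ε : ℝ} {U : (Fin d → ℤ) → ℝ} {k : ℕ} (h : N ε U = k) :
    ∃ R : ℕ, ∀ a, (clu ε U a).Infinite → ∃ b ∈ clu ε U a, nrm b ≤ R := by
  classical
  unfold N at h
  have hfin : {C : Set (Fin d → ℤ) | C.Infinite ∧ ∃ a, C = clu ε U a}.Finite :=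
    Set.finite_of_encard_eq_coe h
  have hch : ∀ C : Set (Fin d → ℤ), ∃ n : ℕ, C.Infinite → ∃ b ∈ C, nrm b ≤ n := by
    intro C
    by_cases hC : C.Infinite
    · obtain ⟨b, hb⟩ := hC.nonempty
      exact ⟨(nrm b).toNat, fun _ => ⟨b, hb, Int.self_le_toNat _⟩⟩
    · exact ⟨0, fun h => absurd h hC⟩
  choose f hf using hch
  obtain ⟨M, hM⟩ := (hfin.image f).bddAbove
  refine ⟨M, ?_⟩
  intro a ha
  obtain ⟨b, hb, hbn⟩ := hf _ ha
  refine ⟨b, hb, ?_⟩
  have h1 : f (clu ε U a) ≤ M := hM ⟨_, ⟨ha, a, rfl⟩, rfl⟩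
  have h2 : ((f (clu ε U a) : ℕ) : ℤ) ≤ M := by exact_mod_cast h1
  linarith

end Pool.Agent.helper98.Dp
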