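import Mathlib
import Pool.Agent.helper98.DpMeas

set_option autoImplicit false
set_option linter.unusedSectionVars false

open Finset MeasureTheory ProbabilityTheory
open scoped symmDiff

namespace Pool.Agent.helper98.Dp

variable {d : ℕ} {X : Type*} [MeasurableSpace X] (ν : Measure X) [IsProbabilityMeasure ν]

/-- the product measure on configurations -/
noncomputable abbrev PP (d : ℕ) : Measure ((Fin d → ℤ) → X) :=
  Measure.infinitePi fun _ : Fin d → ℤ => ν

lemma measurable_sh (t : Fin d → ℤ) : Measurable (sh t : ((Fin d → ℤ) → X) → _) :=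
  measurable_pi_lambda _ fun v => measurable_pi_apply (v + t)

lemma map_sh (t : Fin d → ℤ) : (PP ν d).map (sh t) = PP ν d := by
  classical
  apply Measure.eq_infinitePi
  intro s B hB
  rw [Measure.map_apply (measurable_sh t) (MeasurableSet.pi s.countable_toSet fun i _ => hB i)]
  have h1 : (sh t : ((Fin d → ℤ) → X) → _) ⁻¹' (Set.pi (s : Set (Fin d → ℤ)) B) =
      Set.pi ((s.image fun v => v + t : Finset (Fin d → ℤ)) : Set (Fin d → ℤ))
        (fun v => B (v - t)) := by
    ext u
    simp only [Set.mem_preimage, Set.mem_pi, Finset.mem_coe, Finset.mem_image]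
    constructor
    · rintro h v ⟨w, hw, rfl⟩
      rw [add_sub_cancel_right]
      exact h w hw
    · intro h w hw
      have := h (w + t) ⟨w, hw, rfl⟩
      rw [add_sub_cancel_right] at this
      exact this
  rw [h1, Measure.infinitePi_pi _ (fun i _ => hB _), Finset.prod_image]
  · apply Finset.prod_congr rfl
    intro v _
    rw [add_sub_cancel_right]
  · intro a _ b _ hab
    exact add_right_cancel hab

lemma measure_preimage_sh (t : Fin d → ℤ) {E : Set ((Fin d → ℤ) → X)} (hE : MeasurableSet E) :
    (PP ν d) (sh t ⁻¹' E) = PP ν d E := by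
  conv_rhs => rw [← map_sh ν t]
  rw [Measure.map_apply (measurable_sh t) hE]

/-- **0-1 law** for translation invariant events of the product measure. -/
theorem zero_one (hd : 0 < d) {E : Set ((Fin d → ℤ) → X)} (hE : MeasurableSet E)
    (hinv : ∀ t, sh t ⁻¹' E = E) : PP ν d E = 0 ∨ PP ν d E = 1 := by
  classical
  set P := PP ν d with hP
  have key : ∀ δ : ℝ, 0 < δ → |P.real E - P.real E ^ 2| ≤ 4 * δ := by
    intro δ hδ
    obtain ⟨C, hC, hCE⟩ := exists_measure_symmDiff_lt_of_generateFrom_isSetRing (μ := P)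
      (C := measurableCylinders fun _ : Fin d → ℤ => X) isSetRing_measurableCylinders
      ⟨{Set.univ}, Set.countable_singleton _, by
        rw [Set.singleton_subset_iff]; exact univ_mem_measurableCylinders _, by simp⟩
      generateFrom_measurableCylinders.symm hE (ε := ENNReal.ofReal δ) (ENNReal.ofReal_pos.2 hδ)
    have hCm : MeasurableSet C := MeasurableSet.of_mem_measurableCylinders hC
    obtain ⟨S, B, hB, hCdef⟩ := (mem_measurableCylinders C).1 hC
    have hCE' : P.real (C ∆ E) ≤ δ := by
      have := hCE.le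
      exact ENNReal.toReal_le_of_le_ofReal hδ.le this
    -- the shift
    have : Nonempty (Fin d) := ⟨⟨0, hd⟩⟩
    obtain ⟨t, ht⟩ := Infinite.exists_notMem_finset ((S ×ˢ S).image fun p => p.1 - p.2)
    set T : Finset (Fin d → ℤ) := S.image fun v => v + t with hT
    have hST : Disjoint S T := by
      rw [Finset.disjoint_left]
      intro a ha ha'
      obtain ⟨b, hb, hba⟩ := Finset.mem_image.1 ha'
      apply ht
      refine Finset.mem_image.2 ⟨(a, b), Finset.mem_product.2 ⟨ha, hb⟩, ?_⟩
      simp only
      rw [← hba]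
      exact add_sub_cancel_left _ _
    have hind : iIndepFun (fun (v : Fin d → ℤ) (u : (Fin d → ℤ) → X) => u v) P :=
      iIndepFun_infinitePi (P := fun _ : Fin d → ℤ => ν) (X := fun _ x => x)
        (fun _ => measurable_id)
    have h1 := hind.indepFun_finset S T hST (fun v => measurable_pi_apply v)
    have hmem : ∀ i : S, (i : Fin d → ℤ) + t ∈ T := fun i =>
      Finset.mem_image.2 ⟨i, i.2, rfl⟩
    have h3 : C = (fun (u : (Fin d → ℤ) → X) (i : S) => u i) ⁻¹' B := by
      rw [hCdef]; rfl
    have h2 : sh t ⁻¹' C = (fun (u : (Fin d → ℤ) → X) (i : T) => u i) ⁻¹'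
        {z | (fun i : S => z ⟨(i : Fin d → ℤ) + t, hmem i⟩) ∈ B} := by
      rw [h3]
      rfl
    have h4 : P (C ∩ sh t ⁻¹' C) = P C * P (sh t ⁻¹' C) := by
      rw [h2]
      conv_lhs => rw [h3]
      conv_rhs => rw [h3]
      apply h1.measure_inter_preimage_eq_mul _ _ hB
      exact (measurable_pi_lambda _ fun i => measurable_pi_apply _) hB
    have h5 : P.real (C ∩ sh t ⁻¹' C) = P.real C ^ 2 := by
      unfold Measure.real
      rw [h4, measure_preimage_sh ν t hCm, ENNReal.toReal_mul, sq]
    have h6 : |P.real C - P.real E| ≤ δ :=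
      le_trans (abs_measureReal_sub_le_measureReal_symmDiff hCm.nullMeasurableSet hE.nullMeasurableSet) hCE'
    have hshE : MeasurableSet (sh t ⁻¹' E) := measurable_sh t hE
    have hshC : MeasurableSet (sh t ⁻¹' C) := measurable_sh t hCm
    have h7 : |P.real (C ∩ sh t ⁻¹' C) - P.real (E ∩ sh t ⁻¹' E)| ≤ 2 * δ := by
      refine le_trans (abs_measureReal_sub_le_measureReal_symmDiff (hCm.inter hshC).nullMeasurableSet
        (hE.inter hshE).nullMeasurableSet) ?_
      have h8 : (C ∩ sh t ⁻¹' C) ∆ (E ∩ sh t ⁻¹' E) ⊆ (C ∆ E) ∪ sh t ⁻¹' (C ∆ E) := by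
        intro u hu
        simp only [Set.mem_symmDiff, Set.mem_inter_iff, Set.mem_preimage, Set.mem_union] at hu ⊢
        tauto
      have h9 : P.real (sh t ⁻¹' (C ∆ E)) = P.real (C ∆ E) := by
        unfold Measure.real
        rw [measure_preimage_sh ν t (hCm.symmDiff hE)]
      calc P.real _ ≤ P.real ((C ∆ E) ∪ sh t ⁻¹' (C ∆ E)) := measureReal_mono h8 (measure_ne_top _ _)
        _ ≤ P.real (C ∆ E) + P.real (sh t ⁻¹' (C ∆ E)) := measureReal_union_le _ _
        _ ≤ 2 * δ := by rw [h9]; linarith
    rw [hinv t, Set.inter_self, h5] at h7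
    have h10 : |P.real C ^ 2 - P.real E ^ 2| ≤ 2 * δ := by
      have h11 : P.real C ^ 2 - P.real E ^ 2 = (P.real C - P.real E) * (P.real C + P.real E) := by
        ring
      rw [h11, abs_mul]
      have h12 : |P.real C + P.real E| ≤ 2 := by
        rw [abs_of_nonneg (add_nonneg measureReal_nonneg measureReal_nonneg)]
        have h13 : P.real C ≤ 1 := measureReal_le_one
        have h14 : P.real E ≤ 1 := measureReal_le_one
        linarith
      calc |P.real C - P.real E| * |P.real C + P.real E| ≤ δ * 2 :=
            mul_le_mul h6 h12 (abs_nonneg _) hδ.le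
        _ = 2 * δ := by ring
    have h15 := abs_le.1 h7
    have h16 := abs_le.1 h10
    rw [abs_le]
    constructor <;> linarith
  have h1 : P.real E - P.real E ^ 2 = 0 := by
    by_contra hne
    have h2 : 0 < |P.real E - P.real E ^ 2| := abs_pos.2 hne
    have h3 := key (|P.real E - P.real E ^ 2| / 8) (by linarith)
    linarith
  have h2 : P.real E * (1 - P.real E) = 0 := by linarith [h1, sq (P.real E)]
  rcases mul_eq_zero.1 h2 with h | h
  · left
    exact (measureReal_eq_zero_iff (measure_ne_top _ _)).1 h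
  · right
    have h3 : P.real E = 1 := by linarith
    have h4 : (P E).toReal = 1 := h3
    rw [← ENNReal.ofReal_toReal (measure_ne_top P E), h4, ENNReal.ofReal_one]

/-! ### resampling in a finite set -/

open Classical in
/-- resampling -/
noncomputable def resamp (S : Finset (Fin d → ℤ)) (p : ((Fin d → ℤ) → X) × ((Fin d → ℤ) → X)) :
    (Fin d → ℤ) → X := fun v => if v ∈ S then p.2 v else p.1 v

lemma measurable_resamp (S : Finset (Fin d → ℤ)) :
    Measurable (resamp S : _ → ((Fin d → ℤ) → X)) := by
  classical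
  apply measurable_pi_lambda
  intro v
  unfold resamp
  by_cases hv : v ∈ S
  · simp only [hv, if_true]
    exact (measurable_pi_apply v).comp measurable_snd
  · simp only [hv, if_false]
    exact (measurable_pi_apply v).comp measurable_fst

lemma map_resamp (S : Finset (Fin d → ℤ)) :
    ((PP ν d).prod (PP ν d)).map (resamp S) = PP ν d := by
  classical
  apply Measure.eq_infinitePi
  intro s B hB
  rw [Measure.map_apply (measurable_resamp S)
    (MeasurableSet.pi s.countable_toSet fun i _ => hB i)]
  have h1 : (resamp S : _ → ((Fin d → ℤ) → X)) ⁻¹' (Set.pi (s : Set (Fin d → ℤ)) B) =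
      (Set.pi ((s.filter fun v => ¬ v ∈ S : Finset (Fin d → ℤ)) : Set (Fin d → ℤ)) B) ×ˢ
      (Set.pi ((s.filter fun v => v ∈ S : Finset (Fin d → ℤ)) : Set (Fin d → ℤ)) B) := by
    ext ⟨u, u'⟩
    simp only [Set.mem_preimage, Set.mem_pi, Finset.mem_coe, Finset.mem_filter, Set.mem_prod,
      resamp]
    constructor
    · intro h
      constructor
      · rintro v ⟨hv, hvS⟩
        have := h v hv
        rwa [if_neg hvS] at this
      · rintro v ⟨hv, hvS⟩
        have := h v hv
        rwa [if_pos hvS] at this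
    · rintro ⟨h1, h2⟩ v hv
      by_cases hvS : v ∈ S
      · rw [if_pos hvS]; exact h2 v ⟨hv, hvS⟩
      · rw [if_neg hvS]; exact h1 v ⟨hv, hvS⟩
  rw [h1, Measure.prod_prod, Measure.infinitePi_pi _ (fun i _ => hB i),
    Measure.infinitePi_pi _ (fun i _ => hB i), mul_comm]
  exact Finset.prod_filter_mul_prod_filter_not s (fun v => v ∈ S) (fun v => ν (B v))

end Pool.Agent.helper98.Dp
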