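import Mathlib
import Pool.Agent.helper98.DpDir
import Pool.Agent.helper98.DpMerge

set_option autoImplicit false
set_option linter.unusedSectionVars false

open Finset

namespace Pool.Agent.helper98.Dp

variable {d : ℕ}

/-- sign -/
def sg (z : ℤ) : ℤ := if z < 0 then -1 else 1

/-- reflection in the coordinates of `T` -/
def refl (T : Finset (Fin d)) (x : Fin d → ℤ) : Fin d → ℤ := fun i => if i ∈ T then -x i else x i

/-- move `j` steps towards the hyperplane `x k = 0` -/
def ray (v : Fin d → ℤ) (k : Fin d) (j : ℕ) : Fin d → ℤ :=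
  fun i => if i = k then v i - sg (v i) * j else v i

/-- base point of a face -/
def fb (J : Finset (Fin d)) : Fin d → ℤ := fun i => if i ∈ J then 1 else 0

/-- all the faces of the sphere of radius `R+1` are good -/
def FR (L : ℕ) (R : ℤ) (ξ : (Fin d → ℤ) → Prop) : Prop :=
  ∀ T J : Finset (Fin d), J.Nonempty →
    Good L (fun x => ξ (refl T x)) (fb J) J (R + 1 - J.card)

/-- negative coordinates -/
def ng (v : Fin d → ℤ) : Finset (Fin d) := Finset.univ.filter fun i => v i < 0
/-- nonzero coordinates -/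
def nz (v : Fin d → ℤ) : Finset (Fin d) := Finset.univ.filter fun i => v i ≠ 0
/-- coordinatewise absolute value -/
def av (v : Fin d → ℤ) : Fin d → ℤ := fun i => |v i|

lemma refl_av (v : Fin d → ℤ) : refl (ng v) (av v) = v := by
  funext i
  unfold refl ng av
  simp only [Finset.mem_filter, Finset.mem_univ, true_and]
  split_ifs with h
  · rw [abs_of_neg h]; ring
  · rw [abs_of_nonneg (by linarith)]

lemma av_mem {v : Fin d → ℤ} {R : ℤ} (h : nrm v = R + 1) :
    av v ∈ Sl (fb (nz v)) (nz v) (R + 1 - (nz v).card) := by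
  refine ⟨?_, ?_, ?_⟩
  · intro i hi
    have h1 : v i = 0 := by
      by_contra hne
      exact hi (Finset.mem_filter.2 ⟨Finset.mem_univ _, hne⟩)
    unfold fb av
    rw [if_neg hi, h1, abs_zero]
  · intro i hi
    have h1 : v i ≠ 0 := (Finset.mem_filter.1 hi).2
    unfold fb av
    rw [if_pos hi]
    exact Int.one_le_abs h1
  · have h1 : ∑ i ∈ nz v, (av v i - fb (nz v) i) = ∑ i ∈ nz v, (|v i| - 1) := by
      apply Finset.sum_congr rfl
      intro i hi
      unfold fb av
      rw [if_pos hi]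
    rw [h1, Finset.sum_sub_distrib, Finset.sum_const, nsmul_eq_mul, mul_one]
    have h2 : ∑ i ∈ nz v, |v i| = nrm v := by
      unfold nrm
      apply Finset.sum_subset (Finset.subset_univ _)
      intro i _ hi
      have h1 : v i = 0 := by
        by_contra hne
        exact hi (Finset.mem_filter.2 ⟨Finset.mem_univ _, hne⟩)
      rw [h1, abs_zero]
    rw [h2, h]

lemma ray_same_sign {v : Fin d → ℤ} {k : Fin d} {j : ℕ} (h : (j : ℤ) + 1 ≤ |v k|) (i : Fin d) :
    (ray v k j i < 0 ↔ v i < 0) ∧ (ray v k j i = 0 ↔ v i = 0) ∧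
      |ray v k j i| = |v i| - if i = k then (j : ℤ) else 0 := by
  unfold ray sg
  by_cases hik : i = k
  · subst hik
    rw [if_pos rfl, if_pos rfl]
    have hj : (0 : ℤ) ≤ j := Nat.cast_nonneg _
    by_cases hneg : v i < 0
    · rw [if_pos hneg]
      rw [abs_of_neg hneg] at h ⊢
      have h1 : v i - -1 * (j : ℤ) < 0 := by linarith
      rw [abs_of_neg h1]
      refine ⟨⟨fun _ => hneg, fun _ => h1⟩, ⟨fun h' => ?_, fun h' => ?_⟩, by ring⟩ <;> omega
    · rw [if_neg hneg]
      push Not at hneg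
      rw [abs_of_nonneg hneg] at h ⊢
      have h1 : 0 < v i - 1 * (j : ℤ) := by linarith
      rw [abs_of_pos h1]
      refine ⟨⟨fun h' => ?_, fun h' => ?_⟩, ⟨fun h' => ?_, fun h' => ?_⟩, by ring⟩ <;> omega
  · rw [if_neg hik, if_neg hik, sub_zero]
    exact ⟨Iff.rfl, Iff.rfl, rfl⟩

lemma ray_ng {v : Fin d → ℤ} {k : Fin d} {j : ℕ} (h : (j : ℤ) + 1 ≤ |v k|) :
    ng (ray v k j) = ng v ∧ nz (ray v k j) = nz v := by
  constructor
  · ext i
    unfold ng
    simp only [Finset.mem_filter, Finset.mem_univ, true_and]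
    exact (ray_same_sign h i).1
  · ext i
    unfold nz
    simp only [Finset.mem_filter, Finset.mem_univ, true_and, ne_eq]
    exact not_congr (ray_same_sign h i).2.1

lemma nrm_ray {v : Fin d → ℤ} {k : Fin d} {j : ℕ} (h : (j : ℤ) ≤ |v k|) :
    nrm (ray v k j) = nrm v - j := by
  unfold nrm
  rw [← Finset.add_sum_erase Finset.univ _ (Finset.mem_univ k),
    ← Finset.add_sum_erase Finset.univ _ (Finset.mem_univ k)]
  have h1 : ∑ i ∈ Finset.univ.erase k, |ray v k j i| = ∑ i ∈ Finset.univ.erase k, |v i| := by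
    apply Finset.sum_congr rfl
    intro i hi
    unfold ray
    rw [if_neg (Finset.ne_of_mem_erase hi)]
  have h2 : |ray v k j k| = |v k| - j := by
    unfold ray sg
    rw [if_pos rfl]
    have hj : (0 : ℤ) ≤ j := Nat.cast_nonneg _
    by_cases hneg : v k < 0
    · rw [if_pos hneg]
      rw [abs_of_neg hneg] at h ⊢
      rw [abs_of_nonpos (by linarith)]; ring
    · rw [if_neg hneg]
      push Not at hneg
      rw [abs_of_nonneg hneg] at h ⊢
      rw [abs_of_nonneg (by linarith)]; ring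
  rw [h1, h2]; ring

/-- From good faces to conflict-free directions on the sphere. -/
theorem dirs (hd : 0 < d) {L : ℕ} {R : ℤ} (hR : 0 ≤ R) {ξ : (Fin d → ℤ) → Prop} (hF : FR L R ξ) :
    ∃ κ : (Fin d → ℤ) → Fin d,
      (∀ v, nrm v = R + 1 → (L : ℤ) + 2 ≤ |v (κ v)|) ∧
      ∀ v v', nrm v = R + 1 → nrm v' = R + 1 → ∀ j : ℕ, 1 ≤ j → j ≤ L → κ v ≠ κ v' →
        ray v (κ v) j = ray v' (κ v') j → ξ v ∧ ξ v' := by
  classical
  have hF' : ∀ T J : Finset (Fin d), ∃ κ : (Fin d → ℤ) → Fin d, J.Nonempty →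
    (∀ x ∈ Sl (fb J) J (R + 1 - J.card), κ x ∈ J ∧ fb J (κ x) + L + 1 ≤ x (κ x)) ∧
    ∀ x ∈ Sl (fb J) J (R + 1 - J.card), ∀ x' ∈ Sl (fb J) J (R + 1 - J.card), ∀ j : ℕ,
      1 ≤ j → j ≤ L → κ x ≠ κ x' →
      x + (j : ℤ) • ev (κ x') = x' + (j : ℤ) • ev (κ x) → ξ (refl T x) ∧ ξ (refl T x') := by
    intro T J
    by_cases hJ : J.Nonempty
    · obtain ⟨κ, h1⟩ := hF T J hJ
      exact ⟨κ, fun _ => h1⟩
    · exact ⟨fun _ => ⟨0, hd⟩, fun h => absurd h hJ⟩
  choose κs hκs using hF'
  have hne : ∀ v : Fin d → ℤ, nrm v = R + 1 → (nz v).Nonempty := by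
    intro v hv
    by_contra hcon
    rw [Finset.not_nonempty_iff_eq_empty] at hcon
    have h3 : nrm v = 0 := by
      unfold nrm
      apply Finset.sum_eq_zero
      intro i _
      have : i ∉ nz v := by rw [hcon]; exact Finset.notMem_empty i
      have h1 : v i = 0 := by
        by_contra hne
        exact this (Finset.mem_filter.2 ⟨Finset.mem_univ _, hne⟩)
      rw [h1, abs_zero]
    linarith
  set κ : (Fin d → ℤ) → Fin d := fun v => κs (ng v) (nz v) (av v) with hκ
  have hκv : ∀ v, κ v = κs (ng v) (nz v) (av v) := fun v => rfl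
  have hbig : ∀ v, nrm v = R + 1 → (L : ℤ) + 2 ≤ |v (κ v)| := by
    intro v hv
    have h3 := (hκs (ng v) (nz v) (hne v hv)).1 (av v) (av_mem hv)
    rw [← hκv v] at h3
    have h4 := h3.2
    unfold fb av at h4
    rw [if_pos h3.1] at h4
    linarith
  refine ⟨κ, hbig, ?_⟩
  intro v v' hv hv' j hj1 hj2 hneq heq
  have hjL : (j : ℤ) ≤ L := by exact_mod_cast hj2
  have hb := hbig v hv
  have hb' := hbig v' hv'
  have h3 := ray_ng (v := v) (k := κ v) (j := j) (by linarith)
  have h4 := ray_ng (v := v') (k := κ v') (j := j) (by linarith)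
  rw [← heq] at h4
  have hng : ng v = ng v' := by rw [← h3.1, h4.1]
  have hnz : nz v = nz v' := by rw [← h3.2, h4.2]
  have h5 : κ v' = κs (ng v) (nz v) (av v') := by
    rw [hκv v', hng, hnz]
  have hmem' : av v' ∈ Sl (fb (nz v)) (nz v) (R + 1 - (nz v).card) := by
    rw [hnz]; exact av_mem hv'
  have h6 := (hκs (ng v) (nz v) (hne v hv)).2 (av v) (av_mem hv) (av v') hmem' j hj1 hj2
  rw [← hκv v, ← h5] at h6
  have h7 : av v + (j : ℤ) • ev (κ v') = av v' + (j : ℤ) • ev (κ v) := by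
    funext i
    have h8 := (ray_same_sign (v := v) (k := κ v) (j := j) (by linarith) i).2.2
    have h9 := (ray_same_sign (v := v') (k := κ v') (j := j) (by linarith) i).2.2
    rw [← heq] at h9
    simp only [Pi.add_apply, Pi.smul_apply, ev, smul_eq_mul, mul_ite, mul_one, mul_zero, av]
    rw [h8] at h9
    linarith
  have h10 := h6 hneq h7
  rw [refl_av] at h10
  refine ⟨h10.1, ?_⟩
  have h11 := h10.2
  rw [hng, refl_av] at h11
  exact h11

end Pool.Agent.helper98.Dp
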