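import Mathlib
import Pool.Agent.helper98.DpHub

set_option autoImplicit false
set_option linter.unusedSectionVars false

open Finset

namespace Pool.Agent.helper98.Dp

variable {d : ℕ}

/-- both directions open -/
def Bi (ε : ℝ) (U : (Fin d → ℤ) → ℝ) (a b : Fin d → ℤ) : Prop :=
  ∑ i, |a i - b i| = 1 ∧ |U a - U b| < ε

lemma bi_mem {ε : ℝ} {U : (Fin d → ℤ) → ℝ} {o a b : Fin d → ℤ} (h : Bi ε U a b)
    (ha : a ∈ clu ε U o) : b ∈ clu ε U o := by
  have h1 := abs_lt.1 h.2
  refine ⟨ha.1.tail ⟨h.1, by linarith⟩, ha.2.head ⟨?_, by linarith⟩⟩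
  rw [← h.1]
  exact Finset.sum_congr rfl fun i _ => abs_sub_comm _ _

lemma bi_symm {ε : ℝ} {U : (Fin d → ℤ) → ℝ} {a b : Fin d → ℤ} (h : Bi ε U a b) :
    Bi ε U b a := by
  refine ⟨?_, by rw [abs_sub_comm]; exact h.2⟩
  rw [← h.1]
  exact Finset.sum_congr rfl fun i _ => abs_sub_comm _ _

lemma ray_zero (v : Fin d → ℤ) (k : Fin d) : ray v k 0 = v := by
  funext i; unfold ray; split_ifs <;> simp

lemma ray_dist (v : Fin d → ℤ) (k : Fin d) (j : ℕ) :
    ∑ i, |ray v k j i - ray v k (j + 1) i| = 1 := by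
  rw [Finset.sum_eq_single k]
  · unfold ray sg
    rw [if_pos rfl, if_pos rfl]
    split_ifs
    · push_cast
      have : v k - -1 * (j : ℤ) - (v k - -1 * ((j : ℤ) + 1)) = -1 := by ring
      rw [this]; rfl
    · push_cast
      have : v k - 1 * (j : ℤ) - (v k - 1 * ((j : ℤ) + 1)) = 1 := by ring
      rw [this]; rfl
  · intro i _ hi
    unfold ray
    rw [if_neg hi, if_neg hi]; simp
  · intro h; exact absurd (Finset.mem_univ k) h

/-- target potentials along the ray of `v` -/
noncomputable def val (ε : ℝ) (L : ℕ) (U : (Fin d → ℤ) → ℝ) (v : Fin d → ℤ) (j : ℕ) : ℝ :=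
  if j = 0 then U v
  else if |U v - 1 / 2| < ε / 4 then 1 / 2
  else U v + (1 / 2 - U v) * (j / (L + 1))

lemma val_step {ε : ℝ} (hε : 0 < ε) {L : ℕ} (hL : 2 ≤ ε * (L + 1)) {U : (Fin d → ℤ) → ℝ}
    {v : Fin d → ℤ} (h0 : 0 ≤ U v) (h1 : U v ≤ 1) (j : ℕ) :
    |val ε L U v j - val ε L U v (j + 1)| ≤ ε / 4 := by
  have hLpos : (0 : ℝ) < (L : ℝ) + 1 := by positivity
  have h2 : |1 / 2 - U v| ≤ 1 / 2 := by rw [abs_le]; constructor <;> linarith
  have h3 : |(1 / 2 - U v) * (1 / (L + 1))| ≤ ε / 4 := by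
    rw [abs_mul, abs_of_pos (by positivity : (0 : ℝ) < 1 / ((L : ℝ) + 1))]
    calc |1 / 2 - U v| * (1 / ((L : ℝ) + 1)) ≤ 1 / 2 * (1 / ((L : ℝ) + 1)) := by gcongr
      _ ≤ ε / 4 := by
        rw [mul_one_div, div_le_iff₀ hLpos]
        linarith
  unfold val
  rw [if_neg (Nat.succ_ne_zero j)]
  by_cases hp : |U v - 1 / 2| < ε / 4
  · rw [if_pos hp, if_pos hp]
    split_ifs with hj
    · exact hp.le
    · rw [sub_self, abs_zero]; positivity
  · rw [if_neg hp, if_neg hp]
    split_ifs with hj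
    · rw [hj]
      have : U v - (U v + (1 / 2 - U v) * (((0 + 1 : ℕ) : ℝ) / (L + 1)))
          = -((1 / 2 - U v) * (1 / (L + 1))) := by push_cast; ring
      rw [this, abs_neg]
      exact h3
    · have : U v + (1 / 2 - U v) * ((j : ℝ) / (L + 1)) -
          (U v + (1 / 2 - U v) * (((j + 1 : ℕ) : ℝ) / (L + 1)))
          = -((1 / 2 - U v) * (1 / (L + 1))) := by push_cast; field_simp; ring
      rw [this, abs_neg]
      exact h3

lemma val_last {ε : ℝ} {L : ℕ} {U : (Fin d → ℤ) → ℝ} {v : Fin d → ℤ} :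
    val ε L U v (L + 1) = 1 / 2 := by
  unfold val
  rw [if_neg (Nat.succ_ne_zero L)]
  split_ifs
  · rfl
  · have : (L : ℝ) + 1 ≠ 0 := by positivity
    push_cast
    rw [div_self this]; ring

lemma val_mem {ε : ℝ} {L : ℕ} {U : (Fin d → ℤ) → ℝ} {v : Fin d → ℤ} (h0 : 0 ≤ U v)
    (h1 : U v ≤ 1) {j : ℕ} (hj : j ≤ L + 1) : 0 ≤ val ε L U v j ∧ val ε L U v j ≤ 1 := by
  unfold val
  have hLpos : (0 : ℝ) < (L : ℝ) + 1 := by positivity
  have h2 : (0 : ℝ) ≤ (j : ℝ) / (L + 1) := by positivity
  have h3 : (j : ℝ) / (L + 1) ≤ 1 := by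
    rw [div_le_one hLpos]; exact_mod_cast hj
  split_ifs
  · exact ⟨h0, h1⟩
  · constructor <;> norm_num
  · constructor
    · nlinarith
    · nlinarith

/-- The modification inside the ball. -/
theorem hubs {ε : ℝ} (hε : 0 < ε) {L : ℕ} (hL : 2 ≤ ε * (L + 1)) {R : ℤ}
    {U : (Fin d → ℤ) → ℝ} (hU : ∀ v, 0 ≤ U v ∧ U v ≤ 1) {κ : (Fin d → ℤ) → Fin d}
    (hκ1 : ∀ v, nrm v = R + 1 → (L : ℤ) + 2 ≤ |v (κ v)|)
    (hκ2 : ∀ v v', nrm v = R + 1 → nrm v' = R + 1 → ∀ j : ℕ, 1 ≤ j → j ≤ L → κ v ≠ κ v' →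
        ray v (κ v) j = ray v' (κ v') j → |U v - 1 / 2| < ε / 4 ∧ |U v' - 1 / 2| < ε / 4) :
    ∃ g : (Fin d → ℤ) → ℝ, (∀ w, 0 ≤ g w ∧ g w ≤ 1) ∧
      ∀ U' : (Fin d → ℤ) → ℝ, (∀ v, R + 1 ≤ nrm v → U' v = U v) →
        (∀ w, nrm w ≤ R → |U' w - g w| < ε / 4) →
        ∀ v, nrm v = R + 1 → v ∈ clu ε U' 0 := by
  classical
  set P : (Fin d → ℤ) → Prop := fun w => ∃ p : (Fin d → ℤ) × ℕ,
    nrm p.1 = R + 1 ∧ 1 ≤ p.2 ∧ p.2 ≤ L ∧ ray p.1 (κ p.1) p.2 = w with hP
  set g : (Fin d → ℤ) → ℝ := fun w =>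
    if h : P w then val ε L U h.choose.1 h.choose.2 else 1 / 2 with hg
  -- consistency
  have hcons : ∀ v, nrm v = R + 1 → ∀ j : ℕ, 1 ≤ j → j ≤ L →
      g (ray v (κ v) j) = val ε L U v j := by
    intro v hv j hj1 hj2
    have hPw : P (ray v (κ v) j) := ⟨(v, j), hv, hj1, hj2, rfl⟩
    have hgv : g (ray v (κ v) j) = val ε L U hPw.choose.1 hPw.choose.2 := by
      rw [hg]; simp only; rw [dif_pos hPw]
    rw [hgv]
    obtain ⟨h1, h2, h3, h4⟩ := hPw.choose_spec
    set v' := hPw.choose.1 with hv'def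
    set j' := hPw.choose.2 with hj'def
    have hjL : (j : ℤ) ≤ L := by exact_mod_cast hj2
    have hjL' : (j' : ℤ) ≤ L := by exact_mod_cast h3
    have hb := hκ1 v hv
    have hb' := hκ1 v' h1
    have h5 := nrm_ray (v := v) (k := κ v) (j := j) (by linarith)
    have h6 := nrm_ray (v := v') (k := κ v') (j := j') (by linarith)
    rw [h4] at h6
    have h7 : j' = j := by
      have : (j' : ℤ) = j := by linarith
      exact_mod_cast this
    rw [h7] at h4 ⊢
    by_cases hk : κ v' = κ v
    · have hvv : v' = v := by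
        funext i
        have h8 := congrFun h4 i
        by_cases hi : i = κ v
        · have hs1 := ray_same_sign (v := v) (k := κ v) (j := j) (by linarith) i
          have hs2 := ray_same_sign (v := v') (k := κ v') (j := j) (by linarith) i
          rw [h4] at hs2
          have hsgn : v i < 0 ↔ v' i < 0 := by rw [← hs1.1, hs2.1]
          unfold ray sg at h8
          rw [if_pos (by rw [hk]; exact hi), if_pos hi] at h8
          by_cases hneg : v i < 0
          · rw [if_pos hneg, if_pos (hsgn.1 hneg)] at h8; linarith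
          · rw [if_neg hneg, if_neg (fun h => hneg (hsgn.2 h))] at h8; linarith
        · unfold ray at h8
          rw [if_neg (by rw [hk]; exact hi), if_neg hi] at h8
          exact h8
      rw [hvv]
    · have h8 := hκ2 v' v h1 hv j hj1 hj2 hk h4
      have hj0 : ¬ j = 0 := by omega
      unfold val
      rw [if_neg hj0, if_neg hj0, if_pos h8.1, if_pos h8.2]
  have hinner : ∀ w, nrm w ≤ R - L → g w = 1 / 2 := by
    intro w hw
    have hnP : ¬ P w := by
      rintro ⟨⟨v', j'⟩, h1, h2, h3, h4⟩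
      simp only at h1 h2 h3 h4
      have hjL' : (j' : ℤ) ≤ L := by exact_mod_cast h3
      have hb' := hκ1 v' h1
      have h6 := nrm_ray (v := v') (k := κ v') (j := j') (by linarith)
      rw [h4] at h6
      linarith
    rw [hg]; simp only; rw [dif_neg hnP]
  refine ⟨g, ?_, ?_⟩
  · intro w
    rw [hg]; simp only
    by_cases h : P w
    · rw [dif_pos h]
      obtain ⟨h1, h2, h3, h4⟩ := h.choose_spec
      exact val_mem (hU _).1 (hU _).2 (by omega)
    · rw [dif_neg h]; constructor <;> norm_num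
  intro U' hout hin
  -- inner ball
  have hball : ∀ n : ℕ, ∀ w : Fin d → ℤ, nrm w = n → nrm w ≤ R - L → w ∈ clu ε U' 0 := by
    intro n
    induction n with
    | zero =>
      intro w hw _
      have h1 : w = 0 := by
        funext i
        have h2 : |w i| ≤ nrm w :=
          Finset.single_le_sum (f := fun i => |w i|) (fun i _ => abs_nonneg _) (Finset.mem_univ i)
        rw [hw] at h2
        have h3 : |w i| = 0 := le_antisymm (by simpa using h2) (abs_nonneg _)
        simpa using h3
      rw [h1]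
      exact mem_clu_self _ _ _
    | succ n ih =>
      intro w hw hwR
      have hLn : (0 : ℤ) ≤ L := Nat.cast_nonneg _
      have h1 : ∃ i, w i ≠ 0 := by
        by_contra hcon
        push Not at hcon
        have : nrm w = 0 := by
          unfold nrm
          apply Finset.sum_eq_zero
          intro i _
          rw [hcon i, abs_zero]
        rw [this] at hw
        push_cast at hw
        linarith
      obtain ⟨k, hk⟩ := h1
      have h2 := nrm_ray (v := w) (k := k) (j := 1) (by
        have := Int.one_le_abs hk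
        push_cast
        exact this)
      have h3 : ray w k 1 ∈ clu ε U' 0 := by
        apply ih
        · rw [h2, hw]; push_cast; ring
        · rw [h2]; push_cast; linarith
      refine bi_mem (a := ray w k 1) (bi_symm ⟨?_, ?_⟩) h3
      · have := ray_dist w k 0
        rw [ray_zero] at this
        exact this
      · have h4 := hin w (by linarith)
        have h5 := hin (ray w k 1) (by rw [h2]; push_cast; linarith)
        rw [hinner w hwR] at h4
        rw [hinner (ray w k 1) (by rw [h2]; push_cast; linarith)] at h5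
        have h6 := abs_lt.1 h4
        have h7 := abs_lt.1 h5
        rw [abs_lt]
        constructor <;> linarith
  intro v hv
  have hb := hκ1 v hv
  -- potentials along the ray
  have hval : ∀ j : ℕ, j ≤ L + 1 → |U' (ray v (κ v) j) - val ε L U v j| < ε / 4 := by
    intro j hj
    have hjL : (j : ℤ) ≤ L + 1 := by exact_mod_cast hj
    have h1 := nrm_ray (v := v) (k := κ v) (j := j) (by linarith)
    by_cases hj0 : j = 0
    · subst hj0
      rw [ray_zero, hout v (by linarith)]
      unfold val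
      rw [if_pos rfl, sub_self, abs_zero]
      positivity
    · have hj1 : (1 : ℤ) ≤ j := by exact_mod_cast Nat.one_le_iff_ne_zero.2 hj0
      by_cases hjl : j ≤ L
      · rw [← hcons v hv j (Nat.one_le_iff_ne_zero.2 hj0) hjl]
        exact hin _ (by linarith)
      · have hjeq : j = L + 1 := by omega
        rw [hjeq] at h1 ⊢
        rw [val_last, ← hinner (ray v (κ v) (L + 1)) (by rw [h1]; push_cast; linarith)]
        exact hin _ (by rw [h1]; push_cast; linarith)
  have hchain : ∀ i : ℕ, i ≤ L + 1 → ray v (κ v) (L + 1 - i) ∈ clu ε U' 0 := by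
    intro i
    induction i with
    | zero =>
      intro _
      have h1 := nrm_ray (v := v) (k := κ v) (j := L + 1) (by push_cast; linarith)
      have h2 := nrm_nonneg (ray v (κ v) (L + 1))
      apply hball (nrm (ray v (κ v) (L + 1))).toNat
      · rw [Int.toNat_of_nonneg h2]; rfl
      · rw [Nat.sub_zero, h1]; push_cast; linarith
    | succ i ih =>
      intro hi
      have h1 := ih (by omega)
      have h2 : L + 1 - i = (L + 1 - (i + 1)) + 1 := by omega
      rw [h2] at h1
      set j := L + 1 - (i + 1) with hj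
      refine bi_mem (a := ray v (κ v) (j + 1)) (bi_symm ⟨ray_dist v (κ v) j, ?_⟩) h1
      have h3 := abs_lt.1 (hval j (by omega))
      have h4 := abs_lt.1 (hval (j + 1) (by omega))
      have h5 := abs_le.1 (val_step hε hL (v := v) (hU v).1 (hU v).2 j)
      rw [abs_lt]
      constructor <;> linarith
  have := hchain (L + 1) le_rfl
  rw [Nat.sub_self, ray_zero] at this
  exact this

end Pool.Agent.helper98.Dp
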