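import Mathlib
import Pool.Agent.helper98.DpDecay
import Pool.Agent.helper98.DpRays
import Pool.Agent.helper98.DpErg

set_option autoImplicit false
set_option linter.unusedSectionVars false

open Finset MeasureTheory ProbabilityTheory Filter Topology
open scoped ENNReal

namespace Pool.Agent.helper98.Dp

variable {d : ℕ}

lemma refl_injective (T : Finset (Fin d)) : Function.Injective (refl T : (Fin d → ℤ) → _) := by
  have h : ∀ x : Fin d → ℤ, refl T (refl T x) = x := by
    intro x
    funext i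
    unfold refl
    split_ifs <;> ring
  intro x y hxy
  rw [← h x, ← h y, hxy]

section prob

variable {Ω : Type*} [MeasurableSpace Ω] {μ : Measure Ω} [IsProbabilityMeasure μ]
  {Z : (Fin d → ℤ) → Ω → Bool}

lemma FR_prob (hm : ∀ x, Measurable (Z x)) (hZ : iIndepFun Z μ) {c : ℝ}
    (hc : ∀ x, c ≤ μ.real {ω | Z x ω = true}) (hc0 : 0 < c) (hc1 : c ≤ 1) (L : ℕ)
    {δ : ℝ} (hδ : 0 < δ) :
    ∃ R0 : ℕ, ∀ R : ℕ, R0 ≤ R → μ.real {ω | ¬ FR L R (fld Z ω)} ≤ δ := by
  classical
  have h1 : ∀ T : Finset (Fin d), ∃ C : ℝ, 0 ≤ C ∧ ∀ J : Finset (Fin d), J.Nonempty → J.card ≤ d →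
      ∀ b : Fin d → ℤ, ∀ m : ℕ, 1 ≤ m →
        μ.real {ω | ¬ Good L (fld (fun x => Z (refl T x)) ω) b J m} ≤ C / m ^ 1 := by
    intro T
    exact decay (μ := μ) (Z := fun x => Z (refl T x)) (fun x => hm _)
      (hZ.precomp (refl_injective T)) (fun x => hc _) hc0 hc1 L d 1
  choose C hC0 hC using h1
  obtain ⟨M, hM⟩ := exists_nat_ge ((∑ T : Finset (Fin d), ∑ _J : Finset (Fin d), C T) / δ)
  refine ⟨M + d + 1, ?_⟩
  intro R hR
  set S : ℝ := ∑ T : Finset (Fin d), ∑ _J : Finset (Fin d), C T with hS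
  have hS0 : 0 ≤ S := Finset.sum_nonneg fun T _ => Finset.sum_nonneg fun J _ => hC0 T
  have hincl : {ω | ¬ FR L R (fld Z ω)} ⊆ ⋃ T ∈ (Finset.univ : Finset (Finset (Fin d))),
      ⋃ J ∈ (Finset.univ : Finset (Finset (Fin d))),
      {ω | J.Nonempty ∧ ¬ Good L (fld (fun x => Z (refl T x)) ω) (fb J) J
        ((R + 1 - J.card : ℕ) : ℤ)} := by
    intro ω hω
    have hω' : ¬ FR L R (fld Z ω) := hω
    unfold FR at hω'
    push Not at hω'
    obtain ⟨T, J, hJ, hbad⟩ := hω'
    simp only [Set.mem_iUnion, Set.mem_ofPred_eq, Finset.mem_univ, exists_true_left]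
    refine ⟨T, J, hJ, ?_⟩
    have h2 : J.card ≤ d := by
      have := Finset.card_le_univ J
      rwa [Fintype.card_fin] at this
    have h3 : ((R + 1 - J.card : ℕ) : ℤ) = (R : ℤ) + 1 - J.card := by omega
    rw [h3]
    exact hbad
  have hb : ∀ T J : Finset (Fin d), μ.real {ω | J.Nonempty ∧
      ¬ Good L (fld (fun x => Z (refl T x)) ω) (fb J) J ((R + 1 - J.card : ℕ) : ℤ)} ≤
      C T / (M + 1) := by
    intro T J
    have h2 : J.card ≤ d := by
      have := Finset.card_le_univ J
      rwa [Fintype.card_fin] at this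
    by_cases hJ : J.Nonempty
    · have h3 := hC T J hJ h2 (fb J) (R + 1 - J.card) (by omega)
      refine le_trans (measureReal_mono (fun ω hω => hω.2) (measure_ne_top _ _)) (le_trans h3 ?_)
      rw [pow_one]
      apply div_le_div_of_nonneg_left (hC0 T) (by positivity)
      have : M + 1 ≤ R + 1 - J.card := by omega
      exact_mod_cast this
    · have h3 : {ω | J.Nonempty ∧
        ¬ Good L (fld (fun x => Z (refl T x)) ω) (fb J) J ((R + 1 - J.card : ℕ) : ℤ)} = ∅ := by
        ext ω
        simp only [Set.mem_ofPred_eq, Set.mem_empty_iff_false, iff_false, not_and]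
        intro h; exact absurd h hJ
      rw [h3, measureReal_empty]
      exact div_nonneg (hC0 T) (by positivity)
  calc μ.real {ω | ¬ FR L R (fld Z ω)} ≤ μ.real _ := measureReal_mono hincl (measure_ne_top _ _)
    _ ≤ ∑ T ∈ (Finset.univ : Finset (Finset (Fin d))), μ.real _ :=
        measureReal_biUnion_finset_le _ _
    _ ≤ ∑ T ∈ (Finset.univ : Finset (Finset (Fin d))),
          ∑ J ∈ (Finset.univ : Finset (Finset (Fin d))), C T / (M + 1) := by
        apply Finset.sum_le_sum
        intro T _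
        refine le_trans (measureReal_biUnion_finset_le _ _) ?_
        apply Finset.sum_le_sum
        intro J _
        exact hb T J
    _ = S / (M + 1) := by
        rw [hS, Finset.sum_div]
        apply Finset.sum_congr rfl
        intro T _
        rw [Finset.sum_div]
    _ ≤ δ := by
        rw [div_le_iff₀ (by positivity)]
        rw [div_le_iff₀ hδ] at hM
        nlinarith

end prob

/-- the uniform law -/
noncomputable abbrev unif : Measure ℝ := volume.restrict (Set.Icc (0 : ℝ) 1)

instance : IsProbabilityMeasure unif := ⟨by simp [unif]⟩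

lemma unif_pos {g η : ℝ} (h0 : 0 ≤ g) (h1 : g ≤ 1) (hη : 0 < η) :
    0 < unif {r : ℝ | |r - g| < η} := by
  have hsub : Set.Ioo (max 0 (g - η)) (min 1 (g + η)) ⊆ {r : ℝ | |r - g| < η} ∩ Set.Icc 0 1 := by
    rintro r ⟨hr1, hr2⟩
    have h2 := max_lt_iff.1 hr1
    have h3 := lt_min_iff.1 hr2
    refine ⟨?_, h2.1.le, h3.1.le⟩
    change |r - g| < η
    rw [abs_lt]
    constructor <;> linarith [h2.2, h3.2]
  have hms : MeasurableSet {r : ℝ | |r - g| < η} :=
    measurableSet_lt ((measurable_id.sub measurable_const).abs) measurable_const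
  unfold unif
  rw [Measure.restrict_apply hms]
  refine lt_of_lt_of_le ?_ (measure_mono hsub)
  rw [Real.volume_Ioo, ENNReal.ofReal_pos, sub_pos]
  refine max_lt (lt_min (by norm_num) (by linarith)) (lt_min (by linarith) (by linarith))

/-- the portal indicator -/
noncomputable def por (ε : ℝ) (r : ℝ) : Bool := by
  classical exact decide (|r - 1 / 2| < ε / 4)

lemma por_iff (ε r : ℝ) : por ε r = true ↔ |r - 1 / 2| < ε / 4 := by
  unfold por
  simp

lemma measurable_por (ε : ℝ) : Measurable (por ε) := by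
  apply measurable_to_bool
  have : por ε ⁻¹' {true} = {r : ℝ | |r - 1 / 2| < ε / 4} := by
    ext r
    simp only [Set.mem_preimage, Set.mem_singleton_iff, por_iff, Set.mem_ofPred_eq]
  rw [this]
  exact measurableSet_lt ((measurable_id.sub measurable_const).abs) measurable_const

/-- **Main theorem, product form.** -/
theorem main_prod (hd : 0 < d) (ε : ℝ) (k : ℕ) (hk : 2 ≤ k) :
    PP unif d {U | N ε U = k} = 0 := by
  classical
  by_cases hε : ε ≤ 0
  · have : {U : (Fin d → ℤ) → ℝ | N ε U = k} = ∅ := by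
      ext U
      simp only [Set.mem_ofPred_eq, Set.mem_empty_iff_false, iff_false]
      rw [N_nonpos hε]
      intro h
      have : (0 : ℕ) = k := by exact_mod_cast h
      omega
    rw [this, measure_empty]
  push Not at hε
  set P := PP unif d with hP
  set E : Set ((Fin d → ℤ) → ℝ) := {U | N ε U = k} with hE
  have hEm : MeasurableSet E := measurableSet_N_eq ε k
  have hinv : ∀ t, sh t ⁻¹' E = E := by
    intro t
    ext U
    simp only [hE, Set.mem_preimage, Set.mem_ofPred_eq, N_sh]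
  rcases zero_one unif hd hEm hinv with h | h
  · exact h
  exfalso
  -- almost surely `N = k`
  have hae : ∀ᵐ U ∂P, U ∈ E := by
    rw [ae_iff]
    have : {a | a ∉ E} = Eᶜ := rfl
    rw [this, prob_compl_eq_zero_iff hEm]
    exact h
  have hbd : ∀ᵐ U ∂P, ∀ v : Fin d → ℤ, 0 ≤ U v ∧ U v ≤ 1 := by
    rw [ae_all_iff]
    intro v
    have h1 : ∀ᵐ r ∂unif, 0 ≤ r ∧ r ≤ 1 := ae_restrict_mem measurableSet_Icc
    exact (measurePreserving_eval_infinitePi (fun _ : Fin d → ℤ => unif) v).quasiMeasurePreserving.ae h1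
  obtain ⟨L, hL'⟩ := exists_nat_ge (2 / ε)
  have hL : 2 ≤ ε * ((L : ℝ) + 1) := by
    rw [div_le_iff₀ hε] at hL'
    nlinarith
  -- portals
  set Z : (Fin d → ℤ) → ((Fin d → ℤ) → ℝ) → Bool := fun v U => por ε (U v) with hZ
  have hZm : ∀ v, Measurable (Z v) := fun v => (measurable_por ε).comp (measurable_pi_apply v)
  have hZi : iIndepFun Z P :=
    iIndepFun_infinitePi (P := fun _ : Fin d → ℤ => unif) (X := fun _ => por ε)
      (fun _ => measurable_por ε)
  set c : ℝ := unif.real {r : ℝ | |r - 1 / 2| < ε / 4} with hc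
  have hcpos : 0 < c := by
    rw [hc]
    exact ENNReal.toReal_pos (unif_pos (by norm_num) (by norm_num) (by positivity)).ne'
      (measure_ne_top _ _)
  have hc1 : c ≤ 1 := measureReal_le_one
  have hcZ : ∀ v, c ≤ P.real {U | Z v U = true} := by
    intro v
    have h1 : {U : (Fin d → ℤ) → ℝ | Z v U = true}
        = (Function.eval v) ⁻¹' {r : ℝ | |r - 1 / 2| < ε / 4} := by
      ext U
      simp only [hZ, Set.mem_ofPred_eq, por_iff, Set.mem_preimage, Function.eval]
    have hms : MeasurableSet {r : ℝ | |r - 1 / 2| < ε / 4} :=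
      measurableSet_lt ((measurable_id.sub measurable_const).abs) measurable_const
    have h2 := (measurePreserving_eval_infinitePi (fun _ : Fin d → ℤ => unif) v).measure_preimage
      hms.nullMeasurableSet
    rw [h1, hc]
    unfold Measure.real
    rw [h2]
  obtain ⟨R0, hR0⟩ := FR_prob (μ := P) hZm hZi hcZ hcpos hc1 L (δ := 1 / 2) (by norm_num)
  -- balls
  set M : ℕ → Set ((Fin d → ℤ) → ℝ) := fun R =>
    {U | ∀ a, (clu ε U a).Infinite → ∃ b ∈ clu ε U a, nrm b ≤ R} with hM
  have hMmono : Monotone M := by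
    intro R R' hRR U hU a ha
    obtain ⟨b, hb1, hb2⟩ := hU a ha
    exact ⟨b, hb1, le_trans hb2 (by exact_mod_cast hRR)⟩
  have hMU : P (⋃ R, M R) = 1 := by
    apply le_antisymm prob_le_one
    rw [← h]
    apply measure_mono
    intro U hU
    obtain ⟨R, hR⟩ := meet_ball (show N ε U = k from hU)
    exact Set.mem_iUnion.2 ⟨R, hR⟩
  rw [hMmono.measure_iUnion] at hMU
  have hhalf : (1 / 2 : ℝ≥0∞) < ⨆ R, P (M R) := by
    rw [hMU]
    exact ENNReal.half_lt_self one_ne_zero ENNReal.one_ne_top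
  obtain ⟨R1, hR1⟩ := lt_iSup_iff.1 hhalf
  set R : ℕ := max R0 R1 with hR
  have hMR : (1 / 2 : ℝ≥0∞) < P (M R) :=
    lt_of_lt_of_le hR1 (measure_mono (hMmono (le_max_right _ _)))
  have hFR : P {U | ¬ FR L R (fld Z U)} ≤ 1 / 2 := by
    have h1 := hR0 R (le_max_left _ _)
    have h2 : P {U | ¬ FR L R (fld Z U)} ≤ ENNReal.ofReal (1 / 2) := by
      rw [← ENNReal.ofReal_toReal (measure_ne_top P {U | ¬ FR L R (fld Z U)})]
      exact ENNReal.ofReal_le_ofReal h1
    refine le_trans h2 ?_
    rw [ENNReal.ofReal_div_of_pos (by norm_num)]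
    simp
  -- resampling
  set S : Finset (Fin d → ℤ) := (nrm_ball_finite (d := d) R).toFinset with hS
  have hSmem : ∀ v : Fin d → ℤ, v ∈ S ↔ nrm v ≤ R := by
    intro v
    rw [hS, Set.Finite.mem_toFinset]; rfl
  have hres : ∀ᵐ U ∂P, ∀ᵐ U' ∂P, resamp S (U, U') ∈ E := by
    apply Measure.ae_ae_of_ae_prod (p := fun z => resamp S z ∈ E)
    have h1 : ∀ᵐ V ∂((P.prod P).map (resamp S)), V ∈ E := by
      rw [map_resamp]; exact hae
    exact (ae_map_iff (measurable_resamp S).aemeasurable hEm).1 h1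
  -- find a suitable configuration
  have hex : ∃ U, U ∈ M R ∧ FR L R (fld Z U) ∧ U ∈ E ∧ (∀ v : Fin d → ℤ, 0 ≤ U v ∧ U v ≤ 1) ∧
      ∀ᵐ U' ∂P, resamp S (U, U') ∈ E := by
    by_contra hcon
    have h1 : M R ⊆ {U | ¬ FR L R (fld Z U)} ∪ {U | ¬ (U ∈ E ∧
        (∀ v : Fin d → ℤ, 0 ≤ U v ∧ U v ≤ 1) ∧ ∀ᵐ U' ∂P, resamp S (U, U') ∈ E)} := by
      intro U hU
      by_cases h2 : FR L R (fld Z U)
      · right
        rintro ⟨h3, h4, h5⟩
        exact hcon ⟨U, hU, h2, h3, h4, h5⟩
      · exact Or.inl h2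
    have h2 : P {U | ¬ (U ∈ E ∧
        (∀ v : Fin d → ℤ, 0 ≤ U v ∧ U v ≤ 1) ∧ ∀ᵐ U' ∂P, resamp S (U, U') ∈ E)} = 0 := by
      have h3 : ∀ᵐ U ∂P, (U ∈ E ∧
        (∀ v : Fin d → ℤ, 0 ≤ U v ∧ U v ≤ 1) ∧ ∀ᵐ U' ∂P, resamp S (U, U') ∈ E) := by
        filter_upwards [hae, hbd, hres] with U h4 h5 h6
        exact ⟨h4, h5, h6⟩
      exact ae_iff.1 h3
    have h3 : P (M R) ≤ 1 / 2 := by
      calc P (M R) ≤ P _ := measure_mono h1
        _ ≤ P _ + P _ := measure_union_le _ _
        _ ≤ 1 / 2 := by rw [h2, add_zero]; exact hFR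
    exact absurd hMR (not_lt.2 h3)
  obtain ⟨U, hUM, hUF, hUE, hUb, hUres⟩ := hex
  -- directions and modification
  obtain ⟨κ, hκ1, hκ2⟩ := dirs hd (Nat.cast_nonneg R) hUF
  obtain ⟨g, hg1, hg2⟩ := hubs (ε := ε) hε hL (R := R) hUb hκ1 (by
    intro v v' hv hv' j hj1 hj2 hne heq
    have h1 := hκ2 v v' hv hv' j hj1 hj2 hne heq
    exact ⟨(por_iff _ _).1 h1.1, (por_iff _ _).1 h1.2⟩)
  set T : Set ((Fin d → ℤ) → ℝ) := Set.pi (S : Set (Fin d → ℤ)) fun w => {r : ℝ | |r - g w| < ε / 4}
    with hT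
  have hTpos : 0 < P T := by
    rw [hT, hP, Measure.infinitePi_pi]
    · apply pos_iff_ne_zero.2
      rw [Finset.prod_ne_zero_iff]
      intro w _
      exact (unif_pos (hg1 w).1 (hg1 w).2 (by positivity)).ne'
    · intro w _
      exact measurableSet_lt ((measurable_id.sub measurable_const).abs) measurable_const
  have hTN : ∀ U' ∈ T, resamp S (U, U') ∉ E := by
    intro U' hU'
    have h1 : N ε (resamp S (U, U')) = 1 := by
      apply merge (U := U) (R := R)
      · intro v hv
        unfold resamp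
        rw [if_neg]
        rw [hSmem]
        push Not
        linarith
      · apply hg2
        · intro v hv
          unfold resamp
          rw [if_neg]
          rw [hSmem]
          push Not
          linarith
        · intro w hw
          unfold resamp
          rw [if_pos ((hSmem w).2 hw)]
          exact hU' w ((hSmem w).2 hw)
      · by_contra hcon
        push Not at hcon
        have h2 : N ε U = 0 := by
          unfold N
          rw [Set.encard_eq_zero]
          ext C
          simp only [Set.mem_ofPred_eq, Set.mem_empty_iff_false, iff_false, not_and]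
          rintro hC ⟨a, rfl⟩
          exact hC (by simpa using hcon a)
        have h3 : N ε U = k := hUE
        rw [h2] at h3
        have : (0 : ℕ) = k := by exact_mod_cast h3
        omega
      · exact hUM
    intro hmem
    have h2 : N ε (resamp S (U, U')) = k := hmem
    rw [h1] at h2
    have : (1 : ℕ) = k := by exact_mod_cast h2
    omega
  have h1 : P T = 0 := by
    have h2 : T ⊆ {U' | ¬ resamp S (U, U') ∈ E} := fun U' hU' => hTN U' hU'
    exact measure_mono_null h2 (ae_iff.1 hUres)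
  rw [h1] at hTpos
  exact lt_irrefl _ hTpos

end Pool.Agent.helper98.Dp
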