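import Pool.Agent.helper80.RSV.Base

/-!
# RSV-E1: finite groups with abelian Sylow subgroups
-/

namespace Pool.Agent.helper80.RSV

open Function
open scoped commutatorElement

section E1

theorem AbSylow.eq_one {K : Type} [Group K] [Finite K] (h : AbSylow K) {x : K}
    (hx : x ∈ commutator K) (hc : ∀ k : K, k * x = x * k) : x = 1 := by
  by_contra hne
  have hord : orderOf x ≠ 1 := by rwa [Ne, orderOf_eq_one_iff]
  obtain ⟨p, hp, hpd⟩ := Nat.exists_prime_and_dvd hord
  have := Fact.mk hp
  obtain ⟨d, hd⟩ := hpd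
  have hpos : 0 < orderOf x := orderOf_pos x
  have hd0 : d ≠ 0 := by rintro rfl; omega
  set z : K := x ^ d with hz
  have hzord : orderOf z = p := by
    rw [hz, orderOf_pow' x hd0, hd, Nat.gcd_eq_right (Dvd.intro_left p rfl),
      Nat.mul_div_cancel _ (Nat.pos_of_ne_zero hd0)]
  have hzc : ∀ k : K, k * z = z * k := by
    intro k
    have : Commute k x := hc k
    exact (this.pow_right d).eq
  have hzm : z ∈ commutator K := Subgroup.pow_mem _ hx d
  have hpg : IsPGroup p (Subgroup.zpowers z) := by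
    apply IsPGroup.of_card (n := 1)
    rw [Nat.card_zpowers, hzord, pow_one]
  obtain ⟨P, hP⟩ := hpg.exists_le_sylow
  have hzP : z ∈ P := hP (Subgroup.mem_zpowers z)
  let inst : CommGroup (P : Subgroup K) :=
    { (inferInstance : Group (P : Subgroup K)) with
      mul_comm := fun a b => Subtype.ext (h p hp P a a.2 b b.2) }
  have key : ∀ (k : ℕ) (g₀ : K), g₀⁻¹ * z ^ k * g₀ ∈ (P : Subgroup K) →
      g₀⁻¹ * z ^ k * g₀ = z ^ k := by
    intro k g₀ _
    have : Commute g₀ z := hzc g₀
    have h2 := (this.pow_right k).eq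
    rw [mul_assoc, ← h2]; group
  have h1 := MonoidHom.transfer_eq_pow (H := (P : Subgroup K)) (A := (P : Subgroup K))
    (MonoidHom.id (P : Subgroup K)) z key
  have h2 : MonoidHom.transfer (H := (P : Subgroup K)) (A := (P : Subgroup K))
      (MonoidHom.id (P : Subgroup K)) z = 1 :=
    MonoidHom.mem_ker.mp (Abelianization.commutator_subset_ker _ hzm)
  rw [h2] at h1
  have h3 : z ^ (P : Subgroup K).index = 1 := by
    have := congrArg (fun a : (P : Subgroup K) => (a : K)) h1
    exact this.symm
  have h4 := orderOf_dvd_of_pow_eq_one h3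
  rw [hzord] at h4
  exact P.not_dvd_index h4

theorem AbSylow.subgroup {G : Type} [Group G] [Finite G] (h : AbSylow G) (K : Subgroup G) :
    AbSylow K := by
  intro p hp P x hx y hy
  have := Fact.mk hp
  have hpg : IsPGroup p ((P : Subgroup K).map K.subtype) := P.isPGroup'.map K.subtype
  obtain ⟨Q, hQ⟩ := hpg.exists_le_sylow
  apply Subtype.ext
  exact h p hp Q x (hQ ⟨x, hx, rfl⟩) y (hQ ⟨y, hy, rfl⟩)

theorem AbSylow.of_surjective {G G' : Type} [Group G] [Group G'] [Finite G] (h : AbSylow G)
    (f : G →* G') (hf : Surjective f) : AbSylow G' := by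
  intro p hp P x hx y hy
  have := Fact.mk hp
  obtain ⟨Q, rfl⟩ := Sylow.mapSurjective_surjective hf p P
  obtain ⟨a, ha, rfl⟩ := hx
  obtain ⟨b, hb, rfl⟩ := hy
  rw [← map_mul, ← map_mul, h p hp Q a ha b hb]

theorem zp_of_abSylow {G : Type} [Group G] [Finite G] (h : AbSylow G) : ZP G := by
  intro K x hx hc
  rw [← Subgroup.map_subtype_commutator] at hx
  obtain ⟨y, hy, rfl⟩ := hx
  have h1 : y = 1 := by
    apply (h.subgroup K).eq_one hy
    intro k
    apply Subtype.ext
    exact hc k k.2
  rw [h1]; rfl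

theorem star_of_abSylow {G : Type} [Group G] [Finite G] (h : AbSylow G) : Star G := by
  intro K L hLK hn x hx hxL
  rw [← Subgroup.map_subtype_commutator] at hx
  obtain ⟨y, hy, rfl⟩ := hx
  have hLn : (L.subgroupOf K).Normal := by
    refine ⟨fun a ha g => ?_⟩
    rw [Subgroup.mem_subgroupOf] at ha ⊢
    exact hn g g.2 a ha
  set R : Subgroup K := ⁅L.subgroupOf K, (⊤ : Subgroup K)⁆ with hR
  have hab : AbSylow (K ⧸ R) :=
    (h.subgroup K).of_surjective (QuotientGroup.mk' R) (QuotientGroup.mk'_surjective R)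
  have h1 : (QuotientGroup.mk' R) y = 1 := by
    apply hab.eq_one
    · have : (commutator K).map (QuotientGroup.mk' R) ≤ commutator (K ⧸ R) := by
        rw [commutator_def, commutator_def, Subgroup.map_commutator]
        exact Subgroup.commutator_mono le_top le_top
      exact this ⟨y, hy, rfl⟩
    · intro k
      obtain ⟨k, rfl⟩ := QuotientGroup.mk'_surjective R k
      rw [← map_mul, ← map_mul]
      apply QuotientGroup.eq.mpr
      have e : (k * y)⁻¹ * (y * k) = ⁅y⁻¹, k⁻¹⁆ := by
        rw [commutatorElement_def]; group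
      rw [e]
      exact Subgroup.commutator_mem_commutator (Subgroup.inv_mem _ hxL) (Subgroup.mem_top _)
  have h2 : y ∈ R := (QuotientGroup.eq_one_iff y).mp h1
  have h3 : K.subtype y ∈ R.map K.subtype := ⟨y, h2, rfl⟩
  rw [hR, Subgroup.map_commutator] at h3
  refine Subgroup.commutator_mono ?_ ?_ h3
  · rintro a ⟨b, hb, rfl⟩
    exact hb
  · rintro a ⟨b, hb, rfl⟩
    exact b.2

end E1

end Pool.Agent.helper80.RSV
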