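import Pool.Agent.helper98.FrogBound

set_option autoImplicit false
set_option linter.unusedSectionVars false

open Finset MeasureTheory ProbabilityTheory Filter Topology

namespace Pool.Agent.helper98.Frog

/-- parameters -/
noncomputable def pc1 (lam : ℝ) : ℝ := (1 - Real.exp (-1)) * (1 - Real.exp (-(lam / 4)))
noncomputable def pm (lam : ℝ) : ℕ := ⌈1 / pc1 lam⌉₊
noncomputable def pA (D : ℕ) (lam : ℝ) (n : ℕ) : ℝ := 2 * D / pc1 lam * Real.log (D * n)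
def pJ (D n : ℕ) : ℕ := Nat.log 2 (D * n) + 1
noncomputable def pt (D : ℕ) (lam : ℝ) (n : ℕ) : ℕ :=
  ⌈128 * (pA D lam n) ^ 2 * (pJ D n : ℝ) ^ 2⌉₊
noncomputable def pκ (lam : ℝ) (n : ℕ) : ℝ := 2 * Real.log n / lam
noncomputable def pL1 (D : ℕ) (lam : ℝ) (n : ℕ) : ℕ :=
  ⌈32 * (pm lam : ℝ) ^ 2 * D ^ 2 * (D * pκ lam n + pm lam) ^ 2⌉₊
noncomputable def pL (D : ℕ) (lam : ℝ) (n : ℕ) : ℕ :=
  pm lam * pL1 D lam n + pJ D n * pt D lam n + pt D lam n

lemma pc1_pos {lam : ℝ} (h : 0 < lam) : 0 < pc1 lam := by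
  unfold pc1
  apply mul_pos
  · have : Real.exp (-1) < 1 := Real.exp_lt_one_iff.2 (by norm_num)
    linarith
  · have : Real.exp (-(lam / 4)) < 1 := Real.exp_lt_one_iff.2 (by linarith)
    linarith

lemma pm_pos {lam : ℝ} (h : 0 < lam) : 0 < pm lam := by
  unfold pm
  exact Nat.ceil_pos.2 (by have := pc1_pos h; positivity)

lemma one_div_pm_le {lam : ℝ} (h : 0 < lam) : 1 / (pm lam : ℝ) ≤ pc1 lam := by
  have h1 := pc1_pos h
  have h2 : 1 / pc1 lam ≤ pm lam := Nat.le_ceil _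
  have h3 : 0 < 1 / pc1 lam := by positivity
  calc 1 / (pm lam : ℝ) ≤ 1 / (1 / pc1 lam) := one_div_le_one_div_of_le h3 h2
    _ = pc1 lam := by field_simp

lemma param_eta {D : ℕ} {lam : ℝ} (h : 0 < lam) {n : ℕ} (hn : 1 ≤ n) :
    (D * pκ lam n + pm lam) * (D * Real.sqrt (8 * ((pL1 D lam n : ℝ) + 1)))
      ≤ 1 / (2 * (pm lam : ℝ)) * ((pL1 D lam n : ℝ) + 1) := by
  have hm : (0 : ℝ) < pm lam := by exact_mod_cast pm_pos h
  have hlog : 0 ≤ Real.log n := Real.log_nonneg (by exact_mod_cast hn)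
  have hκ : 0 ≤ pκ lam n := by unfold pκ; positivity
  set X : ℝ := D * pκ lam n + pm lam with hX
  have hXnn : 0 ≤ X := by positivity
  set l : ℝ := (pL1 D lam n : ℝ) + 1 with hl
  have hlpos : 0 < l := by positivity
  have h1 : 32 * (pm lam : ℝ) ^ 2 * D ^ 2 * X ^ 2 ≤ l := by
    have : 32 * (pm lam : ℝ) ^ 2 * D ^ 2 * X ^ 2 ≤ pL1 D lam n := Nat.le_ceil _
    linarith
  have h2 : (X * (D * Real.sqrt (8 * l))) ^ 2 ≤ (1 / (2 * (pm lam : ℝ)) * l) ^ 2 := by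
    have h3 : Real.sqrt (8 * l) ^ 2 = 8 * l := Real.sq_sqrt (by positivity)
    have h4 : (X * (D * Real.sqrt (8 * l))) ^ 2 = X ^ 2 * D ^ 2 * (8 * l) := by
      rw [mul_pow, mul_pow, h3]; ring
    have h5 : (1 / (2 * (pm lam : ℝ)) * l) ^ 2 = l * l / (4 * (pm lam : ℝ) ^ 2) := by
      field_simp; ring
    rw [h4, h5, le_div_iff₀ (by positivity)]
    calc X ^ 2 * D ^ 2 * (8 * l) * (4 * (pm lam : ℝ) ^ 2)
        = l * (32 * (pm lam : ℝ) ^ 2 * D ^ 2 * X ^ 2) := by ring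
      _ ≤ l * l := mul_le_mul_of_nonneg_left h1 hlpos.le
  exact le_of_sq_le_sq h2 (by positivity)

lemma param_J (D n : ℕ) : D * n < 2 ^ pJ D n := by
  unfold pJ
  exact Nat.lt_pow_succ_log_self (by norm_num) _

lemma log_Dn_le {D n : ℕ} (hD : 1 ≤ D) (hn : 3 ≤ n) :
    Real.log (D * n) ≤ (1 + Real.log D) * Real.log n := by
  have hnr : (0 : ℝ) < n := by positivity
  have hDr : (1 : ℝ) ≤ D := by exact_mod_cast hD
  have h1 : (1 : ℝ) ≤ Real.log n := by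
    rw [Real.le_log_iff_exp_le hnr]
    have h3 : (3 : ℝ) ≤ n := by exact_mod_cast hn
    have h4 := Real.exp_one_lt_d9
    linarith
  rw [Real.log_mul (by positivity) (by positivity)]
  have h2 : 0 ≤ Real.log D := Real.log_nonneg hDr
  nlinarith

lemma pJ_le {D n : ℕ} (hD : 1 ≤ D) (hn : 3 ≤ n) :
    (pJ D n : ℝ) ≤ (3 + 2 * Real.log D) * Real.log n := by
  have hnr : (0 : ℝ) < n := by positivity
  have hDr : (1 : ℝ) ≤ D := by exact_mod_cast hD
  have h1 : (1 : ℝ) ≤ Real.log n := by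
    rw [Real.le_log_iff_exp_le hnr]
    have h3 : (3 : ℝ) ≤ n := by exact_mod_cast hn
    have h4 := Real.exp_one_lt_d9
    linarith
  have hDn : D * n ≠ 0 := by positivity
  have h2 : (2 : ℝ) ^ Nat.log 2 (D * n) ≤ D * n := by
    exact_mod_cast Nat.pow_log_le_self 2 hDn
  have h3 : (Nat.log 2 (D * n) : ℝ) * Real.log 2 ≤ Real.log (D * n) := by
    rw [← Real.log_pow]
    exact Real.log_le_log (by positivity) h2
  have h4 := log_Dn_le hD hn
  have h5 : (1 : ℝ) / 2 ≤ Real.log 2 := by have := Real.log_two_gt_d9; linarith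
  have h6 : (Nat.log 2 (D * n) : ℝ) * (1 / 2) ≤ (Nat.log 2 (D * n) : ℝ) * Real.log 2 :=
    mul_le_mul_of_nonneg_left h5 (Nat.cast_nonneg _)
  have h7 : 0 ≤ Real.log D := Real.log_nonneg hDr
  unfold pJ
  push_cast
  nlinarith

lemma exists_growth (D : ℕ) (hD : 1 ≤ D) {lam : ℝ} (hlam : 0 < lam) :
    ∃ C : ℝ, 0 < C ∧ ∀ n : ℕ, 3 ≤ n →
      (pL1 D lam n : ℝ) ≤ C * Real.log n ^ 2 ∧ (pt D lam n : ℝ) ≤ C * Real.log n ^ 4 ∧
      (pL D lam n : ℝ) ≤ C * Real.log n ^ 5 := by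
  have hc := pc1_pos hlam
  have hm : (0 : ℝ) < pm lam := by exact_mod_cast pm_pos hlam
  have hDr : (1 : ℝ) ≤ D := by exact_mod_cast hD
  have hlD : 0 ≤ Real.log D := Real.log_nonneg hDr
  set CJ : ℝ := 3 + 2 * Real.log D with hCJ
  have hCJpos : 0 < CJ := by positivity
  set CA : ℝ := 2 * D / pc1 lam * (1 + Real.log D) with hCA
  have hCApos : 0 < CA := by positivity
  set Ct : ℝ := 128 * CA ^ 2 * CJ ^ 2 + 1 with hCt
  have hCtpos : 0 < Ct := by positivity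
  set C1 : ℝ := 32 * (pm lam : ℝ) ^ 2 * D ^ 2 * (2 * D / lam + pm lam) ^ 2 + 1 with hC1
  have hC1pos : 0 < C1 := by positivity
  set C : ℝ := C1 + Ct + (pm lam * C1 + (CJ + 1) * Ct) with hC
  refine ⟨C, by positivity, ?_⟩
  intro n hn
  have hnr : (0 : ℝ) < n := by positivity
  set ℓ : ℝ := Real.log n with hℓ
  have h1 : (1 : ℝ) ≤ ℓ := by
    rw [hℓ, Real.le_log_iff_exp_le hnr]
    have h3 : (3 : ℝ) ≤ n := by exact_mod_cast hn
    have h4 := Real.exp_one_lt_d9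
    linarith
  have hℓpos : 0 < ℓ := by linarith
  have hp2 : (1 : ℝ) ≤ ℓ ^ 2 := one_le_pow₀ h1
  have hp4 : (1 : ℝ) ≤ ℓ ^ 4 := one_le_pow₀ h1
  have hp25 : ℓ ^ 2 ≤ ℓ ^ 5 := pow_le_pow_right₀ h1 (by norm_num)
  have hp45 : ℓ ^ 4 ≤ ℓ ^ 5 := pow_le_pow_right₀ h1 (by norm_num)
  have hL1 : (pL1 D lam n : ℝ) ≤ C1 * ℓ ^ 2 := by
    have h2 : (pL1 D lam n : ℝ) ≤ 32 * (pm lam : ℝ) ^ 2 * D ^ 2 * (D * pκ lam n + pm lam) ^ 2 + 1 := by
      unfold pL1
      apply (Nat.ceil_lt_add_one _).le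
      positivity
    have h3 : D * pκ lam n + pm lam ≤ (2 * D / lam + pm lam) * ℓ := by
      unfold pκ
      have : (pm lam : ℝ) ≤ pm lam * ℓ := le_mul_of_one_le_right hm.le h1
      have h4 : D * (2 * ℓ / lam) = 2 * D / lam * ℓ := by ring
      rw [h4]; linarith
    have h3' : 0 ≤ D * pκ lam n + pm lam := by unfold pκ; positivity
    have h4 : (D * pκ lam n + pm lam) ^ 2 ≤ ((2 * D / lam + pm lam) * ℓ) ^ 2 :=
      pow_le_pow_left₀ h3' h3 2
    have h5 := mul_le_mul_of_nonneg_left h4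
      (show (0 : ℝ) ≤ 32 * (pm lam : ℝ) ^ 2 * D ^ 2 by positivity)
    calc (pL1 D lam n : ℝ) ≤ 32 * (pm lam : ℝ) ^ 2 * D ^ 2 * ((2 * D / lam + pm lam) * ℓ) ^ 2 + 1 := by
          linarith
      _ ≤ 32 * (pm lam : ℝ) ^ 2 * D ^ 2 * ((2 * D / lam + pm lam) * ℓ) ^ 2 + ℓ ^ 2 := by linarith
      _ = C1 * ℓ ^ 2 := by rw [hC1]; ring
  have hA : pA D lam n ≤ CA * ℓ := by
    unfold pA
    have := log_Dn_le hD hn
    calc 2 * D / pc1 lam * Real.log (D * n) ≤ 2 * D / pc1 lam * ((1 + Real.log D) * ℓ) :=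
          mul_le_mul_of_nonneg_left this (by positivity)
      _ = CA * ℓ := by rw [hCA]; ring
  have hA0 : 0 ≤ pA D lam n := by
    unfold pA
    have : 0 ≤ Real.log (D * n) := by
      apply Real.log_nonneg
      have h3 : (3 : ℝ) ≤ n := by exact_mod_cast hn
      nlinarith
    positivity
  have hJ : (pJ D n : ℝ) ≤ CJ * ℓ := pJ_le hD hn
  have ht : (pt D lam n : ℝ) ≤ Ct * ℓ ^ 4 := by
    have h2 : (pt D lam n : ℝ) ≤ 128 * (pA D lam n) ^ 2 * (pJ D n : ℝ) ^ 2 + 1 := by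
      unfold pt
      apply (Nat.ceil_lt_add_one _).le
      positivity
    have h3 : (pA D lam n) ^ 2 ≤ (CA * ℓ) ^ 2 := pow_le_pow_left₀ hA0 hA 2
    have h4 : (pJ D n : ℝ) ^ 2 ≤ (CJ * ℓ) ^ 2 := pow_le_pow_left₀ (Nat.cast_nonneg _) hJ 2
    have h5 : (pA D lam n) ^ 2 * (pJ D n : ℝ) ^ 2 ≤ (CA * ℓ) ^ 2 * (CJ * ℓ) ^ 2 :=
      mul_le_mul h3 h4 (by positivity) (by positivity)
    calc (pt D lam n : ℝ) ≤ 128 * ((CA * ℓ) ^ 2 * (CJ * ℓ) ^ 2) + 1 := by nlinarith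
      _ ≤ 128 * ((CA * ℓ) ^ 2 * (CJ * ℓ) ^ 2) + ℓ ^ 4 := by linarith
      _ = Ct * ℓ ^ 4 := by rw [hCt]; ring
  have hL : (pL D lam n : ℝ) ≤ (pm lam * C1 + (CJ + 1) * Ct) * ℓ ^ 5 := by
    unfold pL
    push_cast
    have h2 : (pm lam : ℝ) * pL1 D lam n ≤ pm lam * C1 * ℓ ^ 5 := by
      calc (pm lam : ℝ) * pL1 D lam n ≤ pm lam * (C1 * ℓ ^ 2) :=
            mul_le_mul_of_nonneg_left hL1 hm.le
        _ ≤ pm lam * (C1 * ℓ ^ 5) := by
            apply mul_le_mul_of_nonneg_left _ hm.le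
            exact mul_le_mul_of_nonneg_left hp25 hC1pos.le
        _ = _ := by ring
    have h3 : (pJ D n : ℝ) * pt D lam n ≤ CJ * Ct * ℓ ^ 5 := by
      calc (pJ D n : ℝ) * pt D lam n ≤ (CJ * ℓ) * (Ct * ℓ ^ 4) :=
            mul_le_mul hJ ht (Nat.cast_nonneg _) (by positivity)
        _ = _ := by ring
    have h4 : (pt D lam n : ℝ) ≤ Ct * ℓ ^ 5 :=
      ht.trans (mul_le_mul_of_nonneg_left hp45 hCtpos.le)
    calc _ ≤ pm lam * C1 * ℓ ^ 5 + CJ * Ct * ℓ ^ 5 + Ct * ℓ ^ 5 := by linarith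
      _ = _ := by ring
  refine ⟨?_, ?_, ?_⟩
  · refine hL1.trans (mul_le_mul_of_nonneg_right ?_ (by positivity))
    rw [hC]
    have : 0 ≤ pm lam * C1 + (CJ + 1) * Ct := by positivity
    linarith
  · refine ht.trans (mul_le_mul_of_nonneg_right ?_ (by positivity))
    rw [hC]
    have : 0 ≤ pm lam * C1 + (CJ + 1) * Ct := by positivity
    linarith
  · refine hL.trans (mul_le_mul_of_nonneg_right ?_ (by positivity))
    rw [hC]
    linarith

lemma pt_tendsto (D : ℕ) (hD : 1 ≤ D) {lam : ℝ} (hlam : 0 < lam) :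
    Tendsto (fun n : ℕ => (pt D lam n : ℝ)) atTop atTop := by
  have hc := pc1_pos hlam
  have hDr : (1 : ℝ) ≤ D := by exact_mod_cast hD
  have h1 : Tendsto (fun n : ℕ => Real.log n) atTop atTop :=
    Real.tendsto_log_atTop.comp tendsto_natCast_atTop_atTop
  -- lower bound  log n ≤ c * ... eventually
  have h2 : ∀ᶠ n : ℕ in atTop, 128 * (2 * D / pc1 lam) ^ 2 * Real.log n ≤ (pt D lam n : ℝ) := by
    filter_upwards [eventually_ge_atTop 3] with n hn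
    have hnr : (0 : ℝ) < n := by positivity
    have hℓ : (1 : ℝ) ≤ Real.log n := by
      rw [Real.le_log_iff_exp_le hnr]
      have h3 : (3 : ℝ) ≤ n := by exact_mod_cast hn
      have h4 := Real.exp_one_lt_d9
      linarith
    have h3 : Real.log n ≤ Real.log (D * n) := by
      apply Real.log_le_log hnr
      nlinarith
    have h4 : (1 : ℝ) ≤ (pJ D n : ℝ) ^ 2 := by
      apply one_le_pow₀
      unfold pJ; push_cast
      have : (0 : ℝ) ≤ Nat.log 2 (D * n) := Nat.cast_nonneg _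
      linarith
    have h5 : 128 * (pA D lam n) ^ 2 * (pJ D n : ℝ) ^ 2 ≤ (pt D lam n : ℝ) := Nat.le_ceil _
    have h6 : Real.log n ≤ Real.log (D * n) ^ 2 := by nlinarith
    calc 128 * (2 * D / pc1 lam) ^ 2 * Real.log n
        ≤ 128 * (2 * D / pc1 lam) ^ 2 * Real.log (D * n) ^ 2 :=
          mul_le_mul_of_nonneg_left h6 (by positivity)
      _ = 128 * (pA D lam n) ^ 2 * 1 := by unfold pA; ring
      _ ≤ 128 * (pA D lam n) ^ 2 * (pJ D n : ℝ) ^ 2 :=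
          mul_le_mul_of_nonneg_left h4 (by positivity)
      _ ≤ _ := h5
  refine tendsto_atTop_mono' _ h2 ?_
  exact Tendsto.const_mul_atTop (by positivity) h1

lemma eventually_card (D : ℕ) {C : ℝ} (hC : 0 < C) (k : ℕ) (f : ℕ → ℕ)
    (hf : ∀ n : ℕ, 3 ≤ n → (f n : ℝ) ≤ C * Real.log n ^ k) :
    ∀ᶠ n : ℕ in atTop, 2 * D * (f n + 1) ≤ n := by
  have h1 : Tendsto (fun x : ℝ => Real.log x ^ k / x) atTop (𝓝 0) :=
    (Real.isLittleO_pow_log_id_atTop (n := k)).tendsto_div_nhds_zero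
  have h2 : Tendsto (fun n : ℕ => Real.log (n : ℝ) ^ k / (n : ℝ)) atTop (𝓝 0) :=
    h1.comp tendsto_natCast_atTop_atTop
  have h3 : Tendsto (fun n : ℕ => 2 * (D : ℝ) * (C * (Real.log (n : ℝ) ^ k / (n : ℝ)) + 1 / n))
      atTop (𝓝 (2 * (D : ℝ) * (C * 0 + 0))) :=
    ((h2.const_mul C).add tendsto_one_div_atTop_nhds_zero_nat).const_mul _
  have h4 : 2 * (D : ℝ) * (C * 0 + 0) < 1 := by norm_num
  filter_upwards [h3.eventually_lt_const h4, eventually_ge_atTop 3] with n hn hn3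
  have hnr : (0 : ℝ) < n := by positivity
  have h5 : (2 * D * (f n + 1) : ℝ) ≤ n := by
    have h6 : (2 * D * (f n + 1) : ℝ) ≤ 2 * D * (C * Real.log n ^ k + 1) := by
      apply mul_le_mul_of_nonneg_left _ (by positivity)
      linarith [hf n hn3]
    have h7 : 2 * (D : ℝ) * (C * (Real.log (n : ℝ) ^ k / (n : ℝ)) + 1 / n) * n
        = 2 * D * (C * Real.log n ^ k + 1) := by field_simp
    have h8 : 2 * (D : ℝ) * (C * (Real.log (n : ℝ) ^ k / (n : ℝ)) + 1 / n) * n < 1 * n :=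
      mul_lt_mul_of_pos_right hn hnr
    linarith
  exact_mod_cast h5

end Pool.Agent.helper98.Frog
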