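import Pool.Agent.helper98.FrogCount

set_option autoImplicit false
set_option linter.unusedSectionVars false

open Finset MeasureTheory ProbabilityTheory

namespace Pool.Agent.helper98.Frog

variable {V : Type*} [Fintype V] [DecidableEq V] {G : SimpleGraph V} [DecidableRel G.Adj]

lemma clos_union_eq {y : V → Finset V} {F K : Finset V} (h : K ⊆ clos y ∅ F) :
    clos y ∅ (F ∪ K) = clos y ∅ F := by
  apply Finset.Subset.antisymm
  · apply clos_minimal
    · exact Finset.union_subset (subset_clos _ _ _) h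
    · intro a ha; exact clos_closed ha
  · apply clos_minimal
    · exact Finset.subset_union_left.trans (subset_clos _ _ _)
    · intro a ha; exact clos_closed ha

variable {Ω : Type*} [MeasurableSpace Ω]

/-- Non-asymptotic bound for the probability that the closure is not everything. -/
theorem SetModel.main_bound {P : Measure Ω} [IsProbabilityMeasure P] {lam : ℝ} {L : ℕ} {o : V}
    {Y : V → Ω → Finset V} {F0 : Ω → Finset V} (h : SetModel G P lam L o Y F0)
    (hG : G.Connected) (hdeg : ∀ x, 0 < G.degree x) (hlam : 0 < lam) {D : ℕ}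
    (hD : ∀ x, G.degree x ≤ D) {L1 : ℕ} (hcard : 2 * D * (L1 + 1) ≤ Fintype.card V)
    {κ : ℝ} {m : ℕ} (hm : 0 < m)
    (hη : (D * κ + m) * (D * Real.sqrt (8 * (L1 + 1))) ≤ 1 / (2 * m) * (L1 + 1))
    {t J : ℕ} {A : ℝ} (hA : 0 < A) (hJ : 0 < J)
    (ht : 128 * A ^ 2 * J ^ 2 ≤ t) (hJn : D * Fintype.card V < 2 ^ J)
    {c1 : ℝ} (hc1 : c1 = (1 - Real.exp (-1)) * (1 - Real.exp (-(lam / 4))))
    (hmc : 1 / (m : ℝ) ≤ c1) (hL : m * L1 + J * t + t ≤ L) (m0 : ℕ) :
    P.real {ω | clos (fun v => Y v ω) ∅ (F0 ω) ≠ univ} ≤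
      Fintype.card V * Real.exp (-(lam * κ)) +
      ((1 + Real.exp (-(c1 * A / D))) ^ (D * Fintype.card V) - 1) +
      (Real.exp (-((m0 : ℝ) / m)) + (1 - rangeE G (freshΘ m0 ∅) L o ∅)) := by
  classical
  have hmr : (0 : ℝ) < m := by exact_mod_cast hm
  have hDpos : (0 : ℝ) < D := by
    have h1 := hdeg o
    have h2 := hD o
    have : 0 < D := by omega
    exact_mod_cast this
  have hc1pos : 0 < c1 := lt_of_lt_of_le (by positivity) hmc
  set R : Ω → Finset V := fun ω => clos (fun v => Y v ω) ∅ (F0 ω) with hR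
  set S : V → Set Ω := fun w => {ω | w ∉ R ω ∧ κ < ∑ v ∈ R ω, hit G w L1 v} with hS
  set C : Finset V → Set Ω := fun K =>
    {ω | (K ⊆ clos (fun v => Y v ω) ∅ (F0 ω ∪ K) ∧
      ∀ z ∈ clos (fun v => Y v ω) ∅ (F0 ω ∪ K), (1 - surv G K t z) / 4 ≤
        rangeE G (freshΘ m (clos (fun v => Y v ω) ∅ (F0 ω ∪ K))) L z ∅)} with hC
  set 𝒦 : Finset (Finset V) := (univ : Finset (Finset V)).filter
    (fun K => (K.Nonempty ∧ K ≠ univ) ∧ A * bd G K ≤ exitMass G K t) with h𝒦
  -- inclusion of events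
  have hincl : {ω | R ω ≠ univ} ⊆ (⋃ w, S w) ∪ ((⋃ K ∈ 𝒦, C K) ∪ C ∅) := by
    intro ω hω
    by_cases hsat : ∃ w, w ∉ R ω ∧ κ < ∑ v ∈ R ω, hit G w L1 v
    · obtain ⟨w, hw⟩ := hsat
      left
      exact Set.mem_iUnion.2 ⟨w, hw⟩
    · right
      push Not at hsat
      have hbdR : bd G (R ω) < 2 ^ J :=
        lt_of_le_of_lt ((bd_le_card G (R ω)).trans (card_adjP_le G hD)) hJn
      obtain ⟨K, hKR, hthick, hK⟩ := exists_good_core G hG hdeg hD hcard (R ω) hm hsat hη hA hJ
        ht hbdR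
      have hclos : clos (fun v => Y v ω) ∅ (F0 ω ∪ K) = R ω := clos_union_eq hKR
      have hCK : ω ∈ C K := by
        rw [hC]
        simp only [Set.mem_ofPred_eq]
        rw [hclos]
        refine ⟨hKR, ?_⟩
        intro z _
        refine (hK z).trans ?_
        exact rangeE_mono_time' G hdeg (freshΘ_mono m (R ω)) hL z ∅
      by_cases hKe : K = ∅
      · right; rw [hKe] at hCK; exact hCK
      · left
        simp only [Set.mem_iUnion]
        refine ⟨K, ?_, hCK⟩
        rw [h𝒦, Finset.mem_filter]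
        refine ⟨Finset.mem_univ _, ⟨Finset.nonempty_iff_ne_empty.2 hKe, ?_⟩, hthick⟩
        intro hKu
        apply hω
        rw [hKu] at hKR
        exact Finset.univ_subset_iff.1 hKR
  -- probabilities
  have hPS : P.real (⋃ w, S w) ≤ Fintype.card V * Real.exp (-(lam * κ)) := by
    have hL1 : L1 ≤ L := by
      have : L1 ≤ m * L1 := Nat.le_mul_of_pos_left _ hm
      omega
    calc P.real (⋃ w, S w) ≤ ∑ w, P.real (S w) := measureReal_iUnion_fintype_le _
      _ ≤ ∑ w : V, Real.exp (-(lam * κ)) :=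
          Finset.sum_le_sum fun w _ => h.saturation hdeg hlam hL1 κ w
      _ = _ := by rw [Finset.sum_const, Finset.card_univ, nsmul_eq_mul]
  have hPC : ∀ K : Finset V, P.real (C K) ≤ ∑ f : Finset V, P.real {ω | F0 ω = f} *
      Real.exp (-(((f \ K).card : ℝ) / m) - c1 * ∑ z ∈ K, (1 - surv G K t z)) := by
    intro K
    exact h.prob_le (fun A => K ⊆ A ∧ ∀ z ∈ A, (1 - surv G K t z) / 4 ≤
      rangeE G (freshΘ m A) L z ∅) K _ (fun f => h.core_bound hdeg hlam hm hc1 hmc t K f)
  have hPCK : ∀ K ∈ 𝒦, P.real (C K) ≤ Real.exp (-(c1 * A / D)) ^ bd G K := by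
    intro K hK
    have hK' := (Finset.mem_filter.1 hK).2
    have h1 : c1 * A / D * bd G K ≤ c1 * ∑ z ∈ K, (1 - surv G K t z) := by
      have h2 := exitMass_le G hdeg hD K t
      have h3 : A * bd G K / D ≤ ∑ z ∈ K, (1 - surv G K t z) := by
        rw [div_le_iff₀ hDpos]
        linarith [hK'.2]
      calc c1 * A / D * bd G K = c1 * (A * bd G K / D) := by ring
        _ ≤ _ := mul_le_mul_of_nonneg_left h3 hc1pos.le
    calc P.real (C K) ≤ ∑ f : Finset V, P.real {ω | F0 ω = f} *
        Real.exp (-(((f \ K).card : ℝ) / m) - c1 * ∑ z ∈ K, (1 - surv G K t z)) := hPC K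
      _ ≤ ∑ f : Finset V, P.real {ω | F0 ω = f} * Real.exp (-(c1 * A / D)) ^ bd G K := by
          apply Finset.sum_le_sum
          intro f _
          apply mul_le_mul_of_nonneg_left _ measureReal_nonneg
          rw [← Real.exp_nat_mul]
          apply Real.exp_le_exp.2
          have h2 : 0 ≤ ((f \ K).card : ℝ) / m := by positivity
          linarith
      _ = Real.exp (-(c1 * A / D)) ^ bd G K := by
          rw [← Finset.sum_mul, sum_prob_eq_one h.measF, one_mul]
  have hPU : P.real (⋃ K ∈ 𝒦, C K)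
      ≤ (1 + Real.exp (-(c1 * A / D))) ^ (D * Fintype.card V) - 1 := by
    have hx : 0 ≤ Real.exp (-(c1 * A / D)) := (Real.exp_pos _).le
    calc P.real (⋃ K ∈ 𝒦, C K) ≤ ∑ K ∈ 𝒦, P.real (C K) := measureReal_biUnion_finset_le _ _
      _ ≤ ∑ K ∈ 𝒦, Real.exp (-(c1 * A / D)) ^ bd G K := Finset.sum_le_sum hPCK
      _ ≤ ∑ K ∈ (univ : Finset (Finset V)).filter (fun K => K.Nonempty ∧ K ≠ univ),
            Real.exp (-(c1 * A / D)) ^ bd G K := by
          apply Finset.sum_le_sum_of_subset_of_nonneg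
          · intro K hK
            rw [h𝒦, Finset.mem_filter] at hK
            rw [Finset.mem_filter]
            exact ⟨hK.1, hK.2.1⟩
          · intro K _ _; exact pow_nonneg hx _
      _ ≤ (1 + Real.exp (-(c1 * A / D))) ^ (adjP G).card - 1 := sum_pow_bd_le G hG hx
      _ ≤ _ := by
          have : (1 + Real.exp (-(c1 * A / D))) ^ (adjP G).card
              ≤ (1 + Real.exp (-(c1 * A / D))) ^ (D * Fintype.card V) :=
            pow_le_pow_right₀ (by linarith) (card_adjP_le G hD)
          linarith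
  have hPE : P.real (C ∅)
      ≤ Real.exp (-((m0 : ℝ) / m)) + (1 - rangeE G (freshΘ m0 ∅) L o ∅) := by
    calc P.real (C ∅) ≤ ∑ f : Finset V, P.real {ω | F0 ω = f} *
        Real.exp (-(((f \ ∅).card : ℝ) / m) - c1 * ∑ z ∈ (∅ : Finset V),
          (1 - surv G ∅ t z)) := hPC ∅
      _ ≤ ∑ f : Finset V, (P.real {ω | F0 ω = f} * Real.exp (-((m0 : ℝ) / m)) +
          (P.real {ω | F0 ω = f} - P.real {ω | F0 ω = f} * (if m0 ≤ f.card then 1 else 0))) := by
          apply Finset.sum_le_sum
          intro f _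
          have hp : 0 ≤ P.real {ω | F0 ω = f} := measureReal_nonneg
          simp only [Finset.sdiff_empty, Finset.sum_empty, mul_zero, sub_zero]
          split_ifs with h1
          · have h2 : Real.exp (-((f.card : ℝ) / m)) ≤ Real.exp (-((m0 : ℝ) / m)) := by
              apply Real.exp_le_exp.2
              have : (m0 : ℝ) / m ≤ (f.card : ℝ) / m := by
                apply div_le_div_of_nonneg_right _ hmr.le
                exact_mod_cast h1
              linarith
            have := mul_le_mul_of_nonneg_left h2 hp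
            linarith
          · have h2 : Real.exp (-((f.card : ℝ) / m)) ≤ 1 := by
              apply Real.exp_le_one_iff.2
              have : 0 ≤ (f.card : ℝ) / m := by positivity
              linarith
            have h3 := mul_le_mul_of_nonneg_left h2 hp
            have h4 : 0 ≤ P.real {ω | F0 ω = f} * Real.exp (-((m0 : ℝ) / m)) :=
              mul_nonneg hp (Real.exp_pos _).le
            linarith
      _ = Real.exp (-((m0 : ℝ) / m)) + (1 - P.real {ω | m0 ≤ (F0 ω).card}) := by
          rw [Finset.sum_add_distrib, ← Finset.sum_mul, Finset.sum_sub_distrib,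
            sum_prob_eq_one h.measF, sum_prob_filter h.measF (fun f => m0 ≤ f.card), one_mul]
      _ ≤ _ := by
          have := h.freshF m0
          linarith
  calc P.real {ω | R ω ≠ univ} ≤ P.real ((⋃ w, S w) ∪ ((⋃ K ∈ 𝒦, C K) ∪ C ∅)) :=
        measureReal_mono hincl
    _ ≤ P.real (⋃ w, S w) + P.real ((⋃ K ∈ 𝒦, C K) ∪ C ∅) := measureReal_union_le _ _
    _ ≤ P.real (⋃ w, S w) + (P.real (⋃ K ∈ 𝒦, C K) + P.real (C ∅)) := by
        have := measureReal_union_le (μ := P) (⋃ K ∈ 𝒦, C K) (C ∅)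
        linarith
    _ ≤ _ := by linarith

end Pool.Agent.helper98.Frog
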