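import Pool.Agent.helper98.FrogWalk

set_option autoImplicit false
set_option linter.unusedSectionVars false

open Finset MeasureTheory ProbabilityTheory Filter Topology
open scoped ENNReal NNReal

namespace Pool.Agent.helper98.Frog

variable {V : Type*} [Fintype V] [DecidableEq V] {G : SimpleGraph V} [DecidableRel G.Adj]
variable {Ω : Type*} [MeasurableSpace Ω] [MeasurableSpace V] [DiscreteMeasurableSpace V]

lemma measurable_rng (L : ℕ) : Measurable (fun x : ℕ → V => rng L x) := by
  rw [measurable_finset_iff]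
  intro u
  have : (fun x : ℕ → V => u ∈ rng L x) = fun x => ∃ t : Fin (L + 1), x t = u := by
    ext x
    rw [mem_rng]
    constructor
    · rintro ⟨t, ht, h⟩; exact ⟨⟨t, by omega⟩, h⟩
    · rintro ⟨i, h⟩; exact ⟨i, by omega, h⟩
  rw [this]
  apply Measurable.exists
  intro t
  have h1 : Measurable fun x : ℕ → V => x (t : ℕ) := measurable_pi_apply _
  have h2 : MeasurableSet {x : ℕ → V | x (t : ℕ) = u} := h1 (measurableSet_singleton u)
  exact measurableSet_setOfPred.1 h2

open Classical in
/-- vertices visited within `L` steps by the first `n` walks. -/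
noncomputable def visSet (L : ℕ) (p : ℕ × (ℕ → ℕ → V)) : Finset V :=
  univ.filter fun u => ∃ i, i < p.1 ∧ u ∈ rng L (p.2 i)

lemma mem_visSet {L : ℕ} {p : ℕ × (ℕ → ℕ → V)} {u : V} :
    u ∈ visSet L p ↔ ∃ i, i < p.1 ∧ u ∈ rng L (p.2 i) := by
  simp [visSet]

lemma measurable_visSet (L : ℕ) : Measurable (visSet L : ℕ × (ℕ → ℕ → V) → Finset V) := by
  rw [measurable_finset_iff]
  intro u
  have : (fun p : ℕ × (ℕ → ℕ → V) => u ∈ visSet L p)
      = fun p => ∃ i : ℕ, i < p.1 ∧ u ∈ rng L (p.2 i) := by
    ext p; exact mem_visSet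
  rw [this]
  apply Measurable.exists
  intro i
  apply Measurable.and
  · exact measurableSet_setOfPred.1 (measurable_fst (MeasurableSet.of_discrete (s := {k : ℕ | i < k})))
  · have h1 : Measurable fun p : ℕ × (ℕ → ℕ → V) => rng L (p.2 i) :=
      (measurable_rng L).comp ((measurable_pi_apply i).comp measurable_snd)
    exact (measurable_finset_mem u).comp h1

/-- Poisson thinning -/
lemma thinning {P : Measure Ω} [IsProbabilityMeasure P] {lam : ℝ≥0} {N : Ω → ℕ}
    {W : ℕ → Ω → ℕ → V} (hN : Measurable N) (hlaw : P.map N = poissonMeasure lam)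
    (hW : ∀ i, Measurable (W i)) (hNW : IndepFun N (fun ω i => W i ω) P) (hind : iIndepFun W P)
    (S : Set (ℕ → V)) (hS : MeasurableSet S) {ρ : ℝ} (hρ : ∀ i, P.real (W i ⁻¹' S) = ρ) :
    P.real {ω | ∀ i < N ω, W i ω ∉ S} = Real.exp (-(lam * ρ)) := by
  -- events with N = k
  have hcompl : ∀ i, P (W i ⁻¹' Sᶜ) = ENNReal.ofReal (1 - ρ) := by
    intro i
    have h1 : P.real (W i ⁻¹' Sᶜ) = 1 - ρ := by
      rw [Set.preimage_compl, probReal_compl_eq_one_sub (hW i hS), hρ]
    rw [← h1, ofReal_measureReal]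
  have hρ1 : 0 ≤ 1 - ρ := by
    have h1 : P.real (W 0 ⁻¹' S) ≤ 1 := measureReal_le_one
    rw [hρ 0] at h1; linarith
  have hk : ∀ k : ℕ, P (N ⁻¹' {k} ∩ {ω | ∀ i < k, W i ω ∉ S})
      = ENNReal.ofReal (Real.exp (-lam) * lam ^ k / k.factorial) * ENNReal.ofReal (1 - ρ) ^ k := by
    intro k
    have hset : {ω | ∀ i < k, W i ω ∉ S} = (fun ω i => W i ω) ⁻¹' {f | ∀ i < k, f i ∉ S} := rfl
    have hm : MeasurableSet {f : ℕ → ℕ → V | ∀ i < k, f i ∉ S} := by
      have : {f : ℕ → ℕ → V | ∀ i < k, f i ∉ S} = ⋂ i ∈ Finset.range k, (fun f => f i) ⁻¹' Sᶜ := by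
        ext f; simp
      rw [this]
      apply Finset.measurableSet_biInter
      intro i _
      exact (measurable_pi_apply i) hS.compl
    rw [hset, hNW.measure_inter_preimage_eq_mul _ _ (measurableSet_singleton k) hm]
    congr 1
    · have : P (N ⁻¹' {k}) = P.map N {k} := by
        rw [Measure.map_apply hN (measurableSet_singleton k)]
      rw [this, hlaw, poissonMeasure_singleton]
    · have h2 : (fun ω i => W i ω) ⁻¹' {f : ℕ → ℕ → V | ∀ i < k, f i ∉ S}
          = ⋂ i ∈ Finset.range k, W i ⁻¹' Sᶜ := by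
        ext ω; simp
      rw [h2, hind.meas_biInter]
      · rw [Finset.prod_congr rfl fun i _ => hcompl i, Finset.prod_const, Finset.card_range]
      · intro i _
        exact ⟨Sᶜ, hS.compl, rfl⟩
  have hunion : {ω | ∀ i < N ω, W i ω ∉ S} = ⋃ k : ℕ, (N ⁻¹' {k} ∩ {ω | ∀ i < k, W i ω ∉ S}) := by
    ext ω
    simp only [Set.mem_ofPred_eq, Set.mem_iUnion, Set.mem_inter_iff, Set.mem_preimage,
      Set.mem_singleton_iff]
    constructor
    · intro h; exact ⟨N ω, rfl, h⟩
    · rintro ⟨k, rfl, h⟩; exact h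
  have hmeas : P {ω | ∀ i < N ω, W i ω ∉ S} = ENNReal.ofReal (Real.exp (-(lam * ρ))) := by
    rw [hunion, measure_iUnion]
    · rw [tsum_congr hk]
      have h3 : ∀ k : ℕ, ENNReal.ofReal (Real.exp (-lam) * lam ^ k / k.factorial)
          * ENNReal.ofReal (1 - ρ) ^ k
          = ENNReal.ofReal (Real.exp (-lam) * ((lam * (1 - ρ)) ^ k / k.factorial)) := by
        intro k
        rw [← ENNReal.ofReal_pow hρ1, ← ENNReal.ofReal_mul (by positivity)]
        congr 1
        rw [mul_pow]; ring
      rw [tsum_congr h3, ← ENNReal.ofReal_tsum_of_nonneg]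
      · congr 1
        rw [tsum_mul_left]
        have h4 : ∑' k : ℕ, ((lam : ℝ) * (1 - ρ)) ^ k / (k.factorial : ℝ)
            = Real.exp ((lam : ℝ) * (1 - ρ)) := by
          rw [Real.exp_eq_exp_ℝ, NormedSpace.exp_eq_tsum_div]
        rw [h4, ← Real.exp_add]
        congr 1; ring
      · intro k
        have : 0 ≤ (lam : ℝ) * (1 - ρ) := mul_nonneg lam.2 hρ1
        positivity
      · apply Summable.mul_left
        exact Real.summable_pow_div_factorial _
    · intro j k hjk
      rw [Function.onFun, Set.disjoint_left]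
      rintro ω ⟨h1, _⟩ ⟨h2, _⟩
      exact hjk (h1.symm.trans h2)
    · intro k
      apply (hN (measurableSet_singleton k)).inter
      have : {ω | ∀ i < k, W i ω ∉ S} = ⋂ i ∈ Finset.range k, W i ⁻¹' Sᶜ := by
        ext ω; simp
      rw [this]
      apply Finset.measurableSet_biInter
      intro i _
      exact (hW i) hS.compl
  rw [measureReal_def, hmeas, ENNReal.toReal_ofReal (Real.exp_pos _).le]

theorem IsFrogModel.toSetModel {o : V} {lam : ℝ≥0} {P : Measure Ω} [IsProbabilityMeasure P]
    {N : V → Ω → ℕ} {W : V → ℕ → Ω → ℕ → V} {X : Ω → ℕ → V}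
    (h : IsFrogModel G o lam P N W X) (hdeg : ∀ x, 0 < G.degree x) (L : ℕ) :
    SetModel G P lam L o (fun v ω => visSet L (N v ω, fun i => W v i ω))
      (fun ω => rng L (X ω)) where
  measY := by
    intro v
    apply (measurable_visSet L).comp
    exact (h.measurable_num v).prodMk (measurable_pi_lambda _ fun i => (h.walk v i).measurable)
  measF := (measurable_rng L).comp h.walk_extra.measurable
  indY := h.indep_vertices.comp (fun _ => visSet L) (fun _ => measurable_visSet L)
  indF := by
    have h1 : Measurable (fun (p : V → ℕ × (ℕ → ℕ → V)) (v : V) => visSet L (p v)) :=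
      measurable_pi_lambda _ fun v => (measurable_visSet L).comp (measurable_pi_apply v)
    exact h.indep_extra.comp (measurable_rng L) h1
  hitY := by
    intro v w
    have hS : MeasurableSet {x : ℕ → V | w ∈ rng L x} :=
      measurableSet_setOfPred.2 ((measurable_finset_mem w).comp (measurable_rng L))
    have h1 := thinning (h.measurable_num v) (h.law_num v) (fun i => (h.walk v i).measurable)
      (h.indep_num_walks v) (h.indep_walks v) {x : ℕ → V | w ∈ rng L x} hS
      (ρ := hit G w L v) (by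
        intro i
        have h2 := (h.walk v i).range_prob L (fun S => w ∈ S)
        have h3 := rangeE_hit G hdeg w L v ∅
        simp only [Finset.notMem_empty, if_false] at h3
        rw [← h3]
        exact h2)
    have h2 : {ω | w ∉ visSet L (N v ω, fun i => W v i ω)}
        = {ω | ∀ i < N v ω, W v i ω ∉ {x : ℕ → V | w ∈ rng L x}} := by
      ext ω
      simp only [Set.mem_ofPred_eq, mem_visSet]
      push Not
      rfl
    rw [h2, h1]
  freshY := by
    intro v m A
    have hS : MeasurableSet {x : ℕ → V | m ≤ (rng L x \ A).card} := by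
      exact (measurable_rng L) (MeasurableSet.of_discrete (s := {S : Finset V | m ≤ (S \ A).card}))
    have h1 := thinning (h.measurable_num v) (h.law_num v) (fun i => (h.walk v i).measurable)
      (h.indep_num_walks v) (h.indep_walks v) {x : ℕ → V | m ≤ (rng L x \ A).card} hS
      (ρ := rangeE G (freshΘ m A) L v ∅) (by
        intro i
        exact (h.walk v i).range_prob L (fun S => m ≤ (S \ A).card))
    have h2 : {ω | ∀ i < N v ω, W v i ω ∉ {x : ℕ → V | m ≤ (rng L x \ A).card}}ᶜ
        ⊆ {ω | m ≤ (visSet L (N v ω, fun i => W v i ω) \ A).card} := by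
      intro ω hω
      simp only [Set.mem_compl_iff, Set.mem_ofPred_eq] at hω ⊢
      push Not at hω
      obtain ⟨i, hi, hmi⟩ := hω
      refine hmi.trans (Finset.card_le_card (Finset.sdiff_subset_sdiff ?_ (le_refl A)))
      intro u hu
      exact mem_visSet.2 ⟨i, hi, hu⟩
    have h3 : MeasurableSet {ω | ∀ i < N v ω, W v i ω ∉ {x : ℕ → V | m ≤ (rng L x \ A).card}} := by
      have h4 : {ω | ∀ i < N v ω, W v i ω ∉ {x : ℕ → V | m ≤ (rng L x \ A).card}}
          = ⋂ i : ℕ, {ω | i < N v ω}ᶜ ∪ (W v i ⁻¹' {x : ℕ → V | m ≤ (rng L x \ A).card})ᶜ := by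
        ext ω
        simp only [Set.mem_ofPred_eq, Set.mem_iInter, Set.mem_union, Set.mem_compl_iff,
          Set.mem_preimage]
        constructor
        · intro h5 i
          by_cases h6 : i < N v ω
          · right; exact h5 i h6
          · left; exact h6
        · intro h5 i hi
          rcases h5 i with h6 | h6
          · exact absurd hi h6
          · exact h6
      rw [h4]
      apply MeasurableSet.iInter
      intro i
      apply MeasurableSet.union
      · exact (h.measurable_num v (MeasurableSet.of_discrete (s := {k : ℕ | i < k}))).compl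
      · exact ((h.walk v i).measurable hS).compl
    calc 1 - Real.exp (-((lam : ℝ) * rangeE G (freshΘ m A) L v ∅))
        = P.real {ω | ∀ i < N v ω, W v i ω ∉ {x : ℕ → V | m ≤ (rng L x \ A).card}}ᶜ := by
          rw [probReal_compl_eq_one_sub h3, h1]
      _ ≤ _ := measureReal_mono h2
  freshF := by
    intro m
    have h1 := h.walk_extra.range_prob L (fun S => m ≤ (S \ ∅).card)
    have h2 : {ω | m ≤ (rng L (X ω) \ ∅).card} = {ω | m ≤ (rng L (X ω)).card} := by
      ext ω; simp
    have h3 : P.real {ω | m ≤ (rng L (X ω) \ ∅).card} = rangeE G (freshΘ m ∅) L o ∅ := h1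
    rw [← h3, h2]

lemma visited_iff (N : V → ℕ) (W : V → ℕ → ℕ → V) (X : ℕ → V) (L : ℕ) (u : V) :
    Visited N W X L u ↔ u ∈ clos (fun v => visSet L (N v, W v)) ∅ (rng L X) := by
  constructor
  · intro h
    induction h with
    | extra ht => exact subset_clos _ _ _ (mem_rng.2 ⟨_, ht, rfl⟩)
    | step hv hi ht ih =>
      exact clos_closed ih (mem_visSet.2 ⟨_, hi, mem_rng.2 ⟨_, ht, rfl⟩⟩)
  · intro h
    obtain ⟨u0, hu0, hr⟩ := mem_clos.1 h
    induction hr with
    | refl =>
      obtain ⟨t, ht, rfl⟩ := mem_rng.1 hu0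
      exact Visited.extra ht
    | @tail b c hub hbc ih =>
      have hb := ih (mem_clos.2 ⟨u0, hu0, hub⟩)
      obtain ⟨i, hi, hc⟩ := mem_visSet.1 hbc.2
      obtain ⟨t, ht, rfl⟩ := mem_rng.1 hc
      exact Visited.step hb hi ht

end Pool.Agent.helper98.Frog
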