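import Mathlib

set_option autoImplicit false
set_option linter.unusedSectionVars false

open Finset MeasureTheory ProbabilityTheory

namespace Pool.Agent.helper98.Frog

variable {V : Type*} [Fintype V] [DecidableEq V]

open Classical in
/-- points reachable from `F` when every point `a ∉ Q` is expanded to `y a`. -/
noncomputable def clos (y : V → Finset V) (Q F : Finset V) : Finset V :=
  univ.filter fun v => ∃ u ∈ F, Relation.ReflTransGen (fun a b => a ∉ Q ∧ b ∈ y a) u v

lemma mem_clos {y : V → Finset V} {Q F : Finset V} {v : V} :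
    v ∈ clos y Q F ↔ ∃ u ∈ F, Relation.ReflTransGen (fun a b => a ∉ Q ∧ b ∈ y a) u v := by
  simp [clos]

lemma subset_clos (y : V → Finset V) (Q F : Finset V) : F ⊆ clos y Q F := by
  intro v hv
  exact mem_clos.2 ⟨v, hv, Relation.ReflTransGen.refl⟩

lemma clos_eq_of_subset {y : V → Finset V} {Q F : Finset V} (h : F ⊆ Q) : clos y Q F = F := by
  apply Finset.Subset.antisymm _ (subset_clos y Q F)
  intro v hv
  obtain ⟨u, hu, hr⟩ := mem_clos.1 hv
  rcases Relation.ReflTransGen.cases_head hr with h1 | ⟨c, h1, _⟩
  · rwa [← h1]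
  · exact absurd (h hu) h1.1

lemma clos_step {y : V → Finset V} {Q F : Finset V} {z : V} (hz : z ∈ F) (hzQ : z ∉ Q) :
    clos y Q F = clos y (insert z Q) (F ∪ y z) := by
  apply Finset.Subset.antisymm
  · intro v hv
    obtain ⟨u, hu, hr⟩ := mem_clos.1 hv
    induction hr with
    | refl => exact subset_clos _ _ _ (Finset.mem_union_left _ hu)
    | @tail b c hub hbc ih =>
      have hb := ih (mem_clos.2 ⟨u, hu, hub⟩)
      by_cases hbz : b = z
      · subst hbz
        exact subset_clos _ _ _ (Finset.mem_union_right _ hbc.2)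
      · obtain ⟨u', hu', hr'⟩ := mem_clos.1 hb
        refine mem_clos.2 ⟨u', hu', hr'.tail ⟨?_, hbc.2⟩⟩
        rw [Finset.mem_insert]; push Not; exact ⟨hbz, hbc.1⟩
  · intro v hv
    obtain ⟨u, hu, hr⟩ := mem_clos.1 hv
    have hr' : Relation.ReflTransGen (fun a b => a ∉ Q ∧ b ∈ y a) u v := by
      refine Relation.ReflTransGen.mono ?_ _ _ hr
      intro a b hab
      exact ⟨fun h => hab.1 (Finset.mem_insert_of_mem h), hab.2⟩
    rcases Finset.mem_union.1 hu with h1 | h1
    · exact mem_clos.2 ⟨u, h1, hr'⟩
    · exact mem_clos.2 ⟨z, hz, Relation.ReflTransGen.head ⟨hzQ, h1⟩ hr'⟩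

lemma clos_congr {y y' : V → Finset V} {Q F : Finset V} (h : ∀ a, a ∉ Q → y a = y' a) :
    clos y Q F = clos y' Q F := by
  have : (fun a b => a ∉ Q ∧ b ∈ y a) = (fun a b => a ∉ Q ∧ b ∈ y' a) := by
    ext a b
    constructor
    · rintro ⟨h1, h2⟩; exact ⟨h1, by rwa [← h a h1]⟩
    · rintro ⟨h1, h2⟩; exact ⟨h1, by rwa [h a h1]⟩
  unfold clos
  rw [this]

/-- closedness of the closure -/
lemma clos_closed {y : V → Finset V} {F : Finset V} {a : V} (ha : a ∈ clos y ∅ F) :
    y a ⊆ clos y ∅ F := by
  intro b hb
  obtain ⟨u, hu, hr⟩ := mem_clos.1 ha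
  exact mem_clos.2 ⟨u, hu, hr.tail ⟨by simp, hb⟩⟩

lemma clos_minimal {y : V → Finset V} {F A : Finset V} (hF : F ⊆ A) (hA : ∀ a ∈ A, y a ⊆ A) :
    clos y ∅ F ⊆ A := by
  intro v hv
  obtain ⟨u, hu, hr⟩ := mem_clos.1 hv
  induction hr with
  | refl => exact hF hu
  | tail hub hbc ih => exact hA _ (ih (mem_clos.2 ⟨u, hu, hub⟩)) hbc.2

open Classical in
/-- `r` if `F` is contained in some member of the family `𝒜`, and `0` otherwise. -/
noncomputable def admInd (𝒜 : Finset V → Prop) (F : Finset V) (r : ℝ) : ℝ :=
  if ∃ A, 𝒜 A ∧ F ⊆ A then r else 0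

lemma admInd_of {𝒜 : Finset V → Prop} {F : Finset V} (h : ∃ A, 𝒜 A ∧ F ⊆ A) (r : ℝ) :
    admInd 𝒜 F r = r := by
  unfold admInd; rw [if_pos h]

lemma admInd_not {𝒜 : Finset V → Prop} {F : Finset V} (h : ¬ ∃ A, 𝒜 A ∧ F ⊆ A) (r : ℝ) :
    admInd 𝒜 F r = 0 := by
  unfold admInd; rw [if_neg h]

variable {Ω : Type*} [MeasurableSpace Ω]

/-- The exploration lemma. -/
theorem explore (P : Measure Ω) [IsProbabilityMeasure P] (Y : V → Ω → Finset V)
    (hY : ∀ v, Measurable (Y v)) (hind : iIndepFun Y P)
    (𝒜 : Finset V → Prop) (β : Finset V → ℝ) (a : V → ℝ)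
    (hstep : ∀ F z, z ∈ F → (∃ A, 𝒜 A ∧ F ⊆ A) →
      ∑ y : Finset V, P.real {ω | Y z ω = y} *
        admInd 𝒜 (F ∪ y) (Real.exp (β F - β (F ∪ y))) ≤ Real.exp (-a z))
    (n : ℕ) : ∀ (Q F : Finset V), (univ \ Q).card = n → Q ⊆ F → ∀ B : ℝ, 0 ≤ B →
      (∀ A, 𝒜 A → F ⊆ A → Real.exp (β A - β F - ∑ z ∈ A \ Q, a z) ≤ B) →
      P.real {ω | 𝒜 (clos (fun v => Y v ω) Q F)} ≤ B := by
  induction n with
  | zero =>
    intro Q F hcard hQF B hB hA
    have hQ : Q = univ := by
      rw [Finset.card_eq_zero, Finset.sdiff_eq_empty_iff_subset] at hcard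
      exact Finset.univ_subset_iff.1 hcard
    have hF : F = univ := by
      rw [hQ] at hQF; exact Finset.univ_subset_iff.1 hQF
    by_cases h𝒜 : 𝒜 F
    · have h1 := hA F h𝒜 (Finset.Subset.refl F)
      have h2 : F \ Q = ∅ := by rw [hQ]; simp
      rw [h2] at h1
      simp only [sub_self, Finset.sum_empty, Real.exp_zero] at h1
      exact measureReal_le_one.trans h1
    · have h1 : {ω | 𝒜 (clos (fun v => Y v ω) Q F)} = ∅ := by
        ext ω
        simp only [Set.mem_ofPred_eq, Set.mem_empty_iff_false, iff_false]
        rw [clos_eq_of_subset (by rw [hQ]; exact Finset.subset_univ _)]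
        exact h𝒜
      rw [h1]; simpa using hB
  | succ n ih =>
    intro Q F hcard hQF B hB hA
    by_cases hadm : ∃ A, 𝒜 A ∧ F ⊆ A
    swap
    · have h1 : {ω | 𝒜 (clos (fun v => Y v ω) Q F)} = ∅ := by
        ext ω
        simp only [Set.mem_ofPred_eq, Set.mem_empty_iff_false, iff_false]
        intro h
        exact hadm ⟨_, h, subset_clos _ _ _⟩
      rw [h1]; simpa using hB
    by_cases hFQ : F ⊆ Q
    · have hFQ' : F = Q := Finset.Subset.antisymm hFQ hQF
      by_cases h𝒜 : 𝒜 F
      · have h1 := hA F h𝒜 (Finset.Subset.refl F)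
        have h2 : F \ Q = ∅ := by rw [hFQ']; simp
        rw [h2] at h1
        simp only [sub_self, Finset.sum_empty, Real.exp_zero] at h1
        exact measureReal_le_one.trans h1
      · have h1 : {ω | 𝒜 (clos (fun v => Y v ω) Q F)} = ∅ := by
          ext ω
          simp only [Set.mem_ofPred_eq, Set.mem_empty_iff_false, iff_false]
          rw [clos_eq_of_subset hFQ]
          exact h𝒜
        rw [h1]; simpa using hB
    · obtain ⟨z, hzF, hzQ⟩ := Finset.not_subset.1 hFQ
      have hmeasY : ∀ y : Finset V, MeasurableSet {ω | Y z ω = y} := by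
        intro y
        exact hY z (measurableSet_singleton y)
      -- decompose according to the value of Y z
      have hdec : P.real {ω | 𝒜 (clos (fun v => Y v ω) Q F)}
          ≤ ∑ y : Finset V, P.real {ω | Y z ω = y} *
            P.real {ω | 𝒜 (clos (fun v => Y v ω) (insert z Q) (F ∪ y))} := by
        have h1 : {ω | 𝒜 (clos (fun v => Y v ω) Q F)}
            ⊆ ⋃ y : Finset V, ({ω | Y z ω = y} ∩
              {ω | 𝒜 (clos (fun v => Y v ω) (insert z Q) (F ∪ y))}) := by
          intro ω hω
          simp only [Set.mem_iUnion]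
          refine ⟨Y z ω, rfl, ?_⟩
          simp only [Set.mem_ofPred_eq] at hω ⊢
          rwa [clos_step hzF hzQ] at hω
        have h2 : ∀ y : Finset V, P.real ({ω | Y z ω = y} ∩
              {ω | 𝒜 (clos (fun v => Y v ω) (insert z Q) (F ∪ y))})
            = P.real {ω | Y z ω = y} *
              P.real {ω | 𝒜 (clos (fun v => Y v ω) (insert z Q) (F ∪ y))} := by
          intro y
          have hI := iIndepFun.indepFun_finset ({z} : Finset V) (univ.erase z)
            (by rw [Finset.disjoint_singleton_left]; simp) hind hY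
          have hs1 : {ω | Y z ω = y} = (fun (ω : Ω) (i : ({z} : Finset V)) => Y i ω) ⁻¹'
              {f | f ⟨z, Finset.mem_singleton_self z⟩ = y} := by
            ext ω; simp
          have hs2 : {ω | 𝒜 (clos (fun v => Y v ω) (insert z Q) (F ∪ y))}
              = (fun (ω : Ω) (i : ((univ.erase z : Finset V))) => Y i ω) ⁻¹'
              {f | 𝒜 (clos (fun v => if h : v ∈ univ.erase z then f ⟨v, h⟩ else ∅)
                (insert z Q) (F ∪ y))} := by
            ext ω
            simp only [Set.mem_ofPred_eq, Set.mem_preimage]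
            rw [clos_congr]
            intro b hb
            have hbz : b ∈ univ.erase z := by
              rw [Finset.mem_erase]
              exact ⟨fun h => hb (by rw [h]; exact Finset.mem_insert_self _ _),
                Finset.mem_univ _⟩
            rw [dif_pos hbz]
          have h3 := hI.measure_inter_preimage_eq_mul
            {f | f ⟨z, Finset.mem_singleton_self z⟩ = y}
            {f | 𝒜 (clos (fun v => if h : v ∈ univ.erase z then f ⟨v, h⟩ else ∅)
                (insert z Q) (F ∪ y))}
            (MeasurableSet.of_discrete) (MeasurableSet.of_discrete)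
          rw [← hs1, ← hs2] at h3
          simp only [measureReal_def]
          rw [h3, ENNReal.toReal_mul]
        calc P.real {ω | 𝒜 (clos (fun v => Y v ω) Q F)}
            ≤ P.real (⋃ y : Finset V, ({ω | Y z ω = y} ∩
              {ω | 𝒜 (clos (fun v => Y v ω) (insert z Q) (F ∪ y))})) := measureReal_mono h1
          _ ≤ ∑ y : Finset V, P.real ({ω | Y z ω = y} ∩
              {ω | 𝒜 (clos (fun v => Y v ω) (insert z Q) (F ∪ y))}) :=
              measureReal_iUnion_fintype_le _
          _ = _ := Finset.sum_congr rfl fun y _ => h2 y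
      refine hdec.trans ?_
      -- bound each term by induction
      have hterm : ∀ y : Finset V, P.real {ω | 𝒜 (clos (fun v => Y v ω) (insert z Q) (F ∪ y))}
          ≤ B * Real.exp (a z) *
            admInd 𝒜 (F ∪ y) (Real.exp (β F - β (F ∪ y))) := by
        intro y
        by_cases hy : ∃ A, 𝒜 A ∧ F ∪ y ⊆ A
        · rw [admInd_of hy]
          apply ih
          · have h1 : univ \ insert z Q = (univ \ Q).erase z := by
              ext v; simp only [Finset.mem_sdiff, Finset.mem_univ, true_and, Finset.mem_insert,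
                Finset.mem_erase]; tauto
            rw [h1, Finset.card_erase_of_mem, hcard]
            · omega
            · simp [hzQ]
          · intro v hv
            rcases Finset.mem_insert.1 hv with h | h
            · rw [h]; exact Finset.mem_union_left _ hzF
            · exact Finset.mem_union_left _ (hQF h)
          · positivity
          · intro A hA1 hA2
            have h1 := hA A hA1 (Finset.union_subset_left hA2)
            have hzA : z ∈ A \ Q := by
              rw [Finset.mem_sdiff]
              exact ⟨hA2 (Finset.mem_union_left _ hzF), hzQ⟩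
            have h2 : A \ Q = insert z (A \ insert z Q) := by
              ext v
              simp only [Finset.mem_sdiff, Finset.mem_insert]
              constructor
              · rintro ⟨h3, h4⟩
                by_cases hv : v = z
                · left; exact hv
                · right; exact ⟨h3, by tauto⟩
              · rintro (h3 | ⟨h3, h4⟩)
                · rw [h3]; exact Finset.mem_sdiff.1 hzA
                · exact ⟨h3, by tauto⟩
            have h3 : ∑ w ∈ A \ Q, a w = a z + ∑ w ∈ A \ insert z Q, a w := by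
              rw [h2, Finset.sum_insert]
              simp
            rw [h3] at h1
            calc Real.exp (β A - β (F ∪ y) - ∑ w ∈ A \ insert z Q, a w)
                = Real.exp (β A - β F - (a z + ∑ w ∈ A \ insert z Q, a w))
                  * Real.exp (a z) * Real.exp (β F - β (F ∪ y)) := by
                  rw [← Real.exp_add, ← Real.exp_add]; congr 1; ring
              _ ≤ B * Real.exp (a z) * Real.exp (β F - β (F ∪ y)) := by
                  apply mul_le_mul_of_nonneg_right _ (Real.exp_pos _).le
                  exact mul_le_mul_of_nonneg_right h1 (Real.exp_pos _).le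
        · rw [admInd_not hy, mul_zero]
          have h1 : {ω | 𝒜 (clos (fun v => Y v ω) (insert z Q) (F ∪ y))} = ∅ := by
            ext ω
            simp only [Set.mem_ofPred_eq, Set.mem_empty_iff_false, iff_false]
            intro h
            exact hy ⟨_, h, subset_clos _ _ _⟩
          rw [h1]; simp
      calc ∑ y : Finset V, P.real {ω | Y z ω = y} *
            P.real {ω | 𝒜 (clos (fun v => Y v ω) (insert z Q) (F ∪ y))}
          ≤ ∑ y : Finset V, P.real {ω | Y z ω = y} * (B * Real.exp (a z) *
            admInd 𝒜 (F ∪ y) (Real.exp (β F - β (F ∪ y)))) :=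
            Finset.sum_le_sum fun y _ => mul_le_mul_of_nonneg_left (hterm y) measureReal_nonneg
        _ = B * Real.exp (a z) * ∑ y : Finset V, P.real {ω | Y z ω = y} *
            admInd 𝒜 (F ∪ y) (Real.exp (β F - β (F ∪ y))) := by
            rw [Finset.mul_sum]
            exact Finset.sum_congr rfl fun y _ => by ring
        _ ≤ B * Real.exp (a z) * Real.exp (-a z) := by
            apply mul_le_mul_of_nonneg_left (hstep F z hzF hadm)
            positivity
        _ = B := by
            rw [mul_assoc, ← Real.exp_add]; simp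

end Pool.Agent.helper98.Frog
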