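import Pool.Agent.helper98.FrogRange
import Pool.Agent.helper98.FrogExplore

set_option autoImplicit false
set_option linter.unusedSectionVars false

open Finset MeasureTheory ProbabilityTheory

namespace Pool.Agent.helper98.Frog

variable {V : Type*} [Fintype V] [DecidableEq V] (G : SimpleGraph V) [DecidableRel G.Adj]

/-- boundary pairs of K -/
def bdSet (K : Finset V) : Finset (V × V) := (adjP G).filter fun p => p.1 ∉ K ∧ p.2 ∈ K

lemma bd_eq_card (K : Finset V) : bd G K = (bdSet G K).card := rfl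

lemma mem_iff_of_bdSet_eq {K K' : Finset V} (h : bdSet G K = bdSet G K') {x y : V}
    (hxy : G.Adj x y) (hx : x ∈ K ↔ x ∈ K') : y ∈ K ↔ y ∈ K' := by
  have hp : ∀ p : V × V, G.Adj p.1 p.2 → ((p.1 ∉ K ∧ p.2 ∈ K) ↔ (p.1 ∉ K' ∧ p.2 ∈ K')) := by
    intro p hadj
    have h1 : p ∈ bdSet G K ↔ p ∈ bdSet G K' := by rw [h]
    unfold bdSet at h1
    rw [Finset.mem_filter, Finset.mem_filter, mem_adjP] at h1
    tauto
  have h1 := hp (x, y) hxy
  have h2 := hp (y, x) hxy.symm
  simp only at h1 h2
  tauto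

lemma bdSet_injOn (hG : G.Connected) {K K' : Finset V} (hK : K.Nonempty) (hK2 : K ≠ univ)
    (h : bdSet G K = bdSet G K') : K = K' := by
  have hpos := bd_pos G hG hK hK2
  rw [bd_eq_card, Finset.card_pos] at hpos
  obtain ⟨p, hp⟩ := hpos
  have hp' : p ∈ bdSet G K' := by rw [← h]; exact hp
  have h1 : p.2 ∈ K := (Finset.mem_filter.1 hp).2.2
  have h2 : p.2 ∈ K' := (Finset.mem_filter.1 hp').2.2
  have hwalk : ∀ (a b : V), G.Walk a b → (a ∈ K ↔ a ∈ K') → (b ∈ K ↔ b ∈ K') := by
    intro a b w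
    induction w with
    | nil => exact fun h => h
    | cons hadj _ ih => intro ha; exact ih (mem_iff_of_bdSet_eq G h hadj ha)
  ext v
  obtain ⟨w⟩ := hG.preconnected p.2 v
  exact hwalk _ _ w ⟨fun _ => h2, fun _ => h1⟩

lemma sum_pow_bd_le (hG : G.Connected) {x : ℝ} (hx : 0 ≤ x) :
    ∑ K ∈ (univ : Finset (Finset V)).filter (fun K => K.Nonempty ∧ K ≠ univ), x ^ bd G K
      ≤ (1 + x) ^ (adjP G).card - 1 := by
  have h1 : ∑ K ∈ (univ : Finset (Finset V)).filter (fun K => K.Nonempty ∧ K ≠ univ),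
      x ^ bd G K = ∑ B ∈ ((univ : Finset (Finset V)).filter
        (fun K => K.Nonempty ∧ K ≠ univ)).image (bdSet G), x ^ B.card := by
    rw [Finset.sum_image]
    · rfl
    · intro K hK K' _ hKK'
      have h2 := (Finset.mem_filter.1 hK).2
      exact bdSet_injOn G hG h2.1 h2.2 hKK'
  rw [h1]
  have h2 : ((univ : Finset (Finset V)).filter (fun K => K.Nonempty ∧ K ≠ univ)).image (bdSet G)
      ⊆ (adjP G).powerset.erase ∅ := by
    intro B hB
    obtain ⟨K, hK, rfl⟩ := Finset.mem_image.1 hB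
    have h3 := (Finset.mem_filter.1 hK).2
    rw [Finset.mem_erase, Finset.mem_powerset]
    refine ⟨?_, Finset.filter_subset _ _⟩
    have h4 := bd_pos G hG h3.1 h3.2
    rw [bd_eq_card, Finset.card_pos] at h4
    exact h4.ne_empty
  calc _ ≤ ∑ B ∈ (adjP G).powerset.erase ∅, x ^ B.card :=
        Finset.sum_le_sum_of_subset_of_nonneg h2 fun B _ _ => pow_nonneg hx _
    _ = ∑ B ∈ (adjP G).powerset, x ^ B.card - 1 := by
        rw [← Finset.sum_erase_add (adjP G).powerset _ (Finset.empty_mem_powerset _)]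
        simp
    _ = (1 + x) ^ (adjP G).card - 1 := by
        have h3 := Finset.sum_pow_mul_eq_add_pow x 1 (adjP G)
        simp only [one_pow, mul_one] at h3
        rw [h3, add_comm]

lemma card_adjP_le {D : ℕ} (hD : ∀ x, G.degree x ≤ D) :
    (adjP G).card ≤ D * Fintype.card V := by
  have h1 : ((adjP G).card : ℝ) = ∑ x, (G.degree x : ℝ) := by
    have h2 : ((adjP G).card : ℝ) = ∑ p ∈ adjP G, (1 : ℝ) := by simp
    rw [h2, sum_adjP]
    apply Finset.sum_congr rfl
    intro x _
    simp
  have h2 : ((adjP G).card : ℝ) ≤ D * Fintype.card V := by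
    rw [h1]
    calc ∑ x, (G.degree x : ℝ) ≤ ∑ x : V, (D : ℝ) :=
          Finset.sum_le_sum fun x _ => by exact_mod_cast hD x
      _ = D * Fintype.card V := by
          rw [Finset.sum_const, Finset.card_univ, nsmul_eq_mul]; ring
  exact_mod_cast h2

lemma bd_le_card (K : Finset V) : bd G K ≤ (adjP G).card :=
  Finset.card_le_card (Finset.filter_subset _ _)

lemma exitMass_le (hdeg : ∀ x, 0 < G.degree x) {D : ℕ} (hD : ∀ x, G.degree x ≤ D)
    (K : Finset V) (t : ℕ) : exitMass G K t ≤ D * ∑ z ∈ K, (1 - surv G K t z) := by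
  unfold exitMass
  rw [Finset.mul_sum]
  apply Finset.sum_le_sum
  intro z _
  apply mul_le_mul_of_nonneg_right _ (by linarith [surv_le_one G hdeg K t z])
  exact_mod_cast hD z

lemma hit_mono (hdeg : ∀ x, 0 < G.degree x) (w : V) {L L' : ℕ} (h : L ≤ L') (x : V) :
    hit G w L x ≤ hit G w L' x := by
  have h1 : ∀ L x, hit G w L x ≤ hit G w (L + 1) x := by
    intro L
    induction L with
    | zero =>
      intro x
      rw [hit, hit]
      split_ifs
      · exact le_rfl
      · exact avg_nonneg G (hit_nonneg G w 0) x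
    | succ L ih =>
      intro x
      rw [hit, hit]
      split_ifs
      · exact le_rfl
      · exact avg_mono G x fun y _ => ih y
  exact monotone_nat_of_le_succ (f := fun L => hit G w L x) (fun L => h1 L x) h

/-- concavity: `h (1 - e^{-c}) ≤ 1 - e^{-c h}` for `0 ≤ h ≤ 1`. -/
lemma one_sub_exp_concave {c h : ℝ} (h0 : 0 ≤ h) (h1 : h ≤ 1) :
    h * (1 - Real.exp (-c)) ≤ 1 - Real.exp (-(c * h)) := by
  have hconv := convexOn_exp.2 (Set.mem_univ (-c)) (Set.mem_univ (0 : ℝ)) h0
    (by linarith : (0 : ℝ) ≤ 1 - h) (by ring)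
  simp only [smul_eq_mul, mul_zero, add_zero, Real.exp_zero, mul_one] at hconv
  have h2 : h * -c = -(c * h) := by ring
  rw [h2] at hconv
  linarith

variable {Ω : Type*} [MeasurableSpace Ω]

/-- the data at the level of random sets -/
structure SetModel (P : Measure Ω) (lam : ℝ) (L : ℕ) (o : V) (Y : V → Ω → Finset V)
    (F0 : Ω → Finset V) : Prop where
  measY : ∀ v, Measurable (Y v)
  measF : Measurable F0
  indY : iIndepFun Y P
  indF : IndepFun F0 (fun ω v => Y v ω) P
  hitY : ∀ v w, P.real {ω | w ∉ Y v ω} ≤ Real.exp (-(lam * hit G w L v))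
  freshY : ∀ v m A, 1 - Real.exp (-(lam * rangeE G (freshΘ m A) L v ∅))
    ≤ P.real {ω | m ≤ (Y v ω \ A).card}
  freshF : ∀ m, rangeE G (freshΘ m ∅) L o ∅ ≤ P.real {ω | m ≤ (F0 ω).card}

variable {G}

lemma SetModel.prob_le {P : Measure Ω} [IsProbabilityMeasure P] {lam : ℝ} {L : ℕ} {o : V}
    {Y : V → Ω → Finset V} {F0 : Ω → Finset V} (h : SetModel G P lam L o Y F0)
    (𝒜 : Finset V → Prop) (K : Finset V) (B : Finset V → ℝ)
    (hB : ∀ f, P.real {ω | 𝒜 (clos (fun v => Y v ω) ∅ (f ∪ K))} ≤ B f) :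
    P.real {ω | 𝒜 (clos (fun v => Y v ω) ∅ (F0 ω ∪ K))}
      ≤ ∑ f : Finset V, P.real {ω | F0 ω = f} * B f := by
  have h1 : {ω | 𝒜 (clos (fun v => Y v ω) ∅ (F0 ω ∪ K))}
      ⊆ ⋃ f : Finset V, ({ω | F0 ω = f} ∩ {ω | 𝒜 (clos (fun v => Y v ω) ∅ (f ∪ K))}) := by
    intro ω hω
    simp only [Set.mem_iUnion]
    exact ⟨F0 ω, rfl, hω⟩
  have h2 : ∀ f : Finset V, P.real ({ω | F0 ω = f} ∩
      {ω | 𝒜 (clos (fun v => Y v ω) ∅ (f ∪ K))})
      = P.real {ω | F0 ω = f} * P.real {ω | 𝒜 (clos (fun v => Y v ω) ∅ (f ∪ K))} := by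
    intro f
    have h3 := h.indF.measure_inter_preimage_eq_mul {g | g = f}
      {y | 𝒜 (clos y ∅ (f ∪ K))} MeasurableSet.of_discrete MeasurableSet.of_discrete
    simp only [measureReal_def]
    rw [← ENNReal.toReal_mul]
    congr 1
  calc P.real {ω | 𝒜 (clos (fun v => Y v ω) ∅ (F0 ω ∪ K))}
      ≤ P.real (⋃ f : Finset V, ({ω | F0 ω = f} ∩
        {ω | 𝒜 (clos (fun v => Y v ω) ∅ (f ∪ K))})) := measureReal_mono h1
    _ ≤ ∑ f : Finset V, P.real ({ω | F0 ω = f} ∩
        {ω | 𝒜 (clos (fun v => Y v ω) ∅ (f ∪ K))}) := measureReal_iUnion_fintype_le _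
    _ = ∑ f : Finset V, P.real {ω | F0 ω = f} *
        P.real {ω | 𝒜 (clos (fun v => Y v ω) ∅ (f ∪ K))} := Finset.sum_congr rfl fun f _ => h2 f
    _ ≤ _ := Finset.sum_le_sum fun f _ => mul_le_mul_of_nonneg_left (hB f) measureReal_nonneg

lemma sum_prob_eq_one {P : Measure Ω} [IsProbabilityMeasure P] {Z : Ω → Finset V}
    (hZ : Measurable Z) : ∑ f : Finset V, P.real {ω | Z ω = f} = 1 := by
  rw [← measureReal_iUnion_fintype]
  · have : (⋃ f : Finset V, {ω | Z ω = f}) = Set.univ := by
      ext ω; simp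
    rw [this]; simp
  · intro f g hfg
    rw [Function.onFun, Set.disjoint_left]
    intro ω h1 h2
    exact hfg (h1.symm.trans h2)
  · intro f; exact hZ (measurableSet_singleton f)

lemma sum_prob_filter {P : Measure Ω} [IsProbabilityMeasure P] {Z : Ω → Finset V}
    (hZ : Measurable Z) (q : Finset V → Prop) [DecidablePred q] :
    ∑ f : Finset V, P.real {ω | Z ω = f} * (if q f then 1 else 0) = P.real {ω | q (Z ω)} := by
  have h1 : {ω | q (Z ω)} = ⋃ f ∈ (univ.filter q), {ω | Z ω = f} := by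
    ext ω; simp
  rw [h1, measureReal_biUnion_finset]
  · rw [Finset.sum_filter]
    apply Finset.sum_congr rfl
    intro f _
    split_ifs <;> simp
  · intro f _ g _ hfg
    rw [Function.onFun, Set.disjoint_left]
    intro ω h1 h2
    exact hfg (h1.symm.trans h2)
  · intro f _; exact hZ (measurableSet_singleton f)

/-- saturation estimate -/
lemma SetModel.saturation {P : Measure Ω} [IsProbabilityMeasure P] {lam : ℝ} {L : ℕ} {o : V}
    {Y : V → Ω → Finset V} {F0 : Ω → Finset V} (h : SetModel G P lam L o Y F0)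
    (hdeg : ∀ x, 0 < G.degree x) (hlam : 0 < lam) {L1 : ℕ} (hL : L1 ≤ L) (κ : ℝ) (w : V) :
    P.real {ω | w ∉ clos (fun v => Y v ω) ∅ (F0 ω) ∧
      κ < ∑ v ∈ clos (fun v => Y v ω) ∅ (F0 ω), hit G w L1 v} ≤ Real.exp (-(lam * κ)) := by
  set 𝒜 : Finset V → Prop := fun A => w ∉ A ∧ κ < ∑ v ∈ A, hit G w L1 v with h𝒜
  have hB : ∀ f : Finset V, P.real {ω | 𝒜 (clos (fun v => Y v ω) ∅ (f ∪ ∅))}
      ≤ Real.exp (-(lam * κ)) := by
    intro f
    apply explore P Y h.measY h.indY 𝒜 (fun _ => 0) (fun z => lam * hit G w L1 z) _ _ ∅ (f ∪ ∅)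
      rfl (Finset.empty_subset _) _ (Real.exp_pos _).le
    · intro A hA _
      apply Real.exp_le_exp.2
      rw [← Finset.mul_sum]
      simp only [Finset.sdiff_empty, sub_self, zero_sub, neg_le_neg_iff]
      exact mul_le_mul_of_nonneg_left hA.2.le hlam.le
    · intro F z hz _
      calc ∑ y : Finset V, P.real {ω | Y z ω = y} *
            admInd 𝒜 (F ∪ y) (Real.exp ((0 : ℝ) - 0))
          ≤ ∑ y : Finset V, P.real {ω | Y z ω = y} * (if w ∉ y then 1 else 0) := by
            apply Finset.sum_le_sum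
            intro y _
            apply mul_le_mul_of_nonneg_left _ measureReal_nonneg
            by_cases hy : ∃ A, 𝒜 A ∧ F ∪ y ⊆ A
            · rw [admInd_of hy, sub_self, Real.exp_zero]
              obtain ⟨A, hA, hsub⟩ := hy
              have : w ∉ y := fun hwy => hA.1 (hsub (Finset.mem_union_right _ hwy))
              rw [if_pos this]
            · rw [admInd_not hy]
              split_ifs <;> norm_num
        _ = P.real {ω | w ∉ Y z ω} := sum_prob_filter (h.measY z) _
        _ ≤ Real.exp (-(lam * hit G w L z)) := h.hitY z w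
        _ ≤ Real.exp (-(lam * hit G w L1 z)) := by
            apply Real.exp_le_exp.2
            have := hit_mono G hdeg w hL z
            have := mul_le_mul_of_nonneg_left this hlam.le
            linarith
  have h2 := h.prob_le 𝒜 ∅ (fun _ => Real.exp (-(lam * κ))) hB
  rw [← Finset.sum_mul, sum_prob_eq_one h.measF, one_mul] at h2
  simpa using h2

/-- bound for the event that the closure has a prescribed core `K`. -/
lemma SetModel.core_bound {P : Measure Ω} [IsProbabilityMeasure P] {lam : ℝ} {L : ℕ} {o : V}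
    {Y : V → Ω → Finset V} {F0 : Ω → Finset V} (h : SetModel G P lam L o Y F0)
    (hdeg : ∀ x, 0 < G.degree x) (hlam : 0 < lam) {m : ℕ} (hm : 0 < m) {c1 : ℝ}
    (hc1 : c1 = (1 - Real.exp (-1)) * (1 - Real.exp (-(lam / 4)))) (hmc : 1 / (m : ℝ) ≤ c1)
    (t : ℕ) (K f : Finset V) :
    P.real {ω | (K ⊆ clos (fun v => Y v ω) ∅ (f ∪ K) ∧
      ∀ z ∈ clos (fun v => Y v ω) ∅ (f ∪ K), (1 - surv G K t z) / 4 ≤
        rangeE G (freshΘ m (clos (fun v => Y v ω) ∅ (f ∪ K))) L z ∅)}
      ≤ Real.exp (-(((f \ K).card : ℝ) / m) - c1 * ∑ z ∈ K, (1 - surv G K t z)) := by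
  have hmr : (0 : ℝ) < m := by exact_mod_cast hm
  have he1 : 0 < 1 - Real.exp (-1) := by
    have : Real.exp (-1) < 1 := Real.exp_lt_one_iff.2 (by norm_num)
    linarith
  set 𝒜 : Finset V → Prop := fun A => K ⊆ A ∧ ∀ z ∈ A, (1 - surv G K t z) / 4 ≤
        rangeE G (freshΘ m A) L z ∅ with h𝒜
  apply explore P Y h.measY h.indY 𝒜 (fun F => (F.card : ℝ) / m)
    (fun z => c1 * (1 - surv G K t z)) _ _ ∅ (f ∪ K) rfl (Finset.empty_subset _) _
    (Real.exp_pos _).le
  · intro A hA hfA
    apply Real.exp_le_exp.2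
    simp only [Finset.sdiff_empty]
    have h1 : ∑ z ∈ A, c1 * (1 - surv G K t z)
        = c1 * ∑ z ∈ K, (1 - surv G K t z) + c1 * ((A \ K).card : ℝ) := by
      rw [← Finset.sum_sdiff hA.1, ← Finset.mul_sum, ← Finset.mul_sum]
      have h2 : ∑ z ∈ A \ K, (1 - surv G K t z) = ((A \ K).card : ℝ) := by
        have h3 : ∀ z ∈ A \ K, (1 - surv G K t z) = 1 := by
          intro z hz
          rw [surv_of_notMem G (Finset.mem_sdiff.1 hz).2, sub_zero]
        rw [Finset.sum_congr rfl h3]; simp
      rw [h2]; ring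
    rw [h1]
    have h2 : (A.card : ℝ) = (K.card : ℝ) + ((A \ K).card : ℝ) := by
      have := Finset.card_sdiff_add_card_eq_card hA.1
      rw [← this]; push_cast; ring
    have h3 : (((f ∪ K).card : ℕ) : ℝ) = (K.card : ℝ) + ((f \ K).card : ℝ) := by
      have : (f ∪ K).card = (f \ K).card + K.card := by
        rw [← Finset.sdiff_union_self_eq_union, Finset.card_union_of_disjoint]
        exact Finset.sdiff_disjoint
      rw [this]; push_cast; ring
    rw [h2, h3]
    have h4 : ((A \ K).card : ℝ) / m ≤ c1 * ((A \ K).card : ℝ) := by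
      rw [div_eq_mul_one_div, mul_comm]
      exact mul_le_mul_of_nonneg_right hmc (Nat.cast_nonneg _)
    have h5 : ((K.card : ℝ) + ((A \ K).card : ℝ)) / m - ((K.card : ℝ) + ((f \ K).card : ℝ)) / m
        = ((A \ K).card : ℝ) / m - ((f \ K).card : ℝ) / m := by ring
    linarith
  · intro F z hz hadm
    obtain ⟨A, hA, hFA⟩ := hadm
    have hzA := hFA hz
    have hs0 := surv_nonneg G K t z
    have hs1 := surv_le_one G hdeg K t z
    have h1 : (1 - surv G K t z) / 4 ≤ rangeE G (freshΘ m F) L z ∅ :=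
      (hA.2 z hzA).trans (rangeE_le_of_le G (fun S => freshΘ_anti m hFA S) L z ∅)
    have h2 : (1 - Real.exp (-(lam / 4))) * (1 - surv G K t z)
        ≤ P.real {ω | m ≤ (Y z ω \ F).card} := by
      refine le_trans ?_ (h.freshY z m F)
      have h3 := one_sub_exp_concave (c := lam / 4) (h := 1 - surv G K t z)
        (by linarith) (by linarith)
      have h4 : Real.exp (-(lam * rangeE G (freshΘ m F) L z ∅))
          ≤ Real.exp (-(lam / 4 * (1 - surv G K t z))) := by
        apply Real.exp_le_exp.2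
        have := mul_le_mul_of_nonneg_left h1 hlam.le
        linarith
      linarith
    calc ∑ y : Finset V, P.real {ω | Y z ω = y} *
          admInd 𝒜 (F ∪ y) (Real.exp ((F.card : ℝ) / m - ((F ∪ y).card : ℝ) / m))
        ≤ ∑ y : Finset V, P.real {ω | Y z ω = y} *
          (1 - (1 - Real.exp (-1)) * (if m ≤ (y \ F).card then 1 else 0)) := by
          apply Finset.sum_le_sum
          intro y _
          apply mul_le_mul_of_nonneg_left _ measureReal_nonneg
          have h5 : (F.card : ℝ) / m - ((F ∪ y).card : ℝ) / m = -(((y \ F).card : ℝ) / m) := by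
            have : (F ∪ y).card = F.card + (y \ F).card := by
              rw [← Finset.union_sdiff_self_eq_union, Finset.card_union_of_disjoint]
              exact Finset.disjoint_sdiff
            rw [this]; push_cast; ring
          have h6 : Real.exp ((F.card : ℝ) / m - ((F ∪ y).card : ℝ) / m)
              ≤ 1 - (1 - Real.exp (-1)) * (if m ≤ (y \ F).card then 1 else 0) := by
            rw [h5]
            split_ifs with h7
            · have : Real.exp (-(((y \ F).card : ℝ) / m)) ≤ Real.exp (-1) := by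
                apply Real.exp_le_exp.2
                have : 1 ≤ ((y \ F).card : ℝ) / m := by
                  rw [le_div_iff₀ hmr, one_mul]; exact_mod_cast h7
                linarith
              linarith
            · have : Real.exp (-(((y \ F).card : ℝ) / m)) ≤ 1 := by
                apply Real.exp_le_one_iff.2
                have : 0 ≤ ((y \ F).card : ℝ) / m := by positivity
                linarith
              linarith
          by_cases hy : ∃ A, 𝒜 A ∧ F ∪ y ⊆ A
          · rw [admInd_of hy]; exact h6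
          · rw [admInd_not hy]; exact (Real.exp_pos _).le.trans h6
      _ = 1 - (1 - Real.exp (-1)) * P.real {ω | m ≤ (Y z ω \ F).card} := by
          have h7 : ∀ y : Finset V, P.real {ω | Y z ω = y} *
              (1 - (1 - Real.exp (-1)) * (if m ≤ (y \ F).card then 1 else 0))
              = P.real {ω | Y z ω = y} - (1 - Real.exp (-1)) * (P.real {ω | Y z ω = y} *
                (if m ≤ (y \ F).card then 1 else 0)) := by
            intro y; ring
          rw [Finset.sum_congr rfl fun y _ => h7 y, Finset.sum_sub_distrib,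
            sum_prob_eq_one (h.measY z), ← Finset.mul_sum,
            sum_prob_filter (h.measY z) (fun y => m ≤ (y \ F).card)]
      _ ≤ 1 - c1 * (1 - surv G K t z) := by
          rw [hc1]
          have := mul_le_mul_of_nonneg_left h2 he1.le
          linarith
      _ ≤ Real.exp (-(c1 * (1 - surv G K t z))) := by
          have := Real.add_one_le_exp (-(c1 * (1 - surv G K t z)))
          linarith

end Pool.Agent.helper98.Frog
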