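import Mathlib

set_option autoImplicit false

open MeasureTheory ProbabilityTheory
open scoped ENNReal NNReal

namespace Pool.Agent.helper98.Frog

/-- `W` is a discrete-time simple random walk on the finite graph `G` started at `v`:
for every `n` and every sequence `x`, the probability that `W` follows `x` during times `0..n` is
`∏_{i<n} 1/deg(x i)` if `x 0 = v` and `x 0, ..., x n` is a path of adjacent vertices, and `0`
otherwise. -/
structure IsSRW {Ω V : Type*} [MeasurableSpace Ω] [Fintype V] [DecidableEq V] [MeasurableSpace V]
    (G : SimpleGraph V) [DecidableRel G.Adj] (v : V) (P : Measure Ω) (W : Ω → ℕ → V) : Prop where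
  measurable : Measurable W
  law : ∀ (n : ℕ) (x : ℕ → V), P {ω | ∀ i ≤ n, W ω i = x i} =
    if x 0 = v then
      ∏ i ∈ Finset.range n, (if G.Adj (x i) (x (i + 1)) then ((G.degree (x i) : ℝ≥0∞))⁻¹ else 0)
    else 0

/-- The randomness of the frog model of density `lam` on `G` with origin `o`.
`N v` is the number of particles at `v` (Poisson of mean `lam`), the particles at `v` are those
with index `i < N v`, particle `i` at `v` has the simple random walk `W v i` started at `v`, and
`X` is the walk of the additional particle placed at `o`.  All these random objects are mutually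
independent: the walk `X` is independent of everything else, the pairs
`(N v, (W v i)_i)` are independent over the vertices `v`, and for each `v` the number `N v` and
the walks `W v 0, W v 1, ...` are independent. -/
structure IsFrogModel {Ω V : Type*} [MeasurableSpace Ω] [Fintype V] [DecidableEq V]
    [MeasurableSpace V] (G : SimpleGraph V) [DecidableRel G.Adj] (o : V) (lam : ℝ≥0)
    (P : Measure Ω) (N : V → Ω → ℕ) (W : V → ℕ → Ω → ℕ → V) (X : Ω → ℕ → V) : Prop where
  measurable_num : ∀ v, Measurable (N v)
  law_num : ∀ v, P.map (N v) = poissonMeasure lam
  walk : ∀ v i, IsSRW G v P (W v i)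
  walk_extra : IsSRW G o P X
  indep_extra : IndepFun X (fun ω v => (N v ω, fun i => W v i ω)) P
  indep_vertices : iIndepFun (fun v ω => (N v ω, fun i => W v i ω)) P
  indep_num_walks : ∀ v, IndepFun (N v) (fun ω i => W v i ω) P
  indep_walks : ∀ v, iIndepFun (W v) P

/-- `Visited n w x τ u`: the vertex `u` is visited by some active particle when every particle
has lifetime `τ`.  Here `n v` is the number of particles at `v`, `w v i` is the walk of particle
`i` at `v`, and `x` is the walk of the additional particle, which is active from the start
(it starts at the origin, so the origin and hence all particles there are activated at once).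
The particles at `v` are activated exactly when `v` is visited by an active particle, and an
active particle performs the first `τ` steps of its walk. The set of all such `u` is the set
`R_τ` of the frog model with lifetime `τ`. -/
inductive Visited {V : Type*} (n : V → ℕ) (w : V → ℕ → ℕ → V) (x : ℕ → V) (τ : ℕ) : V → Prop
  | extra {t : ℕ} (ht : t ≤ τ) : Visited n w x τ (x t)
  | step {v : V} {i t : ℕ} (hv : Visited n w x τ v) (hi : i < n v) (ht : t ≤ τ) :
      Visited n w x τ (w v i t)

/-- The susceptibility: the infimum of all lifetimes `τ` for which every vertex is visited
(`∞` if there is no such lifetime). -/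
noncomputable def susceptibility {V : Type*} (n : V → ℕ) (w : V → ℕ → ℕ → V) (x : ℕ → V) : ℝ≥0∞ :=
  ⨅ (τ : ℕ) (_ : ∀ u, Visited n w x τ u), (τ : ℝ≥0∞)

end Pool.Agent.helper98.Frog
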