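import Pool.Agent.helper98.FrogPotential

set_option autoImplicit false
set_option linter.unusedSectionVars false

open Finset

namespace Pool.Agent.helper98.Frog

variable {V : Type*} [Fintype V] [DecidableEq V] (G : SimpleGraph V) [DecidableRel G.Adj]

/-- self-adjointness of `avg` with respect to the degree measure -/
lemma avg_symm (f g : V → ℝ) :
    ∑ x, (G.degree x : ℝ) * f x * avg G g x = ∑ x, (G.degree x : ℝ) * avg G f x * g x := by
  have h1 : ∑ x, (G.degree x : ℝ) * f x * avg G g x = ∑ p ∈ adjP G, f p.1 * g p.2 := by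
    rw [sum_adjP]
    apply Finset.sum_congr rfl
    intro x _
    simp only
    rw [← Finset.mul_sum, ← degree_mul_avg]; ring
  have h2 : ∑ x, (G.degree x : ℝ) * avg G f x * g x = ∑ p ∈ adjP G, g p.1 * f p.2 := by
    rw [sum_adjP]
    apply Finset.sum_congr rfl
    intro x _
    simp only
    rw [← Finset.mul_sum, ← degree_mul_avg]; ring
  rw [h1, h2, sum_adjP_swap]
  apply Finset.sum_congr rfl
  intro p _
  simp only [Prod.fst_swap, Prod.snd_swap]; ring

/-- iterated averaging -/
noncomputable def Pt (t : ℕ) (f : V → ℝ) : V → ℝ := (avg G)^[t] f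

lemma Pt_zero (f : V → ℝ) : Pt G 0 f = f := rfl

lemma Pt_succ (t : ℕ) (f : V → ℝ) : Pt G (t + 1) f = avg G (Pt G t f) := by
  unfold Pt; rw [Function.iterate_succ_apply']

lemma Pt_succ' (t : ℕ) (f : V → ℝ) : Pt G (t + 1) f = Pt G t (avg G f) := by
  unfold Pt; rw [Function.iterate_succ_apply]

lemma Pt_symm (t : ℕ) (f g : V → ℝ) :
    ∑ x, (G.degree x : ℝ) * f x * Pt G t g x = ∑ x, (G.degree x : ℝ) * Pt G t f x * g x := by
  induction t generalizing f g with
  | zero => simp [Pt_zero]
  | succ t ih =>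
    rw [Pt_succ, avg_symm, ih, Pt_succ']

lemma Pt_mono {f g : V → ℝ} (h : ∀ x, f x ≤ g x) (t : ℕ) (x : V) : Pt G t f x ≤ Pt G t g x := by
  induction t generalizing x with
  | zero => simpa [Pt_zero] using h x
  | succ t ih => rw [Pt_succ, Pt_succ]; exact avg_mono G x fun y _ => ih y

lemma Pt_nonneg {f : V → ℝ} (h : ∀ x, 0 ≤ f x) (t : ℕ) (x : V) : 0 ≤ Pt G t f x := by
  induction t generalizing x with
  | zero => simpa [Pt_zero] using h x
  | succ t ih => rw [Pt_succ]; exact avg_nonneg G ih x

lemma Pt_const (hdeg : ∀ x, 0 < G.degree x) (c : ℝ) (t : ℕ) (x : V) :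
    Pt G t (fun _ => c) x = c := by
  induction t generalizing x with
  | zero => rfl
  | succ t ih =>
    rw [Pt_succ]
    have : Pt G t (fun _ => c) = fun _ => c := by ext y; exact ih y
    rw [this, avg_const G (hdeg x)]

lemma Pt_sum {ι : Type*} (s : Finset ι) (f : ι → V → ℝ) (t : ℕ) (x : V) :
    Pt G t (fun y => ∑ i ∈ s, f i y) x = ∑ i ∈ s, Pt G t (f i) x := by
  induction t generalizing x with
  | zero => rfl
  | succ t ih =>
    rw [Pt_succ]
    have : Pt G t (fun y => ∑ i ∈ s, f i y) = fun x => ∑ i ∈ s, Pt G t (f i) x := by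
      ext y; exact ih y
    rw [this, avg_sum]
    apply Finset.sum_congr rfl
    intro i _
    rw [Pt_succ]

/-- indicator of a point -/
noncomputable def dl (w : V) : V → ℝ := fun x => if x = w then 1 else 0

lemma dl_nonneg (w x : V) : 0 ≤ dl w x := by unfold dl; split_ifs <;> norm_num

lemma Pt_dl_symm (t : ℕ) (w x : V) :
    (G.degree x : ℝ) * Pt G t (dl w) x = G.degree w * Pt G t (dl x) w := by
  have h := Pt_symm G t (dl x) (dl w)
  have h1 : ∑ z, (G.degree z : ℝ) * dl x z * Pt G t (dl w) z
      = (G.degree x : ℝ) * Pt G t (dl w) x := by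
    rw [Finset.sum_eq_single x]
    · simp [dl]
    · intro b _ hb; simp [dl, hb]
    · intro hx; exact absurd (Finset.mem_univ x) hx
  have h2 : ∑ z, (G.degree z : ℝ) * Pt G t (dl x) z * dl w z
      = (G.degree w : ℝ) * Pt G t (dl x) w := by
    rw [Finset.sum_eq_single w]
    · simp [dl]
    · intro b _ hb; simp [dl, hb]
    · intro hx; exact absurd (Finset.mem_univ w) hx
  rw [← h1, ← h2]; exact h

/-- expected number of visits to `w` up to time `L` from `x` -/
noncomputable def gr (L : ℕ) (w x : V) : ℝ := ∑ t ∈ range (L + 1), Pt G t (dl w) x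

lemma gr_nonneg (L : ℕ) (w x : V) : 0 ≤ gr G L w x :=
  Finset.sum_nonneg fun t _ => Pt_nonneg G (dl_nonneg w) t x

lemma gr_symm (L : ℕ) (w x : V) : (G.degree x : ℝ) * gr G L w x = G.degree w * gr G L x w := by
  unfold gr
  rw [Finset.mul_sum, Finset.mul_sum]
  exact Finset.sum_congr rfl fun t _ => Pt_dl_symm G t w x

lemma gr_mono (w x : V) {L L' : ℕ} (h : L ≤ L') : gr G L w x ≤ gr G L' w x := by
  unfold gr
  apply Finset.sum_le_sum_of_subset_of_nonneg
  · intro a ha; rw [Finset.mem_range] at ha ⊢; omega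
  · intro t _ _; exact Pt_nonneg G (dl_nonneg w) t x

lemma gr_succ (L : ℕ) (w x : V) : gr G (L + 1) w x = dl w x + avg G (gr G L w) x := by
  unfold gr
  rw [Finset.sum_range_succ']
  rw [add_comm]
  congr 1
  have : (fun y => ∑ t ∈ range (L + 1), Pt G t (dl w) y)
      = fun y => ∑ t ∈ range (L + 1), Pt G t (dl w) y := rfl
  rw [avg_sum]
  apply Finset.sum_congr rfl
  intro t _
  rw [Pt_succ]

/-- probability that the walk from `x` hits `w` during times `0..L`. -/
noncomputable def hit (w : V) : ℕ → V → ℝ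
  | 0, x => if x = w then 1 else 0
  | L + 1, x => if x = w then 1 else avg G (hit w L) x

lemma hit_nonneg (w : V) (L : ℕ) (x : V) : 0 ≤ hit G w L x := by
  induction L generalizing x with
  | zero => unfold hit; split_ifs <;> norm_num
  | succ L ih =>
    unfold hit; split_ifs
    · norm_num
    · exact avg_nonneg G ih x

lemma hit_le_one (hdeg : ∀ x, 0 < G.degree x) (w : V) (L : ℕ) (x : V) : hit G w L x ≤ 1 := by
  induction L generalizing x with
  | zero => unfold hit; split_ifs <;> norm_num
  | succ L ih =>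
    unfold hit; split_ifs
    · norm_num
    · exact avg_le_one G (hdeg x) ih

lemma gr_le_hit (w : V) (L : ℕ) (x : V) : gr G L w x ≤ hit G w L x * gr G L w w := by
  induction L generalizing x with
  | zero =>
    by_cases hx : x = w
    · subst hx; simp [hit]
    · simp [hit, gr, Pt_zero, dl, hx]
  | succ L ih =>
    by_cases hx : x = w
    · subst hx; simp [hit]
    · rw [gr_succ, hit, if_neg hx]
      have h1 : dl w x = 0 := by simp [dl, hx]
      rw [h1, zero_add]
      calc avg G (gr G L w) x ≤ avg G (fun y => hit G w L y * gr G L w w) x :=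
            avg_mono G x fun y _ => ih y
        _ = avg G (hit G w L) x * gr G L w w := avg_mul_const G _ _ _
        _ ≤ avg G (hit G w L) x * gr G (L + 1) w w := by
            apply mul_le_mul_of_nonneg_left (gr_mono G w w (Nat.le_succ L))
            exact avg_nonneg G (hit_nonneg G w L) x

lemma sum_gr (hdeg : ∀ x, 0 < G.degree x) (L : ℕ) (x : V) : ∑ v, gr G L v x = L + 1 := by
  unfold gr
  rw [Finset.sum_comm]
  have : ∀ t ∈ range (L + 1), ∑ v, Pt G t (dl v) x = 1 := by
    intro t _
    rw [← Pt_sum]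
    have h : (fun y => ∑ i : V, dl i y) = fun _ => (1 : ℝ) := by
      ext y; simp [dl]
    rw [h, Pt_const G hdeg]
  rw [Finset.sum_congr rfl this]
  simp

/-- a proper nonempty set in a connected graph has nonempty boundary -/
lemma bd_pos (hG : G.Connected) {K : Finset V} (h1 : K.Nonempty) (h2 : K ≠ univ) :
    0 < bd G K := by
  obtain ⟨y, hy⟩ := h1
  obtain ⟨x, hx⟩ : ∃ x, x ∉ K := by
    by_contra hcon
    push Not at hcon
    exact h2 (Finset.eq_univ_iff_forall.2 hcon)
  obtain ⟨p⟩ := hG.preconnected y x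
  obtain ⟨d, _, hd1, hd2⟩ := p.exists_boundary_dart (K : Set V) (by simpa using hy)
    (by simpa using hx)
  unfold bd
  rw [Finset.card_pos]
  refine ⟨(d.snd, d.fst), ?_⟩
  rw [Finset.mem_filter, mem_adjP]
  exact ⟨d.adj.symm, by simpa using hd2, by simpa using hd1⟩

/-- Green function bound -/
lemma gr_diag_le (hG : G.Connected) (hdeg : ∀ x, 0 < G.degree x) {D : ℕ}
    (hD : ∀ x, G.degree x ≤ D) {L : ℕ} (hcard : 2 * D * (L + 1) ≤ Fintype.card V) (w : V) :
    gr G L w w ≤ D * Real.sqrt (8 * (L + 1)) := by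
  have hDw : (0 : ℝ) < G.degree w := by exact_mod_cast hdeg w
  have hDw1 : (1 : ℝ) ≤ G.degree w := by exact_mod_cast hdeg w
  have hDpos : (0 : ℝ) < D := lt_of_lt_of_le hDw (by exact_mod_cast hD w)
  set f : V → ℝ := fun z => gr G L w z / G.degree w with hf
  set M : ℝ := f w with hM
  have hfnn : ∀ z, 0 ≤ f z := fun z => div_nonneg (gr_nonneg G L w z) (Nat.cast_nonneg _)
  -- total mass
  have hmass : ∑ z, (G.degree z : ℝ) * f z = L + 1 := by
    rw [← sum_gr G hdeg L w]
    apply Finset.sum_congr rfl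
    intro z _
    rw [hf]
    simp only
    rw [← mul_div_assoc, gr_symm]
    field_simp
  have hgr1 : 1 ≤ gr G L w w := by
    have h0 : gr G 0 w w ≤ gr G L w w := gr_mono G w w (Nat.zero_le L)
    have h1 : gr G 0 w w = 1 := by simp [gr, Pt_zero, dl]
    linarith
  have hMpos : 0 < M := by
    rw [hM, hf]; simp only; positivity
  have hMlow : 1 / (D : ℝ) ≤ M := by
    rw [hM, hf]
    simp only
    rw [div_le_div_iff₀ hDpos hDw]
    have : (G.degree w : ℝ) ≤ D := by exact_mod_cast hD w
    nlinarith
  -- energy bound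
  have hEn : energy G f ≤ M := by
    rw [energy_eq]
    have h1 : ∀ z, (G.degree z : ℝ) * f z * (f z - avg G f z)
        ≤ if z = w then M else 0 := by
      intro z
      have h2 : avg G f z = avg G (gr G L w) z / G.degree w := by
        have : f = fun z => gr G L w z * (1 / G.degree w) := by
          ext y; rw [hf]; simp only; ring
        rw [this, avg_mul_const]; ring
      have h3 : f z - avg G f z = (dl w z - Pt G (L + 1) (dl w) z) / G.degree w := by
        rw [h2]
        have h4 : gr G (L + 1) w z = gr G L w z + Pt G (L + 1) (dl w) z := by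
          unfold gr; rw [Finset.sum_range_succ]
        have h5 := gr_succ G L w z
        rw [hf]; simp only
        have h6 : gr G L w z - avg G (gr G L w) z = dl w z - Pt G (L + 1) (dl w) z := by
          linarith
        rw [← sub_div, h6]
      rw [h3]
      have h7 := Pt_nonneg G (dl_nonneg w) (L + 1) z
      split_ifs with hz
      · subst hz
        have h8 : dl z z = 1 := by simp [dl]
        rw [h8]
        have h9 : (1 - Pt G (L + 1) (dl z) z) / (G.degree z : ℝ) ≤ 1 / G.degree z := by
          apply div_le_div_of_nonneg_right _ hDw.le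
          linarith
        calc (G.degree z : ℝ) * f z * ((1 - Pt G (L + 1) (dl z) z) / (G.degree z : ℝ))
            ≤ (G.degree z : ℝ) * f z * (1 / G.degree z) := by
              apply mul_le_mul_of_nonneg_left h9
              exact mul_nonneg hDw.le (hfnn z)
          _ = M := by rw [hM]; field_simp
      · have h8 : dl w z = 0 := by simp [dl, hz]
        rw [h8]
        have h9 : (0 - Pt G (L + 1) (dl w) z) / (G.degree w : ℝ) ≤ 0 := by
          apply div_nonpos_of_nonpos_of_nonneg _ hDw.le
          linarith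
        apply mul_nonpos_of_nonneg_of_nonpos _ h9
        exact mul_nonneg (Nat.cast_nonneg _) (hfnn z)
    calc ∑ z, (G.degree z : ℝ) * f z * (f z - avg G f z)
        ≤ ∑ z, (if z = w then M else 0) := Finset.sum_le_sum fun z _ => h1 z
      _ = M := by simp
  obtain ⟨u, hu1, hu2, hcut⟩ := exists_cut_sq G f (show M / 2 < M by linarith)
  set T := (adjP G).filter (fun p => f p.1 < M ∧ M / 2 < f p.2 ∧ f p.1 < f p.2) with hT
  -- the level set is proper and nonempty
  have hne : (univ.filter fun x => u < f x).Nonempty := ⟨w, by simp; exact hu2⟩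
  have hprop : (univ.filter fun x => u < f x) ≠ univ := by
    intro hall
    have h1 : ∀ z, M / 2 < f z := by
      intro z
      have : z ∈ (univ.filter fun x => u < f x) := by rw [hall]; exact Finset.mem_univ z
      have := (Finset.mem_filter.1 this).2
      linarith
    have h2 : ∑ z : V, M / 2 < ∑ z, (G.degree z : ℝ) * f z := by
      apply Finset.sum_lt_sum_of_nonempty ⟨w, Finset.mem_univ w⟩
      intro z _
      have h3 : (1 : ℝ) ≤ G.degree z := by exact_mod_cast hdeg z
      have h4 := h1 z
      nlinarith [hfnn z]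
    rw [hmass, Finset.sum_const, Finset.card_univ, nsmul_eq_mul] at h2
    have h3 : (2 * D * (L + 1) : ℝ) ≤ Fintype.card V := by exact_mod_cast hcard
    have h4 : (2 * D * (L + 1) : ℝ) * (1 / D / 2) ≤ Fintype.card V * (M / 2) := by
      apply mul_le_mul h3 _ (by positivity) (Nat.cast_nonneg _)
      linarith
    have h5 : (2 * D * (L + 1) : ℝ) * (1 / D / 2) = L + 1 := by field_simp
    linarith
  have hbd1 : (1 : ℝ) ≤ bd G (univ.filter fun x => u < f x) := by
    exact_mod_cast bd_pos G hG hne hprop
  have hTcard : (T.card : ℝ) * (M / 2) ≤ L + 1 := by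
    have h1 : (T.card : ℝ) * (M / 2) ≤ ∑ p ∈ adjP G, f p.1 := by
      have h2 : (T.card : ℝ) * (M / 2) = ∑ p ∈ T, M / 2 := by
        rw [Finset.sum_const, nsmul_eq_mul]
      rw [h2]
      calc ∑ p ∈ T, M / 2 ≤ ∑ p ∈ T, f p.2 := by
            apply Finset.sum_le_sum
            intro p hp
            exact (Finset.mem_filter.1 hp).2.2.1.le
        _ ≤ ∑ p ∈ adjP G, f p.2 := by
            apply Finset.sum_le_sum_of_subset_of_nonneg (Finset.filter_subset _ _)
            intro p _ _; exact hfnn _
        _ = ∑ p ∈ adjP G, f p.1 := by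
            rw [sum_adjP_swap]; rfl
    have h3 : ∑ p ∈ adjP G, f p.1 = L + 1 := by
      rw [sum_adjP, ← hmass]
      apply Finset.sum_congr rfl
      intro x _
      simp only
      rw [Finset.sum_const, G.card_neighborFinset_eq_degree, nsmul_eq_mul]
    linarith
  have hMsq : M ^ 2 ≤ 8 * (L + 1) := by
    have h1 : (M / 2) ^ 2 ≤ (T.card : ℝ) * M := by
      calc (M / 2) ^ 2 ≤ ((bd G (univ.filter fun x => u < f x) : ℝ) * (M - M / 2)) ^ 2 := by
            apply pow_le_pow_left₀ (by linarith)
            have : M - M / 2 = M / 2 := by ring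
            rw [this]
            nlinarith
        _ ≤ (T.card : ℝ) * energy G f := hcut
        _ ≤ (T.card : ℝ) * M := mul_le_mul_of_nonneg_left hEn (Nat.cast_nonneg _)
    nlinarith
  have hMle : M ≤ Real.sqrt (8 * (L + 1)) := Real.le_sqrt_of_sq_le hMsq
  have hgrM : gr G L w w = G.degree w * M := by
    rw [hM, hf]; simp only; field_simp
  rw [hgrM]
  have hDD : (G.degree w : ℝ) ≤ D := by exact_mod_cast hD w
  exact mul_le_mul hDD hMle hMpos.le hDpos.le

lemma surv_le_Pt (B : Finset V) (k : ℕ) (x : V) :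
    surv G B k x ≤ Pt G k (fun y => if y ∈ B then 1 else 0) x := by
  induction k generalizing x with
  | zero => simp [surv, Pt_zero]
  | succ k ih =>
    rw [Pt_succ, surv]
    have h1 : avg G (surv G B k) x ≤ avg G (Pt G k (fun y => if y ∈ B then 1 else 0)) x :=
      avg_mono G x fun y _ => ih y
    split_ifs
    · exact h1
    · exact avg_nonneg G (fun y => Pt_nonneg G (fun z => by split_ifs <;> norm_num) k y) x

lemma surv_mul_le (hdeg : ∀ x, 0 < G.degree x) (B : Finset V) (L : ℕ) (x : V) :
    surv G B L x * (L + 1) ≤ ∑ v ∈ B, gr G L v x := by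
  have h1 : ∀ t ∈ range (L + 1), surv G B L x ≤ ∑ v ∈ B, Pt G t (dl v) x := by
    intro t ht
    have h2 := surv_antitone G hdeg B x (show t ≤ L by rw [Finset.mem_range] at ht; omega)
    simp only at h2
    refine h2.trans ((surv_le_Pt G B t x).trans ?_)
    have h3 : (fun y => if y ∈ B then (1 : ℝ) else 0) = fun y => ∑ v ∈ B, dl v y := by
      ext y
      unfold dl
      rw [Finset.sum_ite_eq]
    rw [h3, Pt_sum]
  calc surv G B L x * (L + 1) = ∑ t ∈ range (L + 1), surv G B L x := by
        rw [Finset.sum_const, Finset.card_range, nsmul_eq_mul]; push_cast; ring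
    _ ≤ ∑ t ∈ range (L + 1), ∑ v ∈ B, Pt G t (dl v) x := Finset.sum_le_sum h1
    _ = ∑ v ∈ B, gr G L v x := by rw [Finset.sum_comm]; rfl

/-- from a point `x` with small total hitting mass from `R`, the walk leaves `R ∪ D'`. -/
lemma surv_union_le (hG : G.Connected) (hdeg : ∀ x, 0 < G.degree x) {D : ℕ}
    (hD : ∀ x, G.degree x ≤ D) {L : ℕ} (hcard : 2 * D * (L + 1) ≤ Fintype.card V)
    (R D' : Finset V) {κ : ℝ} (x : V)
    (hx : ∑ v ∈ R, hit G x L v ≤ κ) :
    surv G (R ∪ D') L x * (L + 1) ≤ (D * κ + D'.card) * (D * Real.sqrt (8 * (L + 1))) := by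
  set g : ℝ := D * Real.sqrt (8 * (L + 1)) with hg
  have hg0 : 0 ≤ g := by positivity
  have hκ : 0 ≤ κ := (Finset.sum_nonneg fun v _ => hit_nonneg G x L v).trans hx
  refine (surv_mul_le G hdeg _ L x).trans ?_
  have h1 : ∑ v ∈ R ∪ D', gr G L v x ≤ ∑ v ∈ R, gr G L v x + ∑ v ∈ D', gr G L v x := by
    rw [← Finset.sum_union_inter]
    have : 0 ≤ ∑ v ∈ R ∩ D', gr G L v x := Finset.sum_nonneg fun v _ => gr_nonneg G L v x
    linarith
  have h2 : ∑ v ∈ R, gr G L v x ≤ D * κ * g := by
    have h3 : ∀ v ∈ R, gr G L v x ≤ D * (hit G x L v * g) := by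
      intro v _
      have hxpos : (1 : ℝ) ≤ G.degree x := by exact_mod_cast hdeg x
      have h4 : gr G L v x ≤ G.degree x * gr G L v x := by
        nlinarith [gr_nonneg G L v x]
      rw [gr_symm] at h4
      have h5 : gr G L x v ≤ hit G x L v * g :=
        (gr_le_hit G x L v).trans
          (mul_le_mul_of_nonneg_left (gr_diag_le G hG hdeg hD hcard x) (hit_nonneg G x L v))
      have h6 : (G.degree v : ℝ) ≤ D := by exact_mod_cast hD v
      calc gr G L v x ≤ G.degree v * gr G L x v := h4
        _ ≤ D * gr G L x v := mul_le_mul_of_nonneg_right h6 (gr_nonneg G L x v)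
        _ ≤ D * (hit G x L v * g) := mul_le_mul_of_nonneg_left h5 (Nat.cast_nonneg _)
    calc ∑ v ∈ R, gr G L v x ≤ ∑ v ∈ R, D * (hit G x L v * g) := Finset.sum_le_sum h3
      _ = D * (∑ v ∈ R, hit G x L v) * g := by
          rw [← Finset.mul_sum, ← Finset.sum_mul]; ring
      _ ≤ D * κ * g := by
          apply mul_le_mul_of_nonneg_right _ hg0
          exact mul_le_mul_of_nonneg_left hx (Nat.cast_nonneg _)
  have h3 : ∑ v ∈ D', gr G L v x ≤ D'.card * g := by
    have h4 : ∀ v ∈ D', gr G L v x ≤ g := by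
      intro v _
      have h5 := gr_le_hit G v L x
      have h6 := hit_le_one G hdeg v L x
      have h7 := gr_diag_le G hG hdeg hD hcard v
      have h8 := gr_nonneg G L v v
      calc gr G L v x ≤ hit G v L x * gr G L v v := h5
        _ ≤ 1 * gr G L v v := mul_le_mul_of_nonneg_right h6 h8
        _ ≤ g := by rw [one_mul]; exact h7
    calc ∑ v ∈ D', gr G L v x ≤ ∑ v ∈ D', g := Finset.sum_le_sum h4
      _ = D'.card * g := by rw [Finset.sum_const, nsmul_eq_mul]
  calc ∑ v ∈ R ∪ D', gr G L v x ≤ D * κ * g + D'.card * g := by linarith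
    _ = _ := by ring

end Pool.Agent.helper98.Frog
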