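import Pool.Agent.helper98.FrogAsymp

set_option autoImplicit false
set_option linter.unusedSectionVars false

open Finset MeasureTheory ProbabilityTheory Filter Topology

namespace Pool.Agent.helper98.Frog

universe u v

lemma pJ_tendsto (D : ℕ) (hD : 1 ≤ D) : Tendsto (fun n : ℕ => pJ D n) atTop atTop := by
  rw [tendsto_atTop]
  intro b
  filter_upwards [eventually_ge_atTop (2 ^ b)] with n hn
  unfold pJ
  have h1 : b ≤ Nat.log 2 (D * n) := by
    apply Nat.le_log_of_pow_le (by norm_num)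
    exact hn.trans (Nat.le_mul_of_pos_left _ (by omega))
  omega

lemma err_tendsto (D : ℕ) (hD : 1 ≤ D) {lam : ℝ} (hlam : 0 < lam) (m0 : ℕ) :
    Tendsto (fun n : ℕ => (1 / (n : ℝ)) + (Real.exp (1 / (n : ℝ)) - 1) +
      (m0 : ℝ) * ((m0 : ℝ) * (D * Real.sqrt (8 * ((pt D lam n : ℝ) + 1)))
        / ((pt D lam n : ℝ) + 1))) atTop (𝓝 0) := by
  have h1 : Tendsto (fun n : ℕ => (1 / (n : ℝ))) atTop (𝓝 0) := tendsto_one_div_atTop_nhds_zero_nat
  have h2 : Tendsto (fun n : ℕ => Real.exp (1 / (n : ℝ)) - 1) atTop (𝓝 0) := by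
    have := (Real.continuous_exp.tendsto 0).comp h1
    simp only [Real.exp_zero] at this
    simpa using this.sub_const 1
  have h3 : Tendsto (fun y : ℝ => Real.sqrt (8 * (y + 1)) / (y + 1)) atTop (𝓝 0) := by
    have h4 : (fun y : ℝ => Real.sqrt (8 * (y + 1)) / (y + 1))
        =ᶠ[atTop] fun y => Real.sqrt 8 * (Real.sqrt (y + 1))⁻¹ := by
      filter_upwards [eventually_ge_atTop 0] with y hy
      have hy1 : 0 < y + 1 := by linarith
      rw [Real.sqrt_mul (by norm_num)]
      have h5 : Real.sqrt (y + 1) * Real.sqrt (y + 1) = y + 1 := Real.mul_self_sqrt hy1.le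
      have h6 : 0 < Real.sqrt (y + 1) := Real.sqrt_pos.2 hy1
      rw [← div_eq_mul_inv, div_eq_div_iff (by positivity) (by positivity)]
      rw [mul_assoc, h5]
    rw [tendsto_congr' h4]
    have h5 : Tendsto (fun y : ℝ => (Real.sqrt (y + 1))⁻¹) atTop (𝓝 0) := by
      apply Tendsto.inv_tendsto_atTop
      exact Real.tendsto_sqrt_atTop.comp (tendsto_atTop_add_const_right _ 1 tendsto_id)
    simpa using h5.const_mul (Real.sqrt 8)
  have h4 := h3.comp (pt_tendsto D hD hlam)
  have h5 : Tendsto (fun n : ℕ => (m0 : ℝ) * ((m0 : ℝ) * (D * Real.sqrt (8 * ((pt D lam n : ℝ) + 1)))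
        / ((pt D lam n : ℝ) + 1))) atTop (𝓝 0) := by
    have h6 := h4.const_mul ((m0 : ℝ) * (m0 * D))
    rw [mul_zero] at h6
    refine h6.congr ?_
    intro n
    simp only [Function.comp]
    ring
  have := (h1.add h2).add h5
  simpa using this

/-- uniform asymptotic statement for the set model -/
theorem SetModel.asymp (D : ℕ) (hD1 : 1 ≤ D) {lam : ℝ} (hlam : 0 < lam) {ε : ℝ} (hε : 0 < ε) :
    ∃ n0 : ℕ, ∀ (V : Type u) [Fintype V] [DecidableEq V] (G : SimpleGraph V) [DecidableRel G.Adj]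
      (Ω : Type v) [MeasurableSpace Ω] (P : Measure Ω) [IsProbabilityMeasure P]
      (o : V) (Y : V → Ω → Finset V) (F0 : Ω → Finset V),
      n0 ≤ Fintype.card V → G.Connected → (∀ x, G.degree x ≤ D) →
      SetModel G P lam (pL D lam (Fintype.card V)) o Y F0 →
      P.real {ω | clos (fun v => Y v ω) ∅ (F0 ω) ≠ univ} ≤ ε := by
  -- choice of m0
  have hm : (0 : ℝ) < pm lam := by exact_mod_cast pm_pos hlam
  obtain ⟨m0, hm0⟩ : ∃ m0 : ℕ, Real.exp (-((m0 : ℝ) / pm lam)) < ε / 2 := by
    have h1 : Tendsto (fun k : ℕ => Real.exp (-((k : ℝ) / pm lam))) atTop (𝓝 0) := by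
      apply Real.tendsto_exp_neg_atTop_nhds_zero.comp
      exact Tendsto.atTop_div_const hm tendsto_natCast_atTop_atTop
    exact (h1.eventually_lt_const (by positivity : (0 : ℝ) < ε / 2)).exists
  obtain ⟨C, hC, hgrowth⟩ := exists_growth D hD1 hlam
  have hev : ∀ᶠ n : ℕ in atTop, 3 ≤ n ∧ 2 * D * (pL1 D lam n + 1) ≤ n ∧
      2 * D * (pt D lam n + 1) ≤ n ∧ m0 ≤ pJ D n ∧
      (1 / (n : ℝ)) + (Real.exp (1 / (n : ℝ)) - 1) +
      (m0 : ℝ) * ((m0 : ℝ) * (D * Real.sqrt (8 * ((pt D lam n : ℝ) + 1)))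
        / ((pt D lam n : ℝ) + 1)) < ε / 2 := by
    filter_upwards [eventually_ge_atTop 3,
      eventually_card D hC 2 (pL1 D lam) (fun n hn => (hgrowth n hn).1),
      eventually_card D hC 4 (pt D lam) (fun n hn => (hgrowth n hn).2.1),
      (pJ_tendsto D hD1).eventually_ge_atTop m0,
      (err_tendsto D hD1 hlam m0).eventually_lt_const (by positivity : (0 : ℝ) < ε / 2)]
      with n h1 h2 h3 h4 h5
    exact ⟨h1, h2, h3, h4, h5⟩
  obtain ⟨n0, hn0⟩ := eventually_atTop.1 hev
  refine ⟨n0, ?_⟩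
  intro V _ _ G _ Ω _ P _ o Y F0 hcardV hG hD h
  obtain ⟨h3, hc1, hc2, hJ, herr⟩ := hn0 _ hcardV
  set n := Fintype.card V with hn
  have hnr : (0 : ℝ) < n := by positivity
  have hn1 : (1 : ℝ) < n := by
    have : (3 : ℝ) ≤ n := by exact_mod_cast h3
    linarith
  have hDr : (1 : ℝ) ≤ D := by exact_mod_cast hD1
  have hnt : Nontrivial V := Fintype.one_lt_card_iff_nontrivial.1 (by omega)
  have hdeg : ∀ x, 0 < G.degree x := fun x => hG.preconnected.degree_pos_of_nontrivial x
  have hDn : (1 : ℝ) < D * n := by nlinarith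
  have hlogDn : 0 < Real.log (D * n) := Real.log_pos hDn
  have hApos : 0 < pA D lam n := by
    unfold pA; have := pc1_pos hlam; positivity
  have hmain := h.main_bound hG hdeg hlam hD (L1 := pL1 D lam n) (by rw [← hn]; exact hc1)
    (κ := pκ lam n) (m := pm lam) (pm_pos hlam) (param_eta hlam (by omega))
    (t := pt D lam n) (J := pJ D n) (A := pA D lam n) hApos (by unfold pJ; omega)
    (Nat.le_ceil _) (by rw [← hn]; exact param_J D n) (c1 := pc1 lam) rfl (one_div_pm_le hlam)
    (by unfold pL; exact le_rfl) m0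
  refine hmain.trans ?_
  -- first term
  have ht1 : (n : ℝ) * Real.exp (-(lam * pκ lam n)) = 1 / n := by
    have : -(lam * pκ lam n) = -Real.log n + -Real.log n := by
      unfold pκ; field_simp; ring
    rw [this, Real.exp_add, Real.exp_neg, Real.exp_log hnr]
    field_simp
  have ht2 : (1 + Real.exp (-(pc1 lam * pA D lam n / D))) ^ (D * n) - 1
      ≤ Real.exp (1 / (n : ℝ)) - 1 := by
    have hc := pc1_pos hlam
    have h4 : -(pc1 lam * pA D lam n / D) = -Real.log (D * n) + -Real.log (D * n) := by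
      unfold pA; field_simp; ring
    have h5 : Real.exp (-(pc1 lam * pA D lam n / D)) = 1 / (D * n) * (1 / (D * n)) := by
      rw [h4, Real.exp_add, Real.exp_neg, Real.exp_log (by positivity)]
      simp
    rw [h5]
    have h6 : (1 + 1 / ((D : ℝ) * n) * (1 / (D * n))) ^ (D * n)
        ≤ Real.exp (1 / (n : ℝ)) := by
      calc (1 + 1 / ((D : ℝ) * n) * (1 / (D * n))) ^ (D * n)
          ≤ (Real.exp (1 / ((D : ℝ) * n) * (1 / (D * n)))) ^ (D * n) := by
            apply pow_le_pow_left₀ (by positivity)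
            have := Real.add_one_le_exp (1 / ((D : ℝ) * n) * (1 / (D * n)))
            linarith
        _ = Real.exp (1 / ((D : ℝ) * n)) := by
            rw [← Real.exp_nat_mul]
            congr 1
            push_cast
            field_simp
        _ ≤ Real.exp (1 / (n : ℝ)) := by
            apply Real.exp_le_exp.2
            apply one_div_le_one_div_of_le hnr
            nlinarith
    linarith
  have ht3 : 1 - rangeE G (freshΘ m0 ∅) (pL D lam n) o ∅
      ≤ (m0 : ℝ) * ((m0 : ℝ) * (D * Real.sqrt (8 * ((pt D lam n : ℝ) + 1)))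
        / ((pt D lam n : ℝ) + 1)) := by
    have h4 : (0 : ℝ) < (pt D lam n : ℝ) + 1 := by positivity
    have h5 := fresh_outside G hG hdeg hD (L := pt D lam n) (by rw [← hn]; exact hc2) ∅ (κ := 0)
      (η := (m0 : ℝ) * (D * Real.sqrt (8 * ((pt D lam n : ℝ) + 1))) / ((pt D lam n : ℝ) + 1))
      (m := m0) (by intro x _; simp) (by positivity) (by
        rw [mul_zero, zero_add]
        rw [div_mul_cancel₀ _ h4.ne']) m0 o ∅ (by simp) (by omega)
    have h6 : rangeE G (freshΘ m0 ∅) (m0 * pt D lam n) o ∅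
        ≤ rangeE G (freshΘ m0 ∅) (pL D lam n) o ∅ := by
      apply rangeE_mono_time' G hdeg (freshΘ_mono m0 ∅)
      unfold pL
      have := Nat.mul_le_mul_right (pt D lam n) hJ
      omega
    linarith
  rw [← hn, ht1]
  linarith

end Pool.Agent.helper98.Frog
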