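import Mathlib

set_option autoImplicit false
set_option linter.unusedSectionVars false

open Finset

namespace Pool.Agent.helper98.Frog

variable {V : Type*} [Fintype V] [DecidableEq V] (G : SimpleGraph V) [DecidableRel G.Adj]

/-- one-step average of `f` over the neighbours of `x`. -/
noncomputable def avg (f : V → ℝ) (x : V) : ℝ :=
  (∑ y ∈ G.neighborFinset x, f y) / G.degree x

lemma degree_mul_avg (f : V → ℝ) (x : V) :
    (G.degree x : ℝ) * avg G f x = ∑ y ∈ G.neighborFinset x, f y := by
  unfold avg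
  by_cases h : G.degree x = 0
  · have : G.neighborFinset x = ∅ := by
      rw [← Finset.card_eq_zero]; exact h
    simp [h, this]
  · field_simp

lemma avg_mono {f g : V → ℝ} (x : V) (h : ∀ y, G.Adj x y → f y ≤ g y) :
    avg G f x ≤ avg G g x := by
  unfold avg
  apply div_le_div_of_nonneg_right _ (Nat.cast_nonneg _)
  apply Finset.sum_le_sum
  intro y hy
  exact h y (by simpa using hy)

lemma avg_const {x : V} (hx : 0 < G.degree x) (c : ℝ) : avg G (fun _ => c) x = c := by
  unfold avg
  have : (G.degree x : ℝ) ≠ 0 := by positivity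
  rw [Finset.sum_const, G.card_neighborFinset_eq_degree, nsmul_eq_mul]
  field_simp

lemma avg_nonneg {f : V → ℝ} (h : ∀ y, 0 ≤ f y) (x : V) : 0 ≤ avg G f x := by
  unfold avg
  exact div_nonneg (Finset.sum_nonneg fun y _ => h y) (Nat.cast_nonneg _)

lemma avg_le_one {f : V → ℝ} {x : V} (hx : 0 < G.degree x) (h : ∀ y, f y ≤ 1) :
    avg G f x ≤ 1 := by
  calc avg G f x ≤ avg G (fun _ => (1 : ℝ)) x := avg_mono G x fun y _ => h y
    _ = 1 := avg_const G hx 1

lemma avg_mul_const (f : V → ℝ) (c : ℝ) (x : V) :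
    avg G (fun y => f y * c) x = avg G f x * c := by
  unfold avg
  rw [← Finset.sum_mul]; ring

lemma avg_add (f g : V → ℝ) (x : V) :
    avg G (fun y => f y + g y) x = avg G f x + avg G g x := by
  unfold avg
  rw [Finset.sum_add_distrib]; ring

lemma avg_sub (f g : V → ℝ) (x : V) :
    avg G (fun y => f y - g y) x = avg G f x - avg G g x := by
  unfold avg
  rw [Finset.sum_sub_distrib]; ring

lemma avg_sum {ι : Type*} (s : Finset ι) (f : ι → V → ℝ) (x : V) :
    avg G (fun y => ∑ i ∈ s, f i y) x = ∑ i ∈ s, avg G (f i) x := by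
  unfold avg
  rw [Finset.sum_comm, Finset.sum_div]

/-- ordered adjacent pairs -/
def adjP : Finset (V × V) := univ.filter fun p => G.Adj p.1 p.2

lemma mem_adjP {p : V × V} : p ∈ adjP G ↔ G.Adj p.1 p.2 := by simp [adjP]

lemma sum_adjP (F : V × V → ℝ) :
    ∑ p ∈ adjP G, F p = ∑ x, ∑ y ∈ G.neighborFinset x, F (x, y) := by
  unfold adjP
  rw [Finset.sum_filter, ← Finset.univ_product_univ, Finset.sum_product]
  apply Finset.sum_congr rfl
  intro x _
  rw [← Finset.sum_filter]
  apply Finset.sum_congr _ fun _ _ => rfl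
  ext y; simp

lemma sum_adjP_swap (F : V × V → ℝ) :
    ∑ p ∈ adjP G, F p = ∑ p ∈ adjP G, F p.swap := by
  refine Finset.sum_nbij' (fun p => p.swap) (fun p => p.swap) ?_ ?_ ?_ ?_ ?_
  · intro p hp; rw [mem_adjP] at hp ⊢; exact hp.symm
  · intro p hp; rw [mem_adjP] at hp ⊢; exact hp.symm
  · intro p _; exact Prod.swap_swap p
  · intro p _; exact Prod.swap_swap p
  · intro p _; simp

/-- Dirichlet energy -/
noncomputable def energy (f : V → ℝ) : ℝ := (∑ p ∈ adjP G, (f p.1 - f p.2) ^ 2) / 2

lemma energy_eq (f : V → ℝ) :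
    energy G f = ∑ x, (G.degree x : ℝ) * f x * (f x - avg G f x) := by
  have h1 : ∑ p ∈ adjP G, (f p.1 - f p.2) ^ 2 = ∑ p ∈ adjP G, (2 * f p.1 * (f p.1 - f p.2)) := by
    have h2 : ∑ p ∈ adjP G, (f p.1) ^ 2 = ∑ p ∈ adjP G, (f p.2) ^ 2 := by
      rw [sum_adjP_swap]; rfl
    have : ∑ p ∈ adjP G, (f p.1 - f p.2) ^ 2 - ∑ p ∈ adjP G, (2 * f p.1 * (f p.1 - f p.2))
        = ∑ p ∈ adjP G, (f p.2) ^ 2 - ∑ p ∈ adjP G, (f p.1) ^ 2 := by
      rw [← Finset.sum_sub_distrib, ← Finset.sum_sub_distrib]
      apply Finset.sum_congr rfl; intro p _; ring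
    linarith
  unfold energy
  rw [h1, sum_adjP, Finset.sum_div]
  apply Finset.sum_congr rfl
  intro x _
  have h3 := degree_mul_avg G f x
  have h4 : ∑ y ∈ G.neighborFinset x, 2 * f x * (f x - f y)
      = 2 * f x * ((G.degree x : ℝ) * f x - ∑ y ∈ G.neighborFinset x, f y) := by
    rw [← Finset.mul_sum, Finset.sum_sub_distrib, Finset.sum_const,
      G.card_neighborFinset_eq_degree, nsmul_eq_mul]
  simp only
  rw [h4, ← h3]; ring

/-- number of (ordered outside-inside) boundary pairs of `K` -/
def bd (K : Finset V) : ℕ := ((adjP G).filter fun p => p.1 ∉ K ∧ p.2 ∈ K).card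

/-- level-set (coarea) lemma -/
lemma exists_cut (f : V → ℝ) {a b : ℝ} (hab : a < b) :
    ∃ u, a < u ∧ u < b ∧
      (bd G (univ.filter fun x => u < f x) : ℝ) * (b - a) ≤
        ∑ p ∈ (adjP G).filter (fun p => f p.1 < b ∧ a < f p.2 ∧ f p.1 < f p.2),
          (f p.2 - f p.1) := by
  classical
  set T := (adjP G).filter (fun p => f p.1 < b ∧ a < f p.2 ∧ f p.1 < f p.2) with hT
  let F : ℝ → ℝ := fun u => ∑ p ∈ T, (Set.Ico (f p.1) (f p.2)).indicator (fun _ => (1 : ℝ)) u
  have hFint : MeasureTheory.IntegrableOn F (Set.Ioo a b) := by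
    apply MeasureTheory.integrable_finsetSum
    intro p _
    apply MeasureTheory.IntegrableOn.integrable
    apply MeasureTheory.IntegrableOn.indicator _ measurableSet_Ico
    exact MeasureTheory.integrableOn_const (by simp)
  obtain ⟨u, hu, hle⟩ := MeasureTheory.exists_le_setAverage (μ := MeasureTheory.volume)
    (s := Set.Ioo a b) (f := F) (by simp [hab]) (by simp) hFint
  refine ⟨u, hu.1, hu.2, ?_⟩
  have hbd : (bd G (univ.filter fun x => u < f x) : ℝ) = F u := by
    unfold bd
    simp only [F, Set.indicator_apply, Set.mem_Ico]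
    rw [← Finset.sum_filter]
    simp only [Finset.sum_const, nsmul_eq_mul, mul_one]
    congr 2
    ext p
    simp only [hT, Finset.mem_filter, Finset.mem_univ, true_and, not_lt]
    constructor
    · rintro ⟨h1, h2, h3⟩
      exact ⟨⟨h1, lt_of_le_of_lt h2 hu.2, lt_trans hu.1 h3, lt_of_le_of_lt h2 h3⟩, h2, h3⟩
    · rintro ⟨⟨h1, _⟩, h2, h3⟩
      exact ⟨h1, h2, h3⟩
  have hint : ∫ x in Set.Ioo a b, F x ≤ ∑ p ∈ T, (f p.2 - f p.1) := by
    rw [MeasureTheory.integral_finsetSum]
    · apply Finset.sum_le_sum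
      intro p hp
      rw [MeasureTheory.setIntegral_indicator measurableSet_Ico]
      simp only [MeasureTheory.setIntegral_const, smul_eq_mul, mul_one]
      have h1 : f p.1 < f p.2 := (Finset.mem_filter.1 hp).2.2.2
      calc MeasureTheory.volume.real (Set.Ioo a b ∩ Set.Ico (f p.1) (f p.2))
          ≤ MeasureTheory.volume.real (Set.Ico (f p.1) (f p.2)) :=
            MeasureTheory.measureReal_mono Set.inter_subset_right
              (by rw [Real.volume_Ico]; exact ENNReal.ofReal_ne_top)
        _ = f p.2 - f p.1 := by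
            rw [Real.volume_real_Ico_of_le h1.le]
    · intro p _
      apply MeasureTheory.IntegrableOn.integrable
      apply MeasureTheory.IntegrableOn.indicator _ measurableSet_Ico
      exact MeasureTheory.integrableOn_const (by simp)
  rw [hbd]
  rw [MeasureTheory.setAverage_eq] at hle
  have hvol : MeasureTheory.volume.real (Set.Ioo a b) = b - a := by
    rw [Real.volume_real_Ioo_of_le hab.le]
  rw [hvol, smul_eq_mul] at hle
  have hpos : 0 < b - a := by linarith
  calc F u * (b - a) ≤ ((b - a)⁻¹ * ∫ x in Set.Ioo a b, F x) * (b - a) := by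
        apply mul_le_mul_of_nonneg_right hle hpos.le
    _ = ∫ x in Set.Ioo a b, F x := by field_simp
    _ ≤ _ := hint

lemma sum_sq_le_energy (f : V → ℝ) (T : Finset (V × V)) (hT : T ⊆ adjP G)
    (h : ∀ p ∈ T, f p.1 < f p.2) :
    ∑ p ∈ T, (f p.2 - f p.1) ^ 2 ≤ energy G f := by
  unfold energy
  have h1 : ∑ p ∈ T, (f p.2 - f p.1) ^ 2
      ≤ ∑ p ∈ adjP G, (if f p.1 < f p.2 then (f p.1 - f p.2) ^ 2 else 0) := by
    calc ∑ p ∈ T, (f p.2 - f p.1) ^ 2
        = ∑ p ∈ T, (if f p.1 < f p.2 then (f p.1 - f p.2) ^ 2 else 0) := by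
          apply Finset.sum_congr rfl
          intro p hp
          rw [if_pos (h p hp)]; ring
      _ ≤ _ := by
          apply Finset.sum_le_sum_of_subset_of_nonneg hT
          intro p _ _
          split_ifs <;> positivity
  have h2 : ∑ p ∈ adjP G, (if f p.1 < f p.2 then (f p.1 - f p.2) ^ 2 else 0)
      = ∑ p ∈ adjP G, (if f p.2 < f p.1 then (f p.1 - f p.2) ^ 2 else 0) := by
    rw [sum_adjP_swap]
    apply Finset.sum_congr rfl
    intro p _
    simp only [Prod.fst_swap, Prod.snd_swap]
    split_ifs <;> ring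
  have h3 : ∑ p ∈ adjP G, (if f p.1 < f p.2 then (f p.1 - f p.2) ^ 2 else 0)
      + ∑ p ∈ adjP G, (if f p.2 < f p.1 then (f p.1 - f p.2) ^ 2 else 0)
      ≤ ∑ p ∈ adjP G, (f p.1 - f p.2) ^ 2 := by
    rw [← Finset.sum_add_distrib]
    apply Finset.sum_le_sum
    intro p _
    split_ifs with h4 h5
    · linarith
    · linarith
    · linarith
    · simpa using sq_nonneg _
  linarith

/-- Cauchy-Schwarz form of the level-set lemma. -/
lemma exists_cut_sq (f : V → ℝ) {a b : ℝ} (hab : a < b) :
    ∃ u, a < u ∧ u < b ∧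
      ((bd G (univ.filter fun x => u < f x) : ℝ) * (b - a)) ^ 2 ≤
        (((adjP G).filter (fun p => f p.1 < b ∧ a < f p.2 ∧ f p.1 < f p.2)).card : ℝ)
          * energy G f := by
  obtain ⟨u, h1, h2, h3⟩ := exists_cut G f hab
  refine ⟨u, h1, h2, ?_⟩
  set T := (adjP G).filter (fun p => f p.1 < b ∧ a < f p.2 ∧ f p.1 < f p.2) with hT
  have h4 : (∑ p ∈ T, (f p.2 - f p.1)) ^ 2 ≤ (T.card : ℝ) * ∑ p ∈ T, (f p.2 - f p.1) ^ 2 :=
    sq_sum_le_card_mul_sum_sq
  have h5 : ∑ p ∈ T, (f p.2 - f p.1) ^ 2 ≤ energy G f :=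
    sum_sq_le_energy G f T (Finset.filter_subset _ _) (fun p hp => (Finset.mem_filter.1 hp).2.2.2)
  calc ((bd G (univ.filter fun x => u < f x) : ℝ) * (b - a)) ^ 2
      ≤ (∑ p ∈ T, (f p.2 - f p.1)) ^ 2 := by
        apply pow_le_pow_left₀ _ h3
        exact mul_nonneg (Nat.cast_nonneg _) (by linarith)
    _ ≤ (T.card : ℝ) * ∑ p ∈ T, (f p.2 - f p.1) ^ 2 := h4
    _ ≤ _ := mul_le_mul_of_nonneg_left h5 (Nat.cast_nonneg _)

/-- probability that the walk from `x` stays in `B` during times `0..k`. -/
noncomputable def surv (B : Finset V) : ℕ → V → ℝ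
  | 0, x => if x ∈ B then 1 else 0
  | k + 1, x => if x ∈ B then avg G (surv B k) x else 0

lemma surv_of_notMem {B : Finset V} {x : V} (hx : x ∉ B) (k : ℕ) : surv G B k x = 0 := by
  cases k <;> simp [surv, hx]

lemma surv_nonneg (B : Finset V) (k : ℕ) (x : V) : 0 ≤ surv G B k x := by
  induction k generalizing x with
  | zero => unfold surv; split_ifs <;> norm_num
  | succ k ih =>
    unfold surv
    split_ifs
    · exact avg_nonneg G ih x
    · exact le_rfl

lemma surv_le_one (hdeg : ∀ x, 0 < G.degree x) (B : Finset V) (k : ℕ) (x : V) :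
    surv G B k x ≤ 1 := by
  induction k generalizing x with
  | zero => unfold surv; split_ifs <;> norm_num
  | succ k ih =>
    unfold surv
    split_ifs
    · exact avg_le_one G (hdeg x) ih
    · norm_num

lemma surv_succ_le (hdeg : ∀ x, 0 < G.degree x) (B : Finset V) (k : ℕ) (x : V) :
    surv G B (k + 1) x ≤ surv G B k x := by
  induction k generalizing x with
  | zero =>
    unfold surv
    split_ifs
    · exact avg_le_one G (hdeg x) (surv_le_one G hdeg B 0)
    · exact le_rfl
  | succ k ih =>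
    rw [surv, surv]
    split_ifs
    · exact avg_mono G x fun y _ => ih y
    · exact le_rfl

lemma surv_antitone (hdeg : ∀ x, 0 < G.degree x) (B : Finset V) (x : V) :
    Antitone fun k => surv G B k x :=
  antitone_nat_of_succ_le fun k => surv_succ_le G hdeg B k x

/-- expected exit mass of `B` within `t` steps, started from the degree measure on `B`. -/
noncomputable def exitMass (B : Finset V) (t : ℕ) : ℝ :=
  ∑ x ∈ B, (G.degree x : ℝ) * (1 - surv G B t x)

lemma exitMass_nonneg (hdeg : ∀ x, 0 < G.degree x) (B : Finset V) (t : ℕ) :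
    0 ≤ exitMass G B t := by
  apply Finset.sum_nonneg
  intro x _
  have := surv_le_one G hdeg B t x
  exact mul_nonneg (Nat.cast_nonneg _) (by linarith)

lemma exitMass_mono (hdeg : ∀ x, 0 < G.degree x) (B : Finset V) {k t : ℕ} (h : k ≤ t) :
    exitMass G B k ≤ exitMass G B t := by
  apply Finset.sum_le_sum
  intro x _
  have := surv_antitone G hdeg B x h
  simp only at this
  apply mul_le_mul_of_nonneg_left _ (Nat.cast_nonneg _)
  linarith

lemma sum_energy_le (hdeg : ∀ x, 0 < G.degree x) (B : Finset V) (t : ℕ) :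
    ∑ k ∈ range t, energy G (surv G B k) ≤ exitMass G B t := by
  have h1 : ∀ k, energy G (surv G B k)
      ≤ ∑ x ∈ B, (G.degree x : ℝ) * (surv G B k x - surv G B (k + 1) x) := by
    intro k
    rw [energy_eq]
    have h2 : ∑ x, (G.degree x : ℝ) * surv G B k x * (surv G B k x - avg G (surv G B k) x)
        = ∑ x ∈ B, (G.degree x : ℝ) * surv G B k x * (surv G B k x - avg G (surv G B k) x) := by
      symm
      apply Finset.sum_subset (Finset.subset_univ _)
      intro x _ hx
      rw [surv_of_notMem G hx]; ring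
    rw [h2]
    apply Finset.sum_le_sum
    intro x hx
    have h3 : surv G B (k + 1) x = avg G (surv G B k) x := by rw [surv, if_pos hx]
    rw [← h3]
    have h4 := surv_succ_le G hdeg B k x
    have h5 := surv_le_one G hdeg B k x
    have h6 := surv_nonneg G B k x
    have h7 : (0 : ℝ) ≤ G.degree x := Nat.cast_nonneg _
    calc (G.degree x : ℝ) * surv G B k x * (surv G B k x - surv G B (k + 1) x)
        ≤ (G.degree x : ℝ) * 1 * (surv G B k x - surv G B (k + 1) x) := by
          apply mul_le_mul_of_nonneg_right _ (by linarith)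
          exact mul_le_mul_of_nonneg_left h5 h7
      _ = _ := by ring
  calc ∑ k ∈ range t, energy G (surv G B k)
      ≤ ∑ k ∈ range t, ∑ x ∈ B, (G.degree x : ℝ) * (surv G B k x - surv G B (k + 1) x) :=
        Finset.sum_le_sum fun k _ => h1 k
    _ = ∑ x ∈ B, (G.degree x : ℝ) * ∑ k ∈ range t, (surv G B k x - surv G B (k + 1) x) := by
        rw [Finset.sum_comm]
        apply Finset.sum_congr rfl; intro x _; rw [Finset.mul_sum]
    _ = exitMass G B t := by
        unfold exitMass
        apply Finset.sum_congr rfl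
        intro x hx
        rw [Finset.sum_range_sub']
        simp [surv, hx]

lemma exists_low_energy (hdeg : ∀ x, 0 < G.degree x) (B : Finset V) {t : ℕ} (ht : 0 < t) :
    ∃ k < t, energy G (surv G B k) * t ≤ exitMass G B t := by
  by_contra hcon
  push Not at hcon
  have h1 := sum_energy_le G hdeg B t
  have htpos : (0 : ℝ) < t := by exact_mod_cast ht
  have h2 : ∑ k ∈ range t, exitMass G B t / t < ∑ k ∈ range t, energy G (surv G B k) := by
    apply Finset.sum_lt_sum_of_nonempty
    · rw [Finset.nonempty_range_iff]; omega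
    · intro k hk
      rw [div_lt_iff₀ htpos]
      exact hcon k (Finset.mem_range.1 hk)
  rw [Finset.sum_const, Finset.card_range, nsmul_eq_mul] at h2
  have h3 : (t : ℝ) * (exitMass G B t / t) = exitMass G B t := by field_simp
  linarith

/-- the core lemma -/
lemma exists_core (hdeg : ∀ x, 0 < G.degree x) (B : Finset V) {t : ℕ} (ht : 0 < t)
    {s : ℝ} (hs : 0 < s) (hs2 : s ≤ 1 / 2) :
    ∃ K ⊆ B, (∀ x, x ∉ K → surv G B t x ≤ s) ∧
      ((bd G K : ℝ) * (s / 2)) ^ 2 * t ≤ 2 * exitMass G B t ^ 2 := by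
  obtain ⟨k, hk, hE⟩ := exists_low_energy G hdeg B ht
  obtain ⟨u, hu1, hu2, hcut⟩ := exists_cut_sq G (surv G B k) (show s / 2 < s by linarith)
  have hPhi := exitMass_nonneg G hdeg B t
  have htpos : (0 : ℝ) < t := by exact_mod_cast ht
  refine ⟨univ.filter fun x => u < surv G B k x, ?_, ?_, ?_⟩
  · intro x hx
    by_contra hxB
    have := (Finset.mem_filter.1 hx).2
    rw [surv_of_notMem G hxB] at this
    linarith
  · intro x hx
    simp only [Finset.mem_filter, Finset.mem_univ, true_and, not_lt] at hx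
    have := surv_antitone G hdeg B x hk.le
    simp only at this
    linarith
  · set T := (adjP G).filter (fun p => surv G B k p.1 < s ∧ s / 2 < surv G B k p.2 ∧
      surv G B k p.1 < surv G B k p.2) with hT
    have hTcard : (T.card : ℝ) ≤ 2 * exitMass G B t := by
      -- compare with one-step exit
      have h1 : (T.card : ℝ) ≤ ∑ p ∈ adjP G, (if p.1 ∈ B then 2 * (1 - surv G B k p.2) else 0) := by
        have h2 : (T.card : ℝ) = ∑ p ∈ adjP G, (if surv G B k p.1 < s ∧ s / 2 < surv G B k p.2 ∧
            surv G B k p.1 < surv G B k p.2 then (1 : ℝ) else 0) := by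
          rw [← Finset.sum_filter, Finset.sum_const, nsmul_eq_mul, mul_one]
        rw [h2, sum_adjP_swap]
        apply Finset.sum_le_sum
        intro p _
        simp only [Prod.fst_swap, Prod.snd_swap]
        have h5 := surv_le_one G hdeg B k p.2
        by_cases hp : surv G B k p.2 < s ∧ s / 2 < surv G B k p.1 ∧
            surv G B k p.2 < surv G B k p.1
        · rw [if_pos hp]
          have hpB : p.1 ∈ B := by
            by_contra hc
            rw [surv_of_notMem G hc] at hp
            linarith [hp.2.1]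
          rw [if_pos hpB]
          linarith [hp.1]
        · rw [if_neg hp]
          split_ifs
          · linarith
          · exact le_rfl
      have h3 : ∑ p ∈ adjP G, (if p.1 ∈ B then 2 * (1 - surv G B k p.2) else 0)
          = 2 * exitMass G B (k + 1) := by
        rw [sum_adjP]
        unfold exitMass
        rw [Finset.mul_sum, ← Finset.sum_filter_add_sum_filter_not univ (fun x => x ∈ B)]
        have h4 : ∑ x with x ∉ B, ∑ y ∈ G.neighborFinset x,
            (if (x, y).1 ∈ B then 2 * (1 - surv G B k (x, y).2) else 0) = 0 := by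
          apply Finset.sum_eq_zero
          intro x hx
          apply Finset.sum_eq_zero
          intro y _
          simp [(Finset.mem_filter.1 hx).2]
        rw [h4, add_zero]
        have h5 : (univ.filter fun x => x ∈ B) = B := by ext; simp
        rw [h5]
        apply Finset.sum_congr rfl
        intro x hx
        simp only [hx, if_true]
        rw [← Finset.mul_sum, Finset.sum_sub_distrib, Finset.sum_const,
          G.card_neighborFinset_eq_degree, nsmul_eq_mul, ← degree_mul_avg]
        rw [surv, if_pos hx]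
        ring
      have h4 := exitMass_mono G hdeg B (show k + 1 ≤ t by omega)
      linarith
    have hEn : 0 ≤ energy G (surv G B k) := by
      unfold energy; positivity
    have h6 : s - s / 2 = s / 2 := by ring
    rw [h6] at hcut
    calc ((bd G (univ.filter fun x => u < surv G B k x) : ℝ) * (s / 2)) ^ 2 * t
        ≤ ((T.card : ℝ) * energy G (surv G B k)) * t :=
          mul_le_mul_of_nonneg_right hcut htpos.le
      _ = (T.card : ℝ) * (energy G (surv G B k) * t) := by ring
      _ ≤ (2 * exitMass G B t) * exitMass G B t := by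
          apply mul_le_mul hTcard hE (mul_nonneg hEn htpos.le) (by linarith)
      _ = 2 * exitMass G B t ^ 2 := by ring

/-- exit lemma for an abstract family `φ T` of superharmonic-in-time functions. -/
lemma exit_lemma (hdeg : ∀ x, 0 < G.degree x) (φ : ℕ → V → ℝ)
    (hmono : ∀ T x, φ T x ≤ φ (T + 1) x) (hstep : ∀ T x, avg G (φ T) x ≤ φ (T + 1) x)
    (hnn : ∀ T x, 0 ≤ φ T x) (B : Finset V) {T : ℕ} {c : ℝ}
    (hB : ∀ y, y ∉ B → c ≤ φ T y) (k : ℕ) (x : V) :
    c * (1 - surv G B k x) ≤ φ (T + k) x := by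
  have hmono' : ∀ j x, φ T x ≤ φ (T + j) x := by
    intro j
    induction j with
    | zero => intro x; simp
    | succ j ih => intro x; exact (ih x).trans (by rw [← add_assoc]; exact hmono _ _)
  induction k generalizing x with
  | zero =>
    by_cases hx : x ∈ B
    · simp only [surv, hx, if_true, sub_self, mul_zero]; exact hnn _ _
    · simp only [surv, hx, if_false, sub_zero, mul_one]; exact hB x hx
  | succ k ih =>
    by_cases hx : x ∈ B
    · rw [surv, if_pos hx, ← add_assoc]
      have h1 : avg G (fun y => c * (1 - surv G B k y)) x ≤ avg G (φ (T + k)) x :=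
        avg_mono G x fun y _ => ih y
      have h2 : avg G (fun y => c * (1 - surv G B k y)) x = c * (1 - avg G (surv G B k) x) := by
        have : (fun y => c * (1 - surv G B k y)) = fun y => (1 - surv G B k y) * c := by
          ext y; ring
        rw [this, avg_mul_const, avg_sub, avg_const G (hdeg x)]; ring
      rw [← h2]
      exact h1.trans (hstep _ _)
    · rw [surv_of_notMem G hx, sub_zero, mul_one]
      exact (hB x hx).trans (hmono' _ x)

/-- iteration to a thick core -/
lemma exists_thick_core (hdeg : ∀ x, 0 < G.degree x) (φ : ℕ → V → ℝ)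
    (hmono : ∀ T x, φ T x ≤ φ (T + 1) x) (hstep : ∀ T x, avg G (φ T) x ≤ φ (T + 1) x)
    (hnn : ∀ T x, 0 ≤ φ T x) (R : Finset V) {T0 : ℕ} {c : ℝ} (hc : 0 ≤ c)
    (hR : ∀ y, y ∉ R → c ≤ φ T0 y) {t J : ℕ} {A : ℝ} (hA : 0 < A) (hJ : 0 < J)
    (ht : 128 * A ^ 2 * J ^ 2 ≤ t) (hbd : bd G R < 2 ^ J) :
    ∃ K ⊆ R, A * bd G K ≤ exitMass G K t ∧ ∀ x, x ∉ K → c / 2 ≤ φ (T0 + J * t) x := by
  have hJr : (1 : ℝ) ≤ J := by exact_mod_cast hJ
  have htpos : 0 < t := by
    have : (0 : ℝ) < 128 * A ^ 2 * J ^ 2 := by positivity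
    have h2 : (0 : ℝ) < t := by linarith
    exact_mod_cast h2
  have htr : (0 : ℝ) < t := by exact_mod_cast htpos
  set s : ℝ := 1 / (2 * J) with hs
  have hs0 : 0 < s := by positivity
  have hs1 : s ≤ 1 / 2 := by
    rw [hs]
    apply one_div_le_one_div_of_le (by norm_num) (by linarith)
  have hmono' : ∀ T j x, φ T x ≤ φ (T + j) x := by
    intro T j
    induction j with
    | zero => intro x; simp
    | succ j ih => intro x; exact (ih x).trans (by rw [← add_assoc]; exact hmono _ _)
  -- induction claim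
  have claim : ∀ i : ℕ, (∃ K ⊆ R, ∃ j ≤ i, A * bd G K ≤ exitMass G K t ∧
        ∀ x, x ∉ K → c * (1 - s) ^ j ≤ φ (T0 + j * t) x) ∨
      (∃ K ⊆ R, bd G K * 2 ^ i ≤ bd G R ∧ ∀ x, x ∉ K → c * (1 - s) ^ i ≤ φ (T0 + i * t) x) := by
    intro i
    induction i with
    | zero =>
      right
      refine ⟨R, Finset.Subset.refl _, by simp, ?_⟩
      intro x hx; simpa using hR x hx
    | succ i ih =>
      rcases ih with ⟨K, hKR, j, hji, hthick, hK⟩ | ⟨K, hKR, hbdK, hK⟩
      · left; exact ⟨K, hKR, j, by omega, hthick, hK⟩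
      · by_cases hthick : A * bd G K ≤ exitMass G K t
        · left; exact ⟨K, hKR, i, by omega, hthick, hK⟩
        · right
          push Not at hthick
          obtain ⟨K', hK'K, hK'surv, hK'bd⟩ := exists_core G hdeg K htpos hs0 hs1
          refine ⟨K', hK'K.trans hKR, ?_, ?_⟩
          · -- bd K' ≤ bd K / 2
            have hPhi := exitMass_nonneg G hdeg K t
            have h1 : ((bd G K' : ℝ) * (s / 2)) ^ 2 * t ≤ 2 * (A * bd G K) ^ 2 := by
              refine hK'bd.trans ?_
              have := pow_le_pow_left₀ hPhi hthick.le 2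
              linarith
            have h2 : (2 * (bd G K' : ℝ)) ^ 2 ≤ (bd G K : ℝ) ^ 2 := by
              have h3 : ((bd G K' : ℝ)) ^ 2 * (s ^ 2 / 4 * t) ≤ 2 * A ^ 2 * (bd G K : ℝ) ^ 2 := by
                calc ((bd G K' : ℝ)) ^ 2 * (s ^ 2 / 4 * t)
                    = ((bd G K' : ℝ) * (s / 2)) ^ 2 * t := by ring
                  _ ≤ 2 * (A * bd G K) ^ 2 := h1
                  _ = _ := by ring
              have h4 : 8 * A ^ 2 ≤ s ^ 2 / 4 * t := by
                have h5 : s ^ 2 / 4 * (128 * A ^ 2 * J ^ 2) ≤ s ^ 2 / 4 * t :=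
                  mul_le_mul_of_nonneg_left ht (by positivity)
                have h6 : s ^ 2 / 4 * (128 * A ^ 2 * J ^ 2) = 8 * A ^ 2 := by
                  rw [hs]; field_simp; ring
                linarith
              have h7 : ((bd G K' : ℝ)) ^ 2 * (8 * A ^ 2) ≤ 2 * A ^ 2 * (bd G K : ℝ) ^ 2 :=
                (mul_le_mul_of_nonneg_left h4 (by positivity)).trans h3
              have h8 : 0 < 2 * A ^ 2 := by positivity
              have h9 : 2 * A ^ 2 * (2 * (bd G K' : ℝ)) ^ 2 ≤ 2 * A ^ 2 * (bd G K : ℝ) ^ 2 := by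
                calc 2 * A ^ 2 * (2 * (bd G K' : ℝ)) ^ 2
                    = ((bd G K' : ℝ)) ^ 2 * (8 * A ^ 2) := by ring
                  _ ≤ _ := h7
              exact le_of_mul_le_mul_left h9 h8
            have h3 : 2 * (bd G K' : ℝ) ≤ bd G K :=
              le_of_sq_le_sq h2 (Nat.cast_nonneg _)
            have h4 : 2 * bd G K' ≤ bd G K := by exact_mod_cast h3
            calc bd G K' * 2 ^ (i + 1) = 2 * bd G K' * 2 ^ i := by ring
              _ ≤ bd G K * 2 ^ i := Nat.mul_le_mul_right _ h4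
              _ ≤ bd G R := hbdK
          · intro x hx
            have h1 := exit_lemma G hdeg φ hmono hstep hnn K hK t x
            have h2 := hK'surv x hx
            have h3 : T0 + i * t + t = T0 + (i + 1) * t := by ring
            rw [h3] at h1
            refine le_trans ?_ h1
            have h4 : 1 - s ≤ 1 - surv G K t x := by linarith
            calc c * (1 - s) ^ (i + 1) = c * (1 - s) ^ i * (1 - s) := by ring
              _ ≤ _ := mul_le_mul_of_nonneg_left h4
                  (mul_nonneg hc (pow_nonneg (by linarith) i))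
  have hpow : ∀ j ≤ J, (1 : ℝ) / 2 ≤ (1 - s) ^ j := by
    intro j hj
    have h1 : 1 + (j : ℝ) * (-s) ≤ (1 + (-s)) ^ j := one_add_mul_le_pow (by linarith) j
    have h2 : (j : ℝ) * s ≤ 1 / 2 := by
      have hjr : (j : ℝ) ≤ J := by exact_mod_cast hj
      calc (j : ℝ) * s ≤ J * s := mul_le_mul_of_nonneg_right hjr hs0.le
        _ = 1 / 2 := by rw [hs]; field_simp
    have h3 : (1 - s) ^ j = (1 + (-s)) ^ j := by ring
    rw [h3]; linarith
  have hfin : ∀ K : Finset V, ∀ j ≤ J, (∀ x, x ∉ K → c * (1 - s) ^ j ≤ φ (T0 + j * t) x) →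
      ∀ x, x ∉ K → c / 2 ≤ φ (T0 + J * t) x := by
    intro K j hj hK x hx
    have h1 := hK x hx
    have h2 : φ (T0 + j * t) x ≤ φ (T0 + J * t) x := by
      obtain ⟨e, rfl⟩ := Nat.exists_eq_add_of_le hj
      have h3 : T0 + (j + e) * t = T0 + j * t + e * t := by ring
      rw [h3]; exact hmono' _ _ x
    have h3 := hpow j hj
    have h4 : c * (1 / 2) ≤ c * (1 - s) ^ j := mul_le_mul_of_nonneg_left h3 hc
    linarith
  rcases claim J with ⟨K, hKR, j, hjJ, hthick, hK⟩ | ⟨K, hKR, hbdK, hK⟩
  · exact ⟨K, hKR, hthick, hfin K j hjJ hK⟩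
  · have hb0 : bd G K = 0 := by
      by_contra hne
      have h1 : 1 ≤ bd G K := Nat.one_le_iff_ne_zero.2 hne
      have h2 : 2 ^ J ≤ bd G K * 2 ^ J := Nat.le_mul_of_pos_left _ h1
      omega
    refine ⟨K, hKR, ?_, hfin K J le_rfl hK⟩
    rw [hb0]
    simpa using exitMass_nonneg G hdeg K t

end Pool.Agent.helper98.Frog
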