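import Pool.Agent.helper98.FrogGreen

set_option autoImplicit false
set_option linter.unusedSectionVars false

open Finset

namespace Pool.Agent.helper98.Frog

variable {V : Type*} [Fintype V] [DecidableEq V] (G : SimpleGraph V) [DecidableRel G.Adj]

/-- expectation of `Θ (S ∪ {x_0, ..., x_T})` for the simple random walk started at `x`. -/
noncomputable def rangeE (Θ : Finset V → ℝ) : ℕ → V → Finset V → ℝ
  | 0, x, S => Θ (insert x S)
  | T + 1, x, S => avg G (fun y => rangeE Θ T y (insert x S)) x

lemma rangeE_insert_self (Θ : Finset V → ℝ) (T : ℕ) (x : V) (S : Finset V) :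
    rangeE G Θ T x (insert x S) = rangeE G Θ T x S := by
  cases T <;> simp [rangeE]

lemma rangeE_le_of_le {Θ Θ' : Finset V → ℝ} (h : ∀ S, Θ S ≤ Θ' S) (T : ℕ) (x : V)
    (S : Finset V) : rangeE G Θ T x S ≤ rangeE G Θ' T x S := by
  induction T generalizing x S with
  | zero => exact h _
  | succ T ih => exact avg_mono G x fun y _ => ih y _

lemma rangeE_const (hdeg : ∀ x, 0 < G.degree x) (c : ℝ) (T : ℕ) (x : V) (S : Finset V) :
    rangeE G (fun _ => c) T x S = c := by
  induction T generalizing x S with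
  | zero => rfl
  | succ T ih =>
    rw [rangeE]
    have : (fun y => rangeE G (fun _ => c) T y (insert x S)) = fun _ => c := by
      ext y; exact ih y _
    rw [this, avg_const G (hdeg x)]

lemma rangeE_sub (Θ Θ' : Finset V → ℝ) (T : ℕ) (x : V) (S : Finset V) :
    rangeE G (fun S => Θ S - Θ' S) T x S = rangeE G Θ T x S - rangeE G Θ' T x S := by
  induction T generalizing x S with
  | zero => rfl
  | succ T ih =>
    rw [rangeE, rangeE, rangeE, ← avg_sub]
    congr 1
    ext y; exact ih y _

lemma rangeE_mono_set {Θ : Finset V → ℝ} (h : Monotone Θ) (T : ℕ) (x : V) {S S' : Finset V}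
    (hS : S ⊆ S') : rangeE G Θ T x S ≤ rangeE G Θ T x S' := by
  induction T generalizing x S S' with
  | zero => exact h (Finset.insert_subset_insert x hS)
  | succ T ih => exact avg_mono G x fun y _ => ih y (Finset.insert_subset_insert x hS)

lemma rangeE_mono_time (hdeg : ∀ x, 0 < G.degree x) {Θ : Finset V → ℝ} (h : Monotone Θ)
    (T : ℕ) (x : V) (S : Finset V) : rangeE G Θ T x S ≤ rangeE G Θ (T + 1) x S := by
  induction T generalizing x S with
  | zero =>
    rw [rangeE, rangeE]
    calc Θ (insert x S) = avg G (fun _ => Θ (insert x S)) x := (avg_const G (hdeg x) _).symm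
      _ ≤ _ := avg_mono G x fun y _ => by
        rw [rangeE]
        exact h (Finset.subset_insert _ _)
  | succ T ih =>
    rw [rangeE, rangeE]
    exact avg_mono G x fun y _ => ih y _

lemma rangeE_mono_time' (hdeg : ∀ x, 0 < G.degree x) {Θ : Finset V → ℝ} (h : Monotone Θ)
    {T T' : ℕ} (hT : T ≤ T') (x : V) (S : Finset V) :
    rangeE G Θ T x S ≤ rangeE G Θ T' x S :=
  monotone_nat_of_le_succ (f := fun T => rangeE G Θ T x S)
    (fun T => rangeE_mono_time G hdeg h T x S) hT

lemma rangeE_step {Θ : Finset V → ℝ} (h : Monotone Θ)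
    (T : ℕ) (x : V) (S : Finset V) :
    avg G (fun y => rangeE G Θ T y S) x ≤ rangeE G Θ (T + 1) x S := by
  rw [rangeE]
  exact avg_mono G x fun y _ => rangeE_mono_set G h T y (Finset.subset_insert _ _)

lemma rangeE_nonneg {Θ : Finset V → ℝ} (h : ∀ S, 0 ≤ Θ S) (T : ℕ) (x : V) (S : Finset V) :
    0 ≤ rangeE G Θ T x S := by
  induction T generalizing x S with
  | zero => exact h _
  | succ T ih => exact avg_nonneg G (fun y => ih y _) x

lemma rangeE_le_one (hdeg : ∀ x, 0 < G.degree x) {Θ : Finset V → ℝ} (h : ∀ S, Θ S ≤ 1)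
    (T : ℕ) (x : V) (S : Finset V) : rangeE G Θ T x S ≤ 1 := by
  rw [← rangeE_const G hdeg 1 T x S]
  exact rangeE_le_of_le G h T x S

/-- indicator of hitting `w` -/
noncomputable def hitΘ (w : V) : Finset V → ℝ := fun S => if w ∈ S then 1 else 0

lemma rangeE_hit (hdeg : ∀ x, 0 < G.degree x) (w : V) (T : ℕ) (x : V) (S : Finset V) :
    rangeE G (hitΘ w) T x S = if w ∈ S then 1 else hit G w T x := by
  induction T generalizing x S with
  | zero =>
    simp only [rangeE, hitΘ, hit, Finset.mem_insert]
    by_cases h : w ∈ S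
    · simp [h]
    · by_cases h2 : w = x
      · subst h2; simp
      · have h3 : ¬ x = w := fun h => h2 h.symm
        simp [h, h2, h3]
  | succ T ih =>
    rw [rangeE]
    have h1 : (fun y => rangeE G (hitΘ w) T y (insert x S))
        = fun y => if w ∈ insert x S then 1 else hit G w T y := by
      ext y; exact ih y _
    rw [h1]
    by_cases h : w ∈ S
    · have : w ∈ insert x S := Finset.mem_insert_of_mem h
      simp only [this, if_true, h]
      exact avg_const G (hdeg x) 1
    · by_cases h2 : w = x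
      · subst h2
        simp only [Finset.mem_insert_self, if_true, h, if_false, hit]
        exact avg_const G (hdeg w) 1
      · have h3 : ¬ x = w := fun h => h2 h.symm
        have h4 : w ∉ insert x S := by
          rw [Finset.mem_insert]; push Not; exact ⟨h2, h⟩
        simp only [h4, if_false, h, hit, h3]

/-- indicator of having seen at least `m` points outside `R` -/
noncomputable def freshΘ (m : ℕ) (R : Finset V) : Finset V → ℝ :=
  fun S => if m ≤ (S \ R).card then 1 else 0

lemma freshΘ_mono (m : ℕ) (R : Finset V) : Monotone (freshΘ m R) := by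
  intro S S' h
  unfold freshΘ
  have h1 : (S \ R).card ≤ (S' \ R).card := Finset.card_le_card (Finset.sdiff_subset_sdiff h (le_refl R))
  split_ifs with h2 h3
  · exact le_rfl
  · omega
  · norm_num
  · exact le_rfl

lemma freshΘ_nonneg (m : ℕ) (R : Finset V) (S : Finset V) : 0 ≤ freshΘ m R S := by
  unfold freshΘ; split_ifs <;> norm_num

lemma freshΘ_le_one (m : ℕ) (R : Finset V) (S : Finset V) : freshΘ m R S ≤ 1 := by
  unfold freshΘ; split_ifs <;> norm_num

lemma freshΘ_anti (m : ℕ) {R R' : Finset V} (h : R ⊆ R') (S : Finset V) :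
    freshΘ m R' S ≤ freshΘ m R S := by
  unfold freshΘ
  have h1 : (S \ R').card ≤ (S \ R).card := Finset.card_le_card (Finset.sdiff_subset_sdiff (le_refl S) h)
  split_ifs with h2 h3
  · exact le_rfl
  · omega
  · norm_num
  · exact le_rfl

/-- starting outside a saturated set `R`, the walk sees at least `m` points outside `R`. -/
lemma fresh_outside (hG : G.Connected) (hdeg : ∀ x, 0 < G.degree x) {D : ℕ}
    (hD : ∀ x, G.degree x ≤ D) {L : ℕ} (hcard : 2 * D * (L + 1) ≤ Fintype.card V)
    (R : Finset V) {κ η : ℝ} {m : ℕ} (hsat : ∀ x, x ∉ R → ∑ v ∈ R, hit G x L v ≤ κ)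
    (hη0 : 0 ≤ η)
    (hη : (D * κ + m) * (D * Real.sqrt (8 * (L + 1))) ≤ η * (L + 1))
    (j : ℕ) (x : V) (S : Finset V) (hx : x ∉ R) (hj : m ≤ (insert x S \ R).card + j) :
    1 - j * η ≤ rangeE G (freshΘ m R) (j * L) x S := by
  induction j generalizing x S with
  | zero =>
    have h1 : m ≤ (insert x S \ R).card := by simpa using hj
    simp [rangeE, freshΘ, h1]
  | succ j ih =>
    by_cases hm : m ≤ (insert x S \ R).card
    · have h1 : (1 : ℝ) ≤ rangeE G (freshΘ m R) ((j + 1) * L) x S := by
        refine le_trans ?_ (rangeE_mono_time' G hdeg (freshΘ_mono m R) (Nat.zero_le _) x S)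
        simp [rangeE, freshΘ, hm]
      have h2 : 0 ≤ ((j + 1 : ℕ) : ℝ) * η := by positivity
      linarith
    · push Not at hm
      set S' := insert x S with hS'
      set D' := S' \ R with hD'
      have hL : (0 : ℝ) < L + 1 := by positivity
      have hsurv : surv G (R ∪ D') L x ≤ η := by
        have h1 := surv_union_le G hG hdeg hD hcard R D' x (hsat x hx)
        have h2 : (D * κ + D'.card) * (D * Real.sqrt (8 * (L + 1)))
            ≤ (D * κ + m) * (D * Real.sqrt (8 * (L + 1))) := by
          apply mul_le_mul_of_nonneg_right _ (by positivity)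
          have : (D'.card : ℝ) ≤ m := by exact_mod_cast hm.le
          linarith
        have h3 : surv G (R ∪ D') L x * (L + 1) ≤ η * (L + 1) := h1.trans (h2.trans hη)
        exact le_of_mul_le_mul_right h3 hL
      have hB : ∀ y, y ∉ R ∪ D' → 1 - j * η ≤ rangeE G (freshΘ m R) (j * L) y S' := by
        intro y hy
        rw [Finset.mem_union] at hy
        push Not at hy
        apply ih y S' hy.1
        have h1 : y ∉ S' := by
          intro hyS
          exact hy.2 (Finset.mem_sdiff.2 ⟨hyS, hy.1⟩)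
        have h2 : insert y S' \ R = insert y (S' \ R) := Finset.insert_sdiff_of_notMem _ hy.1
        rw [h2, Finset.card_insert_of_notMem hy.2]
        omega
      have h4 := exit_lemma G hdeg (fun T x => rangeE G (freshΘ m R) T x S')
        (fun T x => rangeE_mono_time G hdeg (freshΘ_mono m R) T x S')
        (fun T x => rangeE_step G (freshΘ_mono m R) T x S')
        (fun T x => rangeE_nonneg G (freshΘ_nonneg m R) T x S')
        (R ∪ D') hB L x
      rw [hS', rangeE_insert_self] at h4
      have h5 : j * L + L = (j + 1) * L := by ring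
      rw [h5] at h4
      refine le_trans ?_ h4
      have h6 := surv_nonneg G (R ∪ D') L x
      push_cast
      by_cases h7 : 0 ≤ 1 - (j : ℝ) * η
      · have h8 : (1 - (j : ℝ) * η) * (1 - η) ≤ (1 - j * η) * (1 - surv G (R ∪ D') L x) :=
          mul_le_mul_of_nonneg_left (by linarith) h7
        have h9 : 0 ≤ (j : ℝ) * η * η := by positivity
        nlinarith
      · push Not at h7
        nlinarith

/-- combined statement: a saturated proper set has a thick core -/
lemma exists_good_core (hG : G.Connected) (hdeg : ∀ x, 0 < G.degree x) {D : ℕ}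
    (hD : ∀ x, G.degree x ≤ D) {L : ℕ} (hcard : 2 * D * (L + 1) ≤ Fintype.card V)
    (R : Finset V) {κ : ℝ} {m : ℕ} (hm : 0 < m)
    (hsat : ∀ x, x ∉ R → ∑ v ∈ R, hit G x L v ≤ κ)
    (hη : (D * κ + m) * (D * Real.sqrt (8 * (L + 1))) ≤ 1 / (2 * m) * (L + 1))
    {t J : ℕ} {A : ℝ} (hA : 0 < A) (hJ : 0 < J)
    (ht : 128 * A ^ 2 * J ^ 2 ≤ t) (hbd : bd G R < 2 ^ J) :
    ∃ K ⊆ R, A * bd G K ≤ exitMass G K t ∧
      ∀ z, (1 - surv G K t z) / 4 ≤ rangeE G (freshΘ m R) (m * L + J * t + t) z ∅ := by
  have hmr : (0 : ℝ) < m := by exact_mod_cast hm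
  set φ : ℕ → V → ℝ := fun T x => rangeE G (freshΘ m R) T x ∅ with hφ
  have hmono : ∀ T x, φ T x ≤ φ (T + 1) x :=
    fun T x => rangeE_mono_time G hdeg (freshΘ_mono m R) T x ∅
  have hstep : ∀ T x, avg G (φ T) x ≤ φ (T + 1) x :=
    fun T x => rangeE_step G (freshΘ_mono m R) T x ∅
  have hnn : ∀ T x, 0 ≤ φ T x :=
    fun T x => rangeE_nonneg G (freshΘ_nonneg m R) T x ∅
  have hout : ∀ y, y ∉ R → (1 : ℝ) / 2 ≤ φ (m * L) y := by
    intro y hy
    have h1 := fresh_outside G hG hdeg hD hcard R hsat (by positivity) hη m y ∅ hy (by omega)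
    have h2 : (1 : ℝ) - m * (1 / (2 * m)) = 1 / 2 := by field_simp; ring
    rw [h2] at h1
    exact h1
  obtain ⟨K, hKR, hthick, hK⟩ := exists_thick_core G hdeg φ hmono hstep hnn R
    (by norm_num : (0 : ℝ) ≤ 1 / 2) hout hA hJ ht hbd
  refine ⟨K, hKR, hthick, ?_⟩
  intro z
  have h1 := exit_lemma G hdeg φ hmono hstep hnn K hK t z
  have h2 : (1 : ℝ) / 2 / 2 * (1 - surv G K t z) = (1 - surv G K t z) / 4 := by ring
  rw [h2] at h1
  exact h1

end Pool.Agent.helper98.Frog
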