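import Pool.Agent.helper98.FrogLimit
import Pool.Agent.helper98.FrogDefs

set_option autoImplicit false
set_option linter.unusedSectionVars false

open Finset MeasureTheory ProbabilityTheory Filter Topology
open scoped ENNReal NNReal

namespace Pool.Agent.helper98.Frog

variable {V : Type*} [Fintype V] [DecidableEq V] (G : SimpleGraph V) [DecidableRel G.Adj]

/-- real path weight -/
noncomputable def pathWt (L : ℕ) (v : V) (p : Fin (L + 1) → V) : ℝ :=
  if p 0 = v then
    ∏ i : Fin L, (if G.Adj (p i.castSucc) (p i.succ) then ((G.degree (p i.castSucc) : ℝ))⁻¹ else 0)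
  else 0

lemma sum_pathWt (Θ : Finset V → ℝ) (L : ℕ) (v : V) (S : Finset V) :
    ∑ p : Fin (L + 1) → V, pathWt G L v p * Θ (S ∪ univ.image p) = rangeE G Θ L v S := by
  induction L generalizing v S with
  | zero =>
    rw [rangeE]
    rw [Finset.sum_eq_single (fun _ => v)]
    · simp only [pathWt, if_true, Finset.univ_eq_empty, Finset.prod_empty, one_mul]
      congr 1
      ext u
      simp only [Finset.mem_union, Finset.mem_image, Finset.mem_univ, true_and,
        Finset.mem_insert]
      constructor
      · rintro (h | ⟨_, h⟩)
        · right; exact h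
        · left; exact h.symm
      · rintro (h | h)
        · right; exact ⟨0, h.symm⟩
        · left; exact h
    · intro p _ hp
      have : p 0 ≠ v := by
        intro h
        apply hp
        ext i
        have : i = 0 := Fin.ext (by have := i.isLt; simp)
        rw [this, h]
      simp [pathWt, this]
    · intro h; exact absurd (Finset.mem_univ _) h
  | succ L ih =>
    rw [← (Fin.consEquiv (fun _ : Fin (L + 2) => V)).sum_comp, Fintype.sum_prod_type]
    rw [Finset.sum_eq_single v]
    · -- main part
      have h1 : ∀ q : Fin (L + 1) → V,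
          pathWt G (L + 1) v (Fin.consEquiv (fun _ : Fin (L + 2) => V) (v, q)) *
            Θ (S ∪ univ.image (Fin.consEquiv (fun _ : Fin (L + 2) => V) (v, q)))
          = ∑ b ∈ G.neighborFinset v, ((G.degree v : ℝ))⁻¹ *
            (pathWt G L b q * Θ (insert v S ∪ univ.image q)) := by
        intro q
        have hcons : Fin.consEquiv (fun _ : Fin (L + 2) => V) (v, q)
            = (Fin.cons v q : Fin (L + 2) → V) := rfl
        rw [hcons]
        have himg : S ∪ univ.image (Fin.cons v q : Fin (L + 2) → V)
            = insert v S ∪ univ.image q := by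
          ext u
          simp only [Finset.mem_union, Finset.mem_image, Finset.mem_univ, true_and,
            Finset.mem_insert, Fin.exists_fin_succ, Fin.cons_zero, Fin.cons_succ]
          constructor
          · rintro (h | h | h)
            · left; right; exact h
            · left; left; exact h.symm
            · right; exact h
          · rintro ((h | h) | h)
            · right; left; exact h.symm
            · left; exact h
            · right; right; exact h
        rw [himg]
        have hw : pathWt G (L + 1) v (Fin.cons v q : Fin (L + 2) → V)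
            = (if G.Adj v (q 0) then ((G.degree v : ℝ))⁻¹ else 0) *
              ∏ i : Fin L, (if G.Adj (q i.castSucc) (q i.succ) then
                ((G.degree (q i.castSucc) : ℝ))⁻¹ else 0) := by
          unfold pathWt
          rw [Fin.cons_zero, if_pos rfl, Fin.prod_univ_succ]
          congr 1
        rw [hw]
        have h2 : ∀ b ∈ G.neighborFinset v, ((G.degree v : ℝ))⁻¹ *
            (pathWt G L b q * Θ (insert v S ∪ univ.image q))
            = if b = q 0 then ((G.degree v : ℝ))⁻¹ *
              ((∏ i : Fin L, (if G.Adj (q i.castSucc) (q i.succ) then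
                ((G.degree (q i.castSucc) : ℝ))⁻¹ else 0)) * Θ (insert v S ∪ univ.image q))
              else 0 := by
          intro b _
          unfold pathWt
          by_cases hb : q 0 = b
          · rw [if_pos hb, if_pos hb.symm]
          · rw [if_neg hb, if_neg (fun h => hb h.symm)]; ring
        rw [Finset.sum_congr rfl h2, Finset.sum_ite_eq']
        simp only [SimpleGraph.mem_neighborFinset]
        split_ifs <;> ring
      have h3 : ∑ q : Fin (L + 1) → V,
          pathWt G (L + 1) v (Fin.consEquiv (fun _ : Fin (L + 2) => V) (v, q)) *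
            Θ (S ∪ univ.image (Fin.consEquiv (fun _ : Fin (L + 2) => V) (v, q)))
          = ∑ q : Fin (L + 1) → V, ∑ b ∈ G.neighborFinset v, ((G.degree v : ℝ))⁻¹ *
            (pathWt G L b q * Θ (insert v S ∪ univ.image q)) :=
        Finset.sum_congr rfl fun q _ => h1 q
      rw [h3, Finset.sum_comm, rangeE, avg, Finset.sum_div]
      apply Finset.sum_congr rfl
      intro b _
      rw [← Finset.mul_sum, ih]
      field_simp
    · intro a _ ha
      apply Finset.sum_eq_zero
      intro q _
      have : pathWt G (L + 1) v (Fin.consEquiv (fun _ : Fin (L + 2) => V) (a, q)) = 0 := by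
        have hcons : Fin.consEquiv (fun _ : Fin (L + 2) => V) (a, q)
            = (Fin.cons a q : Fin (L + 2) → V) := rfl
        rw [hcons]
        unfold pathWt
        rw [Fin.cons_zero, if_neg ha]
      rw [this, zero_mul]
    · intro h; exact absurd (Finset.mem_univ _) h

/-- range of the first `L` steps -/
def rng (L : ℕ) (x : ℕ → V) : Finset V := (range (L + 1)).image x

lemma mem_rng {L : ℕ} {x : ℕ → V} {u : V} : u ∈ rng L x ↔ ∃ t ≤ L, x t = u := by
  unfold rng
  simp only [Finset.mem_image, Finset.mem_range, Nat.lt_succ_iff]

lemma rng_eq_image (L : ℕ) (x : ℕ → V) :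
    rng L x = univ.image (fun i : Fin (L + 1) => x i) := by
  ext u
  rw [mem_rng]
  simp only [Finset.mem_image, Finset.mem_univ, true_and]
  constructor
  · rintro ⟨t, ht, h⟩; exact ⟨⟨t, by omega⟩, h⟩
  · rintro ⟨i, h⟩; exact ⟨i, by omega, h⟩

variable {G}
variable {Ω : Type*} [MeasurableSpace Ω] [MeasurableSpace V] [DiscreteMeasurableSpace V]

lemma IsSRW.path_prob {v : V} {P : Measure Ω} {W : Ω → ℕ → V} (h : IsSRW G v P W) (L : ℕ)
    (p : Fin (L + 1) → V) :
    P.real {ω | (fun i : Fin (L + 1) => W ω i) = p} = pathWt G L v p := by
  set x : ℕ → V := fun i => if hi : i < L + 1 then p ⟨i, hi⟩ else v with hx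
  have h1 : {ω | (fun i : Fin (L + 1) => W ω i) = p} = {ω | ∀ i ≤ L, W ω i = x i} := by
    ext ω
    simp only [Set.mem_ofPred_eq]
    constructor
    · intro hω i hi
      have hi' : i < L + 1 := by omega
      rw [hx]; simp only [hi', dif_pos]
      rw [← hω]
    · intro hω
      ext i
      have := hω i (by omega)
      rw [this, hx]
      simp only [i.isLt, dif_pos]
  rw [h1, measureReal_def, h.law L x]
  have hx0 : x 0 = p 0 := by rw [hx]; simp
  unfold pathWt
  rw [hx0]
  by_cases hp : p 0 = v
  · rw [if_pos hp, if_pos hp, ENNReal.toReal_prod, Finset.prod_range]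
    apply Finset.prod_congr rfl
    intro i _
    have hxi : x i = p i.castSucc := by
      rw [hx]
      have : (i : ℕ) < L + 1 := by omega
      simp only [this, dif_pos]
      rfl
    have hxi1 : x (i + 1) = p i.succ := by
      rw [hx]
      have : (i : ℕ) + 1 < L + 1 := by omega
      simp only [this, dif_pos]
      rfl
    rw [hxi, hxi1]
    split_ifs <;> simp
  · rw [if_neg hp, if_neg hp]; simp

lemma measurable_walk_apply {W : Ω → ℕ → V} (hW : Measurable W) (t : ℕ) :
    Measurable fun ω => W ω t := (measurable_pi_apply t).comp hW

lemma measurable_pre {W : Ω → ℕ → V} (hW : Measurable W) (L : ℕ) :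
    Measurable fun ω => (fun i : Fin (L + 1) => W ω i) :=
  measurable_pi_lambda _ fun i => measurable_walk_apply hW i

lemma IsSRW.range_prob {v : V} {P : Measure Ω} [IsProbabilityMeasure P] {W : Ω → ℕ → V}
    (h : IsSRW G v P W) (L : ℕ) (q : Finset V → Prop) [DecidablePred q] :
    P.real {ω | q (rng L (W ω))} = rangeE G (fun S => if q S then 1 else 0) L v ∅ := by
  rw [← sum_pathWt]
  have h1 : {ω | q (rng L (W ω))} = ⋃ p ∈ (univ : Finset (Fin (L + 1) → V)).filter
      (fun p => q (univ.image p)), {ω | (fun i : Fin (L + 1) => W ω i) = p} := by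
    ext ω
    simp only [Set.mem_ofPred_eq, Finset.mem_filter, Finset.mem_univ, true_and, Set.mem_iUnion,
      exists_prop]
    rw [rng_eq_image]
    constructor
    · intro hq; exact ⟨_, hq, rfl⟩
    · rintro ⟨p, hq, hp⟩; rw [hp]; exact hq
  rw [h1, measureReal_biUnion_finset]
  · rw [Finset.sum_filter]
    apply Finset.sum_congr rfl
    intro p _
    rw [h.path_prob L p, Finset.empty_union]
    split_ifs <;> simp
  · intro p _ p' _ hne
    rw [Function.onFun, Set.disjoint_left]
    intro ω h2 h3
    exact hne (h2.symm.trans h3)
  · intro p _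
    exact measurable_pre h.measurable L (measurableSet_singleton p)

end Pool.Agent.helper98.Frog
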