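import Pool.Agent.helper80.RSV.Base

/-!
# RSV-D1: components of finite groups
-/

namespace Pool.Agent.helper80.RSV

open Function

section D1

variable {H : Type} [Group H]

theorem mem_cj {T : Subgroup H} {h x : H} :
    x ∈ T.map (MulAut.conj h).toMonoidHom ↔ h⁻¹ * x * h ∈ T := by
  rw [Subgroup.mem_map]
  constructor
  · rintro ⟨y, hy, rfl⟩
    have e : h⁻¹ * (MulAut.conj h).toMonoidHom y * h = y := by
      simp [MulAut.conj_apply, mul_assoc]
    rw [e]; exact hy
  · intro hx
    refine ⟨h⁻¹ * x * h, hx, ?_⟩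
    simp [MulAut.conj_apply, mul_assoc]

theorem cj_cj (T : Subgroup H) (h k : H) :
    (T.map (MulAut.conj h).toMonoidHom).map (MulAut.conj k).toMonoidHom =
      T.map (MulAut.conj (k * h)).toMonoidHom := by
  ext x
  rw [mem_cj, mem_cj, mem_cj]
  have e : h⁻¹ * (k⁻¹ * x * k) * h = (k * h)⁻¹ * x * (k * h) := by group
  rw [e]

theorem cj_one (T : Subgroup H) : T.map (MulAut.conj (1 : H)).toMonoidHom = T := by
  ext x
  rw [mem_cj]
  simp

/-- nontrivial subgroups of `N` normalised by `N` -/
def InvN (N K : Subgroup H) : Prop :=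
  K ≤ N ∧ K ≠ ⊥ ∧ ∀ n ∈ N, ∀ k ∈ K, n * k * n⁻¹ ∈ K

theorem InvN.cj {N K : Subgroup H} (hN : N.Normal) (hK : InvN N K) (h : H) :
    InvN N (K.map (MulAut.conj h).toMonoidHom) := by
  obtain ⟨h1, h2, h3⟩ := hK
  refine ⟨?_, ?_, ?_⟩
  · intro x hx
    rw [mem_cj] at hx
    have := hN.conj_mem _ (h1 hx) h
    have e : h * (h⁻¹ * x * h) * h⁻¹ = x := by group
    rwa [e] at this
  · intro hbot
    apply h2
    rw [eq_bot_iff]
    intro x hx
    have : h * x * h⁻¹ ∈ K.map (MulAut.conj h).toMonoidHom := by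
      rw [mem_cj]
      have e : h⁻¹ * (h * x * h⁻¹) * h = x := by group
      rwa [e]
    rw [hbot, Subgroup.mem_bot] at this
    rw [Subgroup.mem_bot]
    have e : x = h⁻¹ * (h * x * h⁻¹) * h := by group
    rw [e, this]; group
  · intro n hn k hk
    rw [mem_cj] at hk ⊢
    have hn' : h⁻¹ * n * h ∈ N := by
      have := hN.conj_mem _ hn h⁻¹
      simpa using this
    have := h3 _ hn' _ hk
    have e : h⁻¹ * n * h * (h⁻¹ * k * h) * (h⁻¹ * n * h)⁻¹ = h⁻¹ * (n * k * n⁻¹) * h := by group
    rwa [e] at this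

theorem InvN.le_normalizer {N K : Subgroup H} (hK : InvN N K) :
    N ≤ Subgroup.normalizer (K : Set H) := by
  intro n hn
  rw [Subgroup.mem_normalizer_iff]
  intro k
  constructor
  · intro hk; exact hK.2.2 n hn k hk
  · intro hk
    have := hK.2.2 n⁻¹ (N.inv_mem hn) _ hk
    have e : n⁻¹ * (n * k * n⁻¹) * n⁻¹⁻¹ = k := by group
    rwa [e] at this

theorem cj_ne_bot {T : Subgroup H} (hT : T ≠ ⊥) (h : H) :
    T.map (MulAut.conj h).toMonoidHom ≠ ⊥ := by
  intro hbot
  apply hT
  rw [eq_bot_iff]
  intro x hx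
  have : h * x * h⁻¹ ∈ T.map (MulAut.conj h).toMonoidHom := by
    rw [mem_cj]
    have e : h⁻¹ * (h * x * h⁻¹) * h = x := by group
    rwa [e]
  rw [hbot, Subgroup.mem_bot] at this
  rw [Subgroup.mem_bot]
  have e : x = h⁻¹ * (h * x * h⁻¹) * h := by group
  rw [e, this]; group

/-- two subgroups of `N` normalised by `N` with trivial intersection commute -/
theorem commute_of_inf {N K L : Subgroup H} (hK : InvN N K) (hL : InvN N L) (h : K ⊓ L = ⊥) :
    ∀ x ∈ K, ∀ y ∈ L, x * y = y * x := by
  intro x hx y hy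
  have h1 : x * y * x⁻¹ * y⁻¹ ∈ K ⊓ L := by
    constructor
    · have := K.mul_mem hx (hK.2.2 y (hL.1 hy) x⁻¹ (K.inv_mem hx))
      have e : x * (y * x⁻¹ * y⁻¹) = x * y * x⁻¹ * y⁻¹ := by group
      rwa [e] at this
    · exact L.mul_mem (hL.2.2 x (hK.1 hx) y hy) (L.inv_mem hy)
  rw [h, Subgroup.mem_bot] at h1
  have e : x * y = (x * y * x⁻¹ * y⁻¹) * (y * x) := by group
  rw [e, h1, one_mul]

theorem commute_of_normal_inf {N L : Subgroup H} (hN : N.Normal) (hL : L.Normal)
    (h : N ⊓ L = ⊥) : ∀ x ∈ N, ∀ y ∈ L, x * y = y * x := by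
  intro x hx y hy
  have h1 : x * y * x⁻¹ * y⁻¹ ∈ N ⊓ L := by
    constructor
    · have := N.mul_mem hx (hN.conj_mem x⁻¹ (N.inv_mem hx) y)
      have e : x * (y * x⁻¹ * y⁻¹) = x * y * x⁻¹ * y⁻¹ := by group
      rwa [e] at this
    · exact L.mul_mem (hL.conj_mem y hy x) (L.inv_mem hy)
  rw [h, Subgroup.mem_bot] at h1
  have e : x * y = (x * y * x⁻¹ * y⁻¹) * (y * x) := by group
  rw [e, h1, one_mul]

/-- minimal members of `InvN`: conjugates are equal or commute -/
theorem dichotomy [Finite H] {N T : Subgroup H} (hN : N.Normal) (hT : InvN N T)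
    (hmin : ∀ K : Subgroup H, InvN N K → K ≤ T → K = T) (h : H) :
    T.map (MulAut.conj h).toMonoidHom = T ∨
      ∀ x ∈ T, ∀ y ∈ T.map (MulAut.conj h).toMonoidHom, x * y = y * x := by
  have hTh := hT.cj hN h
  by_cases hb : T ⊓ T.map (MulAut.conj h).toMonoidHom = ⊥
  · right
    exact commute_of_inf hT hTh hb
  · left
    have hinv : InvN N (T ⊓ T.map (MulAut.conj h).toMonoidHom) := by
      refine ⟨inf_le_left.trans hT.1, hb, ?_⟩
      rintro n hn k ⟨hk1, hk2⟩
      exact ⟨hT.2.2 n hn k hk1, hTh.2.2 n hn k hk2⟩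
    have h1 := hmin _ hinv inf_le_left
    have h2 : T ≤ T.map (MulAut.conj h).toMonoidHom := by
      rw [← h1]
      intro x hx
      rw [h1] at hx
      have : x ∈ T ⊓ T.map (MulAut.conj h).toMonoidHom := by rw [h1]; exact hx
      have h3 := this.2
      rw [h1]
      exact h3
    have hcard : Nat.card (T.map (MulAut.conj h).toMonoidHom) = Nat.card T :=
      (Nat.card_congr (T.equivMapOfInjective _ (MulAut.conj h).injective).toEquiv).symm
    symm
    exact Subgroup.eq_of_le_of_card_ge h2 hcard.le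

theorem iSup_cj_normal (T : Subgroup H) :
    (⨆ h : H, T.map (MulAut.conj h).toMonoidHom).Normal := by
  refine ⟨fun x hx g => ?_⟩
  have key : (⨆ h : H, T.map (MulAut.conj h).toMonoidHom) ≤
      (⨆ h : H, T.map (MulAut.conj h).toMonoidHom).comap (MulAut.conj g).toMonoidHom := by
    apply iSup_le
    intro h
    rw [← Subgroup.map_le_iff_le_comap, cj_cj]
    exact le_iSup (fun h : H => T.map (MulAut.conj h).toMonoidHom) (g * h)
  have := key hx
  rw [Subgroup.mem_comap] at this
  simpa [MulAut.conj_apply] using this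

theorem components_min [Finite H] {N : Subgroup H} (hN : MinNormal N)
    (hna : ¬ AbSub N) :
    ∃ T : Subgroup H, T ≤ N ∧ IsSimpleGroup T ∧ ¬ AbSub T ∧ N ≤ Subgroup.normalizer T ∧
      (∀ x ∈ N, x ∈ (⨆ h : H, T.map (MulAut.conj h).toMonoidHom)) ∧
      ∀ h : H, T.map (MulAut.conj h).toMonoidHom = T ∨
        ∀ x ∈ T, ∀ y ∈ T.map (MulAut.conj h).toMonoidHom, x * y = y * x := by
  obtain ⟨hNn, hNb, hNm⟩ := hN
  have hNinv : InvN N N := ⟨le_rfl, hNb, fun n hn k hk => N.mul_mem (N.mul_mem hn hk) (N.inv_mem hn)⟩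
  obtain ⟨T, hT, hTmin⟩ := exists_minimal_of_wellFoundedLT (InvN N) ⟨N, hNinv⟩
  have hmin : ∀ K : Subgroup H, InvN N K → K ≤ T → K = T :=
    fun K hK hle => le_antisymm hle (hTmin hK hle)
  have hdich := dichotomy hNn hT hmin
  have hTle : T ≤ ⨆ h : H, T.map (MulAut.conj h).toMonoidHom := by
    have := le_iSup (fun h : H => T.map (MulAut.conj h).toMonoidHom) 1
    simpa only [cj_one] using this
  have hsup : (⨆ h : H, T.map (MulAut.conj h).toMonoidHom) = N := by
    apply hNm _ (iSup_cj_normal T)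
    · exact iSup_le fun h => (hT.cj hNn h).1
    · intro hb
      apply hT.2.1
      rw [eq_bot_iff, ← hb]
      exact hTle
  refine ⟨T, hT.1, ?_, ?_, hT.le_normalizer, fun x hx => by rw [hsup]; exact hx, hdich⟩
  · -- simple
    have hnt : Nontrivial T := by
      rw [Subgroup.nontrivial_iff_ne_bot]; exact hT.2.1
    refine { exists_pair_ne := hnt.exists_pair_ne, eq_bot_or_eq_top_of_normal := ?_ }
    intro X hX
    by_cases hXb : X = ⊥
    · left; exact hXb
    · right
      have hX'T : X.map T.subtype ≤ T := by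
        rintro x ⟨y, hy, rfl⟩
        exact y.2
      have hnorm : N ≤ Subgroup.normalizer (X.map T.subtype : Set H) := by
        rw [← hsup]
        apply iSup_le
        intro h
        rcases hdich h with he | hc
        · rw [he]
          intro t ht
          rw [Subgroup.mem_normalizer_iff]
          intro x
          constructor
          · rintro ⟨y, hy, rfl⟩
            exact ⟨⟨t, ht⟩ * y * ⟨t, ht⟩⁻¹, hX.conj_mem y hy _, rfl⟩
          · rintro ⟨y, hy, hyx⟩
            refine ⟨⟨t, ht⟩⁻¹ * y * ⟨t, ht⟩⁻¹⁻¹, hX.conj_mem y hy _, ?_⟩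
            have : (y : H) = t * x * t⁻¹ := hyx
            simp only [map_mul, map_inv, Subgroup.subtype_apply, this]
            group
        · intro t ht
          rw [Subgroup.mem_normalizer_iff]
          have hcm : ∀ z ∈ T, t * z * t⁻¹ = z := by
            intro z hz
            rw [← hc z hz t ht]; group
          intro x
          constructor
          · intro hx
            rw [hcm x (hX'T hx)]
            exact hx
          · intro hx
            have h1 : t * x * t⁻¹ ∈ T := hX'T hx
            have h2 := hcm _ h1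
            have h3 : t * x * t⁻¹ = x := by
              have h4 : x = t⁻¹ * (t * x * t⁻¹) * t := by group
              have h5 : t⁻¹ * (t * x * t⁻¹) * t = t * x * t⁻¹ := by
                conv_lhs => rw [← h2]
                group
              rw [h5] at h4
              exact h4.symm
            rwa [h3] at hx
      have hinv : InvN N (X.map T.subtype) := by
        refine ⟨hX'T.trans hT.1, ?_, ?_⟩
        · intro hb
          apply hXb
          rw [eq_bot_iff]
          intro x hx
          have : (x : H) ∈ X.map T.subtype := ⟨x, hx, rfl⟩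
          rw [hb, Subgroup.mem_bot] at this
          rw [Subgroup.mem_bot]
          exact Subtype.ext this
        · intro n hn k hk
          exact (Subgroup.mem_normalizer_iff.mp (hnorm hn) k).mp hk
      have h1 := hmin _ hinv hX'T
      rw [eq_top_iff]
      rintro ⟨x, hx⟩ -
      have : x ∈ X.map T.subtype := by rw [h1]; exact hx
      obtain ⟨y, hy, hyx⟩ := this
      have : y = ⟨x, hx⟩ := Subtype.ext hyx
      rw [← this]; exact hy
  · -- nonabelian
    intro hab
    apply hna
    have hcent : ∀ h : H, T.map (MulAut.conj h).toMonoidHom ≤ Subgroup.centralizer (N : Set H) := by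
      intro h x hx
      rw [mem_cj] at hx
      have hle : N ≤ Subgroup.centralizer {x} := by
        rw [← hsup]
        apply iSup_le
        intro k y hy
        rw [mem_cj] at hy
        rw [Subgroup.mem_centralizer_iff]
        intro z hz
        rw [Set.mem_singleton_iff] at hz
        subst hz
        -- conjugate by h
        have hx' : h⁻¹ * z * h ∈ T := hx
        have hy' : h⁻¹ * y * h ∈ T.map (MulAut.conj (h⁻¹ * k)).toMonoidHom := by
          rw [mem_cj]
          have e : (h⁻¹ * k)⁻¹ * (h⁻¹ * y * h) * (h⁻¹ * k) = k⁻¹ * y * k := by group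
          rw [e]; exact hy
        have hcomm : (h⁻¹ * z * h) * (h⁻¹ * y * h) = (h⁻¹ * y * h) * (h⁻¹ * z * h) := by
          rcases hdich (h⁻¹ * k) with he | hc
          · rw [he] at hy'
            exact hab _ hx' _ hy'
          · exact hc _ hx' _ hy'
        have e1 : z * y = h * ((h⁻¹ * z * h) * (h⁻¹ * y * h)) * h⁻¹ := by group
        have e2 : y * z = h * ((h⁻¹ * y * h) * (h⁻¹ * z * h)) * h⁻¹ := by group
        rw [e1, e2, hcomm]
      rw [Subgroup.mem_centralizer_iff]
      intro y hy
      have := hle hy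
      rw [Subgroup.mem_centralizer_iff] at this
      exact (this x rfl).symm
    have : N ≤ Subgroup.centralizer (N : Set H) := by
      conv_lhs => rw [← hsup]
      exact iSup_le hcent
    intro x hx y hy
    have h1 := this hx
    rw [Subgroup.mem_centralizer_iff] at h1
    exact (h1 y hy).symm

theorem components [Finite H] : ∃ 𝒯 : Set (Subgroup H),
    (∀ T ∈ 𝒯, IsSimpleGroup T ∧ ¬ AbSub T ∧ T ≤ Snab H ∧ Snab H ≤ Subgroup.normalizer T) ∧
    (∀ T ∈ 𝒯, ∀ T' ∈ 𝒯, T ≠ T' → ∀ x ∈ T, ∀ y ∈ T', x * y = y * x) ∧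
    sSup 𝒯 = Snab H := by
  classical
  choose T hTN hTs hTna hTnorm hTsup hTdich using
    fun (N : Subgroup H) (hN : MinNormal N) (hna : ¬ AbSub N) => components_min hN hna
  let 𝒯 : Set (Subgroup H) := {S | ∃ (N : Subgroup H) (hN : MinNormal N) (hna : ¬ AbSub N) (h : H),
    S = (T N hN hna).map (MulAut.conj h).toMonoidHom}
  have hinN : ∀ (N : Subgroup H) (hN : MinNormal N) (hna : ¬ AbSub N) (h : H),
      (T N hN hna).map (MulAut.conj h).toMonoidHom ≤ N := by
    intro N hN hna h x hx
    rw [mem_cj] at hx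
    have := hN.1.conj_mem _ (hTN N hN hna hx) h
    have e : h * (h⁻¹ * x * h) * h⁻¹ = x := by group
    rwa [e] at this
  have hdisj : ∀ (N N' : Subgroup H), MinNormal N → MinNormal N' → N ≠ N' →
      ∀ x ∈ N, ∀ y ∈ N', x * y = y * x := by
    intro N N' hN hN' hne
    apply commute_of_normal_inf hN.1 hN'.1
    by_contra hb
    have hn : (N ⊓ N').Normal := by
      refine ⟨fun x hx g => ⟨hN.1.conj_mem x hx.1 g, hN'.1.conj_mem x hx.2 g⟩⟩
    have h1 := hN.2.2 _ hn inf_le_left hb
    have h2 := hN'.2.2 _ hn inf_le_right hb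
    exact hne (h1.symm.trans h2)
  refine ⟨𝒯, ?_, ?_, ?_⟩
  · rintro S ⟨N, hN, hna, h, rfl⟩
    have hsimp := hTs N hN hna
    refine ⟨?_, ?_, ?_, ?_⟩
    · have e := (T N hN hna).equivMapOfInjective (MulAut.conj h).toMonoidHom
        (MulAut.conj h).injective
      have : Nontrivial ((T N hN hna).map (MulAut.conj h).toMonoidHom) :=
        e.symm.toEquiv.nontrivial
      exact IsSimpleGroup.isSimpleGroup_of_surjective e.toMonoidHom e.surjective
    · intro hab
      apply hTna N hN hna
      intro x hx y hy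
      have hx' : h * x * h⁻¹ ∈ (T N hN hna).map (MulAut.conj h).toMonoidHom := by
        rw [mem_cj]
        have e : h⁻¹ * (h * x * h⁻¹) * h = x := by group
        rwa [e]
      have hy' : h * y * h⁻¹ ∈ (T N hN hna).map (MulAut.conj h).toMonoidHom := by
        rw [mem_cj]
        have e : h⁻¹ * (h * y * h⁻¹) * h = y := by group
        rwa [e]
      have := hab _ hx' _ hy'
      have e1 : x * y = h⁻¹ * ((h * x * h⁻¹) * (h * y * h⁻¹)) * h := by group
      have e2 : y * x = h⁻¹ * ((h * y * h⁻¹) * (h * x * h⁻¹)) * h := by group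
      rw [e1, e2, this]
    · exact (hinN N hN hna h).trans (le_sSup ⟨hN, hna⟩)
    · apply sSup_le
      rintro N' ⟨hN', hna'⟩
      by_cases hne : N = N'
      · subst hne
        intro n hn
        rw [Subgroup.mem_normalizer_iff]
        have hn' : h⁻¹ * n * h ∈ N := by
          have := hN.1.conj_mem _ hn h⁻¹
          simpa using this
        have h1 := Subgroup.mem_normalizer_iff.mp (hTnorm N hN hna hn')
        intro x
        have h2 := h1 (h⁻¹ * x * h)
        have e : h⁻¹ * n * h * (h⁻¹ * x * h) * (h⁻¹ * n * h)⁻¹ = h⁻¹ * (n * x * n⁻¹) * h := by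
          group
        rw [e] at h2
        show x ∈ (T N hN hna).map (MulAut.conj h).toMonoidHom ↔
          n * x * n⁻¹ ∈ (T N hN hna).map (MulAut.conj h).toMonoidHom
        rw [mem_cj, mem_cj]
        exact h2
      · intro n hn
        rw [Subgroup.mem_normalizer_iff]
        intro x
        have hcm : ∀ z ∈ N, n * z * n⁻¹ = z := by
          intro z hz
          rw [← hdisj N N' hN hN' hne z hz n hn]; group
        constructor
        · intro hx
          rw [hcm x (hinN N hN hna h hx)]
          exact hx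
        · intro hx
          have h1 : n * x * n⁻¹ ∈ N := hinN N hN hna h hx
          have hxN : x ∈ N := by
            have := hN.1.conj_mem _ h1 n⁻¹
            have e : n⁻¹ * (n * x * n⁻¹) * n⁻¹⁻¹ = x := by group
            rwa [e] at this
          rwa [hcm x hxN] at hx
  · rintro S ⟨N, hN, hna, h, rfl⟩ S' ⟨N', hN', hna', h', rfl⟩ hne x hx y hy
    by_cases hNN : N = N'
    · subst hNN
      rw [mem_cj] at hx hy
      have hy' : h⁻¹ * y * h ∈ (T N hN hna).map (MulAut.conj (h⁻¹ * h')).toMonoidHom := by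
        rw [mem_cj]
        have e : (h⁻¹ * h')⁻¹ * (h⁻¹ * y * h) * (h⁻¹ * h') = h'⁻¹ * y * h' := by group
        rw [e]; exact hy
      rcases hTdich N hN hna (h⁻¹ * h') with he | hc
      · exfalso
        apply hne
        conv_lhs => rw [← he]
        rw [cj_cj]
        congr 3
        group
      · have := hc _ hx _ hy'
        have e1 : x * y = h * ((h⁻¹ * x * h) * (h⁻¹ * y * h)) * h⁻¹ := by group
        have e2 : y * x = h * ((h⁻¹ * y * h) * (h⁻¹ * x * h)) * h⁻¹ := by group
        rw [e1, e2, this]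
    · exact hdisj N N' hN hN' hNN x (hinN N hN hna h hx) y (hinN N' hN' hna' h' hy)
  · apply le_antisymm
    · apply sSup_le
      rintro S ⟨N, hN, hna, h, rfl⟩
      exact (hinN N hN hna h).trans (le_sSup ⟨hN, hna⟩)
    · apply sSup_le
      rintro N ⟨hN, hna⟩ x hx
      have h1 := hTsup N hN hna x hx
      have h2 : (⨆ h : H, (T N hN hna).map (MulAut.conj h).toMonoidHom) ≤ sSup 𝒯 :=
        iSup_le fun h => le_sSup ⟨N, hN, hna, h, rfl⟩
      exact h2 h1

end D1

end Pool.Agent.helper80.RSV
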