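import Mathlib

set_option autoImplicit false
set_option linter.unusedSectionVars false

open Finset

namespace Pool.Agent.helper98.Urn

variable {m : ℕ}

/-- total number of balls of a signed configuration on the cycle `Fin (m+3)` -/
def nb (Y : Fin (m + 3) → ℤ) : ℕ := ∑ v, (Y v).natAbs

/-- effect of the selection of a ball at `v` in the signed linear urn with edge signs `σ`
(`σ v` is the sign of the edge `{v, v+1}`) -/
def rg (σ Y : Fin (m + 3) → ℤ) (v : Fin (m + 3)) : Fin (m + 3) → ℤ :=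
  fun u => Y u + (if u = v + 1 then σ v * (Y v).sign else 0)
    + (if u = v - 1 then σ (v - 1) * (Y v).sign else 0)

/-- one-step expectation with random normalization `π ↦ π (1 + lam / N)` -/
noncomputable def op (lam : ℝ) (σ : Fin (m + 3) → ℤ)
    (F : (Fin (m + 3) → ℤ) → ℝ → ℝ) : (Fin (m + 3) → ℤ) → ℝ → ℝ :=
  fun Y p => ∑ v, ((Y v).natAbs : ℝ) / nb Y * F (rg σ Y v) (p * (1 + lam / nb Y))

/-- `T`-step expectation -/
noncomputable def ex (lam : ℝ) (σ : Fin (m + 3) → ℤ) :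
    ℕ → ((Fin (m + 3) → ℤ) → ℝ → ℝ) → (Fin (m + 3) → ℤ) → ℝ → ℝ
  | 0, F => F
  | T + 1, F => op lam σ (ex lam σ T F)

section basic

variable {σ : Fin (m + 3) → ℤ} {lam : ℝ}

lemma one_ne_zero_fin : (1 : Fin (m + 3)) ≠ 0 := by
  intro h
  have := congrArg Fin.val h
  simp at this

lemma add_one_ne (v : Fin (m + 3)) : v + 1 ≠ v := by
  intro h
  simp at h

lemma sub_one_ne (v : Fin (m + 3)) : v - 1 ≠ v := by
  intro h
  have : (1 : Fin (m + 3)) = 0 := by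
    have h2 : v - 1 = v - 0 := by rw [h, sub_zero]
    exact sub_right_injective h2
  exact one_ne_zero_fin (m := m) this

lemma two_ne_zero_fin : (1 : Fin (m + 3)) + 1 ≠ 0 := by
  intro h
  have := congrArg Fin.val h
  simp only [Fin.val_add, Fin.val_one, Fin.val_zero] at this
  rw [Nat.mod_eq_of_lt (by omega)] at this
  omega

lemma add_one_ne_sub_one (v : Fin (m + 3)) : v + 1 ≠ v - 1 := by
  intro h
  have h2 : (1 : Fin (m + 3)) + 1 = 0 := by
    have : v + 1 + 1 = v := by rw [h, sub_add_cancel]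
    have h3 : v + (1 + 1) = v + 0 := by rw [← add_assoc, this, add_zero]
    exact add_left_cancel h3
  exact two_ne_zero_fin h2

lemma rg_self (Y : Fin (m + 3) → ℤ) (v : Fin (m + 3)) : rg σ Y v v = Y v := by
  unfold rg
  rw [if_neg (add_one_ne v).symm, if_neg (sub_one_ne v).symm]; ring

lemma rg_valid {Y : Fin (m + 3) → ℤ} {v : Fin (m + 3)} (h : Y v ≠ 0) : 1 ≤ nb (rg σ Y v) := by
  have h1 : (rg σ Y v v).natAbs ≤ nb (rg σ Y v) :=
    Finset.single_le_sum (f := fun u => (rg σ Y v u).natAbs) (fun _ _ => Nat.zero_le _)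
      (Finset.mem_univ v)
  rw [rg_self] at h1
  have := Int.natAbs_pos.2 h
  omega

lemma weight_nonneg (Y : Fin (m + 3) → ℤ) (v : Fin (m + 3)) :
    0 ≤ ((Y v).natAbs : ℝ) / nb Y := by positivity

lemma sum_weight {Y : Fin (m + 3) → ℤ} (h : 1 ≤ nb Y) :
    ∑ v, ((Y v).natAbs : ℝ) / nb Y = 1 := by
  rw [← Finset.sum_div]
  have h1 : (∑ v, ((Y v).natAbs : ℝ)) = nb Y := by unfold nb; push_cast; rfl
  rw [h1]
  have : (0 : ℝ) < nb Y := by exact_mod_cast h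
  field_simp

lemma op_mono (hlam : 0 ≤ lam) {F G : (Fin (m + 3) → ℤ) → ℝ → ℝ}
    (h : ∀ Y p, 1 ≤ nb Y → 0 < p → F Y p ≤ G Y p) {Y : Fin (m + 3) → ℤ} {p : ℝ}
    (hY : 1 ≤ nb Y) (hp : 0 < p) : op lam σ F Y p ≤ op lam σ G Y p := by
  unfold op
  apply Finset.sum_le_sum
  intro v _
  by_cases hv : Y v = 0
  · simp [hv]
  · apply mul_le_mul_of_nonneg_left _ (weight_nonneg Y v)
    apply h _ _ (rg_valid hv)
    have : (0 : ℝ) < nb Y := by exact_mod_cast hY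
    positivity

lemma op_add (F G : (Fin (m + 3) → ℤ) → ℝ → ℝ) (Y : Fin (m + 3) → ℤ) (p : ℝ) :
    op lam σ (fun Y p => F Y p + G Y p) Y p = op lam σ F Y p + op lam σ G Y p := by
  unfold op
  rw [← Finset.sum_add_distrib]
  apply Finset.sum_congr rfl
  intro v _; ring

lemma op_smul (c : ℝ) (F : (Fin (m + 3) → ℤ) → ℝ → ℝ) (Y : Fin (m + 3) → ℤ) (p : ℝ) :
    op lam σ (fun Y p => c * F Y p) Y p = c * op lam σ F Y p := by
  unfold op
  rw [Finset.mul_sum]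
  apply Finset.sum_congr rfl
  intro v _; ring

lemma op_const (c : ℝ) {Y : Fin (m + 3) → ℤ} (hY : 1 ≤ nb Y) (p : ℝ) :
    op lam σ (fun _ _ => c) Y p = c := by
  unfold op
  rw [← Finset.sum_mul, sum_weight hY, one_mul]

lemma ex_mono (hlam : 0 ≤ lam) {F G : (Fin (m + 3) → ℤ) → ℝ → ℝ}
    (h : ∀ Y p, 1 ≤ nb Y → 0 < p → F Y p ≤ G Y p) (T : ℕ) :
    ∀ (Y : Fin (m + 3) → ℤ) (p : ℝ), 1 ≤ nb Y → 0 < p → ex lam σ T F Y p ≤ ex lam σ T G Y p := by
  induction T with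
  | zero => exact h
  | succ T ih => intro Y p hY hp; exact op_mono hlam ih hY hp

lemma ex_add (F G : (Fin (m + 3) → ℤ) → ℝ → ℝ) (T : ℕ) (Y : Fin (m + 3) → ℤ) (p : ℝ) :
    ex lam σ T (fun Y p => F Y p + G Y p) Y p = ex lam σ T F Y p + ex lam σ T G Y p := by
  induction T generalizing Y p with
  | zero => rfl
  | succ T ih =>
    have : ex lam σ T (fun Y p => F Y p + G Y p)
        = fun Y p => ex lam σ T F Y p + ex lam σ T G Y p := by
      funext Y p; exact ih Y p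
    simp only [ex]
    rw [this, op_add]

lemma ex_smul (c : ℝ) (F : (Fin (m + 3) → ℤ) → ℝ → ℝ) (T : ℕ) (Y : Fin (m + 3) → ℤ) (p : ℝ) :
    ex lam σ T (fun Y p => c * F Y p) Y p = c * ex lam σ T F Y p := by
  induction T generalizing Y p with
  | zero => rfl
  | succ T ih =>
    have : ex lam σ T (fun Y p => c * F Y p) = fun Y p => c * ex lam σ T F Y p := by
      funext Y p; exact ih Y p
    simp only [ex]
    rw [this, op_smul]

lemma ex_const (c : ℝ) (hlam : 0 ≤ lam) (T : ℕ) :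
    ∀ (Y : Fin (m + 3) → ℤ) (p : ℝ), 1 ≤ nb Y → 0 < p → ex lam σ T (fun _ _ => c) Y p = c := by
  induction T with
  | zero => intros; rfl
  | succ T ih =>
    intro Y p hY hp
    simp only [ex]
    apply le_antisymm
    · calc op lam σ (ex lam σ T fun _ _ => c) Y p ≤ op lam σ (fun _ _ => c) Y p :=
          op_mono hlam (fun Y p hY hp => (ih Y p hY hp).le) hY hp
        _ = c := op_const c hY p
    · calc c = op lam σ (fun _ _ => c) Y p := (op_const c hY p).symm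
        _ ≤ op lam σ (ex lam σ T fun _ _ => c) Y p :=
          op_mono hlam (fun Y p hY hp => (ih Y p hY hp).ge) hY hp

/-- iterating at the end -/
lemma ex_succ' (F : (Fin (m + 3) → ℤ) → ℝ → ℝ) (T : ℕ) :
    ex lam σ (T + 1) F = ex lam σ T (op lam σ F) := by
  induction T with
  | zero => rfl
  | succ T ih =>
    have h : ex lam σ (T + 1 + 1) F = op lam σ (ex lam σ (T + 1) F) := rfl
    rw [h, ih]; rfl

lemma ex_of_super (hlam : 0 ≤ lam) {F : (Fin (m + 3) → ℤ) → ℝ → ℝ}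
    (h : ∀ Y p, 1 ≤ nb Y → 0 < p → op lam σ F Y p ≤ F Y p) (T : ℕ) :
    ∀ (Y : Fin (m + 3) → ℤ) (p : ℝ), 1 ≤ nb Y → 0 < p → ex lam σ T F Y p ≤ F Y p := by
  induction T with
  | zero => intros; exact le_refl _
  | succ T ih =>
    intro Y p hY hp
    exact (op_mono hlam ih hY hp).trans (h Y p hY hp)

/-! ### changes of the number of balls -/

lemma sum_ite_eq_fin (w : Fin (m + 3)) (a : ℝ) : ∑ u : Fin (m + 3), (if u = w then a else 0) = a := by
  simp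

lemma nb_rg_le (hσ : ∀ v, σ v = 1 ∨ σ v = -1) (Y : Fin (m + 3) → ℤ) (v : Fin (m + 3)) :
    nb (rg σ Y v) ≤ nb Y + 2 ∧ nb Y ≤ nb (rg σ Y v) + 2 := by
  have hs : ∀ w, (σ w * (Y v).sign).natAbs ≤ 1 := by
    intro w
    rw [Int.natAbs_mul]
    have h1 : (σ w).natAbs = 1 := by rcases hσ w with h | h <;> rw [h] <;> rfl
    have h2 : ((Y v).sign).natAbs ≤ 1 := by
      rcases lt_trichotomy (Y v) 0 with h | h | h
      · rw [Int.sign_eq_neg_one_of_neg h]; decide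
      · rw [h]; decide
      · rw [Int.sign_eq_one_of_pos h]; decide
    rw [h1]; omega
  have hterm : ∀ u, (rg σ Y v u).natAbs ≤ (Y u).natAbs + (if u = v + 1 then 1 else 0)
      + (if u = v - 1 then 1 else 0) ∧
      (Y u).natAbs ≤ (rg σ Y v u).natAbs + (if u = v + 1 then 1 else 0)
      + (if u = v - 1 then 1 else 0) := by
    intro u
    unfold rg
    have h1 := hs v
    have h2 := hs (v - 1)
    split_ifs <;> constructor <;> omega
  have hsum : ∀ w : Fin (m + 3), ∑ u : Fin (m + 3), (if u = w then 1 else 0) = 1 := by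
    intro w; simp
  constructor
  · calc nb (rg σ Y v) ≤ ∑ u, ((Y u).natAbs + (if u = v + 1 then 1 else 0)
      + (if u = v - 1 then 1 else 0)) := Finset.sum_le_sum fun u _ => (hterm u).1
      _ = nb Y + 2 := by
        rw [Finset.sum_add_distrib, Finset.sum_add_distrib, hsum, hsum]; rfl
  · calc nb Y ≤ ∑ u, ((rg σ Y v u).natAbs + (if u = v + 1 then 1 else 0)
      + (if u = v - 1 then 1 else 0)) := Finset.sum_le_sum fun u _ => (hterm u).2
      _ = nb (rg σ Y v) + 2 := by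
        rw [Finset.sum_add_distrib, Finset.sum_add_distrib, hsum, hsum]; rfl

end basic

/-! ### linear functionals -/

section lin

variable {σ : Fin (m + 3) → ℤ} {lam : ℝ}

/-- twisted character: `σ v χ(v+1) = ω χ(v)` -/
structure IsChar (σ : Fin (m + 3) → ℤ) (ω : ℂ) (χ : Fin (m + 3) → ℂ) : Prop where
  sig : ∀ v, σ v = 1 ∨ σ v = -1
  eq : ∀ v, (σ v : ℂ) * χ (v + 1) = ω * χ v
  norm_chi : ∀ v, Complex.normSq (χ v) = 1
  norm_om : Complex.normSq ω = 1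

/-- the functional `∑ Y v χ v` -/
noncomputable def Zf (χ : Fin (m + 3) → ℂ) (Y : Fin (m + 3) → ℤ) : ℂ := ∑ v, (Y v : ℂ) * χ v

lemma Zf_rg {ω : ℂ} {χ : Fin (m + 3) → ℂ} (h : IsChar σ ω χ) (Y : Fin (m + 3) → ℤ)
    (v : Fin (m + 3)) :
    Zf χ (rg σ Y v) = Zf χ Y + (((Y v).sign : ℝ) * (2 * ω.re) : ℝ) * χ v := by
  have h1 : Zf χ (rg σ Y v) = Zf χ Y + ((σ v : ℂ) * ((Y v).sign : ℂ)) * χ (v + 1)
      + ((σ (v - 1) : ℂ) * ((Y v).sign : ℂ)) * χ (v - 1) := by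
    unfold Zf rg
    have : ∀ u, ((Y u + (if u = v + 1 then σ v * (Y v).sign else 0)
        + (if u = v - 1 then σ (v - 1) * (Y v).sign else 0) : ℤ) : ℂ) * χ u
        = (Y u : ℂ) * χ u + (if u = v + 1 then ((σ v : ℂ) * ((Y v).sign : ℂ)) * χ u else 0)
          + (if u = v - 1 then ((σ (v - 1) : ℂ) * ((Y v).sign : ℂ)) * χ u else 0) := by
      intro u
      push_cast
      split_ifs <;> ring
    simp only [this]
    rw [Finset.sum_add_distrib, Finset.sum_add_distrib]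
    simp only [Finset.sum_ite_eq', Finset.mem_univ, if_true]
  rw [h1]
  have h2 := h.eq v
  have h3 := h.eq (v - 1)
  rw [sub_add_cancel] at h3
  -- σ(v-1) χ(v-1) = conj ω χ v
  have hs : ((σ (v - 1) : ℤ) : ℂ) * ((σ (v - 1) : ℤ) : ℂ) = 1 := by
    rcases h.sig (v - 1) with h4 | h4 <;> rw [h4] <;> norm_num
  have hω : (starRingEnd ℂ) ω * ω = 1 := by
    rw [← Complex.normSq_eq_conj_mul_self, h.norm_om]; simp
  have h5 : (σ (v - 1) : ℂ) * χ (v - 1) = (starRingEnd ℂ) ω * χ v := by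
    have h6 : χ v = (σ (v - 1) : ℂ) * (ω * χ (v - 1)) := by
      rw [← h3, ← mul_assoc, hs, one_mul]
    rw [h6]
    calc (σ (v - 1) : ℂ) * χ (v - 1) = ((starRingEnd ℂ) ω * ω) * ((σ (v - 1) : ℂ) * χ (v - 1)) := by
          rw [hω, one_mul]
      _ = _ := by ring
  have h7 : ((2 * ω.re : ℝ) : ℂ) = ω + (starRingEnd ℂ) ω := by
    rw [Complex.add_conj]
  calc Zf χ Y + (σ v : ℂ) * ((Y v).sign : ℂ) * χ (v + 1)
        + (σ (v - 1) : ℂ) * ((Y v).sign : ℂ) * χ (v - 1)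
      = Zf χ Y + ((Y v).sign : ℂ) * ((σ v : ℂ) * χ (v + 1) + (σ (v - 1) : ℂ) * χ (v - 1)) := by ring
    _ = Zf χ Y + ((Y v).sign : ℂ) * ((ω + (starRingEnd ℂ) ω) * χ v) := by rw [h2, h5]; ring
    _ = Zf χ Y + (((Y v).sign : ℝ) * (2 * ω.re) : ℝ) * χ v := by
        rw [← h7]; push_cast; ring

/-- `|Z|²` -/
noncomputable def Z2 (χ : Fin (m + 3) → ℂ) (Y : Fin (m + 3) → ℤ) : ℝ := Complex.normSq (Zf χ Y)

/-- cross term -/
noncomputable def cr (χ : Fin (m + 3) → ℂ) (Y : Fin (m + 3) → ℤ) (v : Fin (m + 3)) : ℝ :=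
  ((Y v).sign : ℝ) * (Zf χ Y * (starRingEnd ℂ) (χ v)).re

lemma sign_sq {a : ℤ} (h : a ≠ 0) : ((a.sign : ℤ) : ℝ) ^ 2 = 1 := by
  rcases lt_or_gt_of_ne h with h | h
  · rw [Int.sign_eq_neg_one_of_neg h]; norm_num
  · rw [Int.sign_eq_one_of_pos h]; norm_num

lemma Z2_rg {ω : ℂ} {χ : Fin (m + 3) → ℂ} (h : IsChar σ ω χ) {Y : Fin (m + 3) → ℤ}
    {v : Fin (m + 3)} (hv : Y v ≠ 0) :
    Z2 χ (rg σ Y v) = Z2 χ Y + 2 * (2 * ω.re) * cr χ Y v + (2 * ω.re) ^ 2 := by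
  unfold Z2 cr
  rw [Zf_rg h, Complex.normSq_add, Complex.normSq_mul, Complex.normSq_ofReal, h.norm_chi]
  have h1 : (starRingEnd ℂ) (((((Y v).sign : ℝ) * (2 * ω.re) : ℝ) : ℂ) * χ v)
      = ((((Y v).sign : ℝ) * (2 * ω.re) : ℝ) : ℂ) * (starRingEnd ℂ) (χ v) := by
    rw [map_mul, Complex.conj_ofReal]
  rw [h1]
  have h2 : (Zf χ Y * (((((Y v).sign : ℝ) * (2 * ω.re) : ℝ) : ℂ) * (starRingEnd ℂ) (χ v))).re
      = (((Y v).sign : ℝ) * (2 * ω.re)) * (Zf χ Y * (starRingEnd ℂ) (χ v)).re := by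
    rw [← mul_assoc, mul_comm (Zf χ Y), mul_assoc, Complex.re_ofReal_mul]
  rw [h2]
  have h3 := sign_sq hv
  have h4 : ((Y v).sign : ℝ) * (2 * ω.re) * (((Y v).sign : ℝ) * (2 * ω.re)) = (2 * ω.re) ^ 2 := by
    calc ((Y v).sign : ℝ) * (2 * ω.re) * (((Y v).sign : ℝ) * (2 * ω.re))
        = ((Y v).sign : ℝ) ^ 2 * (2 * ω.re) ^ 2 := by ring
      _ = (2 * ω.re) ^ 2 := by rw [h3, one_mul]
  rw [h4]; ring

lemma natAbs_mul_sign (a : ℤ) : ((a.natAbs : ℕ) : ℝ) * ((a.sign : ℤ) : ℝ) = a := by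
  rcases lt_trichotomy a 0 with h | h | h
  · rw [Int.sign_eq_neg_one_of_neg h, Nat.cast_natAbs, abs_of_neg h]
    push_cast; ring
  · rw [h]; simp
  · rw [Int.sign_eq_one_of_pos h, Nat.cast_natAbs, abs_of_pos h]
    push_cast; ring

/-- mean of the cross term -/
lemma sum_cr {χ : Fin (m + 3) → ℂ} (Y : Fin (m + 3) → ℤ) :
    ∑ v, ((Y v).natAbs : ℝ) / nb Y * cr χ Y v = Z2 χ Y / nb Y := by
  have h1 : ∀ v, ((Y v).natAbs : ℝ) / nb Y * cr χ Y v
      = ((Y v : ℝ) * (Zf χ Y * (starRingEnd ℂ) (χ v)).re) / nb Y := by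
    intro v
    unfold cr
    rw [div_mul_eq_mul_div, ← mul_assoc, natAbs_mul_sign]
  simp only [h1]
  rw [← Finset.sum_div]
  congr 1
  unfold Z2
  have h2 : ∑ v, (Y v : ℝ) * (Zf χ Y * (starRingEnd ℂ) (χ v)).re
      = (Zf χ Y * (starRingEnd ℂ) (Zf χ Y)).re := by
    conv_rhs => rw [show (starRingEnd ℂ) (Zf χ Y) = ∑ v, (starRingEnd ℂ) ((Y v : ℂ) * χ v) from by
      unfold Zf; rw [map_sum]]
    rw [Finset.mul_sum, Complex.re_sum]
    apply Finset.sum_congr rfl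
    intro v _
    rw [map_mul]
    have : (starRingEnd ℂ) ((Y v : ℤ) : ℂ) = (((Y v : ℝ)) : ℂ) := by
      simp
    rw [this, mul_left_comm, Complex.re_ofReal_mul]
  rw [h2, Complex.mul_conj, Complex.ofReal_re]

lemma cr_sq_le {ω : ℂ} {χ : Fin (m + 3) → ℂ} (h : IsChar σ ω χ) (Y : Fin (m + 3) → ℤ)
    (v : Fin (m + 3)) : cr χ Y v ^ 2 ≤ Z2 χ Y := by
  unfold cr Z2
  have h1 : (Zf χ Y * (starRingEnd ℂ) (χ v)).re ^ 2 ≤ Complex.normSq (Zf χ Y) := by
    have h2 : Complex.normSq (Zf χ Y * (starRingEnd ℂ) (χ v)) = Complex.normSq (Zf χ Y) := by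
      rw [Complex.normSq_mul, Complex.normSq_conj, h.norm_chi, mul_one]
    rw [← h2, Complex.normSq_apply]
    nlinarith [sq_nonneg (Zf χ Y * (starRingEnd ℂ) (χ v)).im]
  by_cases hv : Y v = 0
  · rw [hv]; simp; exact Complex.normSq_nonneg _
  · rw [mul_pow, sign_sq hv, one_mul]; exact h1

lemma Z2_nonneg (χ : Fin (m + 3) → ℂ) (Y : Fin (m + 3) → ℤ) : 0 ≤ Z2 χ Y :=
  Complex.normSq_nonneg _

lemma Z2_le_sq {ω : ℂ} {χ : Fin (m + 3) → ℂ} (h : IsChar σ ω χ) (Y : Fin (m + 3) → ℤ) :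
    Z2 χ Y ≤ (nb Y : ℝ) ^ 2 := by
  have h1 : ‖Zf χ Y‖ ≤ nb Y := by
    unfold Zf
    refine le_trans (norm_sum_le _ _) ?_
    unfold nb
    push_cast
    apply Finset.sum_le_sum
    intro v _
    rw [norm_mul]
    have h2 : ‖χ v‖ = 1 := by
      have h3 := h.norm_chi v
      rw [Complex.normSq_eq_norm_sq] at h3
      have h4 : 0 ≤ ‖χ v‖ := norm_nonneg _
      nlinarith
    rw [h2, mul_one, Complex.norm_intCast]
    rw [Nat.cast_natAbs, Int.cast_abs]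
  unfold Z2
  rw [Complex.normSq_eq_norm_sq]
  exact pow_le_pow_left₀ (norm_nonneg _) h1 2

end lin

end Pool.Agent.helper98.Urn
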