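import Mathlib
import Pool.Agent.helper98.UrnLin

set_option autoImplicit false
set_option linter.unusedSectionVars false

open Finset

namespace Pool.Agent.helper98.Urn

variable {m : ℕ} {σ : Fin (m + 3) → ℤ} {lam : ℝ}

/-- a pointwise bound over the possible transitions bounds the expectation -/
lemma op_le_of {F : (Fin (m + 3) → ℤ) → ℝ → ℝ} {Y : Fin (m + 3) → ℤ} {p : ℝ}
    {f : Fin (m + 3) → ℝ} (h : ∀ v, Y v ≠ 0 → F (rg σ Y v) (p * (1 + lam / nb Y)) ≤ f v) :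
    op lam σ F Y p ≤ ∑ v, ((Y v).natAbs : ℝ) / nb Y * f v := by
  unfold op
  apply Finset.sum_le_sum
  intro v _
  by_cases hv : Y v = 0
  · simp [hv]
  · exact mul_le_mul_of_nonneg_left (h v hv) (weight_nonneg Y v)

lemma le_op_of {F : (Fin (m + 3) → ℤ) → ℝ → ℝ} {Y : Fin (m + 3) → ℤ} {p : ℝ}
    {f : Fin (m + 3) → ℝ} (h : ∀ v, Y v ≠ 0 → f v ≤ F (rg σ Y v) (p * (1 + lam / nb Y))) :
    ∑ v, ((Y v).natAbs : ℝ) / nb Y * f v ≤ op lam σ F Y p := by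
  unfold op
  apply Finset.sum_le_sum
  intro v _
  by_cases hv : Y v = 0
  · simp [hv]
  · exact mul_le_mul_of_nonneg_left (h v hv) (weight_nonneg Y v)

/-- second moment of a mode -/
lemma op_Z2 {ω : ℂ} {χ : Fin (m + 3) → ℂ} (h : IsChar σ ω χ) {Y : Fin (m + 3) → ℤ} {p : ℝ}
    (hY : 1 ≤ nb Y) :
    op lam σ (fun Y p => Z2 χ Y / p ^ 2) Y p
      = (Z2 χ Y * (1 + 2 * (2 * ω.re) / nb Y) + (2 * ω.re) ^ 2) / (p * (1 + lam / nb Y)) ^ 2 := by
  have h1 : op lam σ (fun Y p => Z2 χ Y / p ^ 2) Y p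
      = ∑ v, ((Y v).natAbs : ℝ) / nb Y * ((Z2 χ Y + 2 * (2 * ω.re) * cr χ Y v + (2 * ω.re) ^ 2)
        / (p * (1 + lam / nb Y)) ^ 2) := by
    unfold op
    apply Finset.sum_congr rfl
    intro v _
    by_cases hv : Y v = 0
    · simp [hv]
    · simp only [Z2_rg h hv]
  rw [h1]
  have h2 : ∀ v, ((Y v).natAbs : ℝ) / nb Y * ((Z2 χ Y + 2 * (2 * ω.re) * cr χ Y v
        + (2 * ω.re) ^ 2) / (p * (1 + lam / nb Y)) ^ 2)
      = (((Y v).natAbs : ℝ) / nb Y * (Z2 χ Y + (2 * ω.re) ^ 2)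
        + 2 * (2 * ω.re) * (((Y v).natAbs : ℝ) / nb Y * cr χ Y v))
          / (p * (1 + lam / nb Y)) ^ 2 := by
    intro v; ring
  simp only [h2]
  rw [← Finset.sum_div, Finset.sum_add_distrib, ← Finset.sum_mul, ← Finset.mul_sum,
    sum_weight hY, sum_cr]
  ring

/-- fourth moment of the top mode -/
lemma op_Z4 {ω : ℂ} {χ : Fin (m + 3) → ℂ} (h : IsChar σ ω χ) (hl : 2 * ω.re = lam)
    (hlam0 : 0 ≤ lam) (hlam2 : lam ≤ 2) {Y : Fin (m + 3) → ℤ} {p : ℝ}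
    (hY : 1 ≤ nb Y) (hp : 0 < p) :
    op lam σ (fun Y p => (Z2 χ Y / p ^ 2) ^ 2) Y p
      ≤ (Z2 χ Y / p ^ 2) ^ 2 + 56 * ((Z2 χ Y / p ^ 2) / p ^ 2) + 16 * (nb Y / p ^ 2 / p ^ 2) := by
  set N : ℝ := (nb Y : ℝ) with hN
  have hN1 : 1 ≤ N := by rw [hN]; exact_mod_cast hY
  set a : ℝ := Z2 χ Y with ha
  have ha0 : 0 ≤ a := Z2_nonneg χ Y
  set q : ℝ := p * (1 + lam / N) with hq
  have hq0 : 0 < q := by rw [hq]; positivity
  have hqp : p ≤ q := by
    rw [hq]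
    have : 0 ≤ lam / N := by positivity
    nlinarith
  have h1 : op lam σ (fun Y p => (Z2 χ Y / p ^ 2) ^ 2) Y p
      = ∑ v, ((Y v).natAbs : ℝ) / N * (((a + 2 * lam * cr χ Y v + lam ^ 2) / q ^ 2) ^ 2) := by
    unfold op
    apply Finset.sum_congr rfl
    intro v _
    by_cases hv : Y v = 0
    · simp [hv]
    · simp only [Z2_rg h hv, hl]
      rfl
  have h2 : op lam σ (fun Y p => (Z2 χ Y / p ^ 2) ^ 2) Y p
      ≤ ∑ v, (((Y v).natAbs : ℝ) / N * ((a + lam ^ 2) ^ 2 + 4 * lam ^ 2 * a)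
        + 4 * lam * (a + lam ^ 2) * (((Y v).natAbs : ℝ) / N * cr χ Y v)) / q ^ 4 := by
    rw [h1]
    apply Finset.sum_le_sum
    intro v _
    have h3 := cr_sq_le h Y v
    have hw : 0 ≤ ((Y v).natAbs : ℝ) / N := by positivity
    have h4 : ((Y v).natAbs : ℝ) / N * (((a + 2 * lam * cr χ Y v + lam ^ 2) / q ^ 2) ^ 2)
        = (((Y v).natAbs : ℝ) / N * ((a + lam ^ 2) ^ 2 + 4 * lam ^ 2 * cr χ Y v ^ 2)
        + 4 * lam * (a + lam ^ 2) * (((Y v).natAbs : ℝ) / N * cr χ Y v)) / q ^ 4 := by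
      field_simp; ring
    rw [h4]
    apply div_le_div_of_nonneg_right _ (by positivity)
    have h5 : 4 * lam ^ 2 * cr χ Y v ^ 2 ≤ 4 * lam ^ 2 * a :=
      mul_le_mul_of_nonneg_left h3 (by positivity)
    have h6 := mul_le_mul_of_nonneg_left (add_le_add_right h5 ((a + lam ^ 2) ^ 2)) hw
    linarith
  refine le_trans h2 ?_
  rw [← Finset.sum_div, Finset.sum_add_distrib, ← Finset.sum_mul, ← Finset.mul_sum,
    sum_weight hY, sum_cr, one_mul]
  have h7 : (a + lam ^ 2) ^ 2 + 4 * lam ^ 2 * a + 4 * lam * (a + lam ^ 2) * (a / N)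
      ≤ a ^ 2 * (1 + 4 * lam / N) + 56 * a + 16 := by
    have hl2 : lam ^ 2 ≤ 4 := by nlinarith
    have hl4 : lam ^ 4 ≤ 16 := by nlinarith [sq_nonneg lam]
    have hl3 : lam ^ 3 ≤ 8 := by nlinarith [sq_nonneg lam]
    have haN : a / N ≤ a := div_le_self ha0 hN1
    have haN0 : 0 ≤ a / N := by positivity
    have e1 : a ^ 2 * (1 + 4 * lam / N) = a ^ 2 + 4 * lam * a * (a / N) := by ring
    have e2 : (a + lam ^ 2) ^ 2 + 4 * lam ^ 2 * a + 4 * lam * (a + lam ^ 2) * (a / N)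
        = a ^ 2 + 6 * lam ^ 2 * a + lam ^ 4 + 4 * lam * a * (a / N) + 4 * lam ^ 3 * (a / N) := by
      ring
    rw [e1, e2]
    have e3 : 6 * lam ^ 2 * a ≤ 24 * a := by nlinarith
    have e4 : 4 * lam ^ 3 * (a / N) ≤ 32 * a := by
      have hl30 : 0 ≤ lam ^ 3 := by positivity
      calc 4 * lam ^ 3 * (a / N) ≤ 4 * lam ^ 3 * a := by
            apply mul_le_mul_of_nonneg_left haN; positivity
        _ ≤ 32 * a := by nlinarith
    linarith
  have hq4 : p ^ 4 * (1 + 4 * lam / N) ≤ q ^ 4 := by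
    rw [hq, mul_pow]
    apply mul_le_mul_of_nonneg_left _ (by positivity)
    have hx : 0 ≤ lam / N := by positivity
    have e : 1 + 4 * lam / N = 1 + 4 * (lam / N) := by ring
    rw [e]
    nlinarith [pow_nonneg hx 2, pow_nonneg hx 3, pow_nonneg hx 4]
  have hpq4 : p ^ 4 ≤ q ^ 4 := pow_le_pow_left₀ hp.le hqp 4
  calc ((a + lam ^ 2) ^ 2 + 4 * lam ^ 2 * a + 4 * lam * (a + lam ^ 2) * (a / N)) / q ^ 4
      ≤ (a ^ 2 * (1 + 4 * lam / N) + (56 * a + 16)) / q ^ 4 := by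
        apply div_le_div_of_nonneg_right _ (by positivity); linarith
    _ = a ^ 2 * (1 + 4 * lam / N) / q ^ 4 + (56 * a + 16) / q ^ 4 := add_div _ _ _
    _ ≤ a ^ 2 / p ^ 4 + (56 * a + 16) / p ^ 4 := by
        apply add_le_add
        · rw [div_le_div_iff₀ (by positivity) (by positivity)]
          calc a ^ 2 * (1 + 4 * lam / N) * p ^ 4 = a ^ 2 * (p ^ 4 * (1 + 4 * lam / N)) := by ring
            _ ≤ a ^ 2 * q ^ 4 := mul_le_mul_of_nonneg_left hq4 (by positivity)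
        · exact div_le_div_of_nonneg_left (by positivity) (by positivity) hpq4
    _ ≤ (a / p ^ 2) ^ 2 + 56 * (a / p ^ 2 / p ^ 2) + 16 * (N / p ^ 2 / p ^ 2) := by
        have e1 : (a / p ^ 2) ^ 2 + 56 * (a / p ^ 2 / p ^ 2) + 16 * (N / p ^ 2 / p ^ 2)
            = a ^ 2 / p ^ 4 + (56 * a + 16 * N) / p ^ 4 := by
          field_simp
          ring
        rw [e1]
        apply add_le_add_right
        apply div_le_div_of_nonneg_right _ (by positivity)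
        linarith

/-- constant of the drift of `N / p²` -/
noncomputable def cc (lam : ℝ) : ℝ := (2 * lam - 2) / 9

lemma V_step (hσ : ∀ v, σ v = 1 ∨ σ v = -1) (hlam1 : 1 < lam) (hlam2 : lam ≤ 2)
    {Y : Fin (m + 3) → ℤ} {p : ℝ} (hY : 1 ≤ nb Y) (hp : 0 < p) (v : Fin (m + 3)) :
    (nb (rg σ Y v) : ℝ) / (p * (1 + lam / nb Y)) ^ 2 ≤ nb Y / p ^ 2 - cc lam / p ^ 2 := by
  set N : ℝ := (nb Y : ℝ) with hN
  have hN1 : 1 ≤ N := by rw [hN]; exact_mod_cast hY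
  have h1 : (nb (rg σ Y v) : ℝ) ≤ N + 2 := by
    rw [hN]; exact_mod_cast (nb_rg_le hσ Y v).1
  have hx : 0 < lam / N := by positivity
  have hx2 : lam / N ≤ 2 := by
    rw [div_le_iff₀ (by linarith)]; nlinarith
  have h2 : N + 2 ≤ (N - cc lam) * (1 + lam / N) ^ 2 := by
    have e1 : N * (1 + lam / N) ^ 2 = N + 2 * lam + lam ^ 2 / N := by
      have : N ≠ 0 := by positivity
      field_simp; ring
    have e2 : cc lam * (1 + lam / N) ^ 2 ≤ 2 * lam - 2 := by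
      unfold cc
      have : (1 + lam / N) ^ 2 ≤ 9 := by nlinarith
      have h3 : 0 ≤ (2 * lam - 2) / 9 := by linarith
      nlinarith
    have e3 : 0 ≤ lam ^ 2 / N := by positivity
    nlinarith
  rw [← sub_div, mul_pow, div_le_div_iff₀ (by positivity) (by positivity)]
  calc (nb (rg σ Y v) : ℝ) * p ^ 2 ≤ (N + 2) * p ^ 2 := by gcongr
    _ ≤ ((N - cc lam) * (1 + lam / N) ^ 2) * p ^ 2 := by gcongr
    _ = (N - cc lam) * (p ^ 2 * (1 + lam / N) ^ 2) := by ring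

lemma cc_pos (hlam1 : 1 < lam) : 0 < cc lam := by unfold cc; linarith

lemma cc_le (hlam2 : lam ≤ 2) : cc lam ≤ 1 := by unfold cc; linarith

/-- second moment: supermartingale -/
lemma F2_super {ω : ℂ} {χ : Fin (m + 3) → ℂ} (h : IsChar σ ω χ) (hl : 2 * ω.re = lam)
    (hlam1 : 1 < lam) (hlam2 : lam ≤ 2) {Y : Fin (m + 3) → ℤ} {p : ℝ}
    (hY : 1 ≤ nb Y) (hp : 0 < p) :
    op lam σ (fun Y p => Z2 χ Y / p ^ 2) Y p ≤ Z2 χ Y / p ^ 2 + 4 / p ^ 2 := by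
  rw [op_Z2 h hY, hl]
  set N : ℝ := (nb Y : ℝ) with hN
  have hN1 : 1 ≤ N := by rw [hN]; exact_mod_cast hY
  set a : ℝ := Z2 χ Y with ha
  have ha0 : 0 ≤ a := Z2_nonneg χ Y
  have hx : 0 < lam / N := by positivity
  rw [← add_div, mul_pow, div_le_div_iff₀ (by positivity) (by positivity)]
  have e : a * (1 + 2 * lam / N) = a * (1 + 2 * (lam / N)) := by ring
  rw [e]
  have h1 : a * (1 + 2 * (lam / N)) + lam ^ 2 ≤ (a + 4) * (1 + lam / N) ^ 2 := by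
    nlinarith [mul_nonneg ha0 (sq_nonneg (lam / N))]
  calc (a * (1 + 2 * (lam / N)) + lam ^ 2) * p ^ 2 ≤ ((a + 4) * (1 + lam / N) ^ 2) * p ^ 2 := by
        gcongr
    _ = (a + 4) * (p ^ 2 * (1 + lam / N) ^ 2) := by ring

/-- constants -/
noncomputable def k1 (lam : ℝ) : ℝ := 56 / cc lam
/-- constants -/
noncomputable def k2 (lam : ℝ) : ℝ := (16 + 4 * k1 lam) / cc lam

/-- the fourth moment functional -/
noncomputable def F4 (lam : ℝ) (χ : Fin (m + 3) → ℂ) (Y : Fin (m + 3) → ℤ) (p : ℝ) : ℝ :=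
  (Z2 χ Y / p ^ 2) ^ 2 + k1 lam * ((nb Y / p ^ 2) * (Z2 χ Y / p ^ 2)) + k2 lam * (nb Y / p ^ 2) ^ 2

lemma F4_super {ω : ℂ} {χ : Fin (m + 3) → ℂ} (h : IsChar σ ω χ) (hl : 2 * ω.re = lam)
    (hlam1 : 1 < lam) (hlam2 : lam ≤ 2) {Y : Fin (m + 3) → ℤ} {p : ℝ}
    (hY : 1 ≤ nb Y) (hp : 0 < p) :
    op lam σ (F4 lam χ) Y p ≤ F4 lam χ Y p := by
  have hc0 := cc_pos hlam1
  have hc1 := cc_le hlam2
  have hk1 : 0 ≤ k1 lam := by unfold k1; positivity
  have hk2 : 0 ≤ k2 lam := by unfold k2; positivity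
  have hN1 : (1 : ℝ) ≤ (nb Y : ℝ) := by exact_mod_cast hY
  have ha0 : 0 ≤ Z2 χ Y := Z2_nonneg χ Y
  -- V M2
  have hVM : op lam σ (fun Y p => (nb Y / p ^ 2) * (Z2 χ Y / p ^ 2)) Y p
      ≤ (nb Y / p ^ 2 - cc lam / p ^ 2) * (Z2 χ Y / p ^ 2 + 4 / p ^ 2) := by
    have hnn : 0 ≤ (nb Y : ℝ) / p ^ 2 - cc lam / p ^ 2 := by
      rw [← sub_div]; apply div_nonneg _ (by positivity); linarith
    calc op lam σ (fun Y p => (nb Y / p ^ 2) * (Z2 χ Y / p ^ 2)) Y p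
        ≤ ∑ v, ((Y v).natAbs : ℝ) / nb Y * ((nb Y / p ^ 2 - cc lam / p ^ 2)
            * (Z2 χ (rg σ Y v) / (p * (1 + lam / nb Y)) ^ 2)) := by
          apply op_le_of
          intro v _
          exact mul_le_mul_of_nonneg_right (V_step h.sig hlam1 hlam2 hY hp v)
            (div_nonneg (Z2_nonneg _ _) (by positivity))
      _ = (nb Y / p ^ 2 - cc lam / p ^ 2) * op lam σ (fun Y p => Z2 χ Y / p ^ 2) Y p := by
          unfold op
          rw [Finset.mul_sum]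
          apply Finset.sum_congr rfl
          intro v _; ring
      _ ≤ _ := mul_le_mul_of_nonneg_left (F2_super h hl hlam1 hlam2 hY hp) hnn
  -- V²
  have hVV : op lam σ (fun Y p => ((nb Y : ℝ) / p ^ 2) ^ 2) Y p
      ≤ (nb Y / p ^ 2) ^ 2 - cc lam / p ^ 2 * (nb Y / p ^ 2) := by
    have hnn : 0 ≤ (nb Y : ℝ) / p ^ 2 - cc lam / p ^ 2 := by
      rw [← sub_div]; apply div_nonneg _ (by positivity); linarith
    have hx : 0 ≤ cc lam / p ^ 2 := by positivity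
    calc op lam σ (fun Y p => ((nb Y : ℝ) / p ^ 2) ^ 2) Y p
        ≤ ∑ v, ((Y v).natAbs : ℝ) / nb Y * ((nb Y / p ^ 2 - cc lam / p ^ 2) ^ 2) := by
          apply op_le_of
          intro v _
          exact pow_le_pow_left₀ (by positivity) (V_step h.sig hlam1 hlam2 hY hp v) 2
      _ = (nb Y / p ^ 2 - cc lam / p ^ 2) ^ 2 := by
          rw [← Finset.sum_mul, sum_weight hY, one_mul]
      _ ≤ _ := by nlinarith
  have hZ4 := op_Z4 h hl (by linarith) hlam2 hY hp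
  have hsum : op lam σ (F4 lam χ) Y p
      = op lam σ (fun Y p => (Z2 χ Y / p ^ 2) ^ 2) Y p
        + k1 lam * op lam σ (fun Y p => (nb Y / p ^ 2) * (Z2 χ Y / p ^ 2)) Y p
        + k2 lam * op lam σ (fun Y p => ((nb Y : ℝ) / p ^ 2) ^ 2) Y p := by
    rw [← op_smul, ← op_smul, ← op_add, ← op_add]
    rfl
  rw [hsum]
  unfold F4
  set V : ℝ := (nb Y : ℝ) / p ^ 2 with hV
  set M : ℝ := Z2 χ Y / p ^ 2 with hM
  set t : ℝ := 1 / p ^ 2 with ht
  have ht0 : 0 < t := by rw [ht]; positivity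
  have hM0 : 0 ≤ M := by rw [hM]; positivity
  have hV0 : 0 ≤ V := by rw [hV]; positivity
  have e1 : cc lam / p ^ 2 = cc lam * t := by rw [ht]; ring
  have e2 : (4 : ℝ) / p ^ 2 = 4 * t := by rw [ht]; ring
  have e3 : M / p ^ 2 = M * t := by rw [ht]; ring
  have e4 : V / p ^ 2 = V * t := by rw [ht]; ring
  rw [e1, e2] at hVM
  rw [e1] at hVV
  rw [e3, e4] at hZ4
  have hk1c : k1 lam * cc lam = 56 := by unfold k1; field_simp
  have hk2c : k2 lam * cc lam = 16 + 4 * k1 lam := by unfold k2; field_simp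
  have f1 : k1 lam * op lam σ (fun Y p => (nb Y / p ^ 2) * (Z2 χ Y / p ^ 2)) Y p
      ≤ k1 lam * ((V - cc lam * t) * (M + 4 * t)) := mul_le_mul_of_nonneg_left hVM hk1
  have f2 : k2 lam * op lam σ (fun Y p => ((nb Y : ℝ) / p ^ 2) ^ 2) Y p
      ≤ k2 lam * (V ^ 2 - cc lam * t * V) := mul_le_mul_of_nonneg_left hVV hk2
  have g1 : k1 lam * ((V - cc lam * t) * (M + 4 * t))
      = k1 lam * (V * M) + 4 * k1 lam * (V * t) - 56 * (M * t) - 224 * t ^ 2 := by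
    have : k1 lam * ((V - cc lam * t) * (M + 4 * t))
      = k1 lam * (V * M) + 4 * k1 lam * (V * t) - (k1 lam * cc lam) * (M * t)
        - 4 * (k1 lam * cc lam) * t ^ 2 := by ring
    rw [this, hk1c]; ring
  have g2 : k2 lam * (V ^ 2 - cc lam * t * V) = k2 lam * V ^ 2 - (16 + 4 * k1 lam) * (V * t) := by
    have : k2 lam * (V ^ 2 - cc lam * t * V) = k2 lam * V ^ 2 - (k2 lam * cc lam) * (V * t) := by
      ring
    rw [this, hk2c]
  rw [g1] at f1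
  rw [g2] at f2
  nlinarith [sq_nonneg t]

end Pool.Agent.helper98.Urn
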