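import Mathlib
import Pool.Agent.helper98.UrnMom

set_option autoImplicit false
set_option linter.unusedSectionVars false

open Finset

namespace Pool.Agent.helper98.Urn

variable {m : ℕ} {σ : Fin (m + 3) → ℤ} {lam : ℝ}

/-- comparison on reachable states -/
lemma ex_mono_reach (hlam : 0 ≤ lam) {R : ℕ → (Fin (m + 3) → ℤ) → ℝ → Prop}
    (hR : ∀ i Y p v, R i Y p → 1 ≤ nb Y → 0 < p → Y v ≠ 0 →
      R (i + 1) (rg σ Y v) (p * (1 + lam / nb Y)))
    {F G : (Fin (m + 3) → ℤ) → ℝ → ℝ} (T : ℕ) :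
    ∀ (i : ℕ) (Y : Fin (m + 3) → ℤ) (p : ℝ), R i Y p → 1 ≤ nb Y → 0 < p →
      (∀ Y' p', R (i + T) Y' p' → 1 ≤ nb Y' → 0 < p' → F Y' p' ≤ G Y' p') →
      ex lam σ T F Y p ≤ ex lam σ T G Y p := by
  induction T with
  | zero =>
    intro i Y p hRi hY hp h
    exact h Y p hRi hY hp
  | succ T ih =>
    intro i Y p hRi hY hp h
    simp only [ex]
    unfold op
    apply Finset.sum_le_sum
    intro v _
    by_cases hv : Y v = 0
    · simp [hv]
    · apply mul_le_mul_of_nonneg_left _ (weight_nonneg Y v)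
      have hN : (0 : ℝ) < nb Y := by exact_mod_cast hY
      apply ih (i + 1) _ _ (hR i Y p v hRi hY hp hv) (rg_valid hv) (by positivity)
      intro Y' p' h1
      have e : i + 1 + T = i + (T + 1) := by ring
      rw [e] at h1
      exact h Y' p' h1

lemma ex_add_steps (F : (Fin (m + 3) → ℤ) → ℝ → ℝ) (S T : ℕ) :
    ex lam σ (S + T) F = ex lam σ S (ex lam σ T F) := by
  induction S with
  | zero => rw [zero_add]; rfl
  | succ S ih =>
    have e : S + 1 + T = (S + T) + 1 := by ring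
    rw [e]
    simp only [ex]
    rw [ih]

lemma ex_of_sub (hlam : 0 ≤ lam) {F : (Fin (m + 3) → ℤ) → ℝ → ℝ}
    (h : ∀ Y p, 1 ≤ nb Y → 0 < p → F Y p ≤ op lam σ F Y p) (T : ℕ) :
    ∀ (Y : Fin (m + 3) → ℤ) (p : ℝ), 1 ≤ nb Y → 0 < p → F Y p ≤ ex lam σ T F Y p := by
  induction T with
  | zero => intros; exact le_refl _
  | succ T ih =>
    intro Y p hY hp
    exact (h Y p hY hp).trans (op_mono hlam ih hY hp)

/-- the top mode has submartingale square -/
lemma M_sub {ω : ℂ} {χ : Fin (m + 3) → ℂ} (h : IsChar σ ω χ) (hl : 2 * ω.re = lam)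
    (hlam1 : 1 < lam) {Y : Fin (m + 3) → ℤ} {p : ℝ}
    (hY : 1 ≤ nb Y) (hp : 0 < p) :
    Z2 χ Y / p ^ 2 ≤ op lam σ (fun Y p => Z2 χ Y / p ^ 2) Y p := by
  rw [op_Z2 h hY, hl]
  have hN : (0 : ℝ) < nb Y := by exact_mod_cast hY
  have hz := Z2_le_sq h Y
  rw [div_le_div_iff₀ (by positivity) (by positivity), mul_pow]
  have h1 : Z2 χ Y * (1 + lam / nb Y) ^ 2 ≤ Z2 χ Y * (1 + 2 * lam / nb Y) + lam ^ 2 := by
    have e : Z2 χ Y * (1 + lam / nb Y) ^ 2
        = Z2 χ Y * (1 + 2 * lam / nb Y) + lam ^ 2 * (Z2 χ Y / (nb Y : ℝ) ^ 2) := by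
      field_simp; ring
    rw [e]
    have : Z2 χ Y / (nb Y : ℝ) ^ 2 ≤ 1 := by
      rw [div_le_one (by positivity)]; exact hz
    nlinarith [sq_nonneg lam]
  calc Z2 χ Y * (p ^ 2 * (1 + lam / nb Y) ^ 2) = (Z2 χ Y * (1 + lam / nb Y) ^ 2) * p ^ 2 := by ring
    _ ≤ _ := mul_le_mul_of_nonneg_right h1 (by positivity)

/-- quantitative gain -/
lemma M_gain {ω : ℂ} {χ : Fin (m + 3) → ℂ} (h : IsChar σ ω χ) (hl : 2 * ω.re = lam)
    (hlam1 : 1 < lam) {Y : Fin (m + 3) → ℤ} {p : ℝ}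
    (hY : 1 ≤ nb Y) (hp : 0 < p) (hz : Z2 χ Y ≤ (nb Y : ℝ) ^ 2 / 2)
    (hp2 : p * (1 + lam / nb Y) ≤ 2) :
    Z2 χ Y / p ^ 2 + 1 / 8 ≤ op lam σ (fun Y p => Z2 χ Y / p ^ 2) Y p := by
  rw [op_Z2 h hY, hl]
  have hN : (0 : ℝ) < nb Y := by exact_mod_cast hY
  set q := p * (1 + lam / nb Y) with hq
  have hq0 : 0 < q := by rw [hq]; positivity
  have e1 : Z2 χ Y / p ^ 2 = Z2 χ Y * (1 + lam / nb Y) ^ 2 / q ^ 2 := by
    rw [hq, mul_pow]
    have : (0 : ℝ) < 1 + lam / nb Y := by positivity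
    field_simp
  rw [e1]
  have h1 : Z2 χ Y * (1 + lam / nb Y) ^ 2 + lam ^ 2 / 2
      ≤ Z2 χ Y * (1 + 2 * lam / nb Y) + lam ^ 2 := by
    have e : Z2 χ Y * (1 + lam / nb Y) ^ 2
        = Z2 χ Y * (1 + 2 * lam / nb Y) + lam ^ 2 * (Z2 χ Y / (nb Y : ℝ) ^ 2) := by
      field_simp; ring
    rw [e]
    have : Z2 χ Y / (nb Y : ℝ) ^ 2 ≤ 1 / 2 := by
      rw [div_le_iff₀ (by positivity)]; linarith
    nlinarith [sq_nonneg lam]
  have h2 : (1 : ℝ) / 8 ≤ (lam ^ 2 / 2) / q ^ 2 := by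
    rw [div_le_div_iff₀ (by norm_num) (by positivity)]
    have : q ^ 2 ≤ 4 := by nlinarith
    nlinarith
  calc Z2 χ Y * (1 + lam / nb Y) ^ 2 / q ^ 2 + 1 / 8
      ≤ Z2 χ Y * (1 + lam / nb Y) ^ 2 / q ^ 2 + (lam ^ 2 / 2) / q ^ 2 := by linarith
    _ = (Z2 χ Y * (1 + lam / nb Y) ^ 2 + lam ^ 2 / 2) / q ^ 2 := by ring
    _ ≤ _ := div_le_div_of_nonneg_right h1 (by positivity)

lemma norm_Zf_rg {ω : ℂ} {χ : Fin (m + 3) → ℂ} (h : IsChar σ ω χ) (hl : 2 * ω.re = lam)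
    (hlam0 : 0 ≤ lam) (hlam2 : lam ≤ 2) (Y : Fin (m + 3) → ℤ) (v : Fin (m + 3)) :
    ‖Zf χ (rg σ Y v)‖ ≤ ‖Zf χ Y‖ + 2 := by
  rw [Zf_rg h, hl]
  refine le_trans (norm_add_le _ _) ?_
  have h1 : ‖χ v‖ = 1 := by
    have h3 := h.norm_chi v
    rw [Complex.normSq_eq_norm_sq] at h3
    have h4 : 0 ≤ ‖χ v‖ := norm_nonneg _
    nlinarith
  rw [norm_mul, h1, mul_one, Complex.norm_real, Real.norm_eq_abs, abs_mul]
  have h2 : |((Y v).sign : ℝ)| ≤ 1 := by
    rcases lt_trichotomy (Y v) 0 with h | h | h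
    · rw [Int.sign_eq_neg_one_of_neg h]; norm_num
    · rw [h]; simp
    · rw [Int.sign_eq_one_of_pos h]; norm_num
  have h3 : |lam| ≤ 2 := by rw [abs_of_nonneg hlam0]; exact hlam2
  have h4 : 0 ≤ |lam| := abs_nonneg _
  have h5 : 0 ≤ |((Y v).sign : ℝ)| := abs_nonneg _
  nlinarith

lemma Z2_eq_norm (χ : Fin (m + 3) → ℂ) (Y : Fin (m + 3) → ℤ) : Z2 χ Y = ‖Zf χ Y‖ ^ 2 := by
  unfold Z2; rw [Complex.normSq_eq_norm_sq]

lemma M_low_aux {ω : ℂ} {χ : Fin (m + 3) → ℂ} (h : IsChar σ ω χ) (hl : 2 * ω.re = lam)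
    (hlam1 : 1 < lam) (hlam2 : lam ≤ 2) {n : ℕ} (hn : 100 ≤ n) (T : ℕ) :
    ∀ (i : ℕ) (Y : Fin (m + 3) → ℤ) (p : ℝ), T + i ≤ n / 100 + 1 → (n : ℝ) - 2 * i ≤ nb Y →
      ‖Zf χ Y‖ ≤ n / 10 + 2 * i → 0 < p → p ≤ 1 + 5 * i / n →
      Z2 χ Y / p ^ 2 + T / 8 ≤ ex lam σ T (fun Y p => Z2 χ Y / p ^ 2) Y p := by
  induction T with
  | zero => intro i Y p _ _ _ _ _; simp [ex]
  | succ T ih =>
    intro i Y p hi hN hz hp hp2
    have hn' : (100 : ℝ) ≤ n := by exact_mod_cast hn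
    have hi' : (i : ℝ) ≤ n / 100 := by
      have h1 : i ≤ n / 100 := by omega
      have h2 : ((n / 100 : ℕ) : ℝ) ≤ (n : ℝ) / 100 := by
        have := @Nat.cast_div_le ℝ _ _ _ n 100
        exact_mod_cast this
      calc (i : ℝ) ≤ ((n / 100 : ℕ) : ℝ) := by exact_mod_cast h1
        _ ≤ _ := h2
    have hi0 : (0 : ℝ) ≤ i := Nat.cast_nonneg _
    have hN98 : 0.98 * (n : ℝ) ≤ nb Y := by linarith
    have hNpos : (0 : ℝ) < nb Y := by linarith
    have hY : 1 ≤ nb Y := by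
      have : (0 : ℝ) < nb Y := hNpos
      have h2 : 0 < nb Y := by exact_mod_cast this
      omega
    have hlamN : lam / nb Y ≤ 2.05 / n := by
      rw [div_le_div_iff₀ hNpos (by linarith)]
      nlinarith
    have hlamN0 : 0 < lam / nb Y := by positivity
    have h5n : 5 * (i : ℝ) / n ≤ 0.05 := by
      rw [div_le_iff₀ (by linarith)]; linarith
    have h5n0 : 0 ≤ 5 * (i : ℝ) / n := by positivity
    have h205 : (2.05 : ℝ) / n ≤ 0.0205 := by
      rw [div_le_iff₀ (by linarith)]; linarith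
    have hq : p * (1 + lam / nb Y) ≤ 1 + 5 * ((i + 1 : ℕ) : ℝ) / n := by
      push_cast
      have e : 1 + 5 * ((i : ℝ) + 1) / n = 1 + 5 * i / n + 5 / n := by ring
      rw [e]
      have h1 : p * (1 + lam / nb Y) ≤ (1 + 5 * i / n) * (1 + 2.05 / n) := by
        apply mul_le_mul hp2 (by linarith) (by positivity) (by positivity)
      refine le_trans h1 ?_
      have h2 : (0 : ℝ) < 1 / n := by positivity
      have e2 : (2.05 : ℝ) / n = 2.05 * (1 / n) := by ring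
      have e3 : (5 : ℝ) / n = 5 * (1 / n) := by ring
      rw [e2, e3]
      nlinarith
    have hq2 : p * (1 + lam / nb Y) ≤ 2 := by
      have h1 : p * (1 + lam / nb Y) ≤ (1 + 5 * i / n) * (1 + 2.05 / n) := by
        apply mul_le_mul hp2 (by linarith) (by positivity) (by positivity)
      nlinarith
    have hZ : Z2 χ Y ≤ (nb Y : ℝ) ^ 2 / 2 := by
      rw [Z2_eq_norm]
      have h1 : ‖Zf χ Y‖ ≤ 0.12 * n := by linarith
      have h0 : 0 ≤ ‖Zf χ Y‖ := norm_nonneg _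
      nlinarith
    have hgain := M_gain h hl hlam1 hY hp hZ hq2
    have hstep : op lam σ (fun Y p => Z2 χ Y / p ^ 2) Y p + T / 8
        ≤ ex lam σ (T + 1) (fun Y p => Z2 χ Y / p ^ 2) Y p := by
      have e : op lam σ (fun Y p => Z2 χ Y / p ^ 2) Y p + T / 8
          = ∑ v, ((Y v).natAbs : ℝ) / nb Y * (Z2 χ (rg σ Y v) / (p * (1 + lam / nb Y)) ^ 2
            + T / 8) := by
        have : ∀ v, ((Y v).natAbs : ℝ) / nb Y * (Z2 χ (rg σ Y v) / (p * (1 + lam / nb Y)) ^ 2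
            + T / 8) = ((Y v).natAbs : ℝ) / nb Y * (Z2 χ (rg σ Y v) / (p * (1 + lam / nb Y)) ^ 2)
            + ((Y v).natAbs : ℝ) / nb Y * (T / 8) := by intro v; ring
        simp only [this]
        rw [Finset.sum_add_distrib, ← Finset.sum_mul, sum_weight hY, one_mul]
        rfl
      rw [e]
      simp only [ex]
      apply le_op_of
      intro v hv
      apply ih (i + 1)
      · omega
      · have h1 := (nb_rg_le h.sig Y v).2
        have h2 : (nb Y : ℝ) ≤ nb (rg σ Y v) + 2 := by exact_mod_cast h1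
        push_cast
        linarith
      · have h1 := norm_Zf_rg h hl (by linarith) hlam2 Y v
        push_cast
        linarith
      · positivity
      · exact hq
    refine le_trans ?_ hstep
    push_cast
    linarith

lemma Z2_of_nb_one {ω : ℂ} {χ : Fin (m + 3) → ℂ} (h : IsChar σ ω χ) {Y : Fin (m + 3) → ℤ}
    (hY : nb Y = 1) : Z2 χ Y = 1 := by
  have h1 : ∃ v, Y v ≠ 0 := by
    by_contra hcon
    push Not at hcon
    unfold nb at hY
    simp [hcon] at hY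
  obtain ⟨v, hv⟩ := h1
  have h2 : (Y v).natAbs + ∑ u ∈ Finset.univ.erase v, (Y u).natAbs = 1 := by
    rw [Finset.add_sum_erase _ (fun u => (Y u).natAbs) (Finset.mem_univ v)]
    exact hY
  have h3 : 0 < (Y v).natAbs := Int.natAbs_pos.2 hv
  have h4 : ∑ u ∈ Finset.univ.erase v, (Y u).natAbs = 0 := by omega
  have h5 : ∀ u, u ≠ v → Y u = 0 := by
    intro u hu
    have := (Finset.sum_eq_zero_iff.1 h4) u (Finset.mem_erase.2 ⟨hu, Finset.mem_univ u⟩)
    exact Int.natAbs_eq_zero.1 this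
  have h6 : Zf χ Y = (Y v : ℂ) * χ v := by
    unfold Zf
    rw [Finset.sum_eq_single v]
    · intro u _ hu; rw [h5 u hu]; simp
    · intro hh; exact absurd (Finset.mem_univ v) hh
  unfold Z2
  rw [h6, Complex.normSq_mul, h.norm_chi, mul_one]
  have h7 : (Y v).natAbs = 1 := by omega
  rcases Int.natAbs_eq_iff.1 h7 with h8 | h8
  · rw [h8]; simp
  · rw [h8]; simp

/-- lower bound for the mean of the top mode -/
lemma M_low {ω : ℂ} {χ : Fin (m + 3) → ℂ} (h : IsChar σ ω χ) (hl : 2 * ω.re = lam)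
    (hlam1 : 1 < lam) (hlam2 : lam ≤ 2) {Y : Fin (m + 3) → ℤ} (hY : 1 ≤ nb Y) {T : ℕ}
    (hT : nb Y / 100 + 1 ≤ T) :
    (Z2 χ Y + nb Y) / 800 ≤ ex lam σ T (fun Y p => Z2 χ Y / p ^ 2) Y 1 := by
  have hsub : ∀ S (Y : Fin (m + 3) → ℤ) (p : ℝ), 1 ≤ nb Y → 0 < p →
      Z2 χ Y / p ^ 2 ≤ ex lam σ S (fun Y p => Z2 χ Y / p ^ 2) Y p :=
    fun S => ex_of_sub (by linarith) (fun Y p hY hp => M_sub h hl hlam1 hY hp) S
  have hz0 : 0 ≤ Z2 χ Y := Z2_nonneg χ Y
  have hN1 : (1 : ℝ) ≤ nb Y := by exact_mod_cast hY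
  by_cases hA : (nb Y : ℝ) ≤ Z2 χ Y
  · have h1 := hsub T Y 1 hY one_pos
    rw [one_pow, div_one] at h1
    linarith
  · push Not at hA
    have hN2 : 2 ≤ nb Y := by
      by_contra hcon
      have h1 : nb Y = 1 := by omega
      have h2 := Z2_of_nb_one h h1
      rw [h2, h1] at hA
      norm_num at hA
    have hN2' : (2 : ℝ) ≤ nb Y := by exact_mod_cast hN2
    -- reduce to T₀
    obtain ⟨S, rfl⟩ := Nat.exists_eq_add_of_le hT
    rw [ex_add_steps]
    have hmono : ex lam σ (nb Y / 100 + 1) (fun Y p => Z2 χ Y / p ^ 2) Y 1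
        ≤ ex lam σ (nb Y / 100 + 1) (ex lam σ S (fun Y p => Z2 χ Y / p ^ 2)) Y 1 :=
      ex_mono (by linarith) (hsub S) _ Y 1 hY one_pos
    refine le_trans ?_ hmono
    by_cases hbig : 100 ≤ nb Y
    · have hbig' : (100 : ℝ) ≤ nb Y := by exact_mod_cast hbig
      have h1 := M_low_aux h hl hlam1 hlam2 hbig (nb Y / 100 + 1) 0 Y 1 (by omega)
        (by push_cast; linarith)
        (by
          have h2 : ‖Zf χ Y‖ ^ 2 < nb Y := by rw [← Z2_eq_norm]; exact hA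
          have h3 : 0 ≤ ‖Zf χ Y‖ := norm_nonneg _
          push_cast
          by_contra hcon
          push Not at hcon
          have h4 : (nb Y : ℝ) / 10 < ‖Zf χ Y‖ := by linarith
          nlinarith)
        one_pos (by simp)
      rw [one_pow, div_one] at h1
      refine le_trans ?_ h1
      have h2 : (nb Y : ℝ) / 100 ≤ ((nb Y / 100 + 1 : ℕ) : ℝ) := by
        have h3 : nb Y ≤ 100 * (nb Y / 100 + 1) := by omega
        have h4 : (nb Y : ℝ) ≤ 100 * ((nb Y / 100 + 1 : ℕ) : ℝ) := by exact_mod_cast h3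
        linarith
      linarith
    · have e : nb Y / 100 + 1 = 1 := by omega
      rw [e]
      have h1 : ex lam σ 1 (fun Y p => Z2 χ Y / p ^ 2) Y 1
          = op lam σ (fun Y p => Z2 χ Y / p ^ 2) Y 1 := rfl
      rw [h1]
      have h2 := M_gain h hl hlam1 hY one_pos (Y := Y)
        (by nlinarith)
        (by
          rw [one_mul]
          have : lam / nb Y ≤ 1 := by
            rw [div_le_one (by linarith)]; linarith
          linarith)
      rw [one_pow, div_one] at h2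
      have h3 : (nb Y : ℝ) ≤ 99 := by
        have : nb Y ≤ 99 := by omega
        exact_mod_cast this
      linarith

end Pool.Agent.helper98.Urn
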