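import Mathlib
import Pool.Agent.helper98.UrnLow

set_option autoImplicit false
set_option linter.unusedSectionVars false

open Finset

namespace Pool.Agent.helper98.Urn

variable {m : ℕ} {σ : Fin (m + 3) → ℤ} {lam : ℝ}

/-- one step for a lower mode -/
lemma lower_step {ω : ℂ} {χ : Fin (m + 3) → ℂ} (h : IsChar σ ω χ) {δ : ℝ} (hδ0 : 0 < δ)
    (hδ1 : δ ≤ 1) (hl : 2 * ω.re + δ ≤ lam) (hlam1 : 1 < lam) (hlam2 : lam ≤ 2)
    {Y : Fin (m + 3) → ℤ} {p : ℝ} (hY : 1 ≤ nb Y) (hp : 0 < p) :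
    op lam σ (fun Y p => Z2 χ Y / p ^ 2) Y p
      ≤ (1 - 2 * δ / (5 * nb Y)) * (Z2 χ Y / p ^ 2) + 4 / p ^ 2 := by
  rw [op_Z2 h hY]
  have hN1 : (1 : ℝ) ≤ nb Y := by exact_mod_cast hY
  set N : ℝ := (nb Y : ℝ) with hN
  set a : ℝ := Z2 χ Y with ha
  have ha0 : 0 ≤ a := Z2_nonneg χ Y
  set μ : ℝ := 2 * ω.re with hμ
  have hμ4 : μ ^ 2 ≤ 4 := by
    have h1 := h.norm_om
    rw [Complex.normSq_apply] at h1
    rw [hμ]
    nlinarith [sq_nonneg ω.im, sq_nonneg ω.re]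
  have hx : 0 < lam / N := by positivity
  have e : (1 - 2 * δ / (5 * N)) * (a / p ^ 2) + 4 / p ^ 2
      = ((1 - 2 * δ / (5 * N)) * a + 4) / p ^ 2 := by ring
  rw [e, div_le_div_iff₀ (by positivity) (by positivity), mul_pow p]
  have hd : 0 ≤ 1 - 2 * δ / (5 * N) := by
    have : 2 * δ / (5 * N) ≤ 1 := by
      rw [div_le_one (by positivity)]; linarith
    linarith
  have h1 : 1 + 2 * μ / N ≤ (1 - 2 * δ / (5 * N)) * (1 + lam / N) ^ 2 := by
    have h2 : 1 + 2 * (lam / N) ≤ (1 + lam / N) ^ 2 := by nlinarith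
    have h3 : (1 - 2 * δ / (5 * N)) * (1 + 2 * (lam / N))
        ≤ (1 - 2 * δ / (5 * N)) * (1 + lam / N) ^ 2 := mul_le_mul_of_nonneg_left h2 hd
    refine le_trans ?_ h3
    have h4 : 2 * δ / (5 * N) = (2 * δ / N) / 5 := by field_simp
    have h5 : 1 + 2 * (lam / N) ≤ 5 := by
      have : lam / N ≤ 2 := by rw [div_le_iff₀ (by linarith)]; nlinarith
      linarith
    have h6 : 0 ≤ 2 * δ / N := by positivity
    have h7 : 2 * μ / N ≤ 2 * (lam / N) - 2 * δ / N := by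
      rw [mul_div_assoc', ← sub_div]
      apply div_le_div_of_nonneg_right _ (by linarith)
      linarith
    rw [h4]
    nlinarith
  have h8 : a * (1 + 2 * μ / N) + μ ^ 2
      ≤ ((1 - 2 * δ / (5 * N)) * a + 4) * (1 + lam / N) ^ 2 := by
    have h9 : (1 : ℝ) ≤ (1 + lam / N) ^ 2 := by nlinarith
    have h10 := mul_le_mul_of_nonneg_left h1 ha0
    calc a * (1 + 2 * μ / N) + μ ^ 2
        ≤ a * ((1 - 2 * δ / (5 * N)) * (1 + lam / N) ^ 2) + 4 * (1 + lam / N) ^ 2 := by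
          linarith
      _ = _ := by ring
  calc (a * (1 + 2 * μ / N) + μ ^ 2) * p ^ 2
      ≤ (((1 - 2 * δ / (5 * N)) * a + 4) * (1 + lam / N) ^ 2) * p ^ 2 :=
        mul_le_mul_of_nonneg_right h8 (by positivity)
    _ = _ := by ring

/-- total energy of the lower modes -/
noncomputable def LL {J : Type} (js : Finset J) (χs : J → Fin (m + 3) → ℂ)
    (Y : Fin (m + 3) → ℤ) : ℝ := ∑ j ∈ js, Z2 (χs j) Y

lemma LL_nonneg {J : Type} (js : Finset J) (χs : J → Fin (m + 3) → ℂ) (Y : Fin (m + 3) → ℤ) :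
    0 ≤ LL js χs Y := Finset.sum_nonneg fun _ _ => Z2_nonneg _ _

lemma op_sum {J : Type} (js : Finset J) (F : J → (Fin (m + 3) → ℤ) → ℝ → ℝ)
    (Y : Fin (m + 3) → ℤ) (p : ℝ) :
    op lam σ (fun Y p => ∑ j ∈ js, F j Y p) Y p = ∑ j ∈ js, op lam σ (F j) Y p := by
  unfold op
  rw [Finset.sum_comm]
  apply Finset.sum_congr rfl
  intro v _
  rw [Finset.mul_sum]

lemma LL_step {J : Type} (js : Finset J) (ωs : J → ℂ) (χs : J → Fin (m + 3) → ℂ)
    (h : ∀ j ∈ js, IsChar σ (ωs j) (χs j)) {δ : ℝ} (hδ0 : 0 < δ)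
    (hδ1 : δ ≤ 1) (hl : ∀ j ∈ js, 2 * (ωs j).re + δ ≤ lam) (hlam1 : 1 < lam) (hlam2 : lam ≤ 2)
    {Y : Fin (m + 3) → ℤ} {p : ℝ} (hY : 1 ≤ nb Y) (hp : 0 < p) :
    op lam σ (fun Y p => LL js χs Y / p ^ 2) Y p
      ≤ (1 - 2 * δ / (5 * nb Y)) * (LL js χs Y / p ^ 2) + 4 * js.card / p ^ 2 := by
  have e : (fun (Y : Fin (m + 3) → ℤ) (p : ℝ) => LL js χs Y / p ^ 2)
      = fun Y p => ∑ j ∈ js, Z2 (χs j) Y / p ^ 2 := by
    funext Y p
    unfold LL
    rw [Finset.sum_div]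
  rw [e, op_sum]
  have h1 : ∀ j ∈ js, op lam σ (fun Y p => Z2 (χs j) Y / p ^ 2) Y p
      ≤ (1 - 2 * δ / (5 * nb Y)) * (Z2 (χs j) Y / p ^ 2) + 4 / p ^ 2 :=
    fun j hj => lower_step (h j hj) hδ0 hδ1 (hl j hj) hlam1 hlam2 hY hp
  refine le_trans (Finset.sum_le_sum h1) ?_
  rw [Finset.sum_add_distrib, ← Finset.mul_sum, Finset.sum_const, nsmul_eq_mul]
  unfold LL
  rw [Finset.sum_div]
  apply le_of_eq
  ring

/-- deterministic lower bound for the normalization -/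
noncomputable def qq (lam : ℝ) (n : ℕ) : ℕ → ℝ
  | 0 => 1
  | i + 1 => qq lam n i * (1 + lam / ((n : ℝ) + 2 * i))

lemma qq_pos (hlam : 0 ≤ lam) {n : ℕ} (hn : 1 ≤ n) (i : ℕ) : 0 < qq lam n i := by
  induction i with
  | zero => simp [qq]
  | succ i ih =>
    simp only [qq]
    have : (0 : ℝ) < (n : ℝ) + 2 * i := by
      have : (1 : ℝ) ≤ n := by exact_mod_cast hn
      positivity
    positivity

lemma qq_sum (hlam1 : 1 < lam) (hlam2 : lam ≤ 2) {n : ℕ} (hn : 1 ≤ n) (T : ℕ) :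
    cc lam * ∑ i ∈ Finset.range T, 1 / (qq lam n i) ^ 2 ≤ n := by
  have hstep : ∀ i, ((n : ℝ) + 2 * (i + 1 : ℕ)) / (qq lam n (i + 1)) ^ 2
      ≤ ((n : ℝ) + 2 * i) / (qq lam n i) ^ 2 - cc lam / (qq lam n i) ^ 2 := by
    intro i
    set N : ℝ := (n : ℝ) + 2 * i with hN
    have hN1 : 1 ≤ N := by
      have : (1 : ℝ) ≤ n := by exact_mod_cast hn
      have : (0 : ℝ) ≤ i := Nat.cast_nonneg _
      rw [hN]; linarith
    have hq := qq_pos (by linarith : (0 : ℝ) ≤ lam) hn i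
    simp only [qq]
    rw [← hN]
    have hx : 0 < lam / N := by positivity
    have hx2 : lam / N ≤ 2 := by
      rw [div_le_iff₀ (by linarith)]; nlinarith
    have h2 : N + 2 ≤ (N - cc lam) * (1 + lam / N) ^ 2 := by
      have e1 : N * (1 + lam / N) ^ 2 = N + 2 * lam + lam ^ 2 / N := by
        have : N ≠ 0 := by positivity
        field_simp; ring
      have e2 : cc lam * (1 + lam / N) ^ 2 ≤ 2 * lam - 2 := by
        unfold cc
        have : (1 + lam / N) ^ 2 ≤ 9 := by nlinarith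
        have h3 : 0 ≤ (2 * lam - 2) / 9 := by linarith
        nlinarith
      have e3 : 0 ≤ lam ^ 2 / N := by positivity
      nlinarith
    have e : (n : ℝ) + 2 * ((i + 1 : ℕ) : ℝ) = N + 2 := by rw [hN]; push_cast; ring
    rw [e, ← sub_div, mul_pow, div_le_div_iff₀ (by positivity) (by positivity)]
    calc (N + 2) * qq lam n i ^ 2 ≤ ((N - cc lam) * (1 + lam / N) ^ 2) * qq lam n i ^ 2 := by
          gcongr
      _ = (N - cc lam) * (qq lam n i ^ 2 * (1 + lam / N) ^ 2) := by ring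
  have htel : ∀ T : ℕ, cc lam * ∑ i ∈ Finset.range T, 1 / (qq lam n i) ^ 2
      ≤ n - ((n : ℝ) + 2 * T) / (qq lam n T) ^ 2 := by
    intro T
    induction T with
    | zero => simp [qq]
    | succ T ih =>
      rw [Finset.sum_range_succ, mul_add]
      have := hstep T
      have e : cc lam * (1 / qq lam n T ^ 2) = cc lam / qq lam n T ^ 2 := by ring
      rw [e]
      linarith
  refine le_trans (htel T) ?_
  have : 0 ≤ ((n : ℝ) + 2 * T) / (qq lam n T) ^ 2 := by positivity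
  linarith

/-- the lower modes become negligible along a sequence of times -/
lemma LL_small {J : Type} (js : Finset J) (ωs : J → ℂ) (χs : J → Fin (m + 3) → ℂ)
    (h : ∀ j ∈ js, IsChar σ (ωs j) (χs j)) (hσ : ∀ v, σ v = 1 ∨ σ v = -1) {δ : ℝ} (hδ0 : 0 < δ)
    (hδ1 : δ ≤ 1) (hl : ∀ j ∈ js, 2 * (ωs j).re + δ ≤ lam) (hlam1 : 1 < lam) (hlam2 : lam ≤ 2)
    {Y : Fin (m + 3) → ℤ} (hY : 1 ≤ nb Y) {ε : ℝ} (hε : 0 < ε) (T0 : ℕ) :
    ∃ T, T0 ≤ T ∧ ex lam σ T (fun Y p => LL js χs Y / p ^ 2) Y 1 ≤ ε := by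
  set n : ℕ := nb Y with hn
  have hn1 : (1 : ℝ) ≤ n := by exact_mod_cast hY
  set a : ℕ → ℝ := fun T => ex lam σ T (fun Y p => LL js χs Y / p ^ 2) Y 1 with ha
  -- reachability
  set R : ℕ → (Fin (m + 3) → ℤ) → ℝ → Prop := fun i Y' p' =>
    (nb Y' : ℝ) ≤ (n : ℝ) + 2 * i ∧ qq lam n i ≤ p' with hR
  have hRstep : ∀ i Y' p' v, R i Y' p' → 1 ≤ nb Y' → 0 < p' → Y' v ≠ 0 →
      R (i + 1) (rg σ Y' v) (p' * (1 + lam / nb Y')) := by
    intro i Y' p' v hRi hY' hp' hv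
    obtain ⟨h1, h2⟩ := hRi
    constructor
    · have h3 : (nb (rg σ Y' v) : ℝ) ≤ nb Y' + 2 := by exact_mod_cast (nb_rg_le hσ Y' v).1
      push_cast
      linarith
    · simp only [qq]
      have hN : (0 : ℝ) < nb Y' := by exact_mod_cast hY'
      have hq := qq_pos (by linarith : (0 : ℝ) ≤ lam) hY i
      apply mul_le_mul h2 _ _ hp'.le
      · have : lam / ((n : ℝ) + 2 * i) ≤ lam / nb Y' :=
          div_le_div_of_nonneg_left (by linarith) hN h1
        linarith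
      · have : (0 : ℝ) ≤ (n : ℝ) + 2 * i := by positivity
        positivity
  have ha_nonneg : ∀ T, 0 ≤ a T := by
    intro T
    have h1 := ex_mono (lam := lam) (σ := σ) (by linarith) (F := fun _ _ => (0 : ℝ))
      (G := fun Y p => LL js χs Y / p ^ 2)
      (fun Y p _ _ => div_nonneg (LL_nonneg js χs Y) (by positivity)) T Y 1 hY one_pos
    rw [ex_const 0 (by linarith) T Y 1 hY one_pos] at h1
    exact h1
  have hstep : ∀ T, a (T + 1) ≤ (1 - 2 * δ / (5 * ((n : ℝ) + 2 * T))) * a T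
      + 4 * js.card * (1 / (qq lam n T) ^ 2) := by
    intro T
    have e1 : a (T + 1) = ex lam σ T (op lam σ (fun Y p => LL js χs Y / p ^ 2)) Y 1 := by
      show ex lam σ (T + 1) _ Y 1 = _
      rw [ex_succ']
    have e2 : (1 - 2 * δ / (5 * ((n : ℝ) + 2 * T))) * a T + 4 * js.card * (1 / (qq lam n T) ^ 2)
        = ex lam σ T (fun Y p => (1 - 2 * δ / (5 * ((n : ℝ) + 2 * T))) * (LL js χs Y / p ^ 2)
          + 4 * js.card * (1 / (qq lam n T) ^ 2)) Y 1 := by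
      rw [ex_add, ex_smul, ex_const _ (by linarith) T Y 1 hY one_pos]
    rw [e1, e2]
    apply ex_mono_reach (by linarith) hRstep T 0 Y 1 _ hY one_pos
    · intro Y' p' hR' hY' hp'
      rw [zero_add] at hR'
      obtain ⟨h1, h2⟩ := hR'
      refine le_trans (LL_step js ωs χs h hδ0 hδ1 hl hlam1 hlam2 hY' hp') ?_
      have hN : (0 : ℝ) < nb Y' := by exact_mod_cast hY'
      have hq := qq_pos (by linarith : (0 : ℝ) ≤ lam) hY T
      apply add_le_add
      · apply mul_le_mul_of_nonneg_right _ (div_nonneg (LL_nonneg _ _ _) (by positivity))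
        have : 2 * δ / (5 * ((n : ℝ) + 2 * T)) ≤ 2 * δ / (5 * nb Y') :=
          div_le_div_of_nonneg_left (by positivity) (by positivity) (by linarith)
        linarith
      · rw [mul_one_div]
        apply div_le_div_of_nonneg_left (by positivity) (by positivity)
        exact pow_le_pow_left₀ hq.le h2 2
    · refine ⟨?_, ?_⟩
      · simp [hn]
      · simp [qq]
  by_contra hcon
  push Not at hcon
  -- telescoping
  have hc := cc_pos hlam1
  have htel : ∀ S : ℕ, a (T0 + S) + ∑ i ∈ Finset.range S,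
      2 * δ * ε / (5 * ((n : ℝ) + 2 * ((T0 + i : ℕ) : ℝ)))
      ≤ a T0 + 4 * js.card * ∑ i ∈ Finset.range S, 1 / (qq lam n (T0 + i)) ^ 2 := by
    intro S
    induction S with
    | zero => simp
    | succ S ih =>
      rw [Finset.sum_range_succ, Finset.sum_range_succ, mul_add (4 * (js.card : ℝ))]
      have h1 := hstep (T0 + S)
      have h2 : ε < a (T0 + S) := hcon (T0 + S) (by omega)
      have e : (1 - 2 * δ / (5 * ((n : ℝ) + 2 * ((T0 + S : ℕ) : ℝ)))) * a (T0 + S)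
          ≤ a (T0 + S) - 2 * δ * ε / (5 * ((n : ℝ) + 2 * ((T0 + S : ℕ) : ℝ))) := by
        have h3 : 0 ≤ 2 * δ / (5 * ((n : ℝ) + 2 * ((T0 + S : ℕ) : ℝ))) := by positivity
        have h4 := mul_le_mul_of_nonneg_left h2.le h3
        have e4 : 2 * δ / (5 * ((n : ℝ) + 2 * ((T0 + S : ℕ) : ℝ))) * ε
            = 2 * δ * ε / (5 * ((n : ℝ) + 2 * ((T0 + S : ℕ) : ℝ))) := by ring
        rw [e4] at h4
        linarith
      have e5 : T0 + (S + 1) = T0 + S + 1 := by ring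
      rw [e5]
      linarith
  -- the right side is bounded
  have hbd : ∀ S : ℕ, ∑ i ∈ Finset.range S, 1 / (qq lam n (T0 + i)) ^ 2 ≤ n / cc lam := by
    intro S
    have h1 := qq_sum hlam1 hlam2 hY (T0 + S)
    rw [Finset.sum_range_add] at h1
    have h2 : 0 ≤ ∑ i ∈ Finset.range T0, 1 / (qq lam n i) ^ 2 :=
      Finset.sum_nonneg fun i _ => by positivity
    rw [le_div_iff₀ hc]
    nlinarith
  -- the left side diverges
  have hharm := Real.tendsto_sum_range_one_div_nat_succ_atTop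
  set K : ℝ := a T0 + 4 * js.card * (n / cc lam) with hK
  set c0 : ℝ := 2 * δ * ε / (5 * ((n : ℝ) + 2 * T0 + 2)) with hc0
  have hc0pos : 0 < c0 := by rw [hc0]; positivity
  obtain ⟨S, hS⟩ := (hharm.eventually_gt_atTop (K / c0)).exists
  have h1 := htel S
  have h2 : c0 * ∑ i ∈ Finset.range S, (1 : ℝ) / ((i : ℝ) + 1)
      ≤ ∑ i ∈ Finset.range S, 2 * δ * ε / (5 * ((n : ℝ) + 2 * ((T0 + i : ℕ) : ℝ))) := by
    rw [Finset.mul_sum]
    apply Finset.sum_le_sum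
    intro i _
    rw [hc0, div_mul_div_comm, mul_one]
    apply div_le_div_of_nonneg_left (by positivity) (by positivity)
    push_cast
    have hi : (0 : ℝ) ≤ i := Nat.cast_nonneg _
    have hT0 : (0 : ℝ) ≤ T0 := Nat.cast_nonneg _
    nlinarith [mul_nonneg hi hT0]
  have h3 : K < c0 * ∑ i ∈ Finset.range S, (1 : ℝ) / ((i : ℝ) + 1) := by
    rw [div_lt_iff₀ hc0pos] at hS
    linarith
  have h4 := ha_nonneg (T0 + S)
  have h5 : 4 * (js.card : ℝ) * ∑ i ∈ Finset.range S, 1 / (qq lam n (T0 + i)) ^ 2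
      ≤ 4 * js.card * (n / cc lam) := mul_le_mul_of_nonneg_left (hbd S) (by positivity)
  linarith

end Pool.Agent.helper98.Urn
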