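import Mathlib
import Pool.Agent.helper98.UrnModes

set_option autoImplicit false
set_option linter.unusedSectionVars false

open Finset

namespace Pool.Agent.helper98.Urn

variable {m : ℕ} {σ : Fin (m + 3) → ℤ} {lam : ℝ}

open Classical in
/-- indicator of a set of configurations -/
noncomputable def ind (Q : (Fin (m + 3) → ℤ) → Prop) : (Fin (m + 3) → ℤ) → ℝ → ℝ :=
  fun Y _ => if Q Y then 1 else 0

lemma ind_nonneg (Q : (Fin (m + 3) → ℤ) → Prop) (Y : Fin (m + 3) → ℤ) (p : ℝ) :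
    0 ≤ ind Q Y p := by unfold ind; split_ifs <;> norm_num

lemma ind_le_one (Q : (Fin (m + 3) → ℤ) → Prop) (Y : Fin (m + 3) → ℤ) (p : ℝ) :
    ind Q Y p ≤ 1 := by unfold ind; split_ifs <;> norm_num

/-- pointwise inequality behind the second moment method -/
lemma pz_pointwise {t θ M F L C : ℝ} (q : Prop) [Decidable q] (ht : 0 < t) (hθ : 0 < θ)
    (hM : 0 ≤ M) (hF : M ^ 2 ≤ F) (hL : 0 ≤ L) (hC : 0 < C) (hq : q → M ≤ C * L) :
    (if q then (1 : ℝ) else 0) ≤ ((1 + 2 * t * θ + t ^ 2 * θ ^ 2) + (-2 * t) * M)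
        + (t ^ 2 * F + (C / θ) * L) := by
  have hCL : 0 ≤ (C / θ) * L := by positivity
  have hsq : (1 - t * (M - θ)) ^ 2 ≤ (1 + 2 * t * θ + t ^ 2 * θ ^ 2) + (-2 * t) * M
      + t ^ 2 * F := by
    have h1 : (1 - t * (M - θ)) ^ 2 = 1 + 2 * t * θ + t ^ 2 * θ ^ 2 + (-2 * t) * M
        + t ^ 2 * (M ^ 2 - 2 * M * θ) := by ring
    rw [h1]
    have h2 : t ^ 2 * (M ^ 2 - 2 * M * θ) ≤ t ^ 2 * F := by
      apply mul_le_mul_of_nonneg_left _ (by positivity)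
      nlinarith [mul_nonneg hM hθ.le]
    linarith
  have hsq0 : 0 ≤ (1 - t * (M - θ)) ^ 2 := sq_nonneg _
  split_ifs with hq'
  · have h2 : M ≤ C * L := hq hq'
    by_cases hMθ : M ≤ θ
    · have h3 : 1 ≤ (1 - t * (M - θ)) ^ 2 := by
        have h4 : 0 ≤ t * (θ - M) := mul_nonneg ht.le (by linarith)
        nlinarith
      linarith
    · push Not at hMθ
      have h3 : 1 ≤ (C / θ) * L := by
        have h4 : θ ≤ C * L := by linarith
        calc (1 : ℝ) = θ / θ := (div_self hθ.ne').symm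
          _ ≤ (C * L) / θ := div_le_div_of_nonneg_right h4 hθ.le
          _ = _ := by ring
      linarith
  · linarith

/-- final numerical step -/
lemma pz_final {S D x t θ C EM EF EL : ℝ} (hS : 0 < S) (hD : 1 ≤ D)
    (hx : x = 1 / (1600 * (D + 1))) (ht : t = x / S) (hθ : θ = S / 1600) (hC : 0 < C)
    (hEM : S / 800 ≤ EM) (hEF : EF ≤ D * S ^ 2) (hEL : EL ≤ θ * x / (3200 * C)) :
    ((1 + 2 * t * θ + t ^ 2 * θ ^ 2) + (-2 * t) * EM) + (t ^ 2 * EF + (C / θ) * EL)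
      ≤ 1 - x / 3200 := by
  have hx0 : 0 < x := by rw [hx]; positivity
  have hθ0 : 0 < θ := by rw [hθ]; positivity
  have ht0 : 0 < t := by rw [ht]; positivity
  have htS : t * S = x := by rw [ht]; field_simp
  have h1 : -2 * t * EM ≤ - x / 400 := by
    have h := mul_le_mul_of_nonneg_left hEM (by positivity : 0 ≤ 2 * t)
    have e : 2 * t * (S / 800) = x / 400 := by rw [← htS]; ring
    linarith
  have h2 : t ^ 2 * EF ≤ D * x ^ 2 := by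
    have h := mul_le_mul_of_nonneg_left hEF (by positivity : 0 ≤ t ^ 2)
    have e : t ^ 2 * (D * S ^ 2) = D * x ^ 2 := by rw [← htS]; ring
    linarith
  have h3 : C / θ * EL ≤ x / 3200 := by
    have h := mul_le_mul_of_nonneg_left hEL (by positivity : 0 ≤ C / θ)
    have e : C / θ * (θ * x / (3200 * C)) = x / 3200 := by field_simp
    linarith
  have e6 : 2 * t * θ = x / 800 := by rw [hθ, ← htS]; ring
  have e7 : t ^ 2 * θ ^ 2 = x ^ 2 / 1600 ^ 2 := by rw [hθ, ← htS]; ring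
  have h4 : (D + 1) * x ^ 2 = x / 1600 := by
    rw [hx]; field_simp
  rw [e6, e7]
  nlinarith [sq_nonneg x]

lemma F4_init (χ : Fin (m + 3) → ℂ) (hlam1 : 1 < lam) (Y : Fin (m + 3) → ℤ) :
    F4 lam χ Y 1 ≤ (1 + k1 lam + k2 lam) * (Z2 χ Y + nb Y) ^ 2 := by
  have hcc := cc_pos hlam1
  have hk1 : 0 ≤ k1 lam := by unfold k1; positivity
  have hk2 : 0 ≤ k2 lam := by unfold k2; positivity
  have hz0 : 0 ≤ Z2 χ Y := Z2_nonneg χ Y
  unfold F4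
  simp only [one_pow, div_one]
  have h1 : 0 ≤ (nb Y : ℝ) := by positivity
  have e1 : Z2 χ Y ^ 2 ≤ (Z2 χ Y + nb Y) ^ 2 := by nlinarith
  have e2 : (nb Y : ℝ) * Z2 χ Y ≤ (Z2 χ Y + nb Y) ^ 2 := by nlinarith [mul_nonneg hz0 h1]
  have e3 : (nb Y : ℝ) ^ 2 ≤ (Z2 χ Y + nb Y) ^ 2 := by nlinarith
  nlinarith [mul_le_mul_of_nonneg_left e2 hk1, mul_le_mul_of_nonneg_left e3 hk2]

/-- a set of configurations on which the top mode is dominated by the lower modes is avoided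
with probability bounded below, at a suitable time -/
theorem avoid {J : Type} (js : Finset J) (ωs : J → ℂ) (χs : J → Fin (m + 3) → ℂ)
    (h : ∀ j ∈ js, IsChar σ (ωs j) (χs j)) {δ : ℝ} (hδ0 : 0 < δ)
    (hδ1 : δ ≤ 1) (hl : ∀ j ∈ js, 2 * (ωs j).re + δ ≤ lam) (hlam1 : 1 < lam) (hlam2 : lam ≤ 2)
    {ω : ℂ} {χ : Fin (m + 3) → ℂ} (hχ : IsChar σ ω χ) (hlω : 2 * ω.re = lam)
    {C : ℝ} (hC : 0 < C) (Q : (Fin (m + 3) → ℤ) → Prop)
    (hQ : ∀ Y, Q Y → Z2 χ Y ≤ C * LL js χs Y) :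
    ∃ c3 : ℝ, 0 < c3 ∧ ∀ Y, 1 ≤ nb Y → ∃ T, ex lam σ T (ind Q) Y 1 ≤ 1 - c3 := by
  have hcc := cc_pos hlam1
  have hlam0 : 0 ≤ lam := by linarith
  have hk1 : 0 ≤ k1 lam := by unfold k1; positivity
  have hk2 : 0 ≤ k2 lam := by unfold k2; positivity
  obtain ⟨D, hD⟩ : ∃ D : ℝ, D = 1 + k1 lam + k2 lam := ⟨_, rfl⟩
  have hD1 : 1 ≤ D := by rw [hD]; linarith
  obtain ⟨x, hx⟩ : ∃ x : ℝ, x = 1 / (1600 * (D + 1)) := ⟨_, rfl⟩
  have hx0 : 0 < x := by rw [hx]; positivity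
  refine ⟨x / 3200, by positivity, ?_⟩
  intro Y hY
  have hN1 : (1 : ℝ) ≤ nb Y := by exact_mod_cast hY
  have hz0 : 0 ≤ Z2 χ Y := Z2_nonneg χ Y
  obtain ⟨S, hS⟩ : ∃ S : ℝ, S = Z2 χ Y + nb Y := ⟨_, rfl⟩
  have hS0 : 0 < S := by rw [hS]; linarith
  obtain ⟨θ, hθ⟩ : ∃ θ : ℝ, θ = S / 1600 := ⟨_, rfl⟩
  have hθ0 : 0 < θ := by rw [hθ]; positivity
  obtain ⟨T, hT, hTe⟩ := LL_small js ωs χs h hχ.sig hδ0 hδ1 hl hlam1 hlam2 hY
    (ε := θ * x / (3200 * C)) (by positivity) (nb Y / 100 + 1)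
  refine ⟨T, ?_⟩
  obtain ⟨t, ht⟩ : ∃ t : ℝ, t = x / S := ⟨_, rfl⟩
  have ht0 : 0 < t := by rw [ht]; positivity
  obtain ⟨K, hK⟩ : ∃ K : ℝ, K = 1 + 2 * t * θ + t ^ 2 * θ ^ 2 := ⟨_, rfl⟩
  -- pointwise bound
  have hpt : ∀ (Y : Fin (m + 3) → ℤ) (p : ℝ), 1 ≤ nb Y → 0 < p →
      ind Q Y p ≤ (K + (-2 * t) * (Z2 χ Y / p ^ 2))
        + (t ^ 2 * F4 lam χ Y p + (C / θ) * (LL js χs Y / p ^ 2)) := by
    intro Y p hY hp
    have hM0 : 0 ≤ Z2 χ Y / p ^ 2 := div_nonneg (Z2_nonneg _ _) (by positivity)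
    have hL0 : 0 ≤ LL js χs Y / p ^ 2 := div_nonneg (LL_nonneg _ _ _) (by positivity)
    have hF4 : (Z2 χ Y / p ^ 2) ^ 2 ≤ F4 lam χ Y p := by
      unfold F4
      have h1 : 0 ≤ k1 lam * ((nb Y / p ^ 2) * (Z2 χ Y / p ^ 2)) := by positivity
      have h2 : 0 ≤ k2 lam * (nb Y / p ^ 2) ^ 2 := by positivity
      linarith
    rw [hK]
    unfold ind
    have hq' : Q Y → Z2 χ Y / p ^ 2 ≤ C * (LL js χs Y / p ^ 2) := by
      intro hq
      have h1 := hQ Y hq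
      rw [mul_div_assoc']
      exact div_le_div_of_nonneg_right h1 (by positivity)
    classical
    exact pz_pointwise (Q Y) ht0 hθ0 hM0 hF4 hL0 hC hq'
  have hmono := ex_mono (lam := lam) (σ := σ) hlam0 hpt T Y 1 hY one_pos
  refine le_trans hmono ?_
  have hsplit : ex lam σ T (fun Y p => (K + (-2 * t) * (Z2 χ Y / p ^ 2))
        + (t ^ 2 * F4 lam χ Y p + (C / θ) * (LL js χs Y / p ^ 2))) Y 1
      = (K + (-2 * t) * ex lam σ T (fun Y p => Z2 χ Y / p ^ 2) Y 1)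
        + (t ^ 2 * ex lam σ T (fun Y p => F4 lam χ Y p) Y 1
          + (C / θ) * ex lam σ T (fun Y p => LL js χs Y / p ^ 2) Y 1) := by
    rw [ex_add (fun Y p => K + (-2 * t) * (Z2 χ Y / p ^ 2)) (fun Y p => t ^ 2 * F4 lam χ Y p
          + (C / θ) * (LL js χs Y / p ^ 2)),
      ex_add (fun _ _ => K) (fun Y p => (-2 * t) * (Z2 χ Y / p ^ 2)),
      ex_add (fun Y p => t ^ 2 * F4 lam χ Y p) (fun Y p => (C / θ) * (LL js χs Y / p ^ 2)),
      ex_smul (-2 * t) (fun Y p => Z2 χ Y / p ^ 2), ex_smul (t ^ 2) (fun Y p => F4 lam χ Y p),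
      ex_smul (C / θ) (fun Y p => LL js χs Y / p ^ 2),
      ex_const _ hlam0 T Y 1 hY one_pos]
  rw [hsplit, hK]
  have hlow := M_low hχ hlω hlam1 hlam2 hY hT
  rw [← hS] at hlow
  have hF : ex lam σ T (fun Y p => F4 lam χ Y p) Y 1 ≤ F4 lam χ Y 1 :=
    ex_of_super hlam0 (fun Y p hY hp => F4_super hχ hlω hlam1 hlam2 hY hp) T Y 1 hY one_pos
  have hF1 : F4 lam χ Y 1 ≤ D * S ^ 2 := by
    rw [hD, hS]; exact F4_init χ hlam1 Y
  exact pz_final hS0 hD1 hx ht hθ hC hlow (hF.trans hF1) hTe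

end Pool.Agent.helper98.Urn
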