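import Mathlib
import Pool.Agent.helper98.UrnAvoid

set_option autoImplicit false
set_option linter.unusedSectionVars false

open Finset

namespace Pool.Agent.helper98.Urn

variable {m : ℕ}

/-- edge signs: `1` except for the last edge -/
def sg (τ : ℤ) (v : Fin (m + 3)) : ℤ := if v = Fin.last (m + 2) then τ else 1

lemma isChar_pow {τ : ℤ} (hτ : τ = 1 ∨ τ = -1) {ω : ℂ} (hn : Complex.normSq ω = 1)
    (hk : ω ^ (m + 3) = (τ : ℂ)) :
    IsChar (m := m) (sg τ) ω (fun v => ω ^ (v : ℕ)) := by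
  refine ⟨?_, ?_, ?_, hn⟩
  · intro v; unfold sg; split_ifs
    · exact hτ
    · left; rfl
  · intro v
    unfold sg
    by_cases hv : v = Fin.last (m + 2)
    · rw [if_pos hv, hv, Fin.last_add_one]
      simp only [Fin.val_zero, pow_zero, mul_one, Fin.val_last]
      rw [← hk, pow_succ' ω (m + 2)]
    · rw [if_neg hv]
      have h1 : ((v + 1 : Fin (m + 3)) : ℕ) = (v : ℕ) + 1 := by
        apply Fin.val_add_one_of_lt
        exact lt_of_le_of_ne (Fin.le_last v) hv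
      rw [h1, pow_succ']
      simp
  · intro v
    rw [map_pow, hn, one_pow]

/-- primitive root of unity -/
noncomputable def zt (m : ℕ) : ℂ := Complex.exp (2 * Real.pi * Complex.I / (m + 3 : ℕ))

lemma zt_prim (m : ℕ) : IsPrimitiveRoot (zt m) (m + 3) :=
  Complex.isPrimitiveRoot_exp (m + 3) (by omega)

lemma normSq_of_pow_eq_one {z : ℂ} {n : ℕ} (hn : n ≠ 0) (h : z ^ n = 1) :
    Complex.normSq z = 1 := by
  have h1 : ‖z‖ = 1 := Complex.norm_eq_one_of_pow_eq_one h hn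
  rw [Complex.normSq_eq_norm_sq, h1]; norm_num

lemma zt_normSq (m : ℕ) : Complex.normSq (zt m) = 1 :=
  normSq_of_pow_eq_one (by omega) (zt_prim m).pow_eq_one

/-- orthogonality -/
lemma orth {ω0 : ℂ} (h0 : Complex.normSq ω0 = 1) (u v : Fin (m + 3)) :
    ∑ j ∈ range (m + 3), (ω0 * zt m ^ j) ^ (u : ℕ) * (starRingEnd ℂ) ((ω0 * zt m ^ j) ^ (v : ℕ))
      = if u = v then ((m + 3 : ℕ) : ℂ) else 0 := by
  have hz := zt_normSq m
  have hmul : ∀ z : ℂ, Complex.normSq z = 1 → z * (starRingEnd ℂ) z = 1 := by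
    intro z hz; rw [Complex.mul_conj, hz]; simp
  by_cases huv : u = v
  · subst huv
    rw [if_pos rfl]
    have : ∀ j ∈ range (m + 3),
        (ω0 * zt m ^ j) ^ (u : ℕ) * (starRingEnd ℂ) ((ω0 * zt m ^ j) ^ (u : ℕ)) = 1 := by
      intro j _
      apply hmul
      rw [map_pow, map_mul, map_pow, h0, hz]; simp
    rw [Finset.sum_congr rfl this]
    simp
  · rw [if_neg huv]
    set z : ℂ := zt m ^ (u : ℕ) * (starRingEnd ℂ) (zt m) ^ (v : ℕ) with hzdef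
    have hterm : ∀ j, (ω0 * zt m ^ j) ^ (u : ℕ) * (starRingEnd ℂ) ((ω0 * zt m ^ j) ^ (v : ℕ))
        = (ω0 ^ (u : ℕ) * (starRingEnd ℂ) ω0 ^ (v : ℕ)) * z ^ j := by
      intro j
      rw [hzdef, map_pow, map_mul, map_pow, mul_pow, mul_pow, mul_pow, ← pow_mul, ← pow_mul,
        ← pow_mul, ← pow_mul, mul_comm j, mul_comm j]
      ring
    simp only [hterm]
    rw [← Finset.mul_sum]
    have hz1 : z ≠ 1 := by
      intro h1
      apply huv
      have h2 : zt m ^ (u : ℕ) = zt m ^ (v : ℕ) := by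
        have h3 : (starRingEnd ℂ) (zt m) ^ (v : ℕ) * zt m ^ (v : ℕ) = 1 := by
          rw [← mul_pow, mul_comm, hmul _ hz, one_pow]
        calc zt m ^ (u : ℕ) = zt m ^ (u : ℕ) * ((starRingEnd ℂ) (zt m) ^ (v : ℕ)
              * zt m ^ (v : ℕ)) := by rw [h3, mul_one]
          _ = z * zt m ^ (v : ℕ) := by rw [hzdef]; ring
          _ = zt m ^ (v : ℕ) := by rw [h1, one_mul]
      exact Fin.ext ((zt_prim m).pow_inj u.2 v.2 h2)
    have hzk : z ^ (m + 3) = 1 := by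
      rw [hzdef, mul_pow, ← pow_mul, ← pow_mul, mul_comm (u : ℕ), mul_comm (v : ℕ), pow_mul,
        pow_mul, (zt_prim m).pow_eq_one, one_pow, one_mul, ← map_pow, (zt_prim m).pow_eq_one,
        map_one, one_pow]
    have hgeom : ∑ j ∈ range (m + 3), z ^ j = 0 := by
      rw [geom_sum_eq hz1, hzk, sub_self, zero_div]
    rw [hgeom, mul_zero]

/-- the modes -/
noncomputable def ch (ω0 : ℂ) (m : ℕ) (j : ℕ) : Fin (m + 3) → ℂ :=
  fun v => (ω0 * zt m ^ j) ^ (v : ℕ)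

lemma ch_isChar {τ : ℤ} (hτ : τ = 1 ∨ τ = -1) {ω0 : ℂ} (h0 : Complex.normSq ω0 = 1)
    (hk : ω0 ^ (m + 3) = (τ : ℂ)) (j : ℕ) :
    IsChar (m := m) (sg τ) (ω0 * zt m ^ j) (ch ω0 m j) := by
  apply isChar_pow hτ
  · rw [map_mul, map_pow, h0, zt_normSq]; simp
  · rw [mul_pow, hk, ← pow_mul, mul_comm j, pow_mul, (zt_prim m).pow_eq_one, one_pow, mul_one]

/-- Fourier inversion -/
lemma inversion {ω0 : ℂ} (h0 : Complex.normSq ω0 = 1) (Y : Fin (m + 3) → ℤ) (v : Fin (m + 3)) :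
    ((m + 3 : ℕ) : ℂ) * (Y v : ℂ)
      = ∑ j ∈ range (m + 3), Zf (ch ω0 m j) Y * (starRingEnd ℂ) (ch ω0 m j v) := by
  have h1 : ∀ j, Zf (ch ω0 m j) Y * (starRingEnd ℂ) (ch ω0 m j v)
      = ∑ u, (Y u : ℂ) * ((ω0 * zt m ^ j) ^ (u : ℕ)
        * (starRingEnd ℂ) ((ω0 * zt m ^ j) ^ (v : ℕ))) := by
    intro j
    unfold Zf ch
    rw [Finset.sum_mul]
    apply Finset.sum_congr rfl
    intro u _; ring
  simp only [h1]
  rw [Finset.sum_comm]
  simp only [← Finset.mul_sum, orth h0]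
  simp only [mul_ite, mul_zero, Finset.sum_ite_eq', Finset.mem_univ, if_true]
  ring

lemma exists_gap (js : Finset ℕ) (f : ℕ → ℝ) (lam : ℝ) (h : ∀ j ∈ js, f j < lam) :
    ∃ δ : ℝ, 0 < δ ∧ δ ≤ 1 ∧ ∀ j ∈ js, f j + δ ≤ lam := by
  induction js using Finset.induction_on with
  | empty => exact ⟨1, one_pos, le_refl _, by simp⟩
  | insert a s ha ih =>
    obtain ⟨δ, h1, h2, h3⟩ := ih (fun j hj => h j (Finset.mem_insert_of_mem hj))
    have h4 : f a < lam := h a (Finset.mem_insert_self _ _)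
    refine ⟨min δ (lam - f a), lt_min h1 (by linarith), (min_le_left _ _).trans h2, ?_⟩
    intro j hj
    rw [Finset.mem_insert] at hj
    rcases hj with rfl | hj
    · have := min_le_right δ (lam - f j); linarith
    · have := min_le_left δ (lam - f a)
      have := h3 j hj; linarith

/-- error bound -/
lemma err_sq (js : Finset ℕ) (χs : ℕ → Fin (m + 3) → ℂ) (Y : Fin (m + 3) → ℤ) :
    (∑ j ∈ js, ‖Zf (χs j) Y‖) ^ 2 ≤ js.card * LL js χs Y := by
  unfold LL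
  simp only [Z2_eq_norm]
  exact sq_sum_le_card_mul_sum_sq

lemma norm_char {σ : Fin (m + 3) → ℤ} {ω : ℂ} {χ : Fin (m + 3) → ℂ} (h : IsChar σ ω χ)
    (v : Fin (m + 3)) : ‖χ v‖ = 1 := by
  have h3 := h.norm_chi v
  rw [Complex.normSq_eq_norm_sq] at h3
  have h4 : 0 ≤ ‖χ v‖ := norm_nonneg _
  nlinarith

lemma err_bound {σ : Fin (m + 3) → ℤ} (js : Finset ℕ) (ωs : ℕ → ℂ) (χs : ℕ → Fin (m + 3) → ℂ)
    (h : ∀ j ∈ js, IsChar σ (ωs j) (χs j)) (Y : Fin (m + 3) → ℤ) (v : Fin (m + 3)) :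
    |(∑ j ∈ js, Zf (χs j) Y * (starRingEnd ℂ) (χs j v)).re| ≤ ∑ j ∈ js, ‖Zf (χs j) Y‖ := by
  refine le_trans (Complex.abs_re_le_norm _) ?_
  refine le_trans (norm_sum_le _ _) ?_
  apply le_of_eq
  apply Finset.sum_congr rfl
  intro j hj
  rw [norm_mul, Complex.norm_conj, norm_char (h j hj), mul_one]

/-- sign pattern: both weak signs occur -/
def Qp (Y : Fin (m + 3) → ℤ) : Prop := ∃ p q, 0 ≤ Y p ∧ Y q ≤ 0

/-- sign pattern: two weak sign changes along the line -/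
def Qm (Y : Fin (m + 3) → ℤ) : Prop :=
  ∃ s : ℤ, (s = 1 ∨ s = -1) ∧ ∃ p q r : Fin (m + 3), p < q ∧ q < r ∧
    0 ≤ s * Y p ∧ s * Y q ≤ 0 ∧ 0 ≤ s * Y r

theorem avoid_even (m : ℕ) : ∃ c3 : ℝ, 0 < c3 ∧ ∀ Y : Fin (m + 3) → ℤ, 1 ≤ nb Y →
    ∃ T, ex 2 (sg 1) T (ind Qp) Y 1 ≤ 1 - c3 := by
  set js : Finset ℕ := (range (m + 3)).erase 0 with hjs
  have hchar : ∀ j, IsChar (m := m) (sg 1) (1 * zt m ^ j) (ch 1 m j) :=
    fun j => ch_isChar (Or.inl rfl) (by simp) (by simp) j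
  have hgap : ∀ j ∈ js, 2 * (1 * zt m ^ j).re < 2 := by
    intro j hj
    rw [hjs, Finset.mem_erase, Finset.mem_range] at hj
    rw [one_mul]
    have h1 : zt m ^ j ≠ 1 := by
      intro h2
      have h3 := (zt_prim m).dvd_of_pow_eq_one _ h2
      have h4 := Nat.le_of_dvd (Nat.pos_of_ne_zero hj.1) h3
      omega
    have h2 : Complex.normSq (zt m ^ j) = 1 := by rw [map_pow, zt_normSq, one_pow]
    rw [Complex.normSq_apply] at h2
    by_contra hcon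
    push Not at hcon
    have h3 : 1 ≤ (zt m ^ j).re := by linarith
    have h4 : (zt m ^ j).re = 1 := by nlinarith [mul_self_nonneg (zt m ^ j).im]
    have h5 : (zt m ^ j).im = 0 := by
      rw [h4] at h2
      have : (zt m ^ j).im * (zt m ^ j).im = 0 := by linarith
      exact mul_self_eq_zero.1 this
    exact h1 (Complex.ext (by simp [h4]) (by simp [h5]))
  obtain ⟨δ, hδ0, hδ1, hδ⟩ := exists_gap js (fun j => 2 * (1 * zt m ^ j).re) 2 hgap
  have hcard : (js.card : ℝ) ≤ m + 3 := by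
    have : js.card ≤ m + 3 := by
      rw [hjs]; refine le_trans (Finset.card_erase_le) ?_; simp
    exact_mod_cast this
  refine avoid js (fun j => 1 * zt m ^ j) (fun j => ch 1 m j) (fun j _ => hchar j) hδ0 hδ1 hδ
    (by norm_num) (by norm_num) (hchar 0) (by simp) (C := (m : ℝ) + 3) (by positivity) Qp ?_
  intro Y hQ
  obtain ⟨p, q, hp, hq⟩ := hQ
  set e : ℝ := ∑ j ∈ js, ‖Zf (ch 1 m j) Y‖ with he
  have he0 : 0 ≤ e := Finset.sum_nonneg fun _ _ => norm_nonneg _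
  have hch0 : ch 1 m 0 = fun _ => (1 : ℂ) := by funext v; simp [ch]
  have hZ0 : Zf (ch 1 m 0) Y = (((∑ v, (Y v : ℝ)) : ℝ) : ℂ) := by
    rw [hch0]; unfold Zf; push_cast; simp
  set z : ℝ := ∑ v, (Y v : ℝ) with hz
  have hZ2 : Z2 (ch 1 m 0) Y = z ^ 2 := by
    unfold Z2; rw [hZ0, Complex.normSq_ofReal]; ring
  have hinv : ∀ v, |((m : ℝ) + 3) * Y v - z| ≤ e := by
    intro v
    have h1 := inversion (m := m) (ω0 := 1) (by simp) Y v
    rw [← Finset.add_sum_erase (range (m + 3)) _ (Finset.mem_range.2 (Nat.succ_pos (m + 2)))] at h1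
    rw [← hjs] at h1
    have h2 := congrArg Complex.re h1
    rw [Complex.add_re] at h2
    have h3 : (((m + 3 : ℕ) : ℂ) * (Y v : ℂ)).re = ((m : ℝ) + 3) * Y v := by
      have : (((m + 3 : ℕ) : ℂ) * (Y v : ℂ)) = ((((m : ℝ) + 3) * Y v : ℝ) : ℂ) := by push_cast; ring
      rw [this, Complex.ofReal_re]
    have h4 : (Zf (ch 1 m 0) Y * (starRingEnd ℂ) (ch 1 m 0 v)).re = z := by
      rw [hZ0, hch0]; simp
    rw [h3, h4] at h2
    rw [h2, add_sub_cancel_left]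
    exact err_bound js (fun j => 1 * zt m ^ j) (fun j => ch 1 m j) (fun j _ => hchar j) Y v
  have h1 := abs_le.1 (hinv p)
  have h2 := abs_le.1 (hinv q)
  have hm3 : (0 : ℝ) < (m : ℝ) + 3 := by positivity
  have hp' : (0 : ℝ) ≤ ((m : ℝ) + 3) * Y p := by
    have : (0 : ℝ) ≤ Y p := by exact_mod_cast hp
    positivity
  have hq' : ((m : ℝ) + 3) * Y q ≤ 0 := by
    have : (Y q : ℝ) ≤ 0 := by exact_mod_cast hq
    nlinarith
  have h3 : z ^ 2 ≤ e ^ 2 := by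
    apply sq_le_sq'
    · linarith
    · linarith
  have h4 := err_sq js (fun j => ch 1 m j) Y
  have h5 := LL_nonneg js (fun j => ch 1 m j) Y
  calc Z2 (ch 1 m 0) Y = z ^ 2 := hZ2
    _ ≤ e ^ 2 := h3
    _ ≤ js.card * LL js (fun j => ch 1 m j) Y := h4
    _ ≤ _ := mul_le_mul_of_nonneg_right hcard h5

/-! ### the twisted case -/

/-- `exp (iπ/k)` -/
noncomputable def w0 (m : ℕ) : ℂ := Complex.exp (((Real.pi / (m + 3 : ℕ) : ℝ) : ℂ) * Complex.I)

lemma w0_normSq (m : ℕ) : Complex.normSq (w0 m) = 1 := by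
  unfold w0
  rw [Complex.normSq_eq_norm_sq, Complex.norm_exp_ofReal_mul_I, one_pow]

lemma w0_pow (m : ℕ) : w0 m ^ (m + 3) = ((-1 : ℤ) : ℂ) := by
  unfold w0
  rw [← Complex.exp_nat_mul]
  have : ((m + 3 : ℕ) : ℂ) * ((((Real.pi / (m + 3 : ℕ) : ℝ)) : ℂ) * Complex.I)
      = Real.pi * Complex.I := by
    push_cast
    have : (m : ℂ) + 3 ≠ 0 := by
      have h : ((m + 3 : ℕ) : ℂ) ≠ 0 := by
        rw [Nat.cast_ne_zero]; omega
      push_cast at h; exact h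
    field_simp
  rw [this, Complex.exp_pi_mul_I]
  simp

lemma w0_zt (m j : ℕ) : w0 m * zt m ^ j
    = Complex.exp (((Real.pi * (2 * j + 1) / (m + 3 : ℕ) : ℝ) : ℂ) * Complex.I) := by
  unfold w0 zt
  rw [← Complex.exp_nat_mul, ← Complex.exp_add]
  congr 1
  push_cast
  ring

lemma w0_zt_re (m j : ℕ) : (w0 m * zt m ^ j).re = Real.cos (Real.pi * (2 * j + 1) / (m + 3 : ℕ)) := by
  rw [w0_zt, Complex.exp_ofReal_mul_I_re]

lemma w0_zt_last (m : ℕ) : w0 m * zt m ^ (m + 2) = (starRingEnd ℂ) (w0 m) := by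
  have h1 : w0 m * zt m ^ (m + 2) = (starRingEnd ℂ) (w0 m) * (w0 m * w0 m) * zt m ^ (m + 2) := by
    have : (starRingEnd ℂ) (w0 m) * w0 m = 1 := by
      rw [mul_comm, Complex.mul_conj, w0_normSq]; simp
    rw [← mul_assoc, this, one_mul]
  have h2 : w0 m * w0 m = zt m := by
    unfold w0 zt
    rw [← Complex.exp_add]
    congr 1
    push_cast
    ring
  rw [h1, h2, mul_assoc, ← pow_succ', (zt_prim m).pow_eq_one, mul_one]

lemma cos_lt_of {k j : ℕ} (hk : 3 ≤ k) (hj1 : 1 ≤ j) (hj2 : j ≤ k - 2) :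
    Real.cos (Real.pi * (2 * j + 1) / k) < Real.cos (Real.pi / k) := by
  have hk0 : (0 : ℝ) < k := by
    have : (3 : ℝ) ≤ k := by exact_mod_cast hk
    linarith
  have hpi := Real.pi_pos
  have h1 : Real.cos (Real.pi / k) - Real.cos (Real.pi * (2 * j + 1) / k)
      = 2 * Real.sin (Real.pi * (j + 1) / k) * Real.sin (Real.pi * j / k) := by
    rw [Real.cos_sub_cos]
    have e1 : (Real.pi / k + Real.pi * (2 * j + 1) / k) / 2 = Real.pi * (j + 1) / k := by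
      field_simp; ring
    have e2 : (Real.pi / k - Real.pi * (2 * j + 1) / k) / 2 = -(Real.pi * j / k) := by
      field_simp; ring
    rw [e1, e2, Real.sin_neg]; ring
  have hj1' : (1 : ℝ) ≤ j := by exact_mod_cast hj1
  have hj2' : (j : ℝ) + 2 ≤ k := by
    have : j + 2 ≤ k := by omega
    exact_mod_cast this
  have h2 : 0 < Real.sin (Real.pi * (j + 1) / k) := by
    apply Real.sin_pos_of_pos_of_lt_pi
    · positivity
    · rw [div_lt_iff₀ hk0]
      nlinarith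
  have h3 : 0 < Real.sin (Real.pi * j / k) := by
    apply Real.sin_pos_of_pos_of_lt_pi
    · positivity
    · rw [div_lt_iff₀ hk0]
      nlinarith
  have h4 : 0 < 2 * Real.sin (Real.pi * (j + 1) / k) * Real.sin (Real.pi * j / k) := by positivity
  linarith

/-- `sin (θ d) ≥ sin θ` for `1 ≤ d ≤ k - 1`, `θ = π / k` -/
lemma sin_ge {k d : ℕ} (hk : 3 ≤ k) (hd1 : 1 ≤ d) (hd2 : d + 1 ≤ k) :
    Real.sin (Real.pi / k) ≤ Real.sin (Real.pi / k * d) := by
  have hk3 : (3 : ℝ) ≤ k := by exact_mod_cast hk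
  have hk0 : (0 : ℝ) < k := by linarith
  have hpi := Real.pi_pos
  have hd1' : (1 : ℝ) ≤ d := by exact_mod_cast hd1
  have hd2' : (d : ℝ) + 1 ≤ k := by exact_mod_cast hd2
  have hθ0 : 0 < Real.pi / k := by positivity
  have hθk : Real.pi / k * k = Real.pi := by field_simp
  have hθ2 : Real.pi / k ≤ Real.pi / 2 := div_le_div_of_nonneg_left hpi.le (by norm_num) (by linarith)
  by_cases h : Real.pi / k * d ≤ Real.pi / 2
  · apply Real.sin_le_sin_of_le_of_le_pi_div_two (by linarith) h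
    nlinarith
  · push Not at h
    rw [← Real.sin_pi_sub (Real.pi / k * d)]
    apply Real.sin_le_sin_of_le_of_le_pi_div_two (by linarith) (by linarith)
    nlinarith

lemma core1 {A B D fp fq fr e s0 : ℝ} (he : 0 ≤ e) (hs0 : 0 < s0) (hA : s0 ≤ A) (hA1 : A ≤ 1)
    (hB : s0 ≤ B) (hB1 : B ≤ 1) (hD : s0 ≤ D) (hD1 : D ≤ 1) (hid : D * fq = A * fp + B * fr)
    (hp : -e ≤ fp) (hq : fq ≤ e) (hr : -e ≤ fr) : s0 * |fp| ≤ 2 * e ∧ s0 * |fr| ≤ 2 * e := by
  have hs01 : s0 ≤ 1 := hA.trans hA1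
  have h1 : D * fq ≤ e := by
    have : D * fq ≤ D * e := mul_le_mul_of_nonneg_left hq (by linarith)
    have : D * e ≤ 1 * e := mul_le_mul_of_nonneg_right hD1 he
    linarith
  have h2 : -e ≤ A * fp := by
    have h3 : A * (-e) ≤ A * fp := mul_le_mul_of_nonneg_left hp (by linarith)
    have h4 : A * e ≤ 1 * e := mul_le_mul_of_nonneg_right hA1 he
    linarith
  have h3 : -e ≤ B * fr := by
    have h3 : B * (-e) ≤ B * fr := mul_le_mul_of_nonneg_left hr (by linarith)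
    have h4 : B * e ≤ 1 * e := mul_le_mul_of_nonneg_right hB1 he
    linarith
  have hAp : A * fp ≤ 2 * e := by linarith
  have hBr : B * fr ≤ 2 * e := by linarith
  constructor
  · rcases le_total 0 fp with h | h
    · rw [abs_of_nonneg h]
      have : s0 * fp ≤ A * fp := mul_le_mul_of_nonneg_right hA h
      linarith
    · rw [abs_of_nonpos h]
      have h5 : s0 * (-fp) ≤ 1 * (-fp) := mul_le_mul_of_nonneg_right hs01 (by linarith)
      linarith
  · rcases le_total 0 fr with h | h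
    · rw [abs_of_nonneg h]
      have : s0 * fr ≤ B * fr := mul_le_mul_of_nonneg_right hB h
      linarith
    · rw [abs_of_nonpos h]
      have h5 : s0 * (-fr) ≤ 1 * (-fr) := mul_le_mul_of_nonneg_right hs01 (by linarith)
      linarith

lemma core2 {fp fr e s0 : ℝ} (hs0 : 0 < s0)
    (hfp : s0 * |fp| ≤ 2 * e) (hfr : s0 * |fr| ≤ 2 * e) :
    s0 ^ 2 * fp ^ 2 ≤ 4 * e ^ 2 ∧ s0 ^ 2 * fr ^ 2 ≤ 4 * e ^ 2 := by
  constructor
  · have : (s0 * |fp|) ^ 2 ≤ (2 * e) ^ 2 := pow_le_pow_left₀ (by positivity) hfp 2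
    rw [mul_pow, sq_abs] at this; linarith
  · have : (s0 * |fr|) ^ 2 ≤ (2 * e) ^ 2 := pow_le_pow_left₀ (by positivity) hfr 2
    rw [mul_pow, sq_abs] at this; linarith

lemma core3 {a b D fp fr sR cR sP cP : ℝ} (hR : sR ^ 2 + cR ^ 2 = 1) (hP : sP ^ 2 + cP ^ 2 = 1)
    (haD : a * D = fp * sR - fr * sP) (hbD : b * D = fr * cP - fp * cR) :
    (a ^ 2 + b ^ 2) * D ^ 2 ≤ 2 * fp ^ 2 + 2 * fr ^ 2 := by
  have e1 : (a ^ 2 + b ^ 2) * D ^ 2 = (a * D) ^ 2 + (b * D) ^ 2 := by ring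
  rw [e1, haD, hbD]
  have e2 : (fp * sR - fr * sP) ^ 2 + (fr * cP - fp * cR) ^ 2
      ≤ 2 * (fp ^ 2 * (sR ^ 2 + cR ^ 2)) + 2 * (fr ^ 2 * (sP ^ 2 + cP ^ 2)) := by
    nlinarith [sq_nonneg (fp * sR + fr * sP), sq_nonneg (fr * cP + fp * cR)]
  rw [hR, hP] at e2
  linarith

/-- the trigonometric core: a wave of wavelength `2k` with two weak sign changes up to an error
`e` has amplitude `O(e)` -/
lemma trig_core {θ a b e s0 P Q R : ℝ} (he : 0 ≤ e) (hs0 : 0 < s0)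
    (h1 : s0 ≤ Real.sin (θ * (Q - P))) (h2 : s0 ≤ Real.sin (θ * (R - Q)))
    (h3 : s0 ≤ Real.sin (θ * (R - P)))
    (hp : -e ≤ a * Real.cos (θ * P) + b * Real.sin (θ * P))
    (hq : a * Real.cos (θ * Q) + b * Real.sin (θ * Q) ≤ e)
    (hr : -e ≤ a * Real.cos (θ * R) + b * Real.sin (θ * R)) :
    a ^ 2 + b ^ 2 ≤ 32 * e ^ 2 / s0 ^ 4 := by
  obtain ⟨fp, hfp⟩ : ∃ f, f = a * Real.cos (θ * P) + b * Real.sin (θ * P) := ⟨_, rfl⟩
  obtain ⟨fq, hfq⟩ : ∃ f, f = a * Real.cos (θ * Q) + b * Real.sin (θ * Q) := ⟨_, rfl⟩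
  obtain ⟨fr, hfr⟩ : ∃ f, f = a * Real.cos (θ * R) + b * Real.sin (θ * R) := ⟨_, rfl⟩
  rw [← hfp] at hp
  rw [← hfq] at hq
  rw [← hfr] at hr
  have hA : Real.sin (θ * (R - Q)) = Real.sin (θ * R) * Real.cos (θ * Q)
      - Real.cos (θ * R) * Real.sin (θ * Q) := by rw [mul_sub, Real.sin_sub]
  have hB : Real.sin (θ * (Q - P)) = Real.sin (θ * Q) * Real.cos (θ * P)
      - Real.cos (θ * Q) * Real.sin (θ * P) := by rw [mul_sub, Real.sin_sub]
  have hD : Real.sin (θ * (R - P)) = Real.sin (θ * R) * Real.cos (θ * P)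
      - Real.cos (θ * R) * Real.sin (θ * P) := by rw [mul_sub, Real.sin_sub]
  have hA1 := Real.sin_le_one (θ * (R - Q))
  have hB1 := Real.sin_le_one (θ * (Q - P))
  have hD1 := Real.sin_le_one (θ * (R - P))
  have hsR := Real.sin_sq_add_cos_sq (θ * R)
  have hsP := Real.sin_sq_add_cos_sq (θ * P)
  obtain ⟨A, hAd⟩ : ∃ A, A = Real.sin (θ * (R - Q)) := ⟨_, rfl⟩
  obtain ⟨B, hBd⟩ : ∃ B, B = Real.sin (θ * (Q - P)) := ⟨_, rfl⟩
  obtain ⟨D, hDd⟩ : ∃ D, D = Real.sin (θ * (R - P)) := ⟨_, rfl⟩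
  rw [← hAd] at hA hA1 h2
  rw [← hBd] at hB hB1 h1
  rw [← hDd] at hD hD1 h3
  have hid : D * fq = A * fp + B * fr := by
    rw [hA, hB, hD, hfp, hfq, hfr]; ring
  have haD : a * D = fp * Real.sin (θ * R) - fr * Real.sin (θ * P) := by
    rw [hD, hfp, hfr]; ring
  have hbD : b * D = fr * Real.cos (θ * P) - fp * Real.cos (θ * R) := by
    rw [hD, hfp, hfr]; ring
  have hc1 := core1 he hs0 h2 hA1 h1 hB1 h3 hD1 hid hp hq hr
  have hc2 := core2 hs0 hc1.1 hc1.2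
  have hsum := core3 hsR hsP haD hbD
  have hD2 : s0 ^ 2 ≤ D ^ 2 := pow_le_pow_left₀ hs0.le h3 2
  rw [le_div_iff₀ (by positivity)]
  have hab : 0 ≤ a ^ 2 + b ^ 2 := by positivity
  calc (a ^ 2 + b ^ 2) * s0 ^ 4 = ((a ^ 2 + b ^ 2) * s0 ^ 2) * s0 ^ 2 := by ring
    _ ≤ ((a ^ 2 + b ^ 2) * D ^ 2) * s0 ^ 2 :=
        mul_le_mul_of_nonneg_right (mul_le_mul_of_nonneg_left hD2 hab) (by positivity)
    _ ≤ (2 * fp ^ 2 + 2 * fr ^ 2) * s0 ^ 2 := mul_le_mul_of_nonneg_right hsum (by positivity)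
    _ = 2 * (s0 ^ 2 * fp ^ 2) + 2 * (s0 ^ 2 * fr ^ 2) := by ring
    _ ≤ 32 * e ^ 2 := by linarith [hc2.1, hc2.2, sq_nonneg e]

theorem avoid_odd (m : ℕ) (hm : 1 ≤ m) : ∃ c3 : ℝ, 0 < c3 ∧ ∀ Y : Fin (m + 3) → ℤ, 1 ≤ nb Y →
    ∃ T, ex (2 * Real.cos (Real.pi / (m + 3 : ℕ))) (sg (-1)) T (ind Qm) Y 1 ≤ 1 - c3 := by
  have hpi := Real.pi_pos
  set θ : ℝ := Real.pi / (m + 3 : ℕ) with hθ
  set js : Finset ℕ := ((range (m + 3)).erase 0).erase (m + 2) with hjs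
  have hchar : ∀ j, IsChar (m := m) (sg (-1)) (w0 m * zt m ^ j) (ch (w0 m) m j) :=
    fun j => ch_isChar (Or.inr rfl) (w0_normSq m) (w0_pow m) j
  have htop : (w0 m * zt m ^ 0).re = Real.cos θ := by
    rw [w0_zt_re]; congr 1; simp [hθ]
  have hgap : ∀ j ∈ js, 2 * (w0 m * zt m ^ j).re < 2 * Real.cos θ := by
    intro j hj
    rw [hjs, Finset.mem_erase, Finset.mem_erase, Finset.mem_range] at hj
    rw [w0_zt_re]
    have := cos_lt_of (k := m + 3) (j := j) (by omega) (by omega) (by omega)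
    rw [← hθ] at this
    linarith
  obtain ⟨δ, hδ0, hδ1, hδ⟩ := exists_gap js (fun j => 2 * (w0 m * zt m ^ j).re) _ hgap
  have hm1 : (1 : ℝ) ≤ m := by exact_mod_cast hm
  have hk4 : (4 : ℝ) ≤ ((m + 3 : ℕ) : ℝ) := by push_cast; linarith
  have hθ0 : 0 < θ := by rw [hθ]; positivity
  have hθ3 : θ < Real.pi / 3 := by
    rw [hθ]; apply div_lt_div_of_pos_left hpi (by norm_num) (by linarith)
  have hlam1 : 1 < 2 * Real.cos θ := by
    have h1 : Real.cos (Real.pi / 3) < Real.cos θ :=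
      Real.cos_lt_cos_of_nonneg_of_le_pi hθ0.le (by linarith) hθ3
    rw [Real.cos_pi_div_three] at h1
    linarith
  have hlam2 : 2 * Real.cos θ ≤ 2 := by have := Real.cos_le_one θ; linarith
  set s0 : ℝ := Real.sin θ with hs0
  have hs0pos : 0 < s0 := Real.sin_pos_of_pos_of_lt_pi hθ0 (by linarith)
  have hcard : (js.card : ℝ) ≤ m + 3 := by
    have : js.card ≤ m + 3 := by
      rw [hjs]
      refine le_trans (Finset.card_erase_le) ?_
      refine le_trans (Finset.card_erase_le) ?_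
      simp
    exact_mod_cast this
  refine avoid js (fun j => w0 m * zt m ^ j) (fun j => ch (w0 m) m j) (fun j _ => hchar j)
    hδ0 hδ1 hδ hlam1 hlam2 (hchar 0) (by rw [htop]) (C := 32 * ((m : ℝ) + 3) / s0 ^ 4)
    (by positivity) Qm ?_
  intro Y hQ
  obtain ⟨s, hs, p, q, r, hpq, hqr, hp, hq, hr⟩ := hQ
  set e : ℝ := ∑ j ∈ js, ‖Zf (ch (w0 m) m j) Y‖ with he
  have he0 : 0 ≤ e := Finset.sum_nonneg fun _ _ => norm_nonneg _
  set Z := Zf (ch (w0 m) m 0) Y with hZ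
  have hch0 : ∀ v, ch (w0 m) m 0 v = Complex.exp (((θ * (v : ℕ) : ℝ) : ℂ) * Complex.I) := by
    intro v
    unfold ch w0
    rw [pow_zero, mul_one, ← Complex.exp_nat_mul]
    congr 1
    rw [hθ]; push_cast; ring
  have hchl : ∀ v, ch (w0 m) m (m + 2) v = (starRingEnd ℂ) (ch (w0 m) m 0 v) := by
    intro v
    unfold ch
    rw [w0_zt_last, pow_zero, mul_one, map_pow]
  have hZl : Zf (ch (w0 m) m (m + 2)) Y = (starRingEnd ℂ) Z := by
    rw [hZ]; unfold Zf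
    rw [map_sum]
    apply Finset.sum_congr rfl
    intro v _
    rw [hchl, map_mul]
    simp
  have hre : ∀ v, (Z * (starRingEnd ℂ) (ch (w0 m) m 0 v)).re
      = Z.re * Real.cos (θ * (v : ℕ)) + Z.im * Real.sin (θ * (v : ℕ)) := by
    intro v
    rw [Complex.mul_re, Complex.conj_re, Complex.conj_im, hch0, Complex.exp_ofReal_mul_I_re,
      Complex.exp_ofReal_mul_I_im]
    ring
  have hinv : ∀ v, |((m : ℝ) + 3) * Y v - 2 * (Z.re * Real.cos (θ * (v : ℕ))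
      + Z.im * Real.sin (θ * (v : ℕ)))| ≤ e := by
    intro v
    have h1 := inversion (m := m) (w0_normSq m) Y v
    rw [← Finset.add_sum_erase (range (m + 3)) _ (Finset.mem_range.2 (Nat.succ_pos (m + 2))),
      ← Finset.add_sum_erase ((range (m + 3)).erase 0) _
        (Finset.mem_erase.2 ⟨by omega, Finset.mem_range.2 (by omega)⟩ :
          (m + 2) ∈ (range (m + 3)).erase 0)] at h1
    rw [← hjs] at h1
    have h2 := congrArg Complex.re h1
    rw [Complex.add_re, Complex.add_re] at h2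
    have h3 : (((m + 3 : ℕ) : ℂ) * (Y v : ℂ)).re = ((m : ℝ) + 3) * Y v := by
      have : (((m + 3 : ℕ) : ℂ) * (Y v : ℂ)) = ((((m : ℝ) + 3) * Y v : ℝ) : ℂ) := by push_cast; ring
      rw [this, Complex.ofReal_re]
    have h5 : (Zf (ch (w0 m) m (m + 2)) Y * (starRingEnd ℂ) (ch (w0 m) m (m + 2) v)).re
        = (Z * (starRingEnd ℂ) (ch (w0 m) m 0 v)).re := by
      rw [hZl, hchl, ← map_mul, Complex.conj_re]
    rw [h3, h5, ← hZ, hre] at h2
    have h6 : ((m : ℝ) + 3) * Y v - 2 * (Z.re * Real.cos (θ * (v : ℕ))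
        + Z.im * Real.sin (θ * (v : ℕ)))
        = (∑ j ∈ js, Zf (ch (w0 m) m j) Y * (starRingEnd ℂ) (ch (w0 m) m j v)).re := by
      rw [h2]; ring
    rw [h6]
    exact err_bound js (fun j => w0 m * zt m ^ j) (fun j => ch (w0 m) m j) (fun j _ => hchar j) Y v
  have hm3 : (0 : ℝ) < (m : ℝ) + 3 := by positivity
  -- apply the trigonometric core
  have hsin : ∀ u v : Fin (m + 3), u < v → s0 ≤ Real.sin (θ * (((v : ℕ) : ℝ) - ((u : ℕ) : ℝ))) := by
    intro u v huv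
    have h1 : ((v : ℕ) : ℝ) - ((u : ℕ) : ℝ) = (((v : ℕ) - (u : ℕ) : ℕ) : ℝ) := by
      rw [Nat.cast_sub (le_of_lt huv)]
    rw [h1]
    have huv' : (u : ℕ) < (v : ℕ) := huv
    have hv2 := v.2
    exact sin_ge (k := m + 3) (by omega) (by omega) (by omega)
  have hsR : (s : ℝ) = 1 ∨ (s : ℝ) = -1 := by
    rcases hs with h | h
    · left; rw [h]; norm_num
    · right; rw [h]; norm_num
  have hs2 : (s : ℝ) ^ 2 = 1 := by rcases hsR with h | h <;> rw [h] <;> norm_num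
  have habs : ∀ v, |(s : ℝ) * (((m : ℝ) + 3) * Y v) - 2 * s * (Z.re * Real.cos (θ * (v : ℕ))
      + Z.im * Real.sin (θ * (v : ℕ)))| ≤ e := by
    intro v
    have h1 := hinv v
    have e1 : (s : ℝ) * (((m : ℝ) + 3) * Y v) - 2 * s * (Z.re * Real.cos (θ * (v : ℕ))
      + Z.im * Real.sin (θ * (v : ℕ))) = s * (((m : ℝ) + 3) * Y v - 2 * (Z.re
        * Real.cos (θ * (v : ℕ)) + Z.im * Real.sin (θ * (v : ℕ)))) := by ring
    rw [e1, abs_mul]
    have h2 : |(s : ℝ)| = 1 := by rcases hsR with h | h <;> rw [h] <;> norm_num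
    rw [h2, one_mul]; exact h1
  have hp' : (0 : ℝ) ≤ s * (((m : ℝ) + 3) * Y p) := by
    have h1 : (0 : ℝ) ≤ (s : ℝ) * Y p := by exact_mod_cast hp
    have e1 : (s : ℝ) * (((m : ℝ) + 3) * Y p) = ((m : ℝ) + 3) * (s * Y p) := by ring
    rw [e1]; positivity
  have hr' : (0 : ℝ) ≤ s * (((m : ℝ) + 3) * Y r) := by
    have h1 : (0 : ℝ) ≤ (s : ℝ) * Y r := by exact_mod_cast hr
    have e1 : (s : ℝ) * (((m : ℝ) + 3) * Y r) = ((m : ℝ) + 3) * (s * Y r) := by ring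
    rw [e1]; positivity
  have hq' : s * (((m : ℝ) + 3) * Y q) ≤ 0 := by
    have h1 : (s : ℝ) * Y q ≤ 0 := by exact_mod_cast hq
    have e1 : (s : ℝ) * (((m : ℝ) + 3) * Y q) = ((m : ℝ) + 3) * (s * Y q) := by ring
    rw [e1]; nlinarith
  have hcore := trig_core (θ := θ) (a := 2 * s * Z.re) (b := 2 * s * Z.im) (e := e) (s0 := s0)
    (P := ((p : ℕ) : ℝ)) (Q := ((q : ℕ) : ℝ)) (R := ((r : ℕ) : ℝ)) he0 hs0pos
    (hsin p q hpq) (hsin q r hqr) (hsin p r (hpq.trans hqr))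
    (by have := abs_le.1 (habs p); linarith)
    (by have := abs_le.1 (habs q); linarith)
    (by have := abs_le.1 (habs r); linarith)
  have h4 := err_sq js (fun j => ch (w0 m) m j) Y
  have h5 := LL_nonneg js (fun j => ch (w0 m) m j) Y
  have hZ2 : Z2 (ch (w0 m) m 0) Y = Z.re ^ 2 + Z.im ^ 2 := by
    unfold Z2; rw [← hZ, Complex.normSq_apply]; ring
  have h6 : Z.re ^ 2 + Z.im ^ 2 ≤ (2 * s * Z.re) ^ 2 + (2 * s * Z.im) ^ 2 := by
    have e1 : (2 * (s : ℝ) * Z.re) ^ 2 + (2 * s * Z.im) ^ 2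
        = 4 * (s : ℝ) ^ 2 * (Z.re ^ 2 + Z.im ^ 2) := by ring
    rw [e1, hs2]
    nlinarith [sq_nonneg Z.re, sq_nonneg Z.im]
  calc Z2 (ch (w0 m) m 0) Y = Z.re ^ 2 + Z.im ^ 2 := hZ2
    _ ≤ (2 * s * Z.re) ^ 2 + (2 * s * Z.im) ^ 2 := h6
    _ ≤ 32 * e ^ 2 / s0 ^ 4 := hcore
    _ ≤ 32 * (((m : ℝ) + 3) * LL js (fun j => ch (w0 m) m j) Y) / s0 ^ 4 := by
        apply div_le_div_of_nonneg_right _ (by positivity)
        have h7 : e ^ 2 ≤ ((m : ℝ) + 3) * LL js (fun j => ch (w0 m) m j) Y :=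
          h4.trans (mul_le_mul_of_nonneg_right hcard h5)
        linarith
    _ = 32 * ((m : ℝ) + 3) / s0 ^ 4 * LL js (fun j => ch (w0 m) m j) Y := by ring

end Pool.Agent.helper98.Urn
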