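import Mathlib
import Pool.Agent.helper98.UrnFourier

set_option autoImplicit false
set_option linter.unusedSectionVars false

open Finset

namespace Pool.Agent.helper98.Urn

variable {m : ℕ} {K : Type} [DecidableEq K]

/-- number of bicoloured edges -/
def bh (c : Fin (m + 3) → K) : ℕ := ∑ v, if c v ≠ c (v + 1) then 1 else 0

/-- new numbers of balls after the selection of a ball at `v` -/
def nx (n : Fin (m + 3) → ℕ) (c : Fin (m + 3) → K) (v : Fin (m + 3)) : Fin (m + 3) → ℕ := fun u =>
  if u = v + 1 ∨ u = v - 1 then (if n u = 0 then 1 else if c u = c v then n u + 1 else n u - 1)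
  else n u

/-- new (ghost) colours after the selection of a ball at `v` -/
def cx (n : Fin (m + 3) → ℕ) (c : Fin (m + 3) → K) (v : Fin (m + 3)) : Fin (m + 3) → K := fun u =>
  if (u = v + 1 ∨ u = v - 1) ∧ n u = 0 then c v else c u

lemma bh_split (c : Fin (m + 3) → K) (u : Fin (m + 3)) :
    bh c = (if c (u - 1) ≠ c u then 1 else 0) + ((if c u ≠ c (u + 1) then 1 else 0)
      + ∑ w ∈ (univ.erase (u - 1)).erase u, if c w ≠ c (w + 1) then 1 else 0) := by
  unfold bh
  rw [← Finset.add_sum_erase univ _ (Finset.mem_univ (u - 1)),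
    ← Finset.add_sum_erase (univ.erase (u - 1)) _
      (Finset.mem_erase.2 ⟨(sub_one_ne u).symm, Finset.mem_univ u⟩), sub_add_cancel]

lemma bh_upd (c : Fin (m + 3) → K) (u : Fin (m + 3)) (A : K) :
    bh (Function.update c u A) = (if c (u - 1) ≠ A then 1 else 0) +
      ((if A ≠ c (u + 1) then 1 else 0)
      + ∑ w ∈ (univ.erase (u - 1)).erase u, if c w ≠ c (w + 1) then 1 else 0) := by
  rw [bh_split _ u]
  rw [Function.update_self, Function.update_of_ne (sub_one_ne u),
    Function.update_of_ne (add_one_ne u)]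
  congr 2
  apply Finset.sum_congr rfl
  intro w hw
  rw [Finset.mem_erase, Finset.mem_erase] at hw
  have h1 : w + 1 ≠ u := by
    intro h
    apply hw.2.1
    rw [← h, add_sub_cancel_right]
  rw [Function.update_of_ne hw.1, Function.update_of_ne h1]

lemma bh_upd_left (c : Fin (m + 3) → K) (u : Fin (m + 3)) :
    bh (Function.update c u (c (u - 1))) ≤ bh c := by
  rw [bh_upd, bh_split c u]
  generalize (∑ w ∈ (univ.erase (u - 1)).erase u, if c w ≠ c (w + 1) then 1 else 0) = R
  by_cases h1 : c (u - 1) = c u <;> by_cases h2 : c u = c (u + 1) <;>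
    by_cases h3 : c (u - 1) = c (u + 1) <;> simp_all <;> omega

lemma bh_upd_right (c : Fin (m + 3) → K) (u : Fin (m + 3)) :
    bh (Function.update c u (c (u + 1))) ≤ bh c := by
  rw [bh_upd, bh_split c u]
  generalize (∑ w ∈ (univ.erase (u - 1)).erase u, if c w ≠ c (w + 1) then 1 else 0) = R
  by_cases h1 : c (u - 1) = c u <;> by_cases h2 : c u = c (u + 1) <;>
    by_cases h3 : c (u - 1) = c (u + 1) <;> simp_all <;> omega

/-- signs encoding the colour changes -/
structure Cons (τ : ℤ) (c : Fin (m + 3) → K) (g : Fin (m + 3) → ℤ) : Prop where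
  pm : ∀ v, g v = 1 ∨ g v = -1
  eq : ∀ v, (c v = c (v + 1) ↔ g (v + 1) = sg τ v * g v)

lemma sg_pm {τ : ℤ} (hτ : τ = 1 ∨ τ = -1) (v : Fin (m + 3)) : sg τ v = 1 ∨ sg τ v = -1 := by
  unfold sg; split_ifs
  · exact hτ
  · left; rfl

lemma cons_upd_left {τ : ℤ} (hτ : τ = 1 ∨ τ = -1) {c : Fin (m + 3) → K} {g : Fin (m + 3) → ℤ}
    (h : Cons τ c g) (u : Fin (m + 3))
    (hb : bh (Function.update c u (c (u - 1))) = bh c) :
    Cons τ (Function.update c u (c (u - 1))) (Function.update g u (sg τ (u - 1) * g (u - 1))) := by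
  have hs1 := sg_pm hτ (u - 1)
  have hs2 := sg_pm hτ u
  have hg1 := h.pm (u - 1)
  have hg2 := h.pm u
  have hg3 := h.pm (u + 1)
  have he1 := h.eq (u - 1)
  have he2 := h.eq u
  rw [sub_add_cancel] at he1
  rw [bh_upd, bh_split c u] at hb
  constructor
  · intro v
    by_cases hv : v = u
    · subst hv
      rw [Function.update_self]
      rcases hs1 with h1 | h1 <;> rcases hg1 with h2 | h2 <;> rw [h1, h2] <;> simp
    · rw [Function.update_of_ne hv]; exact h.pm v
  · intro w
    by_cases hw1 : w = u - 1
    · subst hw1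
      rw [sub_add_cancel, Function.update_self, Function.update_self,
        Function.update_of_ne (sub_one_ne u), Function.update_of_ne (sub_one_ne u)]
      simp
    · by_cases hw2 : w = u
      · subst hw2
        rw [Function.update_self, Function.update_self,
          Function.update_of_ne (add_one_ne w), Function.update_of_ne (add_one_ne w)]
        by_cases c1 : c (w - 1) = c w
        · rw [← he1.1 c1, c1]; exact he2
        · have hne : g w ≠ sg τ (w - 1) * g (w - 1) := fun hh => c1 (he1.2 hh)
          have c2 : c w = c (w + 1) := by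
            by_contra hcon
            simp [c1, hcon] at hb
            split_ifs at hb <;> omega
          have c3 : c (w - 1) ≠ c (w + 1) := by rw [← c2]; exact c1
          have h5 := he2.1 c2
          constructor
          · intro hh; exact absurd hh c3
          · intro hh
            exfalso
            rw [h5] at hh
            rcases hs2 with h2 | h2 <;> rw [h2] at hh <;>
              rcases hs1 with h1 | h1 <;> rw [h1] at hh hne <;>
              rcases hg1 with h3 | h3 <;> rw [h3] at hh hne <;>
              rcases hg2 with h4 | h4 <;> rw [h4] at hh hne <;> omega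
      · have h1 : w + 1 ≠ u := by
          intro hh; apply hw1; rw [← hh, add_sub_cancel_right]
        rw [Function.update_of_ne hw2, Function.update_of_ne h1, Function.update_of_ne hw2,
          Function.update_of_ne h1]
        exact h.eq w

lemma cons_upd_right {τ : ℤ} (hτ : τ = 1 ∨ τ = -1) {c : Fin (m + 3) → K} {g : Fin (m + 3) → ℤ}
    (h : Cons τ c g) (u : Fin (m + 3))
    (hb : bh (Function.update c u (c (u + 1))) = bh c) :
    Cons τ (Function.update c u (c (u + 1))) (Function.update g u (sg τ u * g (u + 1))) := by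
  have hs1 := sg_pm hτ (u - 1)
  have hs2 := sg_pm hτ u
  have hg1 := h.pm (u - 1)
  have hg2 := h.pm u
  have hg3 := h.pm (u + 1)
  have he1 := h.eq (u - 1)
  have he2 := h.eq u
  rw [sub_add_cancel] at he1
  rw [bh_upd, bh_split c u] at hb
  constructor
  · intro v
    by_cases hv : v = u
    · subst hv
      rw [Function.update_self]
      rcases hs2 with h1 | h1 <;> rcases hg3 with h2 | h2 <;> rw [h1, h2] <;> simp
    · rw [Function.update_of_ne hv]; exact h.pm v
  · intro w
    by_cases hw1 : w = u - 1
    · subst hw1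
      rw [sub_add_cancel, Function.update_self, Function.update_self,
        Function.update_of_ne (sub_one_ne u), Function.update_of_ne (sub_one_ne u)]
      by_cases c1 : c u = c (u + 1)
      · have h5 := he2.1 c1
        have h6 : sg τ u * g (u + 1) = g u := by
          rw [h5]
          rcases hs2 with h1 | h1 <;> rw [h1] <;> ring
        rw [h6, ← c1]; exact he1
      · have hne : g (u + 1) ≠ sg τ u * g u := fun hh => c1 (he2.2 hh)
        have c2 : c (u - 1) = c u := by
          by_contra hcon
          simp [c1, hcon] at hb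
          split_ifs at hb <;> omega
        have c3 : c (u - 1) ≠ c (u + 1) := by rw [c2]; exact c1
        have h5 := he1.1 c2
        constructor
        · intro hh; exact absurd hh c3
        · intro hh
          exfalso
          rw [← h5] at hh
          rcases hs2 with h2 | h2 <;> rw [h2] at hh hne <;>
            rcases hg3 with h3 | h3 <;> rw [h3] at hh hne <;>
            rcases hg2 with h4 | h4 <;> rw [h4] at hh hne <;> omega
    · by_cases hw2 : w = u
      · subst hw2
        rw [Function.update_self, Function.update_self,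
          Function.update_of_ne (add_one_ne w), Function.update_of_ne (add_one_ne w)]
        simp only [true_iff]
        rcases hs2 with h1 | h1 <;> rw [h1] <;> ring
      · have h1 : w + 1 ≠ u := by
          intro hh; apply hw1; rw [← hh, add_sub_cancel_right]
        rw [Function.update_of_ne hw2, Function.update_of_ne h1, Function.update_of_ne hw2,
          Function.update_of_ne h1]
        exact h.eq w

/-- intermediate colours -/
def c1 (n : Fin (m + 3) → ℕ) (c : Fin (m + 3) → K) (v : Fin (m + 3)) : Fin (m + 3) → K :=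
  if n (v + 1) = 0 then Function.update c (v + 1) (c v) else c

lemma c1_self (n : Fin (m + 3) → ℕ) (c : Fin (m + 3) → K) (v : Fin (m + 3)) :
    c1 n c v v = c v := by
  unfold c1; split_ifs
  · rw [Function.update_of_ne (add_one_ne v).symm]
  · rfl

lemma cx_eq (n : Fin (m + 3) → ℕ) (c : Fin (m + 3) → K) (v : Fin (m + 3)) :
    cx n c v = if n (v - 1) = 0 then Function.update (c1 n c v) (v - 1) (c1 n c v v)
      else c1 n c v := by
  have hne := add_one_ne_sub_one v
  funext u
  unfold cx
  rw [c1_self]
  by_cases hu2 : u = v - 1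
  · subst hu2
    by_cases h2 : n (v - 1) = 0
    · rw [if_pos h2, Function.update_self, if_pos ⟨Or.inr rfl, h2⟩]
    · rw [if_neg h2, if_neg (fun hh => h2 hh.2)]
      unfold c1
      split_ifs
      · rw [Function.update_of_ne hne.symm]
      · rfl
  · have e : (if n (v - 1) = 0 then Function.update (c1 n c v) (v - 1) (c v) else c1 n c v) u
        = c1 n c v u := by
      split_ifs
      · rw [Function.update_of_ne hu2]
      · rfl
    rw [e]
    by_cases hu1 : u = v + 1
    · subst hu1
      unfold c1
      by_cases h1 : n (v + 1) = 0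
      · rw [if_pos ⟨Or.inl rfl, h1⟩, if_pos h1, Function.update_self]
      · rw [if_neg (fun hh => h1 hh.2), if_neg h1]
    · rw [if_neg (fun hh => hh.1.elim hu1 hu2)]
      unfold c1
      split_ifs
      · rw [Function.update_of_ne hu1]
      · rfl

lemma bh_c1_le (n : Fin (m + 3) → ℕ) (c : Fin (m + 3) → K) (v : Fin (m + 3)) :
    bh (c1 n c v) ≤ bh c := by
  unfold c1
  split_ifs
  · have h := bh_upd_left c (v + 1)
    rw [add_sub_cancel_right] at h
    exact h
  · exact le_refl _

lemma bh_cx_le_c1 (n : Fin (m + 3) → ℕ) (c : Fin (m + 3) → K) (v : Fin (m + 3)) :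
    bh (cx n c v) ≤ bh (c1 n c v) := by
  rw [cx_eq]
  split_ifs
  · have h := bh_upd_right (c1 n c v) (v - 1)
    rw [sub_add_cancel] at h
    exact h
  · exact le_refl _

lemma bh_cx_le (n : Fin (m + 3) → ℕ) (c : Fin (m + 3) → K) (v : Fin (m + 3)) :
    bh (cx n c v) ≤ bh c := (bh_cx_le_c1 n c v).trans (bh_c1_le n c v)

/-- intermediate signs -/
def g1 (τ : ℤ) (n : Fin (m + 3) → ℕ) (g : Fin (m + 3) → ℤ) (v : Fin (m + 3)) :
    Fin (m + 3) → ℤ :=
  if n (v + 1) = 0 then Function.update g (v + 1) (sg τ v * g v) else g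

/-- new signs -/
def gx (τ : ℤ) (n : Fin (m + 3) → ℕ) (g : Fin (m + 3) → ℤ) (v : Fin (m + 3)) :
    Fin (m + 3) → ℤ :=
  if n (v - 1) = 0 then Function.update (g1 τ n g v) (v - 1) (sg τ (v - 1) * g1 τ n g v v)
  else g1 τ n g v

lemma g1_self (τ : ℤ) (n : Fin (m + 3) → ℕ) (g : Fin (m + 3) → ℤ) (v : Fin (m + 3)) :
    g1 τ n g v v = g v := by
  unfold g1; split_ifs
  · rw [Function.update_of_ne (add_one_ne v).symm]
  · rfl

lemma gx_right (τ : ℤ) (n : Fin (m + 3) → ℕ) (g : Fin (m + 3) → ℤ) (v : Fin (m + 3)) :
    gx τ n g v (v + 1) = if n (v + 1) = 0 then sg τ v * g v else g (v + 1) := by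
  unfold gx
  have hne := add_one_ne_sub_one v
  have e : (if n (v - 1) = 0 then Function.update (g1 τ n g v) (v - 1)
      (sg τ (v - 1) * g1 τ n g v v) else g1 τ n g v) (v + 1) = g1 τ n g v (v + 1) := by
    split_ifs
    · rw [Function.update_of_ne hne]
    · rfl
  rw [e]
  unfold g1
  split_ifs
  · rw [Function.update_self]
  · rfl

lemma gx_left (τ : ℤ) (n : Fin (m + 3) → ℕ) (g : Fin (m + 3) → ℤ) (v : Fin (m + 3)) :
    gx τ n g v (v - 1) = if n (v - 1) = 0 then sg τ (v - 1) * g v else g (v - 1) := by
  unfold gx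
  have hne := add_one_ne_sub_one v
  split_ifs
  · rw [Function.update_self, g1_self]
  · unfold g1
    split_ifs
    · rw [Function.update_of_ne hne.symm]
    · rfl

lemma gx_other (τ : ℤ) (n : Fin (m + 3) → ℕ) (g : Fin (m + 3) → ℤ) (v u : Fin (m + 3))
    (h1 : u ≠ v + 1) (h2 : u ≠ v - 1) : gx τ n g v u = g u := by
  unfold gx
  have e : (if n (v - 1) = 0 then Function.update (g1 τ n g v) (v - 1)
      (sg τ (v - 1) * g1 τ n g v v) else g1 τ n g v) u = g1 τ n g v u := by
    split_ifs
    · rw [Function.update_of_ne h2]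
    · rfl
  rw [e]
  unfold g1
  split_ifs
  · rw [Function.update_of_ne h1]
  · rfl

/-- the process follows the linear signed urn as long as `bh` is constant -/
lemma step_cons {τ : ℤ} (hτ : τ = 1 ∨ τ = -1) {n : Fin (m + 3) → ℕ} {c : Fin (m + 3) → K}
    {g : Fin (m + 3) → ℤ} (h : Cons τ c g) (v : Fin (m + 3)) (hv : n v ≠ 0)
    (hb : bh (cx n c v) = bh c) :
    Cons τ (cx n c v) (gx τ n g v) ∧
      (fun u => gx τ n g v u * (nx n c v u : ℤ)) = rg (sg τ) (fun u => g u * (n u : ℤ)) v := by
  have hb1 : bh (c1 n c v) = bh c := by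
    have h1 := bh_c1_le n c v
    have h2 := bh_cx_le_c1 n c v
    omega
  constructor
  · have hc1 : Cons τ (c1 n c v) (g1 τ n g v) := by
      unfold c1 g1
      unfold c1 at hb1
      split_ifs at hb1 ⊢ with h0
      · have h3 := cons_upd_left hτ h (v + 1) (by rw [add_sub_cancel_right]; exact hb1)
        rw [add_sub_cancel_right] at h3
        exact h3
      · exact h
    rw [cx_eq] at hb ⊢
    unfold gx
    split_ifs at hb ⊢ with h0
    · have h3 := cons_upd_right hτ hc1 (v - 1) (by rw [sub_add_cancel]; omega)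
      rw [sub_add_cancel] at h3
      exact h3
    · exact hc1
  · have hsgn : (g v * (n v : ℤ)).sign = g v := by
      have hn : (0 : ℤ) < n v := by
        have := Nat.pos_of_ne_zero hv
        exact_mod_cast this
      rw [Int.sign_mul, Int.sign_eq_one_of_pos hn, mul_one]
      rcases h.pm v with h1 | h1 <;> rw [h1] <;> rfl
    have hne := add_one_ne_sub_one v
    funext u
    unfold rg
    simp only [hsgn]
    by_cases hu1 : u = v + 1
    · subst hu1
      rw [gx_right, if_pos rfl, if_neg hne, add_zero]
      unfold nx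
      rw [if_pos (Or.inl rfl)]
      by_cases h0 : n (v + 1) = 0
      · rw [if_pos h0, if_pos h0, h0]; push_cast; ring
      · rw [if_neg h0, if_neg h0]
        have he := h.eq v
        by_cases hc : c (v + 1) = c v
        · rw [if_pos hc]
          have := he.1 hc.symm
          rw [← this]; push_cast; ring
        · rw [if_neg hc]
          have hne' : g (v + 1) ≠ sg τ v * g v := fun hh => hc (he.2 hh).symm
          have h5 : sg τ v * g v = - g (v + 1) := by
            rcases sg_pm hτ v with h1 | h1 <;> rw [h1] at hne' ⊢ <;>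
              rcases h.pm v with h2 | h2 <;> rw [h2] at hne' ⊢ <;>
              rcases h.pm (v + 1) with h3 | h3 <;> rw [h3] at hne' ⊢ <;> omega
          rw [h5]
          have h6 : ((n (v + 1) - 1 : ℕ) : ℤ) = (n (v + 1) : ℤ) - 1 := by
            rw [Nat.cast_sub (by omega)]; norm_num
          rw [h6]; ring
    · by_cases hu2 : u = v - 1
      · subst hu2
        rw [gx_left, if_neg hne.symm, if_pos rfl, add_zero]
        unfold nx
        rw [if_pos (Or.inr rfl)]
        by_cases h0 : n (v - 1) = 0
        · rw [if_pos h0, if_pos h0, h0]; push_cast; ring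
        · rw [if_neg h0, if_neg h0]
          have he := h.eq (v - 1)
          rw [sub_add_cancel] at he
          have hsq : sg τ (v - 1) * sg τ (v - 1) = 1 := by
            rcases sg_pm hτ (v - 1) with h1 | h1 <;> rw [h1] <;> norm_num
          by_cases hc : c (v - 1) = c v
          · rw [if_pos hc]
            have h7 := he.1 hc
            have h8 : sg τ (v - 1) * g v = g (v - 1) := by
              rw [h7, ← mul_assoc, hsq, one_mul]
            rw [h8]; push_cast; ring
          · rw [if_neg hc]
            have hne' : g v ≠ sg τ (v - 1) * g (v - 1) := fun hh => hc (he.2 hh)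
            have h5 : sg τ (v - 1) * g v = - g (v - 1) := by
              rcases sg_pm hτ (v - 1) with h1 | h1 <;> rw [h1] at hne' ⊢ <;>
                rcases h.pm v with h2 | h2 <;> rw [h2] at hne' ⊢ <;>
                rcases h.pm (v - 1) with h3 | h3 <;> rw [h3] at hne' ⊢ <;> omega
            rw [h5]
            have h6 : ((n (v - 1) - 1 : ℕ) : ℤ) = (n (v - 1) : ℤ) - 1 := by
              rw [Nat.cast_sub (by omega)]; norm_num
            rw [h6]; ring
      · rw [gx_other τ n g v u hu1 hu2, if_neg hu1, if_neg hu2]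
        unfold nx
        rw [if_neg (fun hh => hh.elim hu1 hu2)]
        ring

/-! ### existence of signs -/

/-- sign of an edge -/
def ep (c : Fin (m + 3) → K) (w : Fin (m + 3)) : ℤ := (-1) ^ (if c w ≠ c (w + 1) then 1 else 0)

lemma ep_prod (c : Fin (m + 3) → K) : ∏ w, ep c w = (-1) ^ bh c := by
  unfold ep bh
  rw [Finset.prod_pow_eq_pow_sum]

lemma exists_cons {τ : ℤ} (hτ : τ = 1 ∨ τ = -1) {c : Fin (m + 3) → K} (hb : (-1) ^ bh c = τ) :
    ∃ g, Cons τ c g := by
  set g : Fin (m + 3) → ℤ := fun v => ∏ w ∈ univ.filter (fun w => w < v), ep c w with hg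
  have hep : ∀ w, ep c w = 1 ∨ ep c w = -1 := by
    intro w; unfold ep; split_ifs <;> simp
  have hpm : ∀ v, g v = 1 ∨ g v = -1 := by
    intro v
    rw [hg]
    have : ∀ s : Finset (Fin (m + 3)), (∏ w ∈ s, ep c w) = 1 ∨ (∏ w ∈ s, ep c w) = -1 := by
      intro s
      induction s using Finset.induction_on with
      | empty => left; simp
      | insert a s ha ih =>
        rw [Finset.prod_insert ha]
        rcases hep a with h1 | h1 <;> rcases ih with h2 | h2 <;> rw [h1, h2] <;> simp
    exact this _
  refine ⟨g, hpm, ?_⟩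
  intro v
  by_cases hv : v = Fin.last (m + 2)
  · have hg0 : g (v + 1) = 1 := by
      rw [hv, Fin.last_add_one]
      show ∏ w ∈ univ.filter (fun w : Fin (m + 3) => w < 0), ep c w = 1
      rw [Finset.filter_false_of_mem]
      · simp
      · intro w _
        exact Fin.not_lt_zero w
    have hprod : ep c v * g v = τ := by
      rw [← hb, ← ep_prod c, ← Finset.mul_prod_erase univ (ep c) (Finset.mem_univ v)]
      congr 1
      show ∏ w ∈ univ.filter (fun w : Fin (m + 3) => w < v), ep c w = _
      apply Finset.prod_congr _ (fun _ _ => rfl)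
      ext w
      rw [Finset.mem_filter, Finset.mem_erase]
      constructor
      · intro h; exact ⟨ne_of_lt h.2, Finset.mem_univ w⟩
      · intro h
        refine ⟨Finset.mem_univ w, lt_of_le_of_ne ?_ h.1⟩
        rw [hv]; exact Fin.le_last w
    rw [hg0]
    have hsg : sg τ v = τ := by unfold sg; rw [if_pos hv]
    rw [hsg]
    constructor
    · intro hc
      have : ep c v = 1 := by unfold ep; rw [if_neg (not_not.2 hc), pow_zero]
      rw [this, one_mul] at hprod
      rw [hprod]
      rcases hτ with h | h <;> rw [h] <;> norm_num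
    · intro hh
      by_contra hc
      have : ep c v = -1 := by unfold ep; rw [if_pos hc, pow_one]
      rw [this] at hprod
      rcases hpm v with h | h <;> rw [h] at hh hprod <;> omega
  · have hval : ((v + 1 : Fin (m + 3)) : ℕ) = (v : ℕ) + 1 := by
      apply Fin.val_add_one_of_lt
      exact lt_of_le_of_ne (Fin.le_last v) hv
    have hgs : g (v + 1) = ep c v * g v := by
      show ∏ w ∈ univ.filter (fun w : Fin (m + 3) => w < v + 1), ep c w
        = ep c v * ∏ w ∈ univ.filter (fun w : Fin (m + 3) => w < v), ep c w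
      rw [← Finset.prod_insert (by simp)]
      apply Finset.prod_congr _ (fun _ _ => rfl)
      ext w
      rw [Finset.mem_insert, Finset.mem_filter, Finset.mem_filter, Fin.lt_def, Fin.lt_def, hval,
        Fin.ext_iff]
      constructor
      · intro h
        have := h.2
        by_cases h2 : (w : ℕ) = (v : ℕ)
        · left; exact h2
        · right; exact ⟨Finset.mem_univ w, by omega⟩
      · intro h
        refine ⟨Finset.mem_univ w, ?_⟩
        rcases h with h | h
        · omega
        · omega
    have hsg : sg τ v = 1 := by unfold sg; rw [if_neg hv]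
    rw [hsg, hgs, one_mul]
    constructor
    · intro hc
      have : ep c v = 1 := by unfold ep; rw [if_neg (not_not.2 hc), pow_zero]
      rw [this, one_mul]
    · intro hh
      by_contra hc
      have : ep c v = -1 := by unfold ep; rw [if_pos hc, pow_one]
      rw [this] at hh
      rcases hpm v with h | h <;> rw [h] at hh <;> omega

lemma exists_bi {c : Fin (m + 3) → K} (hb : 1 ≤ bh c) : ∃ v, c v ≠ c (v + 1) := by
  by_contra hcon
  push Not at hcon
  have : bh c = 0 := by
    unfold bh
    apply Finset.sum_eq_zero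
    intro v _
    rw [if_neg (not_not.2 (hcon v))]
  omega

/-- `bh` is never equal to one -/
lemma bh_ne_one (c : Fin (m + 3) → K) : bh c ≠ 1 := by
  intro h
  -- the unique bicoloured edge
  have h1 : ∃ v, c v ≠ c (v + 1) := exists_bi (by omega)
  obtain ⟨v, hv⟩ := h1
  have h2 : ∀ w, w ≠ v → c w = c (w + 1) := by
    intro w hw
    by_contra hcon
    have h3 : 2 ≤ bh c := by
      unfold bh
      calc 2 = ∑ u ∈ ({v, w} : Finset (Fin (m + 3))), (if c u ≠ c (u + 1) then 1 else 0) := by
            rw [Finset.sum_pair hw.symm, if_pos hv, if_pos hcon]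
        _ ≤ _ := Finset.sum_le_sum_of_subset (Finset.subset_univ _)
    omega
  set f : Fin (m + 3) → ℤ := fun w => if c w = c v then 1 else 0 with hf
  have h3 : ∑ w, (f (w + 1) - f w) = 0 := by
    rw [Finset.sum_sub_distrib, sub_eq_zero]
    exact Equiv.sum_comp (Equiv.addRight (1 : Fin (m + 3))) f
  rw [Finset.sum_eq_single v] at h3
  · have e1 : f v = 1 := by rw [hf]; simp
    have e2 : f (v + 1) = 0 := by
      rw [hf]
      simp only
      rw [if_neg (fun hh => hv hh.symm)]
    rw [e1, e2] at h3
    omega
  · intro w _ hw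
    have := h2 w hw
    have e : f (w + 1) = f w := by rw [hf]; simp only [this]
    rw [e, sub_self]
  · intro hh; exact absurd (Finset.mem_univ v) hh

lemma cons_Qp {c : Fin (m + 3) → K} {g : Fin (m + 3) → ℤ} (h : Cons 1 c g) (hb : 1 ≤ bh c)
    (n : Fin (m + 3) → ℕ) : Qp (fun u => g u * (n u : ℤ)) := by
  have h1 : ∃ v, c v ≠ c (v + 1) := exists_bi hb
  obtain ⟨v, hv⟩ := h1
  have hsg : sg (1 : ℤ) v = 1 := by unfold sg; split_ifs <;> rfl
  have h2 : g (v + 1) ≠ g v := by
    intro hh
    apply hv
    rw [(h.eq v), hsg, one_mul]; exact hh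
  rcases h.pm v with h3 | h3 <;> rcases h.pm (v + 1) with h4 | h4
  · exact absurd (h4.trans h3.symm) h2
  · refine ⟨v, v + 1, ?_, ?_⟩
    · simp only; rw [h3, one_mul]; positivity
    · simp only; rw [h4]; simp
  · refine ⟨v + 1, v, ?_, ?_⟩
    · simp only; rw [h4, one_mul]; positivity
    · simp only; rw [h3]; simp
  · exact absurd (h4.trans h3.symm) h2

lemma cons_Qm {c : Fin (m + 3) → K} {g : Fin (m + 3) → ℤ} (h : Cons (-1) c g) (hb : 3 ≤ bh c)
    (n : Fin (m + 3) → ℕ) : Qm (fun u => g u * (n u : ℤ)) := by
  set S := (univ.filter (fun v : Fin (m + 3) => c v ≠ c (v + 1))).erase (Fin.last (m + 2)) with hS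
  have hcard : 2 ≤ S.card := by
    have h1 : bh c = (univ.filter (fun v : Fin (m + 3) => c v ≠ c (v + 1))).card := by
      unfold bh; rw [Finset.card_filter]
    have h2 := Finset.pred_card_le_card_erase
      (s := univ.filter (fun v : Fin (m + 3) => c v ≠ c (v + 1))) (a := Fin.last (m + 2))
    rw [← h1] at h2
    rw [hS]
    omega
  obtain ⟨a, ha, b, hb', hab⟩ := Finset.one_lt_card.1 (by omega : 1 < S.card)
  wlog hlt : a < b generalizing a b
  · exact this b hb' a ha hab.symm (lt_of_le_of_ne (not_lt.1 hlt) hab.symm)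
  rw [hS, Finset.mem_erase, Finset.mem_filter] at ha hb'
  have hflip : ∀ w : Fin (m + 3), w ≠ Fin.last (m + 2) → c w ≠ c (w + 1) →
      g (w + 1) = - g w ∧ ((w + 1 : Fin (m + 3)) : ℕ) = (w : ℕ) + 1 := by
    intro w hw hc
    constructor
    · have hsg : sg (-1 : ℤ) w = 1 := by unfold sg; rw [if_neg hw]
      have h1 : g (w + 1) ≠ g w := by
        intro hh; apply hc; rw [h.eq w, hsg, one_mul]; exact hh
      rcases h.pm w with h3 | h3 <;> rcases h.pm (w + 1) with h4 | h4 <;> rw [h3, h4] at h1 ⊢ <;>
        omega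
    · apply Fin.val_add_one_of_lt
      exact lt_of_le_of_ne (Fin.le_last w) hw
  obtain ⟨ga, va⟩ := hflip a ha.1 ha.2.2
  obtain ⟨gb, vb⟩ := hflip b hb'.1 hb'.2.2
  have hgg : g a * g a = 1 := by rcases h.pm a with h1 | h1 <;> rw [h1] <;> norm_num
  have hlt' : (a : ℕ) < (b : ℕ) := hlt
  have hpos : ∀ x : Fin (m + 3), g x = g a → 0 ≤ g a * (g x * (n x : ℤ)) := by
    intro x hx
    rw [hx, ← mul_assoc, hgg, one_mul]; positivity
  have hneg : ∀ x : Fin (m + 3), g x = - g a → g a * (g x * (n x : ℤ)) ≤ 0 := by
    intro x hx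
    have : g a * (g x * (n x : ℤ)) = -((g a * g a) * (n x : ℤ)) := by rw [hx]; ring
    rw [this, hgg, one_mul]; simp
  by_cases hq : g b = g a
  · -- r = b
    have hne : a + 1 ≠ b := by
      intro hh
      rw [hh, hq] at ga
      rcases h.pm a with h1 | h1 <;> rw [h1] at ga <;> omega
    refine ⟨g a, h.pm a, a, a + 1, b, ?_, ?_, hpos a rfl, hneg (a + 1) ga, hpos b hq⟩
    · rw [Fin.lt_def, va]; omega
    · rw [Fin.lt_def, va]
      have : ((a + 1 : Fin (m + 3)) : ℕ) ≠ (b : ℕ) := fun hh => hne (Fin.ext hh)
      omega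
  · have hb2 : g b = - g a := by
      rcases h.pm a with h1 | h1 <;> rcases h.pm b with h2 | h2 <;> rw [h1, h2] at hq ⊢ <;> omega
    refine ⟨g a, h.pm a, a, a + 1, b + 1, ?_, ?_, hpos a rfl, hneg (a + 1) ga,
      hpos (b + 1) (by rw [gb, hb2]; ring)⟩
    · rw [Fin.lt_def, va]; omega
    · rw [Fin.lt_def, va, vb]; omega

end Pool.Agent.helper98.Urn
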