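import Mathlib

set_option autoImplicit false
set_option linter.unusedSectionVars false

open MeasureTheory Finset

namespace Pool.Agent.helper98.Urn

/-- A configuration: `x v c` is the number of balls of colour `c` in the urn at `v`. -/
abbrev Config (V : Type) (s : ℕ) := V → Fin s → ℕ

variable {V : Type} [Fintype V] [DecidableEq V] {s : ℕ}

/-- Every urn is monochromatic: two colours present at the same vertex are equal. -/
def Monochromatic (x : Config V s) : Prop := ∀ v c c', 0 < x v c → 0 < x v c' → c = c'

/-- The total number of balls. -/
def total (x : Config V s) : ℕ := ∑ v, ∑ c, x v c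

/-- An urn with content `w` receives one ball of colour `c`: if the urn holds a ball of another
colour, the new ball and one ball of the urn annihilate; otherwise the new ball is added. -/
def receive (c : Fin s) (w : Fin s → ℕ) : Fin s → ℕ :=
  if ∃ j, j ≠ c ∧ 0 < w j then fun j => if j = c then w j else w j - 1
  else Function.update w c (w c + 1)

open Classical in
/-- The effect of the selection of a ball of colour `c` at the vertex `v`: every neighbour of `v`
receives one ball of colour `c`. -/
noncomputable def select (G : SimpleGraph V) (x : Config V s) (v : V) (c : Fin s) : Config V s :=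
  fun u => if G.Adj v u then receive c (x u) else x u

open Classical in
/-- The one-step transition probability: a ball is selected uniformly at random. -/
noncomputable def trans (G : SimpleGraph V) (x y : Config V s) : ℝ :=
  ∑ v, ∑ c, (x v c : ℝ) / total x * (if select G x v c = y then 1 else 0)

/-- `X` is an `s`-type urn process on `G` started from `x0`: a Markov chain with the transition
probabilities `trans G`. -/
structure IsUrnProcess (G : SimpleGraph V) (x0 : Config V s) {Ω : Type} [MeasurableSpace Ω]
    (P : Measure Ω) (X : ℕ → Ω → Config V s) : Prop where
  meas : ∀ t y, MeasurableSet {ω | X t ω = y}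
  init : ∀ᵐ ω ∂P, X 0 ω = x0
  markov : ∀ (t : ℕ) (y : ℕ → Config V s),
    P.real {ω | ∀ i ≤ t + 1, X i ω = y i}
      = P.real {ω | ∀ i ≤ t, X i ω = y i} * trans G (y t) (y (t + 1))

/-- Colour `c` survives: balls of colour `c` are present at arbitrarily large times. -/
def Survives {Ω : Type} (X : ℕ → Ω → Config V s) (ω : Ω) (c : Fin s) : Prop :=
  ∀ T, ∃ t, T ≤ t ∧ ∃ v, 0 < X t ω v c

/-- The class `𝒢_s`: for every finite initial configuration with colours in `Fin s` (at least one
ball, every urn monochromatic), the urn process almost surely has exactly one surviving colour. -/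
def NoCoexistence (s : ℕ) (G : SimpleGraph V) : Prop :=
  ∀ x0 : Config V s, Monochromatic x0 → 0 < total x0 →
    ∀ (Ω : Type) [MeasurableSpace Ω] (P : Measure Ω) [IsProbabilityMeasure P]
      (X : ℕ → Ω → Config V s), IsUrnProcess G x0 P X → ∀ᵐ ω ∂P, ∃! c, Survives X ω c

end Pool.Agent.helper98.Urn
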