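import Mathlib
import Pool.Agent.helper98.UrnCombi

set_option autoImplicit false
set_option linter.unusedSectionVars false

open Finset

namespace Pool.Agent.helper98.Urn

variable {m : ℕ} {K : Type} [DecidableEq K]

/-- total number of balls -/
def tot (n : Fin (m + 3) → ℕ) : ℕ := ∑ v, n v

/-- probability that the number of bicoloured edges stays constant during `T` steps -/
noncomputable def WW : ℕ → (Fin (m + 3) → ℕ) → (Fin (m + 3) → K) → ℝ
  | 0, _, _ => 1
  | T + 1, n, c => ∑ v, (n v : ℝ) / tot n *
      (if bh (cx n c v) = bh c then WW T (nx n c v) (cx n c v) else 0)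

lemma tot_pos_of {n : Fin (m + 3) → ℕ} {v : Fin (m + 3)} (h : n v ≠ 0) : 1 ≤ tot n := by
  have h1 : n v ≤ tot n := Finset.single_le_sum (f := n) (fun _ _ => Nat.zero_le _)
      (Finset.mem_univ v)
  omega

lemma nx_self (n : Fin (m + 3) → ℕ) (c : Fin (m + 3) → K) (v : Fin (m + 3)) :
    nx n c v v = n v := by
  unfold nx
  rw [if_neg (fun hh => hh.elim (fun h => (add_one_ne v).symm h) (fun h => (sub_one_ne v).symm h))]

lemma cx_self (n : Fin (m + 3) → ℕ) (c : Fin (m + 3) → K) (v : Fin (m + 3)) :
    cx n c v v = c v := by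
  unfold cx
  split_ifs <;> rfl

lemma tot_nx {n : Fin (m + 3) → ℕ} {c : Fin (m + 3) → K} {v : Fin (m + 3)} (h : n v ≠ 0) :
    1 ≤ tot (nx n c v) := by
  apply tot_pos_of (v := v)
  rw [nx_self]; exact h

lemma sum_w {n : Fin (m + 3) → ℕ} (h : 1 ≤ tot n) : ∑ v, (n v : ℝ) / tot n = 1 := by
  rw [← Finset.sum_div]
  have h1 : (∑ v, (n v : ℝ)) = tot n := by unfold tot; push_cast; rfl
  rw [h1]
  have : (0 : ℝ) < tot n := by exact_mod_cast h
  field_simp

lemma WW_nonneg (T : ℕ) : ∀ (n : Fin (m + 3) → ℕ) (c : Fin (m + 3) → K), 0 ≤ WW T n c := by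
  induction T with
  | zero => intro n c; simp [WW]
  | succ T ih =>
    intro n c
    simp only [WW]
    apply Finset.sum_nonneg
    intro v _
    apply mul_nonneg (by positivity)
    split_ifs
    · exact ih _ _
    · exact le_refl _

lemma WW_le_one (T : ℕ) : ∀ (n : Fin (m + 3) → ℕ) (c : Fin (m + 3) → K), 1 ≤ tot n →
    WW T n c ≤ 1 := by
  induction T with
  | zero => intro n c _; simp [WW]
  | succ T ih =>
    intro n c h
    simp only [WW]
    calc _ ≤ ∑ v, (n v : ℝ) / tot n := by
          apply Finset.sum_le_sum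
          intro v _
          by_cases hv : n v = 0
          · simp [hv]
          · have h0 : (0 : ℝ) ≤ (n v : ℝ) / tot n := by positivity
            have h1 : (if bh (cx n c v) = bh c then WW T (nx n c v) (cx n c v) else 0) ≤ 1 := by
              split_ifs
              · exact ih _ _ (tot_nx hv)
              · norm_num
            calc _ ≤ (n v : ℝ) / tot n * 1 := mul_le_mul_of_nonneg_left h1 h0
              _ = _ := mul_one _
      _ = 1 := sum_w h

lemma WW_succ_le (T : ℕ) : ∀ (n : Fin (m + 3) → ℕ) (c : Fin (m + 3) → K), 1 ≤ tot n →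
    WW (T + 1) n c ≤ WW T n c := by
  induction T with
  | zero => intro n c h; exact WW_le_one 1 n c h
  | succ T ih =>
    intro n c h
    rw [WW, WW]
    apply Finset.sum_le_sum
    intro v _
    by_cases hv : n v = 0
    · simp [hv]
    · apply mul_le_mul_of_nonneg_left _ (by positivity)
      split_ifs
      · exact ih _ _ (tot_nx hv)
      · exact le_refl _

lemma WW_anti {n : Fin (m + 3) → ℕ} {c : Fin (m + 3) → K} (h : 1 ≤ tot n) :
    Antitone fun T => WW T n c := antitone_nat_of_succ_le fun T => WW_succ_le T n c h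

/-- comparison with the linear signed urn -/
lemma WW_le_ex {τ : ℤ} (hτ : τ = 1 ∨ τ = -1) {lam : ℝ} (hlam : 0 ≤ lam) (β : ℕ)
    (Q : (Fin (m + 3) → ℤ) → Prop)
    (hQ : ∀ (n : Fin (m + 3) → ℕ) (c : Fin (m + 3) → K) (g : Fin (m + 3) → ℤ), Cons τ c g →
      bh c = β → Q (fun u => g u * (n u : ℤ))) (T : ℕ) :
    ∀ (n : Fin (m + 3) → ℕ) (c : Fin (m + 3) → K) (g : Fin (m + 3) → ℤ) (p : ℝ), Cons τ c g →
      bh c = β → 1 ≤ tot n → 0 < p →
      WW T n c ≤ ex lam (sg τ) T (ind Q) (fun u => g u * (n u : ℤ)) p := by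
  induction T with
  | zero =>
    intro n c g p hc hb h hp
    have := hQ n c g hc hb
    simp only [WW, ex, ind]
    rw [if_pos this]
  | succ T ih =>
    intro n c g p hc hb h hp
    have habs : ∀ v, (g v * (n v : ℤ)).natAbs = n v := by
      intro v
      rw [Int.natAbs_mul, Int.natAbs_natCast]
      rcases hc.pm v with h1 | h1 <;> rw [h1] <;> simp
    have hnb : nb (fun u => g u * (n u : ℤ)) = tot n := by
      unfold nb tot
      exact Finset.sum_congr rfl fun v _ => habs v
    simp only [WW, ex, op]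
    rw [hnb]
    apply Finset.sum_le_sum
    intro v _
    rw [habs]
    by_cases hv : n v = 0
    · simp [hv]
    · apply mul_le_mul_of_nonneg_left _ (by positivity)
      have htot : (0 : ℝ) < tot n := by exact_mod_cast h
      have hp' : 0 < p * (1 + lam / tot n) := by positivity
      split_ifs with hbv
      · have hstep := step_cons hτ hc v hv hbv
        rw [← hstep.2]
        exact ih _ _ _ _ hstep.1 (hbv.trans hb) (tot_nx hv) hp'
      · have h1 : 1 ≤ nb (rg (sg τ) (fun u => g u * (n u : ℤ)) v) := by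
          apply rg_valid
          intro hh
          rcases mul_eq_zero.1 hh with h2 | h2
          · rcases hc.pm v with h3 | h3 <;> rw [h3] at h2 <;> omega
          · exact hv (by exact_mod_cast h2)
        have h2 := ex_mono (lam := lam) (σ := sg τ) hlam (F := fun _ _ => (0 : ℝ)) (G := ind Q)
          (fun Y p _ _ => ind_nonneg Q Y p) T _ _ h1 hp'
        rw [ex_const 0 hlam T _ _ h1 hp'] at h2
        exact h2

/-- iterating a uniform bound -/
lemma WW_zero_of_bound (β : ℕ) {r : ℝ} (hr1 : r < 1)
    (hW : ∀ (n : Fin (m + 3) → ℕ) (c : Fin (m + 3) → K), bh c = β → 1 ≤ tot n →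
      ∃ T, WW T n c ≤ r) {n : Fin (m + 3) → ℕ} {c : Fin (m + 3) → K} (hb : bh c = β)
    (h : 1 ≤ tot n) : Filter.Tendsto (fun T => WW T n c) Filter.atTop (nhds 0) := by
  -- the limits
  set V : (Fin (m + 3) → ℕ) → (Fin (m + 3) → K) → ℝ := fun n c => ⨅ T, WW T n c with hV
  have hbdd : ∀ (n : Fin (m + 3) → ℕ) (c : Fin (m + 3) → K),
      BddBelow (Set.range fun T => WW T n c) := by
    intro n c
    exact ⟨0, by rintro x ⟨T, rfl⟩; exact WW_nonneg T n c⟩
  have hlim : ∀ (n : Fin (m + 3) → ℕ) (c : Fin (m + 3) → K), 1 ≤ tot n →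
      Filter.Tendsto (fun T => WW T n c) Filter.atTop (nhds (V n c)) := by
    intro n c h
    exact tendsto_atTop_ciInf (WW_anti h) (hbdd n c)
  have hV0 : ∀ (n : Fin (m + 3) → ℕ) (c : Fin (m + 3) → K), 0 ≤ V n c := by
    intro n c
    exact le_ciInf fun T => WW_nonneg T n c
  have hVle : ∀ (n : Fin (m + 3) → ℕ) (c : Fin (m + 3) → K) T, V n c ≤ WW T n c := by
    intro n c T
    exact ciInf_le (hbdd n c) T
  have hharm : ∀ (n : Fin (m + 3) → ℕ) (c : Fin (m + 3) → K), 1 ≤ tot n →
      V n c = ∑ v, (n v : ℝ) / tot n *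
        (if bh (cx n c v) = bh c then V (nx n c v) (cx n c v) else 0) := by
    intro n c h
    have h1 := (hlim n c h).comp (Filter.tendsto_add_atTop_nat 1)
    have h2 : Filter.Tendsto (fun T => WW (T + 1) n c) Filter.atTop
        (nhds (∑ v, (n v : ℝ) / tot n *
        (if bh (cx n c v) = bh c then V (nx n c v) (cx n c v) else 0))) := by
      simp only [WW]
      apply tendsto_finsetSum
      intro v _
      by_cases hv : n v = 0
      · simp [hv]
      · apply Filter.Tendsto.const_mul
        split_ifs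
        · exact hlim _ _ (tot_nx hv)
        · exact tendsto_const_nhds
    exact tendsto_nhds_unique h1 h2
  -- V ≤ s · WW T when V ≤ s everywhere
  have hprop : ∀ (s : ℝ), 0 ≤ s → (∀ (n : Fin (m + 3) → ℕ) (c : Fin (m + 3) → K), bh c = β →
      1 ≤ tot n → V n c ≤ s) → ∀ T (n : Fin (m + 3) → ℕ) (c : Fin (m + 3) → K), bh c = β →
      1 ≤ tot n → V n c ≤ s * WW T n c := by
    intro s hs hall T
    induction T with
    | zero => intro n c hb h; simp only [WW, mul_one]; exact hall n c hb h
    | succ T ih =>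
      intro n c hb h
      rw [hharm n c h]
      simp only [WW]
      rw [Finset.mul_sum]
      apply Finset.sum_le_sum
      intro v _
      by_cases hv : n v = 0
      · simp [hv]
      · rw [← mul_assoc, mul_comm s, mul_assoc]
        apply mul_le_mul_of_nonneg_left _ (by positivity)
        split_ifs with hbv
        · exact ih _ _ (hbv.trans hb) (tot_nx hv)
        · simp
  -- powers
  have hr0 : 0 ≤ r := by
    obtain ⟨T, hT⟩ := hW n c hb h
    exact (WW_nonneg T n c).trans hT
  have hpow : ∀ (j : ℕ) (n : Fin (m + 3) → ℕ) (c : Fin (m + 3) → K), bh c = β → 1 ≤ tot n →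
      V n c ≤ r ^ j := by
    intro j
    induction j with
    | zero =>
      intro n c hb h
      rw [pow_zero]
      exact (hVle n c 0).trans (WW_le_one 0 n c h)
    | succ j ih =>
      intro n c hb h
      obtain ⟨T, hT⟩ := hW n c hb h
      have h1 := hprop (r ^ j) (by positivity) ih T n c hb h
      refine h1.trans ?_
      rw [pow_succ]
      exact mul_le_mul_of_nonneg_left hT (by positivity)
  have hfin : V n c ≤ 0 := by
    have h1 := tendsto_pow_atTop_nhds_zero_of_lt_one hr0 hr1
    exact ge_of_tendsto' h1 fun j => hpow j n c hb h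
  have hzero : V n c = 0 := le_antisymm hfin (hV0 n c)
  rw [← hzero]
  exact hlim n c h

/-- when all edges are bicoloured, the number of balls decreases -/
lemma tot_decr {n : Fin (m + 3) → ℕ} {c : Fin (m + 3) → K} {v : Fin (m + 3)}
    (hb : bh c = m + 3) (hv : n v ≠ 0) (hbv : bh (cx n c v) = bh c) :
    tot (nx n c v) + 2 ≤ tot n := by
  have hfull : ∀ c : Fin (m + 3) → K, bh c = m + 3 → ∀ v, c v ≠ c (v + 1) := by
    intro c hb v hc
    have h1 : bh c ≤ m + 2 := by
      unfold bh
      rw [← Finset.add_sum_erase univ _ (Finset.mem_univ v), if_neg (not_not.2 hc), zero_add]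
      calc _ ≤ ∑ w ∈ univ.erase v, 1 := by
            apply Finset.sum_le_sum; intro w _; split_ifs <;> omega
        _ = m + 2 := by
            rw [Finset.sum_const, Finset.card_erase_of_mem (Finset.mem_univ v)]
            simp
    omega
  have hc := hfull c hb
  have hc' := hfull _ (hbv.trans hb)
  have hne := add_one_ne_sub_one v
  have hn1 : n (v + 1) ≠ 0 := by
    intro h0
    have h1 := hc' v
    apply h1
    rw [cx_self]
    unfold cx
    rw [if_pos ⟨Or.inl rfl, h0⟩]
  have hn2 : n (v - 1) ≠ 0 := by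
    intro h0
    have h1 := hc' (v - 1)
    rw [sub_add_cancel] at h1
    apply h1
    rw [cx_self]
    unfold cx
    rw [if_pos ⟨Or.inr rfl, h0⟩]
  have hx1 : nx n c v (v + 1) = n (v + 1) - 1 := by
    unfold nx
    rw [if_pos (Or.inl rfl), if_neg hn1, if_neg (fun hh => hc v hh.symm)]
  have hx2 : nx n c v (v - 1) = n (v - 1) - 1 := by
    unfold nx
    have := hc (v - 1)
    rw [sub_add_cancel] at this
    rw [if_pos (Or.inr rfl), if_neg hn2, if_neg this]
  have hrest : ∀ w ∈ (univ.erase (v + 1)).erase (v - 1), nx n c v w = n w := by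
    intro w hw
    rw [Finset.mem_erase, Finset.mem_erase] at hw
    unfold nx
    rw [if_neg (fun hh => hh.elim hw.2.1 hw.1)]
  have e0 : ∀ f : Fin (m + 3) → ℕ, tot f = f (v + 1) + (f (v - 1)
      + ∑ w ∈ (univ.erase (v + 1)).erase (v - 1), f w) := by
    intro f
    unfold tot
    rw [← Finset.add_sum_erase univ f (Finset.mem_univ (v + 1)),
      ← Finset.add_sum_erase (univ.erase (v + 1)) f
      (Finset.mem_erase.2 ⟨hne.symm, Finset.mem_univ _⟩)]
  have e3 : ∑ w ∈ (univ.erase (v + 1)).erase (v - 1), nx n c v w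
      = ∑ w ∈ (univ.erase (v + 1)).erase (v - 1), n w := Finset.sum_congr rfl hrest
  have e1 := e0 (nx n c v)
  have e2 := e0 n
  omega

lemma WW_full (T : ℕ) : ∀ (n : Fin (m + 3) → ℕ) (c : Fin (m + 3) → K), bh c = m + 3 →
    tot n ≤ 2 * T → 1 ≤ tot n → WW T n c = 0 := by
  induction T with
  | zero => intro n c _ h1 h2; omega
  | succ T ih =>
    intro n c hb h1 h2
    simp only [WW]
    apply Finset.sum_eq_zero
    intro v _
    by_cases hv : n v = 0
    · simp [hv]
    · split_ifs with hbv
      · rw [ih _ _ (hbv.trans hb) ?_ (tot_nx hv), mul_zero]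
        have := tot_decr hb hv hbv
        omega
      · rw [mul_zero]

/-- **the number of bicoloured edges almost surely drops until it vanishes** -/
theorem WW_tendsto {n : Fin (m + 3) → ℕ} {c : Fin (m + 3) → K} (hb : 2 ≤ bh c)
    (h : 1 ≤ tot n) : Filter.Tendsto (fun T => WW T n c) Filter.atTop (nhds 0) := by
  rcases Nat.even_or_odd (bh c) with hpar | hpar
  · -- even
    obtain ⟨c3, hc3, hav⟩ := avoid_even m
    apply WW_zero_of_bound (bh c) (r := 1 - c3) (by linarith) _ rfl h
    intro n' c' hb' h'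
    obtain ⟨g, hg⟩ := exists_cons (c := c') (τ := 1) (Or.inl rfl)
      (by rw [hb']; exact hpar.neg_one_pow)
    have hnb : nb (fun u => g u * (n' u : ℤ)) = tot n' := by
      unfold nb tot
      apply Finset.sum_congr rfl
      intro v _
      rw [Int.natAbs_mul, Int.natAbs_natCast]
      rcases hg.pm v with h1 | h1 <;> rw [h1] <;> simp
    obtain ⟨T, hT⟩ := hav (fun u => g u * (n' u : ℤ)) (by rw [hnb]; exact h')
    refine ⟨T, ?_⟩
    refine le_trans (WW_le_ex (Or.inl rfl) (by norm_num : (0 : ℝ) ≤ 2) (bh c) Qp ?_ T n' c' g 1 hg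
      hb' h' one_pos) hT
    intro n'' c'' g'' hg'' hb''
    exact cons_Qp hg'' (by omega) n''
  · -- odd
    have hb3 : 3 ≤ bh c := by
      rcases hpar with ⟨j, hj⟩
      omega
    by_cases hm : m = 0
    · subst hm
      have hfull : bh c = 0 + 3 := by
        have h1 : bh c ≤ 3 := by
          unfold bh
          calc _ ≤ ∑ w : Fin (0 + 3), 1 := by
                apply Finset.sum_le_sum; intro w _; split_ifs <;> omega
            _ = 3 := by simp
        omega
      apply tendsto_atTop_of_eventually_const (i₀ := tot n)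
      intro T hT
      exact WW_full T n c hfull (by omega) h
    · obtain ⟨c3, hc3, hav⟩ := avoid_odd m (Nat.pos_of_ne_zero hm)
      apply WW_zero_of_bound (bh c) (r := 1 - c3) (by linarith) _ rfl h
      intro n' c' hb' h'
      obtain ⟨g, hg⟩ := exists_cons (c := c') (τ := -1) (Or.inr rfl)
        (by rw [hb']; exact hpar.neg_one_pow)
      have hnb : nb (fun u => g u * (n' u : ℤ)) = tot n' := by
        unfold nb tot
        apply Finset.sum_congr rfl
        intro v _
        rw [Int.natAbs_mul, Int.natAbs_natCast]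
        rcases hg.pm v with h1 | h1 <;> rw [h1] <;> simp
      obtain ⟨T, hT⟩ := hav (fun u => g u * (n' u : ℤ)) (by rw [hnb]; exact h')
      refine ⟨T, ?_⟩
      have hcos : 0 ≤ Real.cos (Real.pi / (m + 3 : ℕ)) := by
        apply Real.cos_nonneg_of_neg_pi_div_two_le_of_le
        · have : 0 ≤ Real.pi / (m + 3 : ℕ) := by positivity
          have := Real.pi_pos
          linarith
        · apply div_le_div_of_nonneg_left Real.pi_pos.le (by norm_num)
          push_cast
          have : (0 : ℝ) ≤ m := Nat.cast_nonneg m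
          linarith
      refine le_trans (WW_le_ex (Or.inr rfl) (by linarith) (bh c) Qm ?_ T n' c' g 1 hg
        hb' h' one_pos) hT
      intro n'' c'' g'' hg'' hb''
      exact cons_Qm hg'' (by omega) n''

end Pool.Agent.helper98.Urn
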