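import Mathlib
import Pool.Agent.helper98.UrnW
import Pool.Agent.helper98.UrnProc

set_option autoImplicit false
set_option linter.unusedSectionVars false

open MeasureTheory Finset

namespace Pool.Agent.helper98.Urn

variable {m s : ℕ}

/-- the configuration with `n v` balls of colour `c v` at `v` -/
def conf (n : Fin (m + 3) → ℕ) (c : Fin (m + 3) → Fin s) : Config (Fin (m + 3)) s :=
  fun v j => if j = c v then n v else 0

/-- numbers of balls -/
def num (x : Config (Fin (m + 3)) s) : Fin (m + 3) → ℕ := fun v => ∑ j, x v j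

lemma num_conf (n : Fin (m + 3) → ℕ) (c : Fin (m + 3) → Fin s) : num (conf n c) = n := by
  funext v
  unfold num conf
  simp

lemma total_eq (x : Config (Fin (m + 3)) s) : total x = tot (num x) := rfl

lemma total_conf (n : Fin (m + 3) → ℕ) (c : Fin (m + 3) → Fin s) : total (conf n c) = tot n := by
  rw [total_eq, num_conf]

lemma adj_iff (v u : Fin (m + 3)) :
    (SimpleGraph.cycleGraph (m + 3)).Adj v u ↔ (u = v + 1 ∨ u = v - 1) := by
  have h := @SimpleGraph.cycleGraph_adj (m + 1) v u
  have h' : (SimpleGraph.cycleGraph (m + 3)).Adj v u ↔ v - u = 1 ∨ u - v = 1 := h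
  rw [h']
  constructor
  · rintro (h1 | h1)
    · right; rw [← h1]; abel
    · left; rw [← h1]; abel
  · rintro (h1 | h1)
    · right; rw [h1]; abel
    · left; rw [h1]; abel

lemma select_conf (n : Fin (m + 3) → ℕ) (c : Fin (m + 3) → Fin s) (v : Fin (m + 3)) :
    select (SimpleGraph.cycleGraph (m + 3)) (conf n c) v (c v) = conf (nx n c v) (cx n c v) := by
  funext u
  unfold select
  by_cases hu : u = v + 1 ∨ u = v - 1
  · rw [if_pos ((adj_iff v u).2 hu)]
    unfold receive
    by_cases h0 : n u = 0
    · rw [if_neg]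
      · funext j
        have hc : cx n c v u = c v := by unfold cx; rw [if_pos ⟨hu, h0⟩]
        have hn : nx n c v u = 1 := by unfold nx; rw [if_pos hu, if_pos h0]
        unfold conf
        rw [hc, hn]
        by_cases hj : j = c v
        · subst hj
          rw [Function.update_self, if_pos rfl, h0]; simp
        · rw [Function.update_of_ne hj, if_neg hj, h0]; simp
      · rintro ⟨j, hj, hpos⟩
        unfold conf at hpos
        rw [h0] at hpos
        simp at hpos
    · have hc : cx n c v u = c u := by unfold cx; rw [if_neg (fun hh => h0 hh.2)]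
      by_cases hcu : c u = c v
      · have hn : nx n c v u = n u + 1 := by
          unfold nx; rw [if_pos hu, if_neg h0, if_pos hcu]
        rw [if_neg]
        · funext j
          unfold conf
          rw [hc, hn]
          by_cases hj : j = c v
          · subst hj
            rw [Function.update_self, hcu, if_pos rfl, if_pos rfl]
          · rw [Function.update_of_ne hj, hcu, if_neg hj, if_neg hj]
        · rintro ⟨j, hj, hpos⟩
          unfold conf at hpos
          rw [hcu, if_neg hj] at hpos
          exact lt_irrefl _ hpos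
      · have hn : nx n c v u = n u - 1 := by
          unfold nx; rw [if_pos hu, if_neg h0, if_neg hcu]
        rw [if_pos]
        · funext j
          unfold conf
          rw [hc, hn]
          by_cases hj : j = c v
          · subst hj
            rw [if_pos rfl, if_neg (fun hh => hcu hh.symm), if_neg (fun hh => hcu hh.symm)]
          · rw [if_neg hj]
            by_cases hj2 : j = c u
            · rw [if_pos hj2, if_pos hj2]
            · rw [if_neg hj2, if_neg hj2]
        · refine ⟨c u, hcu, ?_⟩
          unfold conf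
          rw [if_pos rfl]
          exact Nat.pos_of_ne_zero h0
  · rw [if_neg (fun hh => hu ((adj_iff v u).1 hh))]
    funext j
    unfold conf
    have hc : cx n c v u = c u := by unfold cx; rw [if_neg (fun hh => hu hh.1)]
    have hn : nx n c v u = n u := by unfold nx; rw [if_neg hu]
    rw [hc, hn]

lemma trans_conf (n : Fin (m + 3) → ℕ) (c : Fin (m + 3) → Fin s) (y : Config (Fin (m + 3)) s) :
    trans (SimpleGraph.cycleGraph (m + 3)) (conf n c) y
      = ∑ v, (n v : ℝ) / tot n * (if conf (nx n c v) (cx n c v) = y then 1 else 0) := by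
  classical
  unfold trans
  apply Finset.sum_congr rfl
  intro v _
  rw [Finset.sum_eq_single (c v)]
  · rw [select_conf, total_conf]
    unfold conf
    rw [if_pos rfl]
  · intro j _ hj
    unfold conf
    rw [if_neg hj]; simp
  · intro hh; exact absurd (Finset.mem_univ _) hh

open Classical in
/-- update of the ghost colours -/
noncomputable def gh (c : Fin (m + 3) → Fin s) (x : Config (Fin (m + 3)) s) :
    Fin (m + 3) → Fin s :=
  fun v => if h : ∃ j, 0 < x v j then h.choose else c v

lemma gh_conf {n : Fin (m + 3) → ℕ} {c c' : Fin (m + 3) → Fin s}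
    (h : ∀ v, n v = 0 → c' v = c v) : gh c (conf n c') = c' := by
  funext v
  unfold gh
  split_ifs with hex
  · have h1 := hex.choose_spec
    by_contra hne
    have h2 : conf n c' v hex.choose = 0 := if_neg hne
    omega
  · by_cases h0 : n v = 0
    · exact (h v h0).symm
    · exfalso
      apply hex
      refine ⟨c' v, ?_⟩
      unfold conf
      rw [if_pos rfl]
      exact Nat.pos_of_ne_zero h0

lemma gh_step (n : Fin (m + 3) → ℕ) (c : Fin (m + 3) → Fin s) (v : Fin (m + 3)) :
    gh c (conf (nx n c v) (cx n c v)) = cx n c v := by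
  apply gh_conf
  intro u hu
  unfold cx
  split_ifs with h
  · exfalso
    unfold nx at hu
    rw [if_pos h.1, if_pos h.2] at hu
    omega
  · rfl

/-- ghost colours along a path -/
noncomputable def ghp (c0 : Fin (m + 3) → Fin s) (y : ℕ → Config (Fin (m + 3)) s) :
    ℕ → (Fin (m + 3) → Fin s)
  | 0 => c0
  | t + 1 => gh (ghp c0 y t) (y (t + 1))

lemma ghp_congr (c0 : Fin (m + 3) → Fin s) {y y' : ℕ → Config (Fin (m + 3)) s} (t : ℕ)
    (h : ∀ i ≤ t, y i = y' i) : ghp c0 y t = ghp c0 y' t := by
  induction t with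
  | zero => rfl
  | succ t ih =>
    simp only [ghp]
    rw [ih (fun i hi => h i (by omega)), h (t + 1) (le_refl _)]

section prob

variable {Ω : Type} [MeasurableSpace Ω] {P : Measure Ω} [IsProbabilityMeasure P]
  {X : ℕ → Ω → Config (Fin (m + 3)) s} {x0 : Config (Fin (m + 3)) s}

/-- the history event -/
def HH (X : ℕ → Ω → Config (Fin (m + 3)) s) (t : ℕ) (y : ℕ → Config (Fin (m + 3)) s) : Set Ω :=
  {ω | ∀ i ≤ t, X i ω = y i}

lemma HH_meas (hX : IsUrnProcess (SimpleGraph.cycleGraph (m + 3)) x0 P X) (t : ℕ)
    (y : ℕ → Config (Fin (m + 3)) s) : MeasurableSet (HH X t y) := by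
  have : HH X t y = ⋂ i ∈ Finset.range (t + 1), {ω | X i ω = y i} := by
    ext ω
    simp only [HH, Set.mem_ofPred_eq, Finset.mem_range, Set.mem_iInter]
    constructor
    · intro h i hi; exact h i (by omega)
    · intro h i hi; exact h i (by omega)
  rw [this]
  exact Finset.measurableSet_biInter _ fun i _ => hX.meas i (y i)

lemma HH_congr (X : ℕ → Ω → Config (Fin (m + 3)) s) (t : ℕ) {y y' : ℕ → Config (Fin (m + 3)) s}
    (h : ∀ i ≤ t, y i = y' i) : HH X t y = HH X t y' := by
  ext ω
  simp only [HH, Set.mem_ofPred_eq]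
  constructor
  · intro h1 i hi; rw [h1 i hi, h i hi]
  · intro h1 i hi; rw [h1 i hi, h i hi]

/-- structure of the histories of positive probability -/
structure Good (c0 : Fin (m + 3) → Fin s) (y : ℕ → Config (Fin (m + 3)) s) (t : ℕ) : Prop where
  eq : y t = conf (num (y t)) (ghp c0 y t)
  pos : 1 ≤ tot (num (y t))

lemma good_zero (hX : IsUrnProcess (SimpleGraph.cycleGraph (m + 3)) x0 P X)
    {c0 : Fin (m + 3) → Fin s} (hx0 : x0 = conf (num x0) c0) (htot : 0 < total x0)
    {y : ℕ → Config (Fin (m + 3)) s} (h : P.real (HH X 0 y) ≠ 0) : Good c0 y 0 := by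
  have h1 : y 0 = x0 := by
    by_contra hne
    apply h
    rw [measureReal_eq_zero_iff]
    have hsub : HH X 0 y ⊆ {ω | ¬ X 0 ω = x0} := by
      intro ω hω
      have := hω 0 (le_refl _)
      simp only [Set.mem_ofPred_eq]
      rw [this]; exact hne
    exact measure_mono_null hsub hX.init
  constructor
  · rw [h1]; exact hx0
  · rw [h1, ← total_eq]; exact htot

lemma good_succ (hX : IsUrnProcess (SimpleGraph.cycleGraph (m + 3)) x0 P X)
    {c0 : Fin (m + 3) → Fin s} {t : ℕ}
    {y : ℕ → Config (Fin (m + 3)) s} (hg : Good c0 y t) (h : P.real (HH X (t + 1) y) ≠ 0) :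
    ∃ v, num (y t) v ≠ 0 ∧ y (t + 1) = conf (nx (num (y t)) (ghp c0 y t) v)
      (cx (num (y t)) (ghp c0 y t) v) := by
  have h1 := hX.markov t y
  have h2 : trans (SimpleGraph.cycleGraph (m + 3)) (y t) (y (t + 1)) ≠ 0 := by
    intro h0
    rw [h0, mul_zero] at h1
    exact h h1
  rw [hg.eq, trans_conf] at h2
  obtain ⟨v, _, hv⟩ := Finset.exists_ne_zero_of_sum_ne_zero h2
  refine ⟨v, ?_, ?_⟩
  · intro h0
    apply hv
    rw [h0]; simp
  · by_contra hne
    apply hv
    rw [if_neg (fun hh => hne hh.symm), mul_zero]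

lemma real_HH_le (X : ℕ → Ω → Config (Fin (m + 3)) s) (t : ℕ) (y : ℕ → Config (Fin (m + 3)) s)
    (h : P.real (HH X (t + 1) y) ≠ 0) : P.real (HH X t y) ≠ 0 := by
  intro h0
  apply h
  have hsub : HH X (t + 1) y ⊆ HH X t y := fun ω hω i hi => hω i (by omega)
  have h1 : P.real (HH X (t + 1) y) ≤ P.real (HH X t y) := measureReal_mono hsub
  have h2 : 0 ≤ P.real (HH X (t + 1) y) := measureReal_nonneg
  linarith

lemma good_all (hX : IsUrnProcess (SimpleGraph.cycleGraph (m + 3)) x0 P X)
    {c0 : Fin (m + 3) → Fin s} (hx0 : x0 = conf (num x0) c0) (htot : 0 < total x0) (t : ℕ)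
    {y : ℕ → Config (Fin (m + 3)) s} (h : P.real (HH X t y) ≠ 0) : Good c0 y t := by
  induction t with
  | zero => exact good_zero hX hx0 htot h
  | succ t ih =>
    have hg := ih (real_HH_le X t y h)
    obtain ⟨v, hv, hy⟩ := good_succ hX hg h
    have hgh : ghp c0 y (t + 1) = cx (num (y t)) (ghp c0 y t) v := by
      simp only [ghp]
      rw [hy, gh_step]
    constructor
    · rw [hgh, hy, num_conf]
    · rw [hy, num_conf]
      exact tot_nx hv

/-- the event that the number of bicoloured edges is constant during `T` steps -/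
def AA (X : ℕ → Ω → Config (Fin (m + 3)) s) (c0 : Fin (m + 3) → Fin s) (t T β : ℕ) : Set Ω :=
  {ω | ∀ i ≤ T, bh (ghp c0 (fun j => X j ω) (t + i)) = β}

open Classical in
/-- possible successors -/
noncomputable def succs (n : Fin (m + 3) → ℕ) (c : Fin (m + 3) → Fin s) :
    Finset (Config (Fin (m + 3)) s) :=
  Finset.univ.image fun v => conf (nx n c v) (cx n c v)

lemma sum_succs (n : Fin (m + 3) → ℕ) (c : Fin (m + 3) → Fin s)
    (φ : Config (Fin (m + 3)) s → ℝ) :
    ∑ x ∈ succs n c, trans (SimpleGraph.cycleGraph (m + 3)) (conf n c) x * φ x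
      = ∑ v, (n v : ℝ) / tot n * φ (conf (nx n c v) (cx n c v)) := by
  classical
  simp only [trans_conf, Finset.sum_mul]
  rw [Finset.sum_comm]
  apply Finset.sum_congr rfl
  intro v _
  rw [Finset.sum_eq_single (conf (nx n c v) (cx n c v))]
  · rw [if_pos rfl, mul_one]
  · intro x _ hx
    rw [if_neg hx.symm]; simp
  · intro hh
    exact absurd (Finset.mem_image_of_mem _ (Finset.mem_univ v)) hh

lemma extend_HH (X : ℕ → Ω → Config (Fin (m + 3)) s) (t : ℕ) (y : ℕ → Config (Fin (m + 3)) s)
    (x : Config (Fin (m + 3)) s) :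
    HH X (t + 1) (Function.update y (t + 1) x) = HH X t y ∩ {ω | X (t + 1) ω = x} := by
  ext ω
  simp only [HH, Set.mem_ofPred_eq, Set.mem_inter_iff]
  constructor
  · intro h
    constructor
    · intro i hi
      have := h i (by omega)
      rw [Function.update_of_ne (by omega)] at this
      exact this
    · have := h (t + 1) (le_refl _)
      rw [Function.update_self] at this
      exact this
  · rintro ⟨h1, h2⟩ i hi
    by_cases h3 : i = t + 1
    · subst h3; rw [Function.update_self]; exact h2
    · rw [Function.update_of_ne h3]; exact h1 i (by omega)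

lemma real_extend (hX : IsUrnProcess (SimpleGraph.cycleGraph (m + 3)) x0 P X) (t : ℕ)
    (y : ℕ → Config (Fin (m + 3)) s) (x : Config (Fin (m + 3)) s) :
    P.real (HH X t y ∩ {ω | X (t + 1) ω = x})
      = P.real (HH X t y) * trans (SimpleGraph.cycleGraph (m + 3)) (y t) x := by
  rw [← extend_HH]
  have h := hX.markov t (Function.update y (t + 1) x)
  rw [Function.update_self, Function.update_of_ne (by omega)] at h
  have e : HH X t (Function.update y (t + 1) x) = HH X t y := by
    apply HH_congr
    intro i hi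
    rw [Function.update_of_ne (by omega)]
  have e2 : P.real (HH X (t + 1) (Function.update y (t + 1) x))
      = P.real (HH X t (Function.update y (t + 1) x))
        * trans (SimpleGraph.cycleGraph (m + 3)) (y t) x := h
  rw [e2, e]

lemma bad_succ_null (hX : IsUrnProcess (SimpleGraph.cycleGraph (m + 3)) x0 P X)
    {c0 : Fin (m + 3) → Fin s} {t : ℕ} {y : ℕ → Config (Fin (m + 3)) s} (hg : Good c0 y t) :
    P.real (HH X t y ∩ {ω | X (t + 1) ω ∉ succs (num (y t)) (ghp c0 y t)}) = 0 := by
  set S := succs (num (y t)) (ghp c0 y t) with hS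
  set U : Set Ω := ⋃ x ∈ S, {ω | X (t + 1) ω = x} with hU
  have hUm : MeasurableSet U := Finset.measurableSet_biUnion _ fun x _ => hX.meas _ x
  have h1 : P.real (HH X t y ∩ U) + P.real (HH X t y \ U) = P.real (HH X t y) :=
    measureReal_inter_add_sdiff hUm
  have h2 : HH X t y ∩ U = ⋃ x ∈ S, (HH X t y ∩ {ω | X (t + 1) ω = x}) := by
    rw [hU, Set.inter_iUnion₂]
  have h3 : P.real (HH X t y ∩ U) = P.real (HH X t y) := by
    rw [h2, measureReal_biUnion_finset]
    · have h4 : ∀ x ∈ S, P.real (HH X t y ∩ {ω | X (t + 1) ω = x})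
          = P.real (HH X t y) * (trans (SimpleGraph.cycleGraph (m + 3))
            (conf (num (y t)) (ghp c0 y t)) x * 1) := by
        intro x _
        rw [real_extend hX, ← hg.eq, mul_one]
      rw [Finset.sum_congr rfl h4, ← Finset.mul_sum, hS, sum_succs]
      simp only [mul_one]
      rw [sum_w hg.pos, mul_one]
    · intro a _ b _ hab
      rw [Function.onFun, Set.disjoint_left]
      rintro ω ⟨_, h5⟩ ⟨_, h6⟩
      exact hab (h5.symm.trans h6)
    · intro x _
      exact (HH_meas hX t y).inter (hX.meas _ x)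
  have h5 : HH X t y ∩ {ω | X (t + 1) ω ∉ S} = HH X t y \ U := by
    ext ω
    simp only [hU, Set.mem_inter_iff, Set.mem_sdiff, Set.mem_iUnion, Set.mem_ofPred_eq,
      exists_prop]
    constructor
    · rintro ⟨h6, h7⟩
      refine ⟨h6, ?_⟩
      rintro ⟨x, hx, h8⟩
      rw [h8] at h7; exact h7 hx
    · rintro ⟨h6, h7⟩
      exact ⟨h6, fun h8 => h7 ⟨_, h8, rfl⟩⟩
  rw [h5]
  linarith

lemma iterate (hX : IsUrnProcess (SimpleGraph.cycleGraph (m + 3)) x0 P X)
    {c0 : Fin (m + 3) → Fin s} (hx0 : x0 = conf (num x0) c0) (htot : 0 < total x0) (T : ℕ) :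
    ∀ (t : ℕ) (y : ℕ → Config (Fin (m + 3)) s), Good c0 y t →
      P.real (HH X t y ∩ AA X c0 t T (bh (ghp c0 y t)))
        ≤ P.real (HH X t y) * WW T (num (y t)) (ghp c0 y t) := by
  classical
  induction T with
  | zero =>
    intro t y hg
    simp only [WW, mul_one]
    exact measureReal_mono Set.inter_subset_left
  | succ T ih =>
    intro t y hg
    set n := num (y t) with hn
    set c := ghp c0 y t with hc
    set S := succs n c with hS
    set φ : Config (Fin (m + 3)) s → ℝ := fun x =>
      if bh (gh c x) = bh c then WW T (num x) (gh c x) else 0 with hφ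
    set E : Config (Fin (m + 3)) s → Set Ω := fun x =>
      HH X t y ∩ {ω | X (t + 1) ω = x} ∩ AA X c0 t (T + 1) (bh c) with hE
    -- cover
    have hcover : HH X t y ∩ AA X c0 t (T + 1) (bh c)
        ⊆ (HH X t y ∩ {ω | X (t + 1) ω ∉ S}) ∪ ⋃ x ∈ S, E x := by
      rintro ω ⟨h1, h2⟩
      by_cases h3 : X (t + 1) ω ∈ S
      · right
        rw [Set.mem_iUnion₂]
        exact ⟨X (t + 1) ω, h3, ⟨h1, rfl⟩, h2⟩
      · left; exact ⟨h1, h3⟩
    -- each piece
    have hpiece : ∀ x ∈ S, P.real (E x) ≤ P.real (HH X t y) *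
        (trans (SimpleGraph.cycleGraph (m + 3)) (conf n c) x * φ x) := by
      intro x hx
      set y' := Function.update y (t + 1) x with hy'
      have hyx : y' (t + 1) = x := by rw [hy', Function.update_self]
      have hghy : ghp c0 y' t = c := by
        rw [hc]
        apply ghp_congr
        intro i hi
        rw [hy', Function.update_of_ne (by omega)]
      have hgh' : ghp c0 y' (t + 1) = gh c x := by
        simp only [ghp]
        rw [hghy, hyx]
      have hHH : HH X t y ∩ {ω | X (t + 1) ω = x} = HH X (t + 1) y' := (extend_HH X t y x).symm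
      have hreal : P.real (HH X (t + 1) y')
          = P.real (HH X t y) * trans (SimpleGraph.cycleGraph (m + 3)) (conf n c) x := by
        rw [← hHH, real_extend hX, ← hg.eq]
      have hwpath : ∀ ω ∈ HH X (t + 1) y', ghp c0 (fun j => X j ω) (t + 1) = gh c x := by
        intro ω hω
        rw [← hgh']
        apply ghp_congr
        intro i hi
        exact hω i hi
      by_cases hb : bh (gh c x) = bh c
      · have hφx : φ x = WW T (num x) (gh c x) := by rw [hφ]; simp only; rw [if_pos hb]
        rw [hφx, ← mul_assoc, ← hreal]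
        by_cases hz : P.real (HH X (t + 1) y') = 0
        · rw [hz, zero_mul]
          have : P.real (E x) ≤ P.real (HH X (t + 1) y') := by
            refine measureReal_mono ?_ (measure_ne_top _ _)
            rw [hE]; simp only; rw [hHH]
            exact Set.inter_subset_left
          linarith
        · have hg' := good_all hX hx0 htot (t + 1) hz
          have h1 := ih (t + 1) y' hg'
          rw [hgh', hyx] at h1
          refine le_trans ?_ h1
          refine measureReal_mono ?_ (measure_ne_top _ _)
          rintro ω ⟨h2, h3⟩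
          rw [hHH] at h2
          refine ⟨h2, ?_⟩
          intro i hi
          have h4 := h3 (i + 1) (by omega)
          have e : t + (i + 1) = t + 1 + i := by ring
          rw [e] at h4
          rw [h4, hb]
      · have hempty : E x = ∅ := by
          rw [Set.eq_empty_iff_forall_notMem]
          rintro ω ⟨h2, h3⟩
          rw [hHH] at h2
          apply hb
          have h4 := h3 1 (by omega)
          rw [hwpath ω h2] at h4
          exact h4
        have hφx : φ x = 0 := by rw [hφ]; simp only; rw [if_neg hb]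
        rw [hempty, hφx]; simp
    calc P.real (HH X t y ∩ AA X c0 t (T + 1) (bh c))
        ≤ P.real ((HH X t y ∩ {ω | X (t + 1) ω ∉ S}) ∪ ⋃ x ∈ S, E x) :=
          measureReal_mono hcover
      _ ≤ P.real (HH X t y ∩ {ω | X (t + 1) ω ∉ S}) + P.real (⋃ x ∈ S, E x) :=
          measureReal_union_le _ _
      _ ≤ 0 + ∑ x ∈ S, P.real (E x) := by
          apply add_le_add
          · exact (bad_succ_null hX hg).le
          · exact measureReal_biUnion_finset_le _ _
      _ ≤ 0 + ∑ x ∈ S, P.real (HH X t y) *
        (trans (SimpleGraph.cycleGraph (m + 3)) (conf n c) x * φ x) := by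
          gcongr with x hx
          exact hpiece x hx
      _ = P.real (HH X t y) * WW (T + 1) n c := by
          rw [zero_add, ← Finset.mul_sum, hS, sum_succs]
          congr 1
          simp only [WW]
          apply Finset.sum_congr rfl
          intro v _
          rw [hφ]
          simp only
          rw [gh_step, num_conf]

lemma const_null (hX : IsUrnProcess (SimpleGraph.cycleGraph (m + 3)) x0 P X)
    {c0 : Fin (m + 3) → Fin s} (hx0 : x0 = conf (num x0) c0) (htot : 0 < total x0) (t : ℕ)
    (y : ℕ → Config (Fin (m + 3)) s) (hb : 2 ≤ bh (ghp c0 y t)) :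
    P (HH X t y ∩ {ω | ∀ i, bh (ghp c0 (fun j => X j ω) (t + i)) = bh (ghp c0 y t)}) = 0 := by
  set B : Set Ω := {ω | ∀ i, bh (ghp c0 (fun j => X j ω) (t + i)) = bh (ghp c0 y t)} with hB
  by_cases hz : P.real (HH X t y) = 0
  · have h1 := (measureReal_eq_zero_iff (measure_ne_top P _)).1 hz
    exact measure_mono_null Set.inter_subset_left h1
  · have hg := good_all hX hx0 htot t hz
    have hle : ∀ T, P.real (HH X t y ∩ B) ≤ P.real (HH X t y) * WW T (num (y t)) (ghp c0 y t) := by
      intro T
      refine le_trans ?_ (iterate hX hx0 htot T t y hg)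
      refine measureReal_mono ?_ (measure_ne_top _ _)
      rintro ω ⟨h1, h2⟩
      exact ⟨h1, fun i _ => h2 i⟩
    have hlim : Filter.Tendsto (fun T => P.real (HH X t y) * WW T (num (y t)) (ghp c0 y t))
        Filter.atTop (nhds (P.real (HH X t y) * 0)) :=
      (WW_tendsto hb hg.pos).const_mul _
    rw [mul_zero] at hlim
    have h1 : P.real (HH X t y ∩ B) ≤ 0 := ge_of_tendsto' hlim hle
    have h2 : P.real (HH X t y ∩ B) = 0 := le_antisymm h1 measureReal_nonneg
    exact (measureReal_eq_zero_iff (measure_ne_top P _)).1 h2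

/-- extension of a finite history -/
def extend (x0 : Config (Fin (m + 3)) s) (t : ℕ) (z : Fin (t + 1) → Config (Fin (m + 3)) s) :
    ℕ → Config (Fin (m + 3)) s := fun i => if h : i < t + 1 then z ⟨i, h⟩ else x0

lemma extend_eq (x0 : Config (Fin (m + 3)) s) (t : ℕ) (Y : ℕ → Config (Fin (m + 3)) s) :
    ∀ i ≤ t, extend x0 t (fun j => Y j) i = Y i := by
  intro i hi
  unfold extend
  rw [dif_pos (by omega)]

lemma const_of_bh_zero {c : Fin (m + 3) → Fin s} (h : bh c = 0) : ∀ v, c v = c 0 := by
  have h1 : ∀ v, c v = c (v + 1) := by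
    intro v
    by_contra hne
    have h2 : 1 ≤ bh c := by
      unfold bh
      calc 1 = (if c v ≠ c (v + 1) then 1 else 0) := by rw [if_pos hne]
        _ ≤ _ := Finset.single_le_sum (f := fun v => if c v ≠ c (v + 1) then 1 else 0)
            (fun _ _ => Nat.zero_le _) (Finset.mem_univ v)
    omega
  intro v
  induction v using Fin.induction with
  | zero => rfl
  | succ i ih =>
    rw [← ih]
    have h2 := h1 i.castSucc
    have e : i.castSucc + 1 = i.succ := Fin.coeSucc_eq_succ
    rw [e] at h2
    exact h2.symm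

theorem cycle_no_coexistence (m s : ℕ) :
    NoCoexistence s (SimpleGraph.cycleGraph (m + 3)) := by
  classical
  intro x0 hmono htot Ω _ P _ X hX
  -- initial ghost colours
  have hex : ∃ v0 : Fin (m + 3), ∃ j0 : Fin s, 0 < x0 v0 j0 := by
    by_contra hcon
    push Not at hcon
    have : total x0 = 0 := by
      unfold total
      apply Finset.sum_eq_zero
      intro v _
      apply Finset.sum_eq_zero
      intro j _
      have := hcon v j
      omega
    omega
  obtain ⟨v0, j0, hv0⟩ := hex
  set c0 : Fin (m + 3) → Fin s := gh (fun _ => j0) x0 with hc0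
  have hx0 : x0 = conf (num x0) c0 := by
    funext v j
    unfold conf
    by_cases hpos : ∃ j, 0 < x0 v j
    · have hc : c0 v = hpos.choose := by
        rw [hc0]; unfold gh; rw [dif_pos hpos]
      have hsp := hpos.choose_spec
      rw [← hc] at hsp
      have hother : ∀ i, i ≠ c0 v → x0 v i = 0 := by
        intro i hi
        by_contra hne
        exact hi (hmono v i (c0 v) (Nat.pos_of_ne_zero hne) hsp)
      by_cases hj : j = c0 v
      · rw [if_pos hj, hj]
        unfold num
        rw [Finset.sum_eq_single (c0 v)]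
        · intro i _ hi; exact hother i hi
        · intro hh; exact absurd (Finset.mem_univ _) hh
      · rw [if_neg hj]; exact hother j hj
    · push Not at hpos
      have h0 : ∀ i, x0 v i = 0 := fun i => Nat.le_zero.1 (hpos i)
      have h1 : num x0 v = 0 := by
        unfold num
        exact Finset.sum_eq_zero fun i _ => h0 i
      rw [h0 j, h1]; simp
  -- almost sure properties
  have hA1 : ∀ᵐ ω ∂P, ∀ t, P.real (HH X t (fun i => X i ω)) ≠ 0 := by
    have h1 : ∀ᵐ ω ∂P, ∀ t, ∀ z : Fin (t + 1) → Config (Fin (m + 3)) s,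
        ¬ (P.real (HH X t (extend x0 t z)) = 0 ∧ ω ∈ HH X t (extend x0 t z)) := by
      rw [ae_all_iff]
      intro t
      rw [ae_all_iff]
      intro z
      by_cases hz : P.real (HH X t (extend x0 t z)) = 0
      · have h2 := (measureReal_eq_zero_iff (measure_ne_top P _)).1 hz
        have h3 : ∀ᵐ ω ∂P, ω ∉ HH X t (extend x0 t z) := measure_eq_zero_iff_ae_notMem.1 h2
        filter_upwards [h3] with ω hω hh
        exact hω hh.2
      · filter_upwards with ω hh
        exact hz hh.1
    filter_upwards [h1] with ω hω t h0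
    apply hω t (fun j => X j ω)
    have e : HH X t (extend x0 t (fun j => X j ω)) = HH X t (fun i => X i ω) :=
      HH_congr X t (extend_eq x0 t (fun i => X i ω))
    rw [e]
    exact ⟨h0, fun i _ => rfl⟩
  have hA2 : ∀ᵐ ω ∂P, ∀ t, 2 ≤ bh (ghp c0 (fun i => X i ω) t) →
      ¬ ∀ i, bh (ghp c0 (fun j => X j ω) (t + i)) = bh (ghp c0 (fun i => X i ω) t) := by
    have h1 : ∀ᵐ ω ∂P, ∀ t, ∀ z : Fin (t + 1) → Config (Fin (m + 3)) s,
        2 ≤ bh (ghp c0 (extend x0 t z) t) → ω ∉ HH X t (extend x0 t z) ∩
          {ω | ∀ i, bh (ghp c0 (fun j => X j ω) (t + i)) = bh (ghp c0 (extend x0 t z) t)} := by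
      rw [ae_all_iff]
      intro t
      rw [ae_all_iff]
      intro z
      by_cases hb : 2 ≤ bh (ghp c0 (extend x0 t z) t)
      · have h2 := const_null hX hx0 htot t (extend x0 t z) hb
        have h3 := measure_eq_zero_iff_ae_notMem.1 h2
        filter_upwards [h3] with ω hω _
        exact hω
      · filter_upwards with ω hh
        exact absurd hh hb
    filter_upwards [h1] with ω hω t hb hconst
    have e1 := extend_eq x0 t (fun i => X i ω)
    have e2 : ghp c0 (extend x0 t (fun j => X j ω)) t = ghp c0 (fun i => X i ω) t :=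
      ghp_congr c0 t e1
    apply hω t (fun j => X j ω)
    · rw [e2]; exact hb
    · refine ⟨fun i hi => (e1 i hi).symm, ?_⟩
      simp only [Set.mem_ofPred_eq]
      rw [e2]; exact hconst
  filter_upwards [hA1, hA2] with ω h1 h2
  set Y : ℕ → Config (Fin (m + 3)) s := fun i => X i ω with hY
  have hgood : ∀ t, Good c0 Y t := fun t => good_all hX hx0 htot t (h1 t)
  have hstep : ∀ t, ∃ v, num (Y t) v ≠ 0 ∧ ghp c0 Y (t + 1) = cx (num (Y t)) (ghp c0 Y t) v := by
    intro t
    obtain ⟨v, hv, hy⟩ := good_succ hX (hgood t) (h1 (t + 1))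
    refine ⟨v, hv, ?_⟩
    simp only [ghp]
    rw [hy, gh_step]
  have hanti : ∀ t, bh (ghp c0 Y (t + 1)) ≤ bh (ghp c0 Y t) := by
    intro t
    obtain ⟨v, _, hv⟩ := hstep t
    rw [hv]
    exact bh_cx_le _ _ _
  have hanti' : Antitone fun t => bh (ghp c0 Y t) := antitone_nat_of_succ_le hanti
  -- the number of bicoloured edges stabilises
  obtain ⟨t0, ht0⟩ : ∃ t0, ∀ i, bh (ghp c0 Y (t0 + i)) = bh (ghp c0 Y t0) := by
    classical
    have hex : ∃ b, ∃ t, bh (ghp c0 Y t) = b := ⟨_, 0, rfl⟩
    obtain ⟨t0, ht0⟩ := Nat.find_spec hex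
    refine ⟨t0, fun i => ?_⟩
    refine le_antisymm (hanti' (by omega)) ?_
    show bh (ghp c0 Y t0) ≤ bh (ghp c0 Y (t0 + i))
    rw [ht0]
    exact Nat.find_min' hex ⟨t0 + i, rfl⟩
  have hb0 : bh (ghp c0 Y t0) = 0 := by
    by_contra hne
    have h3 := bh_ne_one (ghp c0 Y t0)
    exact h2 t0 (by omega) ht0
  have hb : ∀ t, t0 ≤ t → bh (ghp c0 Y t) = 0 := by
    intro t ht
    have := hanti' ht
    simp only at this
    omega
  set a : Fin s := ghp c0 Y t0 0 with ha
  have hcol : ∀ t, t0 ≤ t → ∀ v, ghp c0 Y t v = a := by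
    intro t ht
    induction t, ht using Nat.le_induction with
    | base => exact const_of_bh_zero (hb t0 (le_refl _))
    | succ t ht ih =>
      obtain ⟨v, _, hv⟩ := hstep t
      have h3 := const_of_bh_zero (hb (t + 1) (by omega))
      have h4 : ghp c0 Y (t + 1) v = a := by
        rw [hv, cx_self, ih v]
      intro u
      rw [h3 u, ← h3 v, h4]
  have hval : ∀ t, t0 ≤ t → ∀ v j, X t ω v j = if j = a then num (Y t) v else 0 := by
    intro t ht v j
    have h3 := (hgood t).eq
    have h4 : Y t v j = conf (num (Y t)) (ghp c0 Y t) v j := by rw [← h3]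
    rw [show X t ω v j = Y t v j from rfl, h4]
    unfold conf
    rw [hcol t ht v]
  refine ⟨a, ?_, ?_⟩
  · intro T
    refine ⟨max T t0, le_max_left _ _, ?_⟩
    have h3 := (hgood (max T t0)).pos
    have h4 : ∃ v, num (Y (max T t0)) v ≠ 0 := by
      by_contra hcon
      push Not at hcon
      have : tot (num (Y (max T t0))) = 0 := by
        unfold tot
        exact Finset.sum_eq_zero fun v _ => hcon v
      omega
    obtain ⟨v, hv⟩ := h4
    refine ⟨v, ?_⟩
    rw [hval _ (le_max_right _ _), if_pos rfl]
    exact Nat.pos_of_ne_zero hv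
  · intro b hbs
    obtain ⟨t, ht, v, hv⟩ := hbs t0
    rw [hval t ht] at hv
    by_contra hne
    rw [if_neg hne] at hv
    exact lt_irrefl _ hv

end prob

end Pool.Agent.helper98.Urn
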